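import Pool.Agent.Lib.MP_1a91b9_ntH.D.Exp
import Pool.Agent.Lib.MP_1a91b9_ntH.D.Fam

/-!
# MP_1a91b9_nt (quartic twists), part D: definitions of the abstract engine

`ι` is a countable set of primes with norms (`PS ι`, `nm`, `Sx`, `pr`, `Cheb`, `Zt`, `CharB` and the
families `PD`, `uni`, `nmf`, `Fam`, `FamU`, `Box`, `BoxZ`, `BoxS`, `SmB` of the quadratic case). The
symbols have values in `ZMod 2` and are symmetric; `κ` is the set of the class characters.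
-/

set_option autoImplicit false

namespace Pool.Agent.Lib.MP_1a91b9_ntQ

open Finset Pool.Agent.Lib.MP_1a91b9_ntH

noncomputable section

/-- The symbols and the class characters. -/
structure Dat2 (ι κ : Type) where
  s : ι → ι → ZMod 2
  a : ι → κ → ZMod 2

section Sys

variable {ι : Type} [DecidableEq ι] {κ : Type} [Fintype κ]

/-- The symbol of two squarefree integers. -/
def Dat2.ss (D : Dat2 ι κ) (S T : Finset ι) : ZMod 2 := ∑ q ∈ S, ∑ p ∈ T, D.s q p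

/-- Reciprocity. -/
def Dat2.Sym (D : Dat2 ι κ) : Prop := ∀ p q, p ≠ q → D.s p q = D.s q p

/-- The exponent of the quadratic character `ch T c`. -/
def Dat2.ex1 (D : Dat2 ι κ) (T : Finset ι) (c : κ → ZMod 2) (q : ι) : ZMod 2 :=
  ∑ j, c j * D.a q j + ∑ p ∈ T, D.s q p

/-- The quadratic character attached to the squarefree integer `T` and `c`. -/
def Dat2.ch (D : Dat2 ι κ) (T : Finset ι) (c : κ → ZMod 2) (q : ι) : ℝ :=
  if q ∈ T then 0 else sg (D.ex1 T c q)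

/-- The nontrivial quadratic characters have bounded Euler products. -/
def Dat2.CB (D : Dat2 ι κ) [PS ι] (C : ℝ) : Prop :=
  ∀ (T : Finset ι) (c : κ → ZMod 2), (T ≠ ∅ ∨ c ≠ 0) →
    CharB (D.ch T c) (C * (1 + Real.log (nm T)))

open Classical in
/-- The mean value of the multiplicative function `h` on squarefree integers prime to `B` is zero. -/
def Mz [PS ι] (B : Finset ι) (h : ι → ℂ) : Prop :=
  ∀ ε : ℝ, 0 < ε → ∃ X₀ : ℕ, ∀ X : ℕ, X₀ ≤ X →
    ‖∑ S ∈ (Sx ι X).filter (fun S => Disjoint S B), ∏ q ∈ S, h q‖ ≤ ε * X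

/-- The bilinear bound, with the constants `C`, `K` and the saving `c`. -/
def Dat2.BL (D : Dat2 ι κ) [PS ι] (C : ℝ) (K : ℕ) (c : ℝ) : Prop :=
  ∀ (A B : Finset ι → ℝ) (X : ℕ) (V : ℝ), (∀ S, |A S| ≤ 1) → (∀ S, |B S| ≤ 1) → 1 ≤ V → 2 ≤ X →
    |∑ S ∈ Sx ι X, ∑ T ∈ Sx ι X, if nm S * nm T ≤ X ∧ V < nm S ∧ V < nm T ∧ Disjoint S T then
        A S * B T * sg (D.ss S T) else 0| ≤
      C * X * (1 + Real.log X) ^ K * V ^ (-c)

/-- All the hypotheses on the system (without the mean values). -/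
structure Dat2.OK (D : Dat2 ι κ) [PS ι] : Prop where
  sym : D.Sym
  cheb : ∃ C, Cheb ι C
  zt : ∃ C, Zt ι C
  cb : ∃ C, D.CB C
  bl : ∃ C K c, 0 < c ∧ D.BL C K c

/-- The exponent of the character `cht T t c`. -/
def Dat2.ex (D : Dat2 ι κ) (T : Finset ι) (t : ι → ZMod 2) (c : κ → ZMod 2) (q : ι) : ZMod 2 :=
  ∑ j, c j * D.a q j + ∑ p ∈ T, t p * D.s q p

/-- The quadratic character attached to `∏ p ^ (t p)` and `c`. -/
def Dat2.cht (D : Dat2 ι κ) (T : Finset ι) (t : ι → ZMod 2) (c : κ → ZMod 2) (q : ι) : ℝ :=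
  if q ∈ T then 0 else sg (D.ex T t c q)

omit [DecidableEq ι] in
theorem Dat2.ex_eq (D : Dat2 ι κ) (T : Finset ι) (t : ι → ZMod 2) (c : κ → ZMod 2)
    (ht : ∀ p ∈ T, t p ≠ 0) (q : ι) : D.ex T t c q = D.ex1 T c q := by
  have h : ∀ x : ZMod 2, x ≠ 0 → x = 1 := by decide
  unfold Dat2.ex Dat2.ex1
  congr 1
  refine sum_congr rfl fun p hp => ?_
  rw [h _ (ht p hp), one_mul]

theorem Dat2.cht_eq (D : Dat2 ι κ) (T : Finset ι) (t : ι → ZMod 2) (c : κ → ZMod 2)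
    (ht : ∀ p ∈ T, t p ≠ 0) : D.cht T t c = D.ch T c := by
  funext q
  unfold Dat2.cht Dat2.ch
  rw [D.ex_eq T t c ht q]

theorem Dat2.OK.cbt {D : Dat2 ι κ} [PS ι] (h : D.OK) : ∃ C, ∀ (T : Finset ι) (t : ι → ZMod 2)
    (c : κ → ZMod 2), (∀ p ∈ T, t p ≠ 0) → (T ≠ ∅ ∨ c ≠ 0) →
    CharB (fun q => D.cht T t c q) (C * (1 + Real.log (nm T))) := by
  obtain ⟨C, hC⟩ := h.cb
  refine ⟨C, fun T t c ht h0 => ?_⟩
  have h1 := hC T c h0
  rw [← D.cht_eq T t c ht] at h1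
  exact h1

/-- The sign as a complex number. -/
def e2 (x : ZMod 2) : ℂ := ((sg x : ℝ) : ℂ)

/-- The bilinear bound with complex coefficients. -/
def Dat2.BLc (D : Dat2 ι κ) [PS ι] (C : ℝ) (K : ℕ) (c : ℝ) : Prop :=
  ∀ (A B : Finset ι → ℂ) (X : ℕ) (V : ℝ), (∀ S, ‖A S‖ ≤ 1) → (∀ S, ‖B S‖ ≤ 1) → 1 ≤ V → 2 ≤ X →
    ‖∑ S ∈ Sx ι X, ∑ T ∈ Sx ι X, if nm S * nm T ≤ X ∧ V < nm S ∧ V < nm T ∧ Disjoint S T then
        A S * B T * e2 (D.ss S T) else 0‖ ≤
      C * X * (1 + Real.log X) ^ K * V ^ (-c)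

omit [Fintype κ] in
theorem Dat2.BL.cx {D : Dat2 ι κ} [PS ι] {C : ℝ} {K : ℕ} {c : ℝ} (h : D.BL C K c) :
    D.BLc (4 * C) K c := by
  intro A B X V hA hB hV hX
  have key : ∀ (P : Prop) [Decidable P] (x y : ℂ) (s : ZMod 2),
      (if P then x * y * e2 s else 0) =
        ((((if P then x.re * y.re * sg s else 0) : ℝ) : ℂ) -
          (((if P then x.im * y.im * sg s else 0) : ℝ) : ℂ)) +
        Complex.I * ((((if P then x.re * y.im * sg s else 0) : ℝ) : ℂ) +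
          (((if P then x.im * y.re * sg s else 0) : ℝ) : ℂ)) := by
    intro P _ x y s
    split_ifs
    · unfold e2
      apply Complex.ext
      · simp [Complex.mul_re, Complex.mul_im]
        ring
      · simp [Complex.mul_re, Complex.mul_im]
        ring
    · simp
  have hre : ∀ (Z : Finset ι → ℂ), (∀ S, ‖Z S‖ ≤ 1) → ∀ S, |(Z S).re| ≤ 1 := fun Z hZ S =>
    (Complex.abs_re_le_norm _).trans (hZ S)
  have him : ∀ (Z : Finset ι → ℂ), (∀ S, ‖Z S‖ ≤ 1) → ∀ S, |(Z S).im| ≤ 1 := fun Z hZ S =>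
    (Complex.abs_im_le_norm _).trans (hZ S)
  have h1 := h (fun S => (A S).re) (fun S => (B S).re) X V (hre A hA) (hre B hB) hV hX
  have h2 := h (fun S => (A S).im) (fun S => (B S).im) X V (him A hA) (him B hB) hV hX
  have h3 := h (fun S => (A S).re) (fun S => (B S).im) X V (hre A hA) (him B hB) hV hX
  have h4 := h (fun S => (A S).im) (fun S => (B S).re) X V (him A hA) (hre B hB) hV hX
  simp only [key, sum_add_distrib, sum_sub_distrib, ← mul_sum, ← Complex.ofReal_sum]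
  refine (norm_add_le _ _).trans ?_
  have h5 := norm_sub_le
    (((∑ S ∈ Sx ι X, ∑ T ∈ Sx ι X, if nm S * nm T ≤ X ∧ V < nm S ∧ V < nm T ∧ Disjoint S T then
        (A S).re * (B T).re * sg (D.ss S T) else 0 : ℝ) : ℂ))
    (((∑ S ∈ Sx ι X, ∑ T ∈ Sx ι X, if nm S * nm T ≤ X ∧ V < nm S ∧ V < nm T ∧ Disjoint S T then
        (A S).im * (B T).im * sg (D.ss S T) else 0 : ℝ) : ℂ))
  have h6 := norm_add_le
    (((∑ S ∈ Sx ι X, ∑ T ∈ Sx ι X, if nm S * nm T ≤ X ∧ V < nm S ∧ V < nm T ∧ Disjoint S T then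
        (A S).re * (B T).im * sg (D.ss S T) else 0 : ℝ) : ℂ))
    (((∑ S ∈ Sx ι X, ∑ T ∈ Sx ι X, if nm S * nm T ≤ X ∧ V < nm S ∧ V < nm T ∧ Disjoint S T then
        (A S).im * (B T).re * sg (D.ss S T) else 0 : ℝ) : ℂ))
  simp only [Complex.norm_real, Real.norm_eq_abs] at h5 h6
  rw [norm_mul, Complex.norm_I, one_mul]
  linarith

/-- A label system: `Phi l m` is the exponent of the symbol `(d_l / d_m)`, `c l` and `t l` give the
linear term, which uses the symbols at the fixed primes in `B`; `m` is the size of the maximal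
unlinked sets. -/
structure LS2 (L ι κ : Type) where
  Phi : L → L → ZMod 2
  c : L → κ → ZMod 2
  t : L → ι → ZMod 2
  B : Finset ι
  m : ℕ

variable {L : Type}

/-- Two labels are linked if this is not `0`. -/
def LS2.lk (Λ : LS2 L ι κ) (l m : L) : ZMod 2 := Λ.Phi l m + Λ.Phi m l

/-- Unlinked sets of labels. -/
def LS2.Unl (Λ : LS2 L ι κ) (U : Finset L) : Prop := ∀ l ∈ U, ∀ m ∈ U, Λ.lk l m = 0

open Classical in
/-- The unlinked sets of maximal size. -/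
def LS2.Us (Λ : LS2 L ι κ) [Fintype L] : Finset (Finset L) :=
  univ.filter fun U => Λ.Unl U ∧ U.card = Λ.m

/-- The sets of labels on which the linear term is a constant class character with the property
`tr`, and does not use the fixed primes. -/
def LS2.Lin0 (Λ : LS2 L ι κ) (tr : (κ → ZMod 2) → Prop) (U : Finset L) : Prop :=
  ∃ c0, tr c0 ∧ ∀ l ∈ U, Λ.c l = c0 ∧ ∀ p ∈ Λ.B, Λ.t l p = 0

open Classical in
/-- The sets which contribute to the main term. -/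
def LS2.Ms (Λ : LS2 L ι κ) (tr : (κ → ZMod 2) → Prop) [Fintype L] : Finset (Finset L) :=
  Λ.Us.filter fun U => Λ.Lin0 tr U

/-- The hypotheses on a label system. -/
structure LS2.OK (Λ : LS2 L ι κ) : Prop where
  diag : ∀ l, Λ.Phi l l = 0
  two : 2 ≤ Λ.m
  k1 : ∀ U : Finset L, Λ.Unl U → U.card ≤ Λ.m
  k2 : ∀ U : Finset L, Λ.Unl U → U.card = Λ.m → ∀ x, x ∉ U →
    ∃ l ∈ U, ∃ l' ∈ U, Λ.lk l x ≠ Λ.lk l' x

omit [DecidableEq ι] [Fintype κ] in
theorem LS2.mem_Us (Λ : LS2 L ι κ) [Fintype L] (U : Finset L) :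
    U ∈ Λ.Us ↔ Λ.Unl U ∧ U.card = Λ.m := by
  simp [LS2.Us]

omit [DecidableEq ι] [Fintype κ] in
theorem LS2.mem_Ms (Λ : LS2 L ι κ) (tr : (κ → ZMod 2) → Prop) [Fintype L] (U : Finset L) :
    U ∈ Λ.Ms tr ↔ U ∈ Λ.Us ∧ Λ.Lin0 tr U := by
  simp [LS2.Ms]

/-- The linear term. -/
def Dat2.lin (D : Dat2 ι κ) (Λ : LS2 L ι κ) (l : L) (q : ι) : ZMod 2 :=
  D.ex Λ.B (Λ.t l) (Λ.c l) q

variable [Fintype L] [DecidableEq L]

/-- The exponent of a family. -/
def Dat2.ee (D : Dat2 ι κ) (Λ : LS2 L ι κ) (d : L → Finset ι) : ZMod 2 :=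
  ∑ l, ∑ q ∈ d l, D.lin Λ l q + ∑ l, ∑ m, Λ.Phi l m * D.ss (d l) (d m)

open Classical in
/-- The summand after expansion, with the weight `g`. -/
def Dat2.FF (D : Dat2 ι κ) (Λ : LS2 L ι κ) (g : ι → ℂ) (d : L → Finset ι) : ℂ :=
  if Disjoint (uni d) Λ.B then
    ((Λ.m : ℂ)⁻¹) ^ (uni d).card * (∏ q ∈ uni d, g q) * e2 (D.ee Λ d) else 0

/-- The weight `g` has modulus `1`; its product with the class character `c` is trivial if `tr c`
and has mean value zero otherwise, also with the symbols of fixed primes. -/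
structure Dat2.Wt (D : Dat2 ι κ) [PS ι] (B : Finset ι) (g : ι → ℂ) (tr : (κ → ZMod 2) → Prop) :
    Prop where
  nrm : ∀ q, ‖g q‖ = 1
  one : ∀ c, tr c → ∀ q, g q * e2 (D.ex1 ∅ c q) = 1
  mz : ∀ (T : Finset ι) (c : κ → ZMod 2), T ⊆ B → (T ≠ ∅ ∨ ¬ tr c) →
    Mz B (fun q => g q * e2 (D.ex1 T c q))

/-- The exponent of a labelling of `S`. -/
def Dat2.eS (D : Dat2 ι κ) (Λ : LS2 L ι κ) (S : Finset ι) (f : S → L) : ZMod 2 :=
  ∑ j : S, D.lin Λ (f j) j + ∑ j : S, ∑ k : S, Λ.Phi (f j) (f k) * D.s j k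

end Sys

theorem sg2_add (x y : ZMod 2) : sg (x + y) = sg x * sg y := sgD_add x y

theorem sg2_zero : sg 0 = 1 := by simp [sg]

theorem sg2_one : sg 1 = -1 := by simp [sg]

theorem sg2_sum {α : Type} (s : Finset α) (f : α → ZMod 2) :
    sg (∑ i ∈ s, f i) = ∏ i ∈ s, sg (f i) := sgD_sum s f

theorem sg2_abs (x : ZMod 2) : |sg x| = 1 := sgD_abs x

theorem e2_add (x y : ZMod 2) : e2 (x + y) = e2 x * e2 y := by
  unfold e2
  rw [sg2_add, Complex.ofReal_mul]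

theorem e2_zero : e2 0 = 1 := by
  unfold e2
  rw [sg2_zero, Complex.ofReal_one]

theorem e2_one : e2 1 = -1 := by
  unfold e2
  rw [sg2_one, Complex.ofReal_neg, Complex.ofReal_one]

theorem e2_sum {α : Type} (s : Finset α) (f : α → ZMod 2) :
    e2 (∑ i ∈ s, f i) = ∏ i ∈ s, e2 (f i) := by
  unfold e2
  rw [sg2_sum, Complex.ofReal_prod]

theorem norm_e2 (x : ZMod 2) : ‖e2 x‖ = 1 := by
  unfold e2
  rw [Complex.norm_real, Real.norm_eq_abs, sg2_abs]

theorem e2_mul_self (x : ZMod 2) : e2 x * e2 x = 1 := by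
  rw [← e2_add]
  have h : ∀ x : ZMod 2, x + x = 0 := by decide
  rw [h, e2_zero]

end

end Pool.Agent.Lib.MP_1a91b9_ntQ
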