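import Pool.Agent.Lib.MP_1a91b9_ntQ.D.Inner

/-!
# MP_1a91b9_nt (quartic twists), part D: bounds for the local factor

The local factor is a sum of cube roots of unity divided by `m`. Two of the summands, at labels
`l, l' ∈ U`, satisfy `‖z + z'‖ ≤ 3 / 2 + Re (z / z') / 2`, and `z / z'` is a cubic character of `q`.
This gives `‖Hq‖ ≤ ((2 m - 1) + Re ch) / (2 m)` with a nontrivial character as soon as the small
family `b` is not empty (property `k2` of the label system), or the linear data are not all equal on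
`U`.
-/

set_option autoImplicit false
set_option linter.unusedSectionVars false

namespace Pool.Agent.Lib.MP_1a91b9_ntQ.D

open Finset Pool.Agent.Lib.MP_1a91b9_ntH

noncomputable section

variable {ι : Type} [DecidableEq ι] {L : Type} [Fintype L] [DecidableEq L] {κ : Type} [Fintype κ]

private theorem hb_norm_add (a b : ZMod 2) : ‖e2 a + e2 b‖ ≤ 3 / 2 + sg (a - b) / 2 := by
  have h : ∀ x : ZMod 2, x = 0 ∨ x = 1 := by decide
  have h2 : (0 : ZMod 2) - 1 = 1 := by decide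
  have h3 : ‖(1 : ℂ) + 1‖ = 2 := by norm_num
  have h4 : ‖(-1 : ℂ) + -1‖ = 2 := by norm_num
  rcases h a with rfl | rfl <;> rcases h b with rfl | rfl <;>
    simp only [sub_self, sub_zero, h2, sg2_zero, sg2_one, e2_zero, e2_one, add_neg_cancel,
      neg_add_cancel, norm_zero, h3, h4] <;> norm_num

private theorem hb_norm_sum (U : Finset L) (x : L → ZMod 2) (l l' : L) (hl : l ∈ U) (hl' : l' ∈ U)
    (hne : l ≠ l') :
    ‖∑ k ∈ U, e2 (x k)‖ ≤ ((2 * U.card - 1 : ℝ) + sg (x l - x l')) / 2 := by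
  have h1 : l' ∈ U.erase l := mem_erase.2 ⟨hne.symm, hl'⟩
  have e1 : ∑ k ∈ U, e2 (x k) = (e2 (x l) + e2 (x l')) + ∑ k ∈ (U.erase l).erase l', e2 (x k) := by
    rw [← add_sum_erase U _ hl, ← add_sum_erase (U.erase l) _ h1]
    ring
  have c1 : (((U.erase l).erase l').card : ℝ) = (U.card : ℝ) - 2 := by
    have a1 := card_erase_add_one hl
    have a2 := card_erase_add_one h1
    have a3 : ((U.erase l).erase l').card + 2 = U.card := by omega
    rw [← a3]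
    push_cast
    ring
  rw [e1]
  have h2 : ‖∑ k ∈ (U.erase l).erase l', e2 (x k)‖ ≤ (U.card : ℝ) - 2 := by
    refine (norm_sum_le _ _).trans ?_
    rw [← c1]
    simp only [norm_e2, sum_const, nsmul_eq_mul, mul_one]
    exact le_refl _
  have h3 := hb_norm_add (x l) (x l')
  have h4 := norm_add_le (e2 (x l) + e2 (x l')) (∑ k ∈ (U.erase l).erase l', e2 (x k))
  linarith

theorem abs_ch_re (D : Dat2 ι κ) (T : Finset ι) (t : ι → ZMod 2) (c : κ → ZMod 2) (q : ι) :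
    |(D.cht T t c q)| ≤ 1 := by
  unfold Dat2.cht
  split_ifs
  · simp
  · exact (sg2_abs _).le

/-- The exponents of the character attached to two labels. -/
def tt (Λ : LS2 L ι κ) (b : L → Finset ι) (l l' : L) (p : ι) : ZMod 2 :=
  (if p ∈ Λ.B then Λ.t l p - Λ.t l' p else 0) +
    ∑ m, if p ∈ b m then Λ.lk l m - Λ.lk l' m else 0

open Classical in
/-- The primes of the character attached to two labels. -/
def TT (Λ : LS2 L ι κ) (b : L → Finset ι) (l l' : L) : Finset ι :=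
  (Λ.B ∪ uni b).filter fun p => tt Λ b l l' p ≠ 0

theorem TT_sub (Λ : LS2 L ι κ) (b : L → Finset ι) (l l' : L) : TT Λ b l l' ⊆ Λ.B ∪ uni b :=
  filter_subset _ _

theorem tt_ne (Λ : LS2 L ι κ) (b : L → Finset ι) (l l' : L) : ∀ p ∈ TT Λ b l l',
    tt Λ b l l' p ≠ 0 := by
  intro p hp
  unfold TT at hp
  exact (mem_filter.1 hp).2

theorem xq_eq (D : Dat2 ι κ) (hD : D.Sym) (Λ : LS2 L ι κ) (b : L → Finset ι) (l : L) (q : ι)
    (hq : q ∉ uni b) :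
    xq D Λ b l q = D.lin Λ l q + ∑ m, Λ.lk l m * ∑ p ∈ b m, D.s q p := by
  unfold xq
  congr 1
  refine sum_congr rfl fun m _ => ?_
  have hdis : Disjoint (b m) ({q} : Finset ι) :=
    disjoint_singleton_right.2 fun hm => hq (mem_uni.2 ⟨m, hm⟩)
  have h1 : D.ss {q} (b m) = ∑ p ∈ b m, D.s q p := sum_singleton _ _
  rw [ss_symm D hD hdis, h1, LS2.lk]
  ring

theorem xq_sub (D : Dat2 ι κ) (hD : D.Sym) (Λ : LS2 L ι κ) (b : L → Finset ι) (l l' : L) (q : ι)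
    (hq : q ∉ uni b) :
    xq D Λ b l q - xq D Λ b l' q = D.ex (TT Λ b l l') (tt Λ b l l') (Λ.c l - Λ.c l') q := by
  classical
  have h1 : ∑ p ∈ TT Λ b l l', tt Λ b l l' p * D.s q p =
      ∑ p ∈ Λ.B ∪ uni b, tt Λ b l l' p * D.s q p := by
    refine sum_subset (TT_sub Λ b l l') fun p hp hp2 => ?_
    have h2 : tt Λ b l l' p = 0 := by
      by_contra h
      refine hp2 ?_
      unfold TT
      exact mem_filter.2 ⟨hp, h⟩
    rw [h2, zero_mul]
  have h3 : ∑ p ∈ Λ.B ∪ uni b, (if p ∈ Λ.B then Λ.t l p - Λ.t l' p else 0) * D.s q p =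
      ∑ p ∈ Λ.B, (Λ.t l p - Λ.t l' p) * D.s q p := by
    symm
    have h4 : ∀ p ∈ Λ.B, (Λ.t l p - Λ.t l' p) * D.s q p =
        (if p ∈ Λ.B then Λ.t l p - Λ.t l' p else 0) * D.s q p := fun p hp => by rw [if_pos hp]
    rw [sum_congr rfl h4]
    refine sum_subset subset_union_left fun p _ hp2 => ?_
    rw [if_neg hp2, zero_mul]
  have h5 : ∑ p ∈ Λ.B ∪ uni b, (∑ m, if p ∈ b m then Λ.lk l m - Λ.lk l' m else 0) * D.s q p =
      ∑ m, (Λ.lk l m - Λ.lk l' m) * ∑ p ∈ b m, D.s q p := by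
    rw [sum_congr rfl fun p _ => sum_mul _ _ _, sum_comm]
    refine sum_congr rfl fun m _ => ?_
    rw [mul_sum]
    symm
    have h4 : ∀ p ∈ b m, (Λ.lk l m - Λ.lk l' m) * D.s q p =
        (if p ∈ b m then Λ.lk l m - Λ.lk l' m else 0) * D.s q p := fun p hp => by rw [if_pos hp]
    rw [sum_congr rfl h4]
    refine sum_subset ((sub_uni b m).trans subset_union_right) fun p _ hp2 => ?_
    rw [if_neg hp2, zero_mul]
  have h6 : ∑ p ∈ Λ.B ∪ uni b, tt Λ b l l' p * D.s q p =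
      ∑ p ∈ Λ.B, (Λ.t l p - Λ.t l' p) * D.s q p +
        ∑ m, (Λ.lk l m - Λ.lk l' m) * ∑ p ∈ b m, D.s q p := by
    rw [← h3, ← h5, ← sum_add_distrib]
    refine sum_congr rfl fun p _ => ?_
    rw [← add_mul]
    rfl
  rw [xq_eq D hD Λ b l q hq, xq_eq D hD Λ b l' q hq]
  unfold Dat2.lin Dat2.ex
  rw [h1, h6]
  simp only [Pi.sub_apply, sub_mul, sum_sub_distrib]
  ring

theorem Hq_le (D : Dat2 ι κ) (hD : D.Sym) (Λ : LS2 L ι κ) (hΛ : Λ.OK) {g : ι → ℂ}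
    (hg : ∀ q, ‖g q‖ = 1) (U : Finset L)
    (hU : U.card = Λ.m) (b : L → Finset ι) (l l' : L) (hl : l ∈ U) (hl' : l' ∈ U) (hne : l ≠ l')
    (q : ι) (hq : q ∉ uni b) :
    ‖Hq D Λ g U b q‖ ≤ (((2 * Λ.m : ℕ) - 1 : ℝ) +
      (D.cht (TT Λ b l l') (tt Λ b l l') (Λ.c l - Λ.c l') q)) / (2 * Λ.m : ℕ) := by
  have hm2 : (2 : ℝ) ≤ Λ.m := by exact_mod_cast hΛ.two
  have hm0 : (0 : ℝ) < Λ.m := by linarith
  have hch := (abs_le.1 (abs_ch_re D (TT Λ b l l') (tt Λ b l l') (Λ.c l - Λ.c l') q)).1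
  push_cast
  unfold Hq
  by_cases hB : q ∈ Λ.B
  · rw [if_pos hB, norm_zero]
    exact div_nonneg (by linarith) (by linarith)
  · rw [if_neg hB, norm_mul, hg, one_mul, norm_div, Complex.norm_natCast]
    have hT : q ∉ TT Λ b l l' := by
      intro h
      rcases mem_union.1 (TT_sub Λ b l l' h) with h1 | h1
      · exact hB h1
      · exact hq h1
    have h2 : D.cht (TT Λ b l l') (tt Λ b l l') (Λ.c l - Λ.c l') q =
        sg (xq D Λ b l q - xq D Λ b l' q) := by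
      rw [xq_sub D hD Λ b l l' q hq, Dat2.cht, if_neg hT]
    have h3 := hb_norm_sum U (fun l => xq D Λ b l q) l l' hl hl' hne
    rw [hU, ← h2] at h3
    rw [div_le_div_iff₀ hm0 (by linarith)]
    calc ‖∑ l ∈ U, e2 (xq D Λ b l q)‖ * (2 * Λ.m) ≤
        (((2 * Λ.m - 1 : ℝ) +
          (D.cht (TT Λ b l l') (tt Λ b l l') (Λ.c l - Λ.c l') q)) / 2) * (2 * Λ.m) :=
          mul_le_mul_of_nonneg_right h3 (by linarith)
      _ = _ := by ring

theorem Hq_bound (D : Dat2 ι κ) (hD : D.Sym) (Λ : LS2 L ι κ) (hΛ : Λ.OK) {g : ι → ℂ}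
    (hg : ∀ q, ‖g q‖ = 1) (U : Finset L)
    (hU : U ∈ Λ.Us) (b : L → Finset ι) (hb : PD b) (hbB : Disjoint (uni b) Λ.B)
    (hbU : ∀ l ∈ U, b l = ∅) (hne : uni b ≠ ∅) :
    ∃ (T : Finset ι) (t : ι → ZMod 2) (c : κ → ZMod 2), T ≠ ∅ ∧ T ⊆ Λ.B ∪ uni b ∧ (∀ p ∈ T, t p ≠ 0) ∧
      ∀ q, q ∉ uni b →
        ‖Hq D Λ g U b q‖ ≤ (((2 * Λ.m : ℕ) - 1 : ℝ) + (D.cht T t c q)) / (2 * Λ.m : ℕ) := by
  classical
  obtain ⟨hU1, hU2⟩ := (Λ.mem_Us U).1 hU
  obtain ⟨p0, hp0⟩ := nonempty_iff_ne_empty.2 hne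
  obtain ⟨m0, hm0⟩ := mem_uni.1 hp0
  have hm0U : m0 ∉ U := fun hm => by
    rw [hbU m0 hm] at hm0
    exact absurd hm0 (notMem_empty _)
  obtain ⟨l, hl, l', hl', hll⟩ := hΛ.k2 U hU1 hU2 m0 hm0U
  have hne' : l ≠ l' := fun e => hll (by rw [e])
  refine ⟨TT Λ b l l', tt Λ b l l', Λ.c l - Λ.c l', ?_, TT_sub Λ b l l', tt_ne Λ b l l',
    fun q hq => Hq_le D hD Λ hΛ hg U hU2 b l l' hl hl' hne' q hq⟩
  refine nonempty_iff_ne_empty.1 ⟨p0, ?_⟩
  unfold TT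
  refine mem_filter.2 ⟨mem_union_right _ hp0, ?_⟩
  have h1 : tt Λ b l l' p0 = Λ.lk l m0 - Λ.lk l' m0 := by
    unfold tt
    rw [if_neg (disjoint_left.1 hbB hp0), zero_add, sum_eq_single m0, if_pos hm0]
    · intro m _ hm
      exact if_neg fun h => (disjoint_left.1 (hb m m0 hm)) h hm0
    · intro h
      exact absurd (mem_univ _) h
  rw [h1]
  exact sub_ne_zero.2 hll

theorem uni_empty : uni (fun _ : L => (∅ : Finset ι)) = ∅ := by
  ext q
  rw [mem_uni]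
  simp

theorem Hq_bound0 (D : Dat2 ι κ) (hD : D.Sym) (Λ : LS2 L ι κ) (hΛ : Λ.OK) {g : ι → ℂ}
    (hg : ∀ q, ‖g q‖ = 1) (U : Finset L)
    (hU : U.card = Λ.m) (l l' : L) (hl : l ∈ U) (hl' : l' ∈ U)
    (hh : Λ.c l ≠ Λ.c l' ∨ ∃ p ∈ Λ.B, Λ.t l p ≠ Λ.t l' p) :
    ∃ (T : Finset ι) (t : ι → ZMod 2) (c : κ → ZMod 2), (T ≠ ∅ ∨ c ≠ 0) ∧ T ⊆ Λ.B ∧
      (∀ p ∈ T, t p ≠ 0) ∧ ∀ q,
        ‖Hq D Λ g U (fun _ => ∅) q‖ ≤
          (((2 * Λ.m : ℕ) - 1 : ℝ) + (D.cht T t c q)) / (2 * Λ.m : ℕ) := by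
  classical
  have hne' : l ≠ l' := by
    rintro rfl
    rcases hh with h | ⟨p, -, h⟩
    · exact h rfl
    · exact h rfl
  refine ⟨TT Λ (fun _ => ∅) l l', tt Λ (fun _ => ∅) l l', Λ.c l - Λ.c l', ?_, ?_,
    tt_ne Λ _ l l', fun q => Hq_le D hD Λ hΛ hg U hU (fun _ => ∅) l l' hl hl' hne' q ?_⟩
  · rcases hh with h | ⟨p, hp, h⟩
    · exact Or.inr (sub_ne_zero.2 h)
    · refine Or.inl (nonempty_iff_ne_empty.1 ⟨p, ?_⟩)
      unfold TT
      refine mem_filter.2 ⟨mem_union_left _ hp, ?_⟩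
      unfold tt
      rw [if_pos hp, sum_eq_zero, add_zero]
      · exact sub_ne_zero.2 h
      · intro m _
        exact if_neg (notMem_empty _)
  · have h := TT_sub Λ (fun _ => ∅) l l'
    rw [uni_empty, union_empty] at h
    exact h
  · rw [uni_empty]
    exact notMem_empty _

theorem xq_empty (D : Dat2 ι κ) (Λ : LS2 L ι κ) (l : L) (q : ι) :
    xq D Λ (fun _ => ∅) l q = D.lin Λ l q := by
  unfold xq
  simp only [ss_empty_left, ss_empty_right, mul_zero, add_zero, sum_const_zero]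

theorem Hq_const (D : Dat2 ι κ) (Λ : LS2 L ι κ) (hΛ : Λ.OK) (g : ι → ℂ)
    (U : Finset L)
    (hU : U.card = Λ.m) (t0 : ι → ZMod 2) (c0 : κ → ZMod 2)
    (hc : ∀ l ∈ U, Λ.c l = c0 ∧ ∀ p ∈ Λ.B, Λ.t l p = t0 p) (q : ι) :
    Hq D Λ g U (fun _ => ∅) q = if q ∈ Λ.B then 0 else g q * e2 (D.ex Λ.B t0 c0 q) := by
  have hm : (Λ.m : ℂ) ≠ 0 := by
    have := hΛ.two
    exact Nat.cast_ne_zero.2 (by omega)
  unfold Hq
  by_cases hB : q ∈ Λ.B
  · rw [if_pos hB, if_pos hB]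
  · rw [if_neg hB, if_neg hB]
    have h1 : ∑ l ∈ U, e2 (xq D Λ (fun _ => ∅) l q) = Λ.m * e2 (D.ex Λ.B t0 c0 q) := by
      have h2 : ∀ l ∈ U, e2 (xq D Λ (fun _ => ∅) l q) = e2 (D.ex Λ.B t0 c0 q) := by
        intro l hl
        rw [xq_empty]
        unfold Dat2.lin Dat2.ex
        rw [(hc l hl).1]
        congr 2
        exact sum_congr rfl fun p hp => by rw [(hc l hl).2 p hp]
      rw [sum_congr rfl h2, sum_const, hU, nsmul_eq_mul]
    rw [h1, mul_div_cancel_left₀ _ hm]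

end

end Pool.Agent.Lib.MP_1a91b9_ntQ.D
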