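import Pool.Agent.Lib.MP_1a91b9_ntQ.D.Defs

/-!
# MP_1a91b9_nt (quartic twists), part D: the primes outside a finite set

For a finite set `B` of primes the system of the primes outside `B`, with the symbols at the primes
of `B` as further class characters, satisfies the hypotheses of the engine.
-/

set_option autoImplicit false
set_option linter.unusedSectionVars false

namespace Pool.Agent.Lib.MP_1a91b9_ntQ

open Finset Pool.Agent.Lib.MP_1a91b9_ntH

noncomputable section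

variable {ι : Type} [DecidableEq ι] {κ : Type} [Fintype κ]

/-- The primes outside `B`. -/
def Off (B : Finset ι) : Type := {q : ι // q ∉ B}

instance offDec (B : Finset ι) : DecidableEq (Off B) :=
  inferInstanceAs (DecidableEq {q : ι // q ∉ B})

instance offPS [PS ι] (B : Finset ι) : PS (Off B) where
  N q := PS.N q.1
  two_le q := PS.two_le q.1
  fin x := (PS.fin x).preimage Subtype.val_injective.injOn

/-- The embedding of the primes outside `B`. -/
def emO (B : Finset ι) : Off B ↪ ι := ⟨Subtype.val, Subtype.val_injective⟩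

/-- The set of primes as a set of primes of `ι`. -/
def up {B : Finset ι} (S : Finset (Off B)) : Finset ι := S.map (emO B)

/-- The primes of `S` outside `B`. -/
def dn (B S : Finset ι) : Finset (Off B) := S.subtype fun q => q ∉ B

theorem mem_up {B : Finset ι} {S : Finset (Off B)} {q : ι} :
    q ∈ up S ↔ ∃ h : q ∉ B, (⟨q, h⟩ : Off B) ∈ S := by
  rw [up, mem_map]
  constructor
  · rintro ⟨x, hx, rfl⟩
    exact ⟨x.2, hx⟩
  · rintro ⟨h, hx⟩
    exact ⟨⟨q, h⟩, hx, rfl⟩

theorem mem_dn {B S : Finset ι} {q : Off B} : q ∈ dn B S ↔ q.1 ∈ S := mem_subtype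

theorem dn_up {B : Finset ι} (S : Finset (Off B)) : dn B (up S) = S := by
  ext q
  rw [mem_dn, mem_up]
  exact ⟨fun h => h.2, fun h => ⟨q.2, h⟩⟩

theorem up_dn {B S : Finset ι} (h : Disjoint S B) : up (dn B S) = S := by
  ext q
  rw [mem_up]
  constructor
  · rintro ⟨h1, h2⟩
    exact mem_dn.1 h2
  · intro hq
    exact ⟨disjoint_left.1 h hq, mem_dn.2 hq⟩

theorem disj_up {B : Finset ι} (S : Finset (Off B)) : Disjoint (up S) B := by
  rw [disjoint_left]
  intro q hq
  exact (mem_up.1 hq).1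

theorem up_injective {B : Finset ι} : Function.Injective (up (B := B)) := map_injective _

theorem up_empty {B : Finset ι} : up (∅ : Finset (Off B)) = ∅ := map_empty _

theorem sum_up {B : Finset ι} {M : Type} [AddCommMonoid M] (S : Finset (Off B)) (f : ι → M) :
    ∑ q ∈ up S, f q = ∑ q ∈ S, f q.1 := sum_map _ _ _

theorem prod_up {B : Finset ι} {M : Type} [CommMonoid M] (S : Finset (Off B)) (f : ι → M) :
    ∏ q ∈ up S, f q = ∏ q ∈ S, f q.1 := prod_map _ _ _

theorem disjoint_up {B : Finset ι} (S T : Finset (Off B)) : Disjoint (up S) (up T) ↔ Disjoint S T :=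
  disjoint_map _

theorem nm_up [PS ι] {B : Finset ι} (S : Finset (Off B)) : nm (up S) = nm S :=
  prod_up S fun q => PS.N q

theorem up_mem_Sx [PS ι] {B : Finset ι} {S : Finset (Off B)} {X : ℕ} :
    up S ∈ Sx ι X ↔ S ∈ Sx (Off B) X := by
  rw [mem_Sx, mem_Sx, nm_up]

/-- Sums over the squarefree integers prime to `B`. -/
theorem sum_Sx_off [PS ι] (B : Finset ι) (X : ℕ) {M : Type} [AddCommMonoid M]
    (f : Finset ι → M) :
    ∑ S ∈ Sx (Off B) X, f (up S) = ∑ S ∈ (Sx ι X).filter (fun S => Disjoint S B), f S := by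
  refine sum_nbij' (fun S => up S) (fun S => dn B S) ?_ ?_ ?_ ?_ ?_
  · intro S hS
    exact mem_filter.2 ⟨up_mem_Sx.2 hS, disj_up S⟩
  · intro S hS
    obtain ⟨h1, h2⟩ := mem_filter.1 hS
    rw [← up_mem_Sx, up_dn h2]
    exact h1
  · intro S _
    exact dn_up S
  · intro S hS
    exact up_dn (mem_filter.1 hS).2
  · intro S _
    rfl

/-- The system of the primes outside `B`. -/
def Dat2.off (D : Dat2 ι κ) (B : Finset ι) : Dat2 (Off B) (κ ⊕ B) where
  s p q := D.s p.1 q.1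
  a q j := Sum.elim (D.a q.1) (fun b => D.s q.1 b.1) j

theorem cheb_off [PS ι] {C : ℝ} (h : Cheb ι C) (B : Finset ι) : Cheb (Off B) C := by
  intro x
  refine le_trans ?_ (h x)
  have h1 : ∑ q ∈ pr (Off B) x, Real.log (PS.N q) = ∑ q ∈ up (pr (Off B) x), Real.log (PS.N q) :=
    (sum_up _ fun q => Real.log (PS.N q)).symm
  rw [h1]
  refine sum_le_sum_of_subset_of_nonneg ?_ ?_
  · intro q hq
    obtain ⟨h2, h3⟩ := mem_up.1 hq
    have h4 : @PS.N (Off B) _ ⟨q, h2⟩ ≤ x := mem_pr.1 h3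
    exact mem_pr.2 h4
  · intro q _ _
    have := PS.two_le q
    exact Real.log_nonneg (by exact_mod_cast (by omega : 1 ≤ PS.N q))

theorem rpow_lt_one [PS ι] (q : ι) {σ : ℝ} (hσ : 1 < σ) : (PS.N q : ℝ) ^ (-σ) ≤ 1 / 2 := by
  have h2 : (2 : ℝ) ≤ PS.N q := by exact_mod_cast PS.two_le q
  rw [Real.rpow_neg (by linarith), one_div]
  refine inv_anti₀ (by norm_num) ?_
  calc (2 : ℝ) ≤ PS.N q := h2
    _ = (PS.N q : ℝ) ^ (1 : ℝ) := (Real.rpow_one _).symm
    _ ≤ (PS.N q : ℝ) ^ σ := Real.rpow_le_rpow_of_exponent_le (by linarith) hσ.le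

theorem rpow_pos' [PS ι] (q : ι) (σ : ℝ) : 0 < (PS.N q : ℝ) ^ (-σ) := by
  have h2 : (2 : ℝ) ≤ PS.N q := by exact_mod_cast PS.two_le q
  exact Real.rpow_pos_of_pos (by linarith) _

theorem pr_off [PS ι] (B : Finset ι) (x : ℕ) : up (pr (Off B) x) = (pr ι x) \ B := by
  ext q
  rw [mem_up, mem_sdiff]
  constructor
  · rintro ⟨h1, h2⟩
    have h3 : @PS.N (Off B) _ ⟨q, h1⟩ ≤ x := mem_pr.1 h2
    exact ⟨mem_pr.2 h3, h1⟩
  · rintro ⟨h1, h2⟩
    have h3 : PS.N q ≤ x := mem_pr.1 h1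
    exact ⟨h2, (mem_pr (ι := Off B) (q := ⟨q, h2⟩)).2 h3⟩

theorem zt_off [PS ι] {C : ℝ} (h : Zt ι C) (B : Finset ι) : Zt (Off B) C := by
  intro σ x h1 h3
  refine le_trans ?_ (h σ x h1 h3)
  have h4 : ∏ q ∈ pr (Off B) x, (1 - (PS.N q : ℝ) ^ (-σ))⁻¹ =
      ∏ q ∈ (pr ι x) \ B, (1 - (PS.N q : ℝ) ^ (-σ))⁻¹ := by
    rw [← pr_off]
    exact (prod_up _ fun q => (1 - (PS.N q : ℝ) ^ (-σ))⁻¹).symm
  rw [h4, ← prod_sdiff (inter_subset_left : pr ι x ∩ B ⊆ pr ι x), sdiff_inter_self_left]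
  refine le_mul_of_one_le_right (prod_nonneg fun q _ => ?_) ?_
  · have := rpow_lt_one q h1
    exact inv_nonneg.2 (by linarith)
  · calc (1 : ℝ) = ∏ _q ∈ pr ι x ∩ B, 1 := prod_const_one.symm
      _ ≤ _ := prod_le_prod (fun _ _ => zero_le_one) fun q _ => by
        have h5 := rpow_lt_one q h1
        have h6 := rpow_pos' q σ
        rw [one_le_inv₀ (by linarith)]
        linarith

/-- The support of the symbols at the primes of `B`. -/
def spB {B : Finset ι} (c : κ ⊕ B → ZMod 2) : Finset ι :=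
  (univ.filter fun b : B => c (Sum.inr b) ≠ 0).map (Function.Embedding.subtype _)

theorem mem_spB {B : Finset ι} {c : κ ⊕ B → ZMod 2} {q : ι} :
    q ∈ spB c ↔ ∃ h : q ∈ B, c (Sum.inr ⟨q, h⟩) ≠ 0 := by
  rw [spB, mem_map]
  constructor
  · rintro ⟨x, hx, rfl⟩
    exact ⟨x.2, (mem_filter.1 hx).2⟩
  · rintro ⟨h, hx⟩
    exact ⟨⟨q, h⟩, mem_filter.2 ⟨mem_univ _, hx⟩, rfl⟩

theorem spB_subset {B : Finset ι} (c : κ ⊕ B → ZMod 2) : spB c ⊆ B := fun _ hq =>
  (mem_spB.1 hq).1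

theorem disj_spB {B : Finset ι} (T : Finset (Off B)) (c : κ ⊕ B → ZMod 2) :
    Disjoint (up T) (spB c) := disjoint_of_subset_right (spB_subset c) (disj_up T)

theorem sum_spB {B : Finset ι} (c : κ ⊕ B → ZMod 2) (f : ι → ZMod 2) :
    ∑ b : B, c (Sum.inr b) * f b = ∑ p ∈ spB c, f p := by
  rw [spB, sum_map, sum_filter]
  refine sum_congr rfl fun b _ => ?_
  have h : ∀ x : ZMod 2, x ≠ 0 → x = 1 := by decide
  split_ifs with h1
  · rw [h _ h1, one_mul]
    rfl
  · rw [not_not.1 h1, zero_mul]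

theorem ex1_off (D : Dat2 ι κ) (B : Finset ι) (T : Finset (Off B)) (c : κ ⊕ B → ZMod 2)
    (q : Off B) :
    (D.off B).ex1 T c q = D.ex1 (up T ∪ spB c) (fun j => c (Sum.inl j)) q.1 := by
  unfold Dat2.ex1
  rw [Fintype.sum_sum_type, sum_union (disj_spB T c), sum_up, ← sum_spB]
  simp only [Dat2.off, Sum.elim_inl, Sum.elim_inr]
  ring

theorem ch_off (D : Dat2 ι κ) (B : Finset ι) (T : Finset (Off B)) (c : κ ⊕ B → ZMod 2)
    (q : Off B) :
    (D.off B).ch T c q = D.ch (up T ∪ spB c) (fun j => c (Sum.inl j)) q.1 := by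
  unfold Dat2.ch
  have h : q.1 ∈ up T ∪ spB c ↔ q ∈ T := by
    rw [mem_union, mem_up]
    constructor
    · rintro (⟨_, h⟩ | h)
      · exact h
      · exact absurd (spB_subset c h) q.2
    · intro h
      exact Or.inl ⟨q.2, h⟩
  rw [if_congr h rfl rfl, ex1_off]

theorem charB_off [PS ι] {B : Finset ι} {χ : ι → ℝ} {C : ℝ} (h : CharB χ C) :
    CharB (fun q : Off B => χ q.1) (C * (3 / 2) ^ B.card) where
  le q := h.le q.1
  hB := by
    have h1 : (1 : ℝ) ≤ (3 / 2) ^ B.card := one_le_pow₀ (by norm_num)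
    have h2 := h.hB
    nlinarith
  bound := by
    intro σ h1 h3
    filter_upwards [h.bound σ h1 h3] with x hx
    have h4 : ∏ q ∈ pr (Off B) x, (1 - χ q.1 * (PS.N q : ℝ) ^ (-σ))⁻¹ =
        ∏ q ∈ (pr ι x) \ B, (1 - χ q * (PS.N q : ℝ) ^ (-σ))⁻¹ := by
      rw [← pr_off]
      exact (prod_up _ fun q => (1 - χ q * (PS.N q : ℝ) ^ (-σ))⁻¹).symm
    rw [← prod_sdiff (inter_subset_left : pr ι x ∩ B ⊆ pr ι x), sdiff_inter_self_left] at hx
    rw [h4]
    have hb : ∀ q : ι, |χ q * (PS.N q : ℝ) ^ (-σ)| ≤ 1 / 2 := by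
      intro q
      rw [abs_mul, abs_of_pos (rpow_pos' q σ)]
      calc |χ q| * (PS.N q : ℝ) ^ (-σ) ≤ 1 * (1 / 2) :=
            mul_le_mul (h.le q) (rpow_lt_one q h1) (rpow_pos' q σ).le (by norm_num)
        _ = 1 / 2 := one_mul _
    have hpos : ∀ q : ι, 0 < (1 - χ q * (PS.N q : ℝ) ^ (-σ))⁻¹ := by
      intro q
      have h5 := (abs_le.1 (hb q)).2
      exact inv_pos.2 (by linarith)
    have hge : ∀ q : ι, (2 / 3 : ℝ) ≤ (1 - χ q * (PS.N q : ℝ) ^ (-σ))⁻¹ := by
      intro q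
      have h5 := (abs_le.1 (hb q)).1
      have h6 := (abs_le.1 (hb q)).2
      have h7 : (2 / 3 : ℝ) = (3 / 2)⁻¹ := by norm_num
      rw [h7]
      exact inv_anti₀ (by linarith) (by linarith)
    have h8 : ((2 / 3 : ℝ)) ^ B.card ≤
        ∏ q ∈ pr ι x ∩ B, (1 - χ q * (PS.N q : ℝ) ^ (-σ))⁻¹ := by
      calc ((2 / 3 : ℝ)) ^ B.card ≤ (2 / 3) ^ (pr ι x ∩ B).card :=
            pow_le_pow_of_le_one (by norm_num) (by norm_num) (card_le_card inter_subset_right)
        _ = ∏ _q ∈ pr ι x ∩ B, (2 / 3 : ℝ) := by rw [prod_const]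
        _ ≤ _ := prod_le_prod (fun _ _ => by norm_num) fun q _ => hge q
    have h9 : 0 ≤ ∏ q ∈ (pr ι x) \ B, (1 - χ q * (PS.N q : ℝ) ^ (-σ))⁻¹ :=
      prod_nonneg fun q _ => (hpos q).le
    have h10 : (∏ q ∈ (pr ι x) \ B, (1 - χ q * (PS.N q : ℝ) ^ (-σ))⁻¹) * (2 / 3) ^ B.card ≤ C :=
      (mul_le_mul_of_nonneg_left h8 h9).trans hx
    have h11 : ((2 / 3 : ℝ)) ^ B.card * (3 / 2) ^ B.card = 1 := by
      rw [← mul_pow]
      norm_num
    have h12 : (0 : ℝ) ≤ (3 / 2) ^ B.card := by positivity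
    calc ∏ q ∈ (pr ι x) \ B, (1 - χ q * (PS.N q : ℝ) ^ (-σ))⁻¹
        = (∏ q ∈ (pr ι x) \ B, (1 - χ q * (PS.N q : ℝ) ^ (-σ))⁻¹) * (2 / 3) ^ B.card *
            (3 / 2) ^ B.card := by rw [mul_assoc, h11, mul_one]
      _ ≤ C * (3 / 2) ^ B.card := mul_le_mul_of_nonneg_right h10 h12

theorem charB_mono [PS ι] {χ : ι → ℝ} {C C' : ℝ} (h : CharB χ C) (hC : C ≤ C') : CharB χ C' where
  le := h.le
  hB := h.hB.trans hC
  bound σ h1 h3 := by
    filter_upwards [h.bound σ h1 h3] with x hx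
    exact hx.trans hC

theorem cb_off [PS ι] {D : Dat2 ι κ} {C : ℝ} (h : D.CB C) (B : Finset ι) :
    (D.off B).CB (|C| * (1 + Real.log (nm B)) * (3 / 2) ^ B.card) := by
  intro T c hTc
  have hne : up T ∪ spB c ≠ ∅ ∨ (fun j => c (Sum.inl j)) ≠ 0 := by
    by_contra hcon
    push Not at hcon
    obtain ⟨h1, h2⟩ := hcon
    rw [union_eq_empty] at h1
    rcases hTc with h3 | h3
    · apply h3
      rw [← dn_up T, h1.1]
      rfl
    · apply h3
      funext j
      rcases j with j | b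
      · exact congrFun h2 j
      · by_contra hb
        have h4 : b.1 ∈ spB c := mem_spB.2 ⟨b.2, hb⟩
        rw [h1.2] at h4
        exact notMem_empty _ h4
  have h1 := charB_off (B := B) (h (up T ∪ spB c) (fun j => c (Sum.inl j)) hne)
  have h2 : (fun q : Off B => D.ch (up T ∪ spB c) (fun j => c (Sum.inl j)) q.1) =
      (D.off B).ch T c := by
    funext q
    rw [ch_off]
  rw [h2] at h1
  refine charB_mono h1 ?_
  have hT1 : (1 : ℝ) ≤ nm T := by exact_mod_cast one_le_nm T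
  have hB1 : (1 : ℝ) ≤ nm B := by exact_mod_cast one_le_nm B
  have hS1 : (1 : ℝ) ≤ nm (spB c) := by exact_mod_cast one_le_nm (spB c)
  have hSB : (nm (spB c) : ℝ) ≤ nm B := by
    have h3 : nm (spB c) ≤ nm B := by
      unfold nm
      refine prod_le_prod_of_subset_of_one_le' (spB_subset c) fun q _ _ => ?_
      have := PS.two_le q
      omega
    exact_mod_cast h3
  have h4 : Real.log (nm (up T ∪ spB c)) ≤ Real.log (nm T) + Real.log (nm B) := by
    rw [nm_union (disj_spB T c), nm_up]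
    push_cast
    rw [Real.log_mul (by positivity) (by positivity)]
    have := Real.log_le_log (by linarith) hSB
    linarith
  have h5 : 0 ≤ Real.log (nm T) := Real.log_nonneg hT1
  have h6 : 0 ≤ Real.log (nm B) := Real.log_nonneg hB1
  have h7 : 0 ≤ Real.log (nm (up T ∪ spB c)) :=
    Real.log_nonneg (by exact_mod_cast one_le_nm _)
  have h8 : C * (1 + Real.log (nm (up T ∪ spB c))) ≤
      |C| * (1 + Real.log (nm B)) * (1 + Real.log (nm T)) := by
    calc C * (1 + Real.log (nm (up T ∪ spB c))) ≤ |C| * (1 + Real.log (nm (up T ∪ spB c))) :=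
          mul_le_mul_of_nonneg_right (le_abs_self C) (by linarith)
      _ ≤ |C| * ((1 + Real.log (nm B)) * (1 + Real.log (nm T))) := by
          refine mul_le_mul_of_nonneg_left ?_ (abs_nonneg C)
          nlinarith
      _ = _ := by ring
  have h9 : (0 : ℝ) ≤ (3 / 2) ^ B.card := by positivity
  calc C * (1 + Real.log (nm (up T ∪ spB c))) * (3 / 2) ^ B.card
      ≤ |C| * (1 + Real.log (nm B)) * (1 + Real.log (nm T)) * (3 / 2) ^ B.card :=
        mul_le_mul_of_nonneg_right h8 h9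
    _ = _ := by ring

theorem ss_off (D : Dat2 ι κ) (B : Finset ι) (S T : Finset (Off B)) :
    (D.off B).ss S T = D.ss (up S) (up T) := by
  unfold Dat2.ss
  rw [sum_up]
  refine sum_congr rfl fun q _ => ?_
  rw [sum_up]
  rfl

theorem bl_off [PS ι] {D : Dat2 ι κ} {C c : ℝ} {K : ℕ} (h : D.BL C K c) (B : Finset ι) :
    (D.off B).BL C K c := by
  classical
  intro A A' X V hA hA' hV hX
  set A1 : Finset ι → ℝ := fun S => if Disjoint S B then A (dn B S) else 0 with hA1
  set A2 : Finset ι → ℝ := fun S => if Disjoint S B then A' (dn B S) else 0 with hA2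
  have hb1 : ∀ S, |A1 S| ≤ 1 := by
    intro S
    rw [hA1]
    dsimp only
    split_ifs
    · exact hA _
    · rw [abs_zero]; exact zero_le_one
  have hb2 : ∀ S, |A2 S| ≤ 1 := by
    intro S
    rw [hA2]
    dsimp only
    split_ifs
    · exact hA' _
    · rw [abs_zero]; exact zero_le_one
  have h1 := h A1 A2 X V hb1 hb2 hV hX
  refine le_trans (le_of_eq ?_) h1
  congr 1
  have e1 : ∀ S T : Finset (Off B), (if nm S * nm T ≤ X ∧ V < nm S ∧ V < nm T ∧ Disjoint S T then
      A S * A' T * sg ((D.off B).ss S T) else 0) =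
      (fun S T : Finset ι => if nm S * nm T ≤ X ∧ V < nm S ∧ V < nm T ∧ Disjoint S T then
        A1 S * A2 T * sg (D.ss S T) else 0) (up S) (up T) := by
    intro S T
    dsimp only
    refine if_congr ?_ ?_ rfl
    · rw [nm_up, nm_up, disjoint_up]
    · rw [ss_off, hA1, hA2]
      dsimp only
      rw [if_pos (disj_up S), if_pos (disj_up T), dn_up, dn_up]
  simp only [e1]
  have e2 : ∀ S : Finset ι, ∑ T ∈ Sx (Off B) X,
      (fun S T : Finset ι => if nm S * nm T ≤ X ∧ V < nm S ∧ V < nm T ∧ Disjoint S T then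
        A1 S * A2 T * sg (D.ss S T) else 0) S (up T) =
      ∑ T ∈ Sx ι X, (fun S T : Finset ι => if nm S * nm T ≤ X ∧ V < nm S ∧ V < nm T ∧
        Disjoint S T then A1 S * A2 T * sg (D.ss S T) else 0) S T := by
    intro S
    rw [sum_Sx_off B X fun T => (fun S T : Finset ι => if nm S * nm T ≤ X ∧ V < nm S ∧ V < nm T ∧
        Disjoint S T then A1 S * A2 T * sg (D.ss S T) else 0) S T, sum_filter]
    refine sum_congr rfl fun T _ => ?_
    by_cases hT : Disjoint T B
    · rw [if_pos hT]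
    · rw [if_neg hT]
      have : A2 T = 0 := by
        rw [hA2]
        exact if_neg hT
      dsimp only
      rw [this, mul_zero, zero_mul, ite_self]
  simp only [e2]
  rw [sum_Sx_off B X fun S => ∑ T ∈ Sx ι X, (fun S T : Finset ι => if nm S * nm T ≤ X ∧ V < nm S ∧
      V < nm T ∧ Disjoint S T then A1 S * A2 T * sg (D.ss S T) else 0) S T, sum_filter]
  refine sum_congr rfl fun S _ => ?_
  by_cases hS : Disjoint S B
  · rw [if_pos hS]
  · rw [if_neg hS]
    have : A1 S = 0 := by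
      rw [hA1]
      exact if_neg hS
    refine (sum_eq_zero fun T _ => ?_).symm
    rw [this, zero_mul, zero_mul, ite_self]

/-- The hypotheses for the primes outside `B`. -/
theorem OK_off [PS ι] {D : Dat2 ι κ} (h : D.OK) (B : Finset ι) : (D.off B).OK where
  sym p q hpq := h.sym p.1 q.1 fun h' => hpq (Subtype.ext h')
  cheb := by
    obtain ⟨C, hC⟩ := h.cheb
    exact ⟨C, cheb_off hC B⟩
  zt := by
    obtain ⟨C, hC⟩ := h.zt
    exact ⟨C, zt_off hC B⟩
  cb := by
    obtain ⟨C, hC⟩ := h.cb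
    exact ⟨_, cb_off hC B⟩
  bl := by
    obtain ⟨C, K, c, hc, hC⟩ := h.bl
    exact ⟨C, K, c, hc, bl_off hC B⟩

end

end Pool.Agent.Lib.MP_1a91b9_ntQ
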