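import Pool.Agent.Lib.MP_1a91b9_ntQ.D.DAlgQ

/-!
# MP_1a91b9_nt (quartic twists), part D: the densities for the four kinds of twists

`D.N c S` is the Laplacian of the symbols plus the diagonal matrix of the class characters `c`;
`D.NU c j0 x S` is this matrix bordered by the class character `j0` with the corner `x`.
-/

set_option autoImplicit false
set_option linter.unusedSectionVars false

namespace Pool.Agent.Lib.MP_1a91b9_ntQ

open Finset Pool.Agent.Lib.MP_1a91b9_ntH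

noncomputable section

/-- The matrix bordered by the class character `j0` with the corner `x`. -/
def Dat2.NU {ι κ : Type} [DecidableEq ι] [Fintype κ] (D : Dat2 ι κ) (c : κ → ZMod 2) (j0 : κ)
    (x : ZMod 2) (S : Finset ι) : Matrix (S ⊕ Unit) (S ⊕ Unit) (ZMod 2) :=
  Matrix.fromBlocks (D.N c S) (Matrix.of fun i _ => D.a i j0) (Matrix.of fun _ i => D.a i j0)
    (Matrix.of fun _ _ => x)

namespace Da

variable {ι : Type} [DecidableEq ι] {κ : Type} [Fintype κ] [DecidableEq κ] {E : Type}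
  [Fintype E] [DecidableEq E] {G : Type} [AddCommGroup G] [Fintype G]

theorem eq_or_of_card_two {X : Type} [Fintype X] [DecidableEq X] (h : Fintype.card X = 2)
    {x y : X} (hxy : x ≠ y) (z : X) : z = x ∨ z = y := by
  have h1 : ({x, y} : Finset X) = univ := by
    refine eq_of_subset_of_card_le (subset_univ _) ?_
    rw [card_univ, h, card_pair hxy]
  have h2 : z ∈ ({x, y} : Finset X) := by
    rw [h1]
    exact mem_univ z
  rw [mem_insert, mem_singleton] at h2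
  exact h2

/-- The kernel of two elements. -/
theorem ker_two {D : Dat2 ι κ} {c : κ → ZMod 2} {P : κ → E → ZMod 2}
    {R : Matrix E E (ZMod 2)} {S : Finset ι} (h : D.kB c P R S = 2) {v0 : S ⊕ E → ZMod 2}
    (h0 : v0 ≠ 0) (h1 : (D.NB c P R S).mulVec v0 = 0) (v : S ⊕ E → ZMod 2)
    (hv : (D.NB c P R S).mulVec v = 0) : v = 0 ∨ v = v0 := by
  classical
  have h2 := eq_or_of_card_two (X := {v : S ⊕ E → ZMod 2 // (D.NB c P R S).mulVec v = 0}) h
    (x := ⟨0, Matrix.mulVec_zero _⟩) (y := ⟨v0, h1⟩)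
    (fun h3 => h0 (congrArg Subtype.val h3).symm) ⟨v, hv⟩
  rcases h2 with h2 | h2
  · exact Or.inl (congrArg Subtype.val h2)
  · exact Or.inr (congrArg Subtype.val h2)

theorem sum_a_of_mem [PS ι] {D : Dat2 ι κ} (C : Cl2 D G) {g : G} {X : ℕ} {S : Finset ι}
    (hS : S ∈ SG C g X) (j : κ) : ∑ q ∈ S, D.a q j = C.A j g := by
  rw [← (mem_SG.1 hS).2, map_sum]
  exact sum_congr rfl fun q _ => C.ha q j

/-- **Part D**, trivial vector: the kernel is generated by it with lower density at least the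
infinite product. -/
theorem densQ_ker [PS ι] {D : Dat2 ι κ} (hD : D.OK) (C : Cl2 D G) (h3 : C.H3) {c : κ → ZMod 2}
    {P : κ → E → ZMod 2} {R : Matrix E E (ZMod 2)} (hR : ∀ e f, R e f = R f e)
    (hP : ∀ x : E → ZMod 2, (∀ j, ∑ e, P j e * x e = 0) → x = 0) (g : G) {γ : E → ZMod 2}
    (h1 : ∀ j, ∑ e, P j e * γ e = c j)
    (h2 : ∀ e, ∑ j, P j e * C.A j g + ∑ f, R e f * γ f = 0)
    {κ₀ : ℝ} (hκ : κ₀ < cinf2) (ε : ℝ) (hε : 0 < ε) :
    ∃ X₀ : ℕ, ∀ X : ℕ, X₀ ≤ X →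
      κ₀ * ((SG C g X).card : ℝ) - ε * X ≤
        ((SG C g X).filter fun S => S ≠ ∅ ∧ ∀ v, (D.NB c P R S).mulVec v = 0 →
          v = 0 ∨ v = Sum.elim (fun _ => 1) γ).card := by
  classical
  obtain ⟨X0, h0⟩ := densQ_triv hD C h3 hR hP g ⟨γ, h1, h2⟩ hκ ε hε
  refine ⟨X0, fun X hX => (h0 X hX).trans ?_⟩
  rw [Nat.cast_le]
  refine card_le_card fun S hS => ?_
  rw [mem_filter] at hS ⊢
  refine ⟨hS.1, hS.2.1, ker_two hS.2.2 ?_ (triv_mulVec D h1 ?_)⟩
  · intro h4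
    obtain ⟨q, hq⟩ := nonempty_iff_ne_empty.2 hS.2.1
    exact one_ne_zero (congrFun h4 (Sum.inl ⟨q, hq⟩))
  · intro e
    simp only [sum_a_of_mem C hS.1]
    exact h2 e

/-! ### No border -/

/-- The empty border. -/
def P0 (κ : Type) : κ → Empty → ZMod 2 := fun _ e => e.elim

/-- The empty corner. -/
def R0 : Matrix Empty Empty (ZMod 2) := fun e _ => e.elim

theorem NB_zero (D : Dat2 ι κ) (c : κ → ZMod 2) (S : Finset ι) (v : S → ZMod 2) :
    (D.NB c (P0 κ) R0 S).mulVec (Sum.elim v fun e => e.elim) = 0 ↔ (D.N c S).mulVec v = 0 := by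
  have h : ∀ j, (D.NB c (P0 κ) R0 S).mulVec (Sum.elim v fun e => e.elim) (Sum.inl j) =
      (D.N c S).mulVec v j := by
    intro j
    rw [D.NB_inl, D.N_mulVec]
    simp only [Sum.elim_inl, univ_eq_empty, sum_empty, add_zero]
  constructor
  · intro h1
    funext j
    rw [← h j, h1]
    rfl
  · intro h1
    funext j
    rcases j with j | e
    · rw [h j, h1]
      rfl
    · exact e.elim

/-- Kind I: the matrix is nonsingular. -/
theorem dens_I [PS ι] {D : Dat2 ι κ} (hD : D.OK) (C : Cl2 D G) (h3 : C.H3) {c : κ → ZMod 2}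
    (hc : c ≠ 0) (g : G) {κ₀ : ℝ} (hκ : κ₀ < cinf2) (ε : ℝ) (hε : 0 < ε) :
    ∃ X₀ : ℕ, ∀ X : ℕ, X₀ ≤ X →
      κ₀ * ((SG C g X).card : ℝ) - ε * X ≤
        ((SG C g X).filter fun S => (D.N c S).det ≠ 0).card := by
  have hT : ¬ Triv c (P0 κ) R0 fun j => C.A j g := by
    rintro ⟨γ, h1, _⟩
    refine hc (funext fun j => ?_)
    rw [← h1 j, univ_eq_empty, sum_empty]
    rfl
  obtain ⟨X0, h0⟩ := densQ_ne (P := P0 κ) (R := R0) hD C h3 (fun e _ => e.elim)
    (fun x _ => funext fun e => e.elim) g hT hκ ε hε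
  refine ⟨X0, fun X hX => (h0 X hX).trans ?_⟩
  rw [Nat.cast_le]
  refine card_le_card fun S hS => ?_
  rw [mem_filter] at hS ⊢
  refine ⟨hS.1, fun h => hS.2 ?_⟩
  obtain ⟨v, hv, hv0⟩ := Matrix.exists_mulVec_eq_zero_iff.2 h
  refine Matrix.exists_mulVec_eq_zero_iff.1 ⟨Sum.elim v fun e => e.elim, fun h4 => hv ?_,
    (NB_zero D c S v).2 hv0⟩
  exact funext fun j => congrFun h4 (Sum.inl j)

/-- Kind II, and kind III with the local class `ε`: the kernel of the Laplacian consists of the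
constant vectors. -/
theorem dens_II [PS ι] {D : Dat2 ι κ} (hD : D.OK) (C : Cl2 D G) (h3 : C.H3) (g : G) {κ₀ : ℝ}
    (hκ : κ₀ < cinf2) (ε : ℝ) (hε : 0 < ε) :
    ∃ X₀ : ℕ, ∀ X : ℕ, X₀ ≤ X →
      κ₀ * ((SG C g X).card : ℝ) - ε * X ≤
        ((SG C g X).filter fun S => S ≠ ∅ ∧ ∀ v, (D.N 0 S).mulVec v = 0 →
          v = 0 ∨ v = fun _ => 1).card := by
  classical
  obtain ⟨X0, h0⟩ := densQ_ker (P := P0 κ) (R := R0) (c := 0) (γ := fun e => e.elim) hD C h3
    (fun e _ => e.elim) (fun x _ => funext fun e => e.elim) g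
    (fun j => by rw [univ_eq_empty, sum_empty]; rfl) (fun e => e.elim) hκ ε hε
  refine ⟨X0, fun X hX => (h0 X hX).trans ?_⟩
  rw [Nat.cast_le]
  refine card_le_card fun S hS => ?_
  rw [mem_filter] at hS ⊢
  refine ⟨hS.1, hS.2.1, fun v hv => ?_⟩
  rcases hS.2.2 _ ((NB_zero D 0 S v).2 hv) with h | h
  · exact Or.inl (funext fun j => congrFun h (Sum.inl j))
  · exact Or.inr (funext fun j => congrFun h (Sum.inl j))

/-! ### The border `j0` -/

/-- The border by the class character `j0`. -/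
def P1 (j0 : κ) : κ → Unit → ZMod 2 := fun j _ => if j = j0 then 1 else 0

/-- The corner `x`. -/
def R1 (x : ZMod 2) : Matrix Unit Unit (ZMod 2) := fun _ _ => x

theorem bd_P1 (D : Dat2 ι κ) (j0 : κ) (q : ι) (e : Unit) : D.bd (P1 j0) q e = D.a q j0 := by
  unfold Dat2.bd P1
  simp only [ite_mul, one_mul, zero_mul, sum_ite_eq', mem_univ, if_true]

theorem NB_P1 (D : Dat2 ι κ) (c : κ → ZMod 2) (j0 : κ) (x : ZMod 2) (S : Finset ι) :
    D.NB c (P1 j0) (R1 x) S = D.NU c j0 x S := by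
  unfold Dat2.NB Dat2.NU
  simp only [bd_P1]
  rfl

theorem P1_inj (j0 : κ) (x : Unit → ZMod 2) (h : ∀ j, ∑ e, P1 j0 j e * x e = 0) : x = 0 := by
  have h1 := h j0
  unfold P1 at h1
  simp only [if_true, one_mul, univ_unique, sum_singleton] at h1
  exact funext fun _ => h1

/-- Kind IV: the bordered matrix is nonsingular. -/
theorem dens_IV [PS ι] {D : Dat2 ι κ} (hD : D.OK) (C : Cl2 D G) (h3 : C.H3) {c : κ → ZMod 2}
    {j0 j1 : κ} (hj : j1 ≠ j0) (hc : c j1 ≠ 0) (x : ZMod 2) (g : G) {κ₀ : ℝ} (hκ : κ₀ < cinf2)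
    (ε : ℝ) (hε : 0 < ε) :
    ∃ X₀ : ℕ, ∀ X : ℕ, X₀ ≤ X →
      κ₀ * ((SG C g X).card : ℝ) - ε * X ≤
        ((SG C g X).filter fun S => (D.NU c j0 x S).det ≠ 0).card := by
  have hT : ¬ Triv c (P1 j0) (R1 x) fun j => C.A j g := by
    rintro ⟨γ, h1, _⟩
    apply hc
    rw [← h1 j1]
    unfold P1
    simp only [if_neg hj, zero_mul, sum_const_zero]
  obtain ⟨X0, h0⟩ := densQ_ne (P := P1 j0) (R := R1 x) hD C h3 (fun _ _ => rfl) (P1_inj j0) g hT
    hκ ε hε
  refine ⟨X0, fun X hX => (h0 X hX).trans (le_of_eq ?_)⟩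
  simp only [NB_P1]

/-- Kind III: the kernel of the bordered Laplacian consists of the vectors `(t, 0)`, in the classes
with `C.A j0 g = 0`. -/
theorem dens_III [PS ι] {D : Dat2 ι κ} (hD : D.OK) (C : Cl2 D G) (h3 : C.H3) {j0 : κ} {g : G}
    (hg : C.A j0 g = 0) (x : ZMod 2) {κ₀ : ℝ} (hκ : κ₀ < cinf2) (ε : ℝ) (hε : 0 < ε) :
    ∃ X₀ : ℕ, ∀ X : ℕ, X₀ ≤ X →
      κ₀ * ((SG C g X).card : ℝ) - ε * X ≤
        ((SG C g X).filter fun S => S ≠ ∅ ∧ ∀ v, (D.NU 0 j0 x S).mulVec v = 0 →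
          v = 0 ∨ v = Sum.elim (fun _ => 1) fun _ => 0).card := by
  classical
  obtain ⟨X0, h0⟩ := densQ_ker (P := P1 j0) (R := R1 x) (c := 0) (γ := fun _ => 0) hD C h3
    (fun _ _ => rfl) (P1_inj j0) g
    (fun j => by simp only [mul_zero, sum_const_zero, Pi.zero_apply])
    (fun e => by
      simp only [mul_zero, sum_const_zero, add_zero]
      unfold P1
      simp only [ite_mul, one_mul, zero_mul, sum_ite_eq', mem_univ, if_true]
      exact hg) hκ ε hε
  refine ⟨X0, fun X hX => (h0 X hX).trans (le_of_eq ?_)⟩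
  simp only [NB_P1]

/-- Kind III with the local class `i ε`: the kernel of `N₀ + a aᵀ` consists of the constant
vectors. -/
theorem dens_III' [PS ι] {D : Dat2 ι κ} (hD : D.OK) (C : Cl2 D G) (h3 : C.H3) {j0 : κ} {g : G}
    (hg : C.A j0 g = 0) {κ₀ : ℝ} (hκ : κ₀ < cinf2) (ε : ℝ) (hε : 0 < ε) :
    ∃ X₀ : ℕ, ∀ X : ℕ, X₀ ≤ X →
      κ₀ * ((SG C g X).card : ℝ) - ε * X ≤
        ((SG C g X).filter fun S => S ≠ ∅ ∧ ∀ v,
          (D.N 0 S + Matrix.of fun i j : S => D.a i j0 * D.a j j0).mulVec v = 0 →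
          v = 0 ∨ v = fun _ => 1).card := by
  classical
  obtain ⟨X0, h0⟩ := dens_III hD C h3 hg 1 hκ ε hε
  refine ⟨X0, fun X hX => (h0 X hX).trans ?_⟩
  rw [Nat.cast_le]
  refine card_le_card fun S hS => ?_
  rw [mem_filter] at hS ⊢
  refine ⟨hS.1, hS.2.1, fun v hv => ?_⟩
  set t : ZMod 2 := ∑ i : S, D.a i j0 * v i with ht
  have h1 : (D.NU 0 j0 1 S).mulVec (Sum.elim v fun _ => t) = 0 := by
    unfold Dat2.NU
    rw [Matrix.fromBlocks_mulVec]
    funext y
    rcases y with j | e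
    · rw [Sum.elim_inl, Pi.add_apply, Pi.zero_apply]
      have h2 := congrFun hv j
      rw [Matrix.add_mulVec, Pi.add_apply, Pi.zero_apply] at h2
      rw [← h2]
      congr 1
      show ∑ _x : Unit, D.a j j0 * t = ∑ l : S, D.a j j0 * D.a l j0 * v l
      rw [univ_unique, sum_singleton, ht, mul_sum]
      exact sum_congr rfl fun l _ => by ring
    · rw [Sum.elim_inr, Pi.add_apply, Pi.zero_apply]
      have hu : ∑ _x : Unit, (1 : ZMod 2) * t = t := by
        rw [univ_unique, sum_singleton, one_mul]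
      show ∑ l : S, D.a l j0 * v l + ∑ _x : Unit, (1 : ZMod 2) * t = 0
      rw [hu, ← ht]
      exact z2_add_self _
  rcases hS.2.2 _ h1 with h | h
  · exact Or.inl (funext fun j => congrFun h (Sum.inl j))
  · exact Or.inr (funext fun j => congrFun h (Sum.inl j))

end Da

end

end Pool.Agent.Lib.MP_1a91b9_ntQ
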