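import Pool.Agent.Lib.MP_1a91b9_ntQ.D.ExtB
import Pool.Agent.Lib.MP_1a91b9_ntQ.D.Cl4

/-!
# MP_1a91b9_nt (quartic twists), part D: the densities with a fixed finite set of primes

`S` runs over the squarefree integers prime to the finite set `B`; `T` and `V` are subsets of `B`.
The matrix `D.NV` has the rows `S ∪ T` (symbols, row sums `c`), the rows `V` (symbols off the
diagonal, the diagonal `τ`) and the border `E`.
-/

set_option autoImplicit false
set_option linter.unusedSectionVars false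

namespace Pool.Agent.Lib.MP_1a91b9_ntQ

open Finset Pool.Agent.Lib.MP_1a91b9_ntH

noncomputable section

section Mat

variable {ι : Type} [DecidableEq ι] {κ : Type} [Fintype κ] [DecidableEq κ] {E : Type} [Fintype E]
  [DecidableEq E]

/-- The matrix with the rows `S`, `V` and `E`. -/
def Dat2.NV (D : Dat2 ι κ) (c : κ → ZMod 2) (P : κ → E → ZMod 2) (R : Matrix E E (ZMod 2))
    (V : Finset ι) (τ : ι → ZMod 2) (S : Finset ι) :
    Matrix (S ⊕ (V ⊕ E)) (S ⊕ (V ⊕ E)) (ZMod 2) :=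
  Matrix.fromBlocks (D.N c S)
    (Matrix.of fun (i : S) (e : V ⊕ E) => Sum.elim (fun v : V => D.s i v) (D.bd P i) e)
    (Matrix.of fun (e : V ⊕ E) (i : S) => Sum.elim (fun v : V => D.s i v) (D.bd P i) e)
    (Matrix.fromBlocks (Matrix.of fun v v' : V => if v = v' then τ v else D.s v v')
      (Matrix.of fun (v : V) e => D.bd P v e) (Matrix.of fun e (v : V) => D.bd P v e) R)

/-- The vector with the components `x`, `y`, `z`. -/
def vec3 (S V : Finset ι) (x y : ι → ZMod 2) (z : E → ZMod 2) : S ⊕ (V ⊕ E) → ZMod 2 :=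
  Sum.elim (fun i => x i) (Sum.elim (fun v => y v) z)

theorem exists_vec3 {S V : Finset ι} (w : S ⊕ (V ⊕ E) → ZMod 2) :
    ∃ x y z, w = vec3 S V x y z := by
  refine ⟨fun i => if h : i ∈ S then w (Sum.inl ⟨i, h⟩) else 0,
    fun v => if h : v ∈ V then w (Sum.inr (Sum.inl ⟨v, h⟩)) else 0,
    fun e => w (Sum.inr (Sum.inr e)), ?_⟩
  funext i
  rcases i with i | v | e
  · simp [vec3]
  · simp [vec3]
  · rfl

variable (D : Dat2 ι κ) (c : κ → ZMod 2) (P : κ → E → ZMod 2) (R : Matrix E E (ZMod 2))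
  (V : Finset ι) (τ : ι → ZMod 2) (S : Finset ι) (x y : ι → ZMod 2) (z : E → ZMod 2)

theorem NV_inl (j : S) : (D.NV c P R V τ S).mulVec (vec3 S V x y z) (Sum.inl j) =
    D.dg c j * x j + ∑ l ∈ S, D.s j l * (x j + x l) + (∑ v ∈ V, D.s j v * y v +
      ∑ e, D.bd P j e * z e) := by
  rw [Dat2.NV, vec3, Matrix.fromBlocks_mulVec, Sum.elim_inl, Pi.add_apply, Sum.elim_comp_inl,
    Sum.elim_comp_inr, D.N_mulVec]
  congr 1
  · congr 1
    exact sum_coe_sort S fun l => D.s j l * (x j + x l)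
  · show ∑ e : V ⊕ E, Sum.elim (fun v : V => D.s j v) (D.bd P j) e *
      Sum.elim (fun v : V => y v) z e = _
    rw [Fintype.sum_sum_type]
    simp only [Sum.elim_inl, Sum.elim_inr]
    congr 1
    exact sum_coe_sort V fun v => D.s j v * y v

theorem NV_inrl (v : V) : (D.NV c P R V τ S).mulVec (vec3 S V x y z) (Sum.inr (Sum.inl v)) =
    ∑ l ∈ S, D.s l v * x l + (τ v * y v + ∑ u ∈ V.erase v, D.s v u * y u +
      ∑ e, D.bd P v e * z e) := by
  rw [Dat2.NV, vec3, Matrix.fromBlocks_mulVec, Sum.elim_inr, Pi.add_apply, Sum.elim_comp_inl,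
    Sum.elim_comp_inr, Matrix.fromBlocks_mulVec, Sum.elim_inl, Pi.add_apply, Sum.elim_comp_inl,
    Sum.elim_comp_inr]
  congr 1
  · exact sum_coe_sort S fun l => D.s l v * x l
  · congr 1
    show ∑ u : V, (if v = u then τ v else D.s v u) * y u = _
    have h1 : ∑ u : V, (if v = u then τ v else D.s v u) * y u =
        ∑ u ∈ V, (if (v : ι) = u then τ v else D.s v u) * y u := by
      rw [← sum_coe_sort V]
      refine sum_congr rfl fun u _ => ?_
      simp only [Subtype.ext_iff]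
    rw [h1, ← add_sum_erase V _ v.2, if_pos rfl]
    congr 1
    refine sum_congr rfl fun u hu => ?_
    rw [if_neg (ne_of_mem_erase hu).symm]

theorem NV_inrr (e : E) : (D.NV c P R V τ S).mulVec (vec3 S V x y z) (Sum.inr (Sum.inr e)) =
    ∑ l ∈ S, D.bd P l e * x l + (∑ v ∈ V, D.bd P v e * y v + ∑ f, R e f * z f) := by
  rw [Dat2.NV, vec3, Matrix.fromBlocks_mulVec, Sum.elim_inr, Pi.add_apply, Sum.elim_comp_inl,
    Sum.elim_comp_inr, Matrix.fromBlocks_mulVec, Sum.elim_inr, Pi.add_apply, Sum.elim_comp_inl,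
    Sum.elim_comp_inr]
  congr 1
  · exact sum_coe_sort S fun l => D.bd P l e * x l
  · congr 1
    exact sum_coe_sort V fun v => D.bd P v e * y v

end Mat

/-! ### The same matrix for the primes outside `B` -/

section Off

variable {ι : Type} [DecidableEq ι] {κ : Type} [Fintype κ] [DecidableEq κ] {E : Type} [Fintype E]
  [DecidableEq E]

/-- The class characters in the row sums. -/
def coB (B T : Finset ι) (c : κ → ZMod 2) : κ ⊕ B → ZMod 2 :=
  Sum.elim c fun b => if b.1 ∈ T then 1 else 0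

/-- The border. -/
def PoB (B T V : Finset ι) (P : κ → E → ZMod 2) : κ ⊕ B → T ⊕ (V ⊕ E) → ZMod 2
  | Sum.inl j, Sum.inr (Sum.inr e) => P j e
  | Sum.inl _, _ => 0
  | Sum.inr b, Sum.inl t => if b.1 = t.1 then 1 else 0
  | Sum.inr b, Sum.inr (Sum.inl v) => if b.1 = v.1 then 1 else 0
  | Sum.inr _, Sum.inr (Sum.inr _) => 0

/-- The corner. -/
def RoB (D : Dat2 ι κ) (T V : Finset ι) (c : κ → ZMod 2) (P : κ → E → ZMod 2)
    (R : Matrix E E (ZMod 2)) (τ α : ι → ZMod 2) :
    Matrix (T ⊕ (V ⊕ E)) (T ⊕ (V ⊕ E)) (ZMod 2)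
  | Sum.inl t, Sum.inl t' => if t.1 = t'.1 then D.dg c t + α t + ∑ l ∈ T.erase t, D.s t l
      else D.s t t'
  | Sum.inl t, Sum.inr (Sum.inl v) => D.s t v
  | Sum.inl t, Sum.inr (Sum.inr e) => D.bd P t e
  | Sum.inr (Sum.inl v), Sum.inl t => D.s t v
  | Sum.inr (Sum.inl v), Sum.inr (Sum.inl v') => if v.1 = v'.1 then τ v else D.s v v'
  | Sum.inr (Sum.inl v), Sum.inr (Sum.inr e) => D.bd P v e
  | Sum.inr (Sum.inr e), Sum.inl t => D.bd P t e
  | Sum.inr (Sum.inr e), Sum.inr (Sum.inl v) => D.bd P v e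
  | Sum.inr (Sum.inr e), Sum.inr (Sum.inr f) => R e f

theorem RoB_symm {D : Dat2 ι κ} (hs : D.Sym) (T V : Finset ι) (c : κ → ZMod 2)
    (P : κ → E → ZMod 2) {R : Matrix E E (ZMod 2)} (hR : ∀ e f, R e f = R f e)
    (τ α : ι → ZMod 2) (e f : T ⊕ (V ⊕ E)) :
    RoB D T V c P R τ α e f = RoB D T V c P R τ α f e := by
  rcases e with t | v | e <;> rcases f with t' | v' | f
  · simp only [RoB]
    by_cases h : t.1 = t'.1
    · have h' : t = t' := Subtype.ext h
      subst h'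
      rfl
    · rw [if_neg h, if_neg fun h' => h h'.symm]
      exact hs _ _ h
  · rfl
  · rfl
  · rfl
  · simp only [RoB]
    by_cases h : v.1 = v'.1
    · have h' : v = v' := Subtype.ext h
      subst h'
      rfl
    · rw [if_neg h, if_neg fun h' => h h'.symm]
      exact hs _ _ h
  · rfl
  · rfl
  · rfl
  · exact hR e f

theorem PoB_inj {B T V : Finset ι} (hT : T ⊆ B) (hV : V ⊆ B) (hTV : Disjoint T V)
    {P : κ → E → ZMod 2} (hP : ∀ x : E → ZMod 2, (∀ j, ∑ e, P j e * x e = 0) → x = 0)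
    (x : T ⊕ (V ⊕ E) → ZMod 2) (h : ∀ j, ∑ e, PoB B T V P j e * x e = 0) : x = 0 := by
  have h1 : ∀ e, x (Sum.inr (Sum.inr e)) = 0 := by
    have h2 := hP (fun e => x (Sum.inr (Sum.inr e))) fun j => by
      have h3 := h (Sum.inl j)
      rw [Fintype.sum_sum_type, Fintype.sum_sum_type] at h3
      simp only [PoB, zero_mul, sum_const_zero, zero_add] at h3
      exact h3
    exact fun e => congrFun h2 e
  have hb : ∀ b : B, ∑ t : T, (if b.1 = t.1 then 1 else 0) * x (Sum.inl t) +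
      ∑ v : V, (if b.1 = v.1 then 1 else 0) * x (Sum.inr (Sum.inl v)) = 0 := by
    intro b
    have h3 := h (Sum.inr b)
    rw [Fintype.sum_sum_type, Fintype.sum_sum_type] at h3
    simp only [PoB, zero_mul, sum_const_zero, add_zero] at h3
    exact h3
  funext e
  rcases e with t | v | e
  · have h3 := hb ⟨t.1, hT t.2⟩
    have h4 : ∑ t' : T, (if t.1 = t'.1 then (1 : ZMod 2) else 0) * x (Sum.inl t') =
        x (Sum.inl t) := by
      rw [sum_eq_single t]
      · rw [if_pos rfl, one_mul]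
      · intro t' _ ht'
        rw [if_neg fun h' => ht' (Subtype.ext h'.symm), zero_mul]
      · exact fun h' => absurd (mem_univ _) h'
    have h5 : ∑ v : V, (if t.1 = v.1 then (1 : ZMod 2) else 0) * x (Sum.inr (Sum.inl v)) = 0 := by
      refine sum_eq_zero fun v _ => ?_
      rw [if_neg (fun h' : t.1 = v.1 => disjoint_left.1 hTV t.2 (h' ▸ v.2)), zero_mul]
    rw [h4, h5, add_zero] at h3
    exact h3
  · have h3 := hb ⟨v.1, hV v.2⟩
    have h4 : ∑ v' : V, (if v.1 = v'.1 then (1 : ZMod 2) else 0) * x (Sum.inr (Sum.inl v')) =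
        x (Sum.inr (Sum.inl v)) := by
      rw [sum_eq_single v]
      · rw [if_pos rfl, one_mul]
      · intro v' _ hv'
        rw [if_neg fun h' => hv' (Subtype.ext h'.symm), zero_mul]
      · exact fun h' => absurd (mem_univ _) h'
    have h5 : ∑ t : T, (if v.1 = t.1 then (1 : ZMod 2) else 0) * x (Sum.inl t) = 0 := by
      refine sum_eq_zero fun t _ => ?_
      rw [if_neg (fun h' : v.1 = t.1 => disjoint_left.1 hTV (h' ▸ t.2) v.2), zero_mul]
    rw [h4, h5, zero_add] at h3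
    exact h3
  · exact h1 e

theorem dg_off (D : Dat2 ι κ) {B T : Finset ι} (hT : T ⊆ B) (c : κ → ZMod 2) (q : Off B) :
    (D.off B).dg (coB B T c) q = D.dg c q.1 + ∑ t ∈ T, D.s q.1 t := by
  unfold Dat2.dg
  rw [Fintype.sum_sum_type]
  congr 1
  show ∑ b : B, (if b.1 ∈ T then (1 : ZMod 2) else 0) * D.s q.1 b.1 = _
  rw [sum_coe_sort B fun b => (if b ∈ T then (1 : ZMod 2) else 0) * D.s q.1 b]
  simp only [ite_mul, one_mul, zero_mul]
  rw [← sum_filter, filter_mem_eq_inter, inter_eq_right.2 hT]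

theorem bd_off_T (D : Dat2 ι κ) {B T V : Finset ι} (hT : T ⊆ B) (P : κ → E → ZMod 2) (q : Off B)
    (t : T) : (D.off B).bd (PoB B T V P) q (Sum.inl t) = D.s q.1 t := by
  unfold Dat2.bd
  rw [Fintype.sum_sum_type]
  have h1 : ∑ j : κ, PoB B T V P (Sum.inl j) (Sum.inl t) * (D.off B).a q (Sum.inl j) = 0 :=
    sum_eq_zero fun j _ => by simp only [PoB, zero_mul]
  rw [h1, zero_add, sum_eq_single ⟨t.1, hT t.2⟩]
  · simp only [PoB, if_true, one_mul]
    rfl
  · intro b _ hb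
    simp only [PoB]
    rw [if_neg fun h' => hb (Subtype.ext h'), zero_mul]
  · exact fun h' => absurd (mem_univ _) h'

theorem bd_off_V (D : Dat2 ι κ) {B T V : Finset ι} (hV : V ⊆ B) (P : κ → E → ZMod 2) (q : Off B)
    (v : V) : (D.off B).bd (PoB B T V P) q (Sum.inr (Sum.inl v)) = D.s q.1 v := by
  unfold Dat2.bd
  rw [Fintype.sum_sum_type]
  have h1 : ∑ j : κ, PoB B T V P (Sum.inl j) (Sum.inr (Sum.inl v)) *
      (D.off B).a q (Sum.inl j) = 0 :=
    sum_eq_zero fun j _ => by simp only [PoB, zero_mul]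
  rw [h1, zero_add, sum_eq_single ⟨v.1, hV v.2⟩]
  · simp only [PoB, if_true, one_mul]
    rfl
  · intro b _ hb
    simp only [PoB]
    rw [if_neg fun h' => hb (Subtype.ext h'), zero_mul]
  · exact fun h' => absurd (mem_univ _) h'

theorem bd_off_E (D : Dat2 ι κ) {B T V : Finset ι} (P : κ → E → ZMod 2) (q : Off B) (e : E) :
    (D.off B).bd (PoB B T V P) q (Sum.inr (Sum.inr e)) = D.bd P q.1 e := by
  unfold Dat2.bd
  rw [Fintype.sum_sum_type]
  have h1 : ∑ b : B, PoB B T V P (Sum.inr b) (Sum.inr (Sum.inr e)) *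
      (D.off B).a q (Sum.inr b) = 0 :=
    sum_eq_zero fun j _ => by simp only [PoB, zero_mul]
  rw [h1, add_zero]
  rfl

/-- The vector for the primes outside `B`. -/
def vecO (B T V : Finset ι) (S : Finset (Off B)) (x y : ι → ZMod 2) (z : E → ZMod 2) :
    S ⊕ (T ⊕ (V ⊕ E)) → ZMod 2 :=
  Sum.elim (fun i => x i.1.1) (Sum.elim (fun t => x t) (Sum.elim (fun v => y v) z))

theorem exists_vecO {B T V : Finset ι} (hT : T ⊆ B) {S : Finset (Off B)}
    (w : S ⊕ (T ⊕ (V ⊕ E)) → ZMod 2) : ∃ x y z, w = vecO B T V S x y z := by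
  refine ⟨fun i => if h : i ∈ T then w (Sum.inr (Sum.inl ⟨i, h⟩)) else
      if h : ∃ h : i ∉ B, (⟨i, h⟩ : Off B) ∈ S then w (Sum.inl ⟨⟨i, h.1⟩, h.2⟩) else 0,
    fun v => if h : v ∈ V then w (Sum.inr (Sum.inr (Sum.inl ⟨v, h⟩))) else 0,
    fun e => w (Sum.inr (Sum.inr (Sum.inr e))), ?_⟩
  funext i
  rcases i with i | t | v | e
  · have h1 : i.1.1 ∉ T := fun h => i.1.2 (hT h)
    have h2 : ∃ h : i.1.1 ∉ B, (⟨i.1.1, h⟩ : Off B) ∈ S := ⟨i.1.2, i.2⟩
    show w (Sum.inl i) = _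
    simp only [vecO, Sum.elim_inl, dif_neg h1]
    rw [dif_pos h2]
    rfl
  · simp [vecO]
  · simp [vecO]
  · rfl

/-- The two matrices have the same kernel. -/
theorem NV_iff {D : Dat2 ι κ} (hs : D.Sym) {B T V : Finset ι} (hT : T ⊆ B) (hV : V ⊆ B)
    (c : κ → ZMod 2) (P : κ → E → ZMod 2) (R : Matrix E E (ZMod 2)) (τ α : ι → ZMod 2)
    (S : Finset (Off B)) (hα : ∀ t ∈ T, α t = ∑ q ∈ up S, D.s q t) (x y : ι → ZMod 2)
    (z : E → ZMod 2) :
    (D.NV c P R V τ (up S ∪ T)).mulVec (vec3 (up S ∪ T) V x y z) = 0 ↔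
      ((D.off B).NB (coB B T c) (PoB B T V P) (RoB D T V c P R τ α) S).mulVec
        (vecO B T V S x y z) = 0 := by
  have hST : Disjoint (up S) T := disjoint_of_subset_right hT (disj_up S)
  have hSB : ∀ q ∈ up S, q ∉ B := fun q hq => (mem_up.1 hq).1
  have e2 : ∀ u : ZMod 2, u + u = 0 := Da.z2_add_self
  -- the rows of the primes of `S`
  have r1 : ∀ j : S, ((D.off B).NB (coB B T c) (PoB B T V P) (RoB D T V c P R τ α) S).mulVec
      (vecO B T V S x y z) (Sum.inl j) =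
      D.dg c j.1.1 * x j.1.1 + ∑ l ∈ up S ∪ T, D.s j.1.1 l * (x j.1.1 + x l) +
        (∑ v ∈ V, D.s j.1.1 v * y v + ∑ e, D.bd P j.1.1 e * z e) := by
    intro j
    rw [Dat2.NB_inl, dg_off D hT, Fintype.sum_sum_type, Fintype.sum_sum_type]
    simp only [bd_off_T D hT, bd_off_V D hV, bd_off_E D, vecO, Sum.elim_inl, Sum.elim_inr]
    rw [sum_union hST, sum_up, sum_coe_sort S fun l : Off B => (D.off B).s j.1 l *
      (x j.1.1 + x l.1), sum_coe_sort T fun t => D.s j.1.1 t * x t,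
      sum_coe_sort V fun v => D.s j.1.1 v * y v]
    simp only [mul_add, sum_add_distrib, Dat2.off]
    rw [← sum_mul, ← sum_mul]
    ring
  have r2 : ∀ t : T, ((D.off B).NB (coB B T c) (PoB B T V P) (RoB D T V c P R τ α) S).mulVec
      (vecO B T V S x y z) (Sum.inr (Sum.inl t)) =
      D.dg c t * x t + ∑ l ∈ up S ∪ T, D.s t l * (x t + x l) +
        (∑ v ∈ V, D.s t v * y v + ∑ e, D.bd P t e * z e) := by
    intro t
    rw [Dat2.NB_inr, Fintype.sum_sum_type, Fintype.sum_sum_type]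
    simp only [bd_off_T D hT, vecO, Sum.elim_inl, Sum.elim_inr, RoB]
    rw [sum_coe_sort S fun l : Off B => D.s l.1 t * x l.1,
      sum_coe_sort T fun t' => (if t.1 = t' then D.dg c t + α t + ∑ l ∈ T.erase t, D.s t l
        else D.s t t') * x t', sum_coe_sort V fun v => D.s t v * y v,
      ← sum_up S fun l => D.s l t * x l, ← add_sum_erase T _ t.2, if_pos rfl]
    have h1 : ∑ t' ∈ T.erase t, (if t.1 = t' then D.dg c t + α t + ∑ l ∈ T.erase t, D.s t l
        else D.s t t') * x t' = ∑ t' ∈ T.erase t, D.s t t' * x t' :=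
      sum_congr rfl fun u hu => by rw [if_neg (ne_of_mem_erase hu).symm]
    have h2 : ∑ l ∈ up S, D.s l t * x l = ∑ l ∈ up S, D.s t l * x l :=
      sum_congr rfl fun l hl => by
        rw [hs l t fun h' => hSB l hl (hT (h' ▸ t.2))]
    have h3 : α t = ∑ l ∈ up S, D.s t l := by
      rw [hα t t.2]
      exact sum_congr rfl fun l hl => hs l t fun h' => hSB l hl (hT (h' ▸ t.2))
    have h4 : ∑ l ∈ T, D.s t l * (x t + x l) = ∑ l ∈ T.erase t, D.s t l * (x t + x l) := by
      rw [← add_sum_erase T _ t.2, e2, mul_zero, zero_add]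
    rw [h1, h2, h3, sum_union hST, h4]
    simp only [mul_add, sum_add_distrib]
    rw [← sum_mul, ← sum_mul]
    ring
  have r3 : ∀ v : V, ((D.off B).NB (coB B T c) (PoB B T V P) (RoB D T V c P R τ α) S).mulVec
      (vecO B T V S x y z) (Sum.inr (Sum.inr (Sum.inl v))) =
      ∑ l ∈ up S ∪ T, D.s l v * x l + (τ v * y v + ∑ u ∈ V.erase v, D.s v u * y u +
        ∑ e, D.bd P v e * z e) := by
    intro v
    rw [Dat2.NB_inr, Fintype.sum_sum_type, Fintype.sum_sum_type]
    simp only [bd_off_V D hV, vecO, Sum.elim_inl, Sum.elim_inr, RoB]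
    rw [sum_coe_sort S fun l : Off B => D.s l.1 v * x l.1,
      sum_coe_sort T fun t => D.s t v * x t,
      sum_coe_sort V fun u => (if v.1 = u then τ v else D.s v u) * y u,
      ← sum_up S fun l => D.s l v * x l, sum_union hST, ← add_sum_erase V _ v.2, if_pos rfl]
    have h1 : ∑ u ∈ V.erase v, (if v.1 = u then τ v else D.s v u) * y u =
        ∑ u ∈ V.erase v, D.s v u * y u :=
      sum_congr rfl fun u hu => by rw [if_neg (ne_of_mem_erase hu).symm]
    rw [h1]
    ring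
  have r4 : ∀ e : E, ((D.off B).NB (coB B T c) (PoB B T V P) (RoB D T V c P R τ α) S).mulVec
      (vecO B T V S x y z) (Sum.inr (Sum.inr (Sum.inr e))) =
      ∑ l ∈ up S ∪ T, D.bd P l e * x l + (∑ v ∈ V, D.bd P v e * y v + ∑ f, R e f * z f) := by
    intro e
    rw [Dat2.NB_inr, Fintype.sum_sum_type, Fintype.sum_sum_type]
    simp only [bd_off_E D, vecO, Sum.elim_inl, Sum.elim_inr, RoB]
    rw [sum_coe_sort S fun l : Off B => D.bd P l.1 e * x l.1,
      sum_coe_sort T fun t => D.bd P t e * x t, sum_coe_sort V fun v => D.bd P v e * y v,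
      ← sum_up S fun l => D.bd P l e * x l, sum_union hST]
    ring
  constructor
  · intro h
    funext i
    rcases i with j | t | v | e
    · rw [r1]
      have h1 := congrFun h (Sum.inl ⟨j.1.1, mem_union_left _ (mem_up.2 ⟨j.1.2, j.2⟩)⟩)
      rw [NV_inl] at h1
      exact h1
    · rw [r2]
      have h1 := congrFun h (Sum.inl ⟨t.1, mem_union_right _ t.2⟩)
      rw [NV_inl] at h1
      exact h1
    · rw [r3]
      have h1 := congrFun h (Sum.inr (Sum.inl v))
      rw [NV_inrl] at h1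
      exact h1
    · rw [r4]
      have h1 := congrFun h (Sum.inr (Sum.inr e))
      rw [NV_inrr] at h1
      exact h1
  · intro h
    funext i
    rcases i with j | v | e
    · rw [NV_inl]
      rcases mem_union.1 j.2 with hj | hj
      · obtain ⟨h1, h2⟩ := mem_up.1 hj
        have h3 := congrFun h (Sum.inl ⟨⟨j.1, h1⟩, h2⟩)
        rw [r1] at h3
        exact h3
      · have h3 := congrFun h (Sum.inr (Sum.inl ⟨j.1, hj⟩))
        rw [r2] at h3
        exact h3
    · rw [NV_inrl]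
      have h3 := congrFun h (Sum.inr (Sum.inr (Sum.inl v)))
      rw [r3] at h3
      exact h3
    · rw [NV_inrr]
      have h3 := congrFun h (Sum.inr (Sum.inr (Sum.inr e)))
      rw [r4] at h3
      exact h3

theorem vecO_eq {B T V : Finset ι} {S : Finset (Off B)} {x y x' y' : ι → ZMod 2}
    {z z' : E → ZMod 2} (h : vecO B T V S x y z = vecO B T V S x' y' z') :
    vec3 (up S ∪ T) V x y z = vec3 (up S ∪ T) V x' y' z' := by
  funext i
  rcases i with i | v | e
  · rcases mem_union.1 i.2 with hj | hj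
    · obtain ⟨h1, h2⟩ := mem_up.1 hj
      exact congrFun h (Sum.inl ⟨⟨i.1, h1⟩, h2⟩)
    · exact congrFun h (Sum.inr (Sum.inl ⟨i.1, hj⟩))
  · exact congrFun h (Sum.inr (Sum.inr (Sum.inl v)))
  · exact congrFun h (Sum.inr (Sum.inr (Sum.inr e)))

end Off

/-! ### The densities -/

namespace Da

variable {ι : Type} [DecidableEq ι] {κ : Type} [Fintype κ] [DecidableEq κ] {E : Type}
  [Fintype E] [DecidableEq E] {G : Type} [AddCommGroup G] [Fintype G]

/-- The squarefree integers prime to `B` in the class `g`. -/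
def SB [PS ι] (B : Finset ι) (cl : ι → G) (g : G) (X : ℕ) : Finset (Finset ι) := by
  classical exact (Sx ι X).filter fun S => Disjoint S B ∧ ∑ q ∈ S, cl q = g

theorem mem_SB [PS ι] {B : Finset ι} {cl : ι → G} {g : G} {X : ℕ} {S : Finset ι} :
    S ∈ SB B cl g X ↔ S ∈ Sx ι X ∧ Disjoint S B ∧ ∑ q ∈ S, cl q = g := by
  classical
  rw [SB, mem_filter]

theorem SB_eq [PS ι] {D : Dat2 ι κ} {B : Finset ι} (C : Cl2 (D.off B) G) {cl : ι → G}
    (hcl : ∀ q, C.cl q = cl q.1) (g : G) (X : ℕ) :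
    SB B cl g X = (SG C g X).map ⟨up, up_injective⟩ := by
  ext S
  rw [mem_SB, mem_map]
  constructor
  · rintro ⟨h1, h2, h3⟩
    refine ⟨dn B S, mem_SG.2 ⟨?_, ?_⟩, up_dn h2⟩
    · rw [← up_mem_Sx, up_dn h2]
      exact h1
    · rw [← h3, ← up_dn h2, sum_up, dn_up]
      exact sum_congr rfl fun q _ => hcl q
  · rintro ⟨S', h1, rfl⟩
    obtain ⟨h2, h3⟩ := mem_SG.1 h1
    refine ⟨up_mem_Sx.2 h2, disj_up S', ?_⟩
    rw [← h3]
    exact (sum_up S' cl).trans (sum_congr rfl fun q _ => (hcl q).symm)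

/-- The exceptional case. -/
def TrivV (D : Dat2 ι κ) (c : κ → ZMod 2) (P : κ → E → ZMod 2) (R : Matrix E E (ZMod 2))
    (T V : Finset ι) (αB : ι → ZMod 2) (α : κ → ZMod 2) (γ : E → ZMod 2) : Prop :=
  (∀ j, ∑ e, P j e * γ e = c j) ∧
    (∀ v ∈ V, αB v + ∑ t ∈ T, D.s t v + ∑ e, D.bd P v e * γ e = 0) ∧
    ∀ e, ∑ j, P j e * (α j + ∑ t ∈ T, D.a t j) + ∑ f, R e f * γ f = 0

section

variable {D : Dat2 ι κ} {B T V : Finset ι} {c : κ → ZMod 2} {P : κ → E → ZMod 2}
  {R : Matrix E E (ZMod 2)} {αB : ι → ZMod 2} {α : κ ⊕ B → ZMod 2} {γ : E → ZMod 2}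

/-- The vector on the border. -/
def goB (T V : Finset ι) (γ : E → ZMod 2) : T ⊕ (V ⊕ E) → ZMod 2 :=
  Sum.elim (fun _ => 1) (Sum.elim (fun _ => 0) γ)

theorem goB_fst (h1 : ∀ j, ∑ e, P j e * γ e = c j) (j : κ ⊕ B) :
    ∑ e, PoB B T V P j e * goB T V γ e = coB B T c j := by
  rw [Fintype.sum_sum_type, Fintype.sum_sum_type]
  simp only [goB, Sum.elim_inl, Sum.elim_inr, mul_one, mul_zero, sum_const_zero, zero_add]
  rcases j with j | b
  · simp only [PoB, sum_const_zero, zero_add]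
    exact h1 j
  · simp only [PoB, zero_mul, sum_const_zero, add_zero]
    show ∑ t : T, (if b.1 = t.1 then (1 : ZMod 2) else 0) = if b.1 ∈ T then 1 else 0
    rw [sum_coe_sort T fun t => if b.1 = t then (1 : ZMod 2) else 0, sum_ite_eq]

theorem PoB_sum_T (hT : T ⊆ B) (f : κ ⊕ B → ZMod 2) (t : T) :
    ∑ j, PoB B T V P j (Sum.inl t) * f j = f (Sum.inr ⟨t.1, hT t.2⟩) := by
  rw [Fintype.sum_sum_type]
  have h1 : ∑ j : κ, PoB B T V P (Sum.inl j) (Sum.inl t) * f (Sum.inl j) = 0 :=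
    sum_eq_zero fun j _ => by simp only [PoB, zero_mul]
  rw [h1, zero_add, sum_eq_single ⟨t.1, hT t.2⟩]
  · simp only [PoB, if_true, one_mul]
  · intro b _ hb
    simp only [PoB]
    rw [if_neg fun h' => hb (Subtype.ext h'), zero_mul]
  · exact fun h' => absurd (mem_univ _) h'

theorem PoB_sum_V (hV : V ⊆ B) (f : κ ⊕ B → ZMod 2) (v : V) :
    ∑ j, PoB B T V P j (Sum.inr (Sum.inl v)) * f j = f (Sum.inr ⟨v.1, hV v.2⟩) := by
  rw [Fintype.sum_sum_type]
  have h1 : ∑ j : κ, PoB B T V P (Sum.inl j) (Sum.inr (Sum.inl v)) * f (Sum.inl j) = 0 :=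
    sum_eq_zero fun j _ => by simp only [PoB, zero_mul]
  rw [h1, zero_add, sum_eq_single ⟨v.1, hV v.2⟩]
  · simp only [PoB, if_true, one_mul]
  · intro b _ hb
    simp only [PoB]
    rw [if_neg fun h' => hb (Subtype.ext h'), zero_mul]
  · exact fun h' => absurd (mem_univ _) h'

theorem PoB_sum_E (f : κ ⊕ B → ZMod 2) (e : E) :
    ∑ j, PoB B T V P j (Sum.inr (Sum.inr e)) * f j = ∑ j, P j e * f (Sum.inl j) := by
  rw [Fintype.sum_sum_type]
  have h1 : ∑ b : B, PoB B T V P (Sum.inr b) (Sum.inr (Sum.inr e)) * f (Sum.inr b) = 0 :=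
    sum_eq_zero fun j _ => by simp only [PoB, zero_mul]
  rw [h1, add_zero]
  rfl

theorem RoB_sum_T (τ : ι → ZMod 2) (hc : ∀ j, ∑ e, P j e * γ e = c j) (t : T) :
    ∑ f, RoB D T V c P R τ αB (Sum.inl t) f * goB T V γ f = αB t := by
  rw [Fintype.sum_sum_type, Fintype.sum_sum_type]
  simp only [goB, Sum.elim_inl, Sum.elim_inr, mul_one, mul_zero, sum_const_zero, zero_add, RoB]
  rw [sum_coe_sort T fun t' => (if t.1 = t' then D.dg c t + αB t + ∑ l ∈ T.erase t, D.s t l
        else D.s t t'), ← add_sum_erase T _ t.2, if_pos rfl]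
  have h1 : ∑ t' ∈ T.erase t, (if t.1 = t' then D.dg c t + αB t + ∑ l ∈ T.erase t, D.s t l
        else D.s t t') = ∑ t' ∈ T.erase t, D.s t t' :=
    sum_congr rfl fun u hu => by rw [if_neg (ne_of_mem_erase hu).symm]
  have h2 : ∑ e, D.bd P t e * γ e = D.dg c t := by
    unfold Dat2.bd Dat2.dg
    simp only [sum_mul]
    rw [sum_comm]
    refine sum_congr rfl fun i _ => ?_
    rw [← hc i, sum_mul]
    exact sum_congr rfl fun e _ => by ring
  rw [h1, h2]
  have e1 := z2_add_self (D.dg c t)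
  have e2 := z2_add_self (∑ t' ∈ T.erase t, D.s t t')
  linear_combination e1 + e2

/-- The trivial vectors of the two systems. -/
theorem triv_iff (hT : T ⊆ B) (hV : V ⊆ B) (hTV : Disjoint T V)
    (τ : ι → ZMod 2) (hα : ∀ b : B, αB b = α (Sum.inr b)) :
    Triv (coB B T c) (PoB B T V P) (RoB D T V c P R τ αB) α ↔
      ∃ γ, TrivV D c P R T V αB (fun j => α (Sum.inl j)) γ := by
  constructor
  · rintro ⟨γ', h1, h2⟩
    set γ : E → ZMod 2 := fun e => γ' (Sum.inr (Sum.inr e)) with hγ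
    have hc : ∀ j, ∑ e, P j e * γ e = c j := by
      intro j
      have h3 := h1 (Sum.inl j)
      rw [Fintype.sum_sum_type, Fintype.sum_sum_type] at h3
      simp only [PoB, zero_mul, sum_const_zero, zero_add] at h3
      exact h3
    have hb : ∀ b : B, ∑ t : T, (if b.1 = t.1 then 1 else 0) * γ' (Sum.inl t) +
        ∑ v : V, (if b.1 = v.1 then 1 else 0) * γ' (Sum.inr (Sum.inl v)) =
          if b.1 ∈ T then 1 else 0 := by
      intro b
      have h3 := h1 (Sum.inr b)
      rw [Fintype.sum_sum_type, Fintype.sum_sum_type] at h3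
      simp only [PoB, zero_mul, sum_const_zero, add_zero] at h3
      exact h3
    have hg : γ' = goB T V γ := by
      funext e
      rcases e with t | v | e
      · have h3 := hb ⟨t.1, hT t.2⟩
        have h4 : ∑ t' : T, (if t.1 = t'.1 then (1 : ZMod 2) else 0) * γ' (Sum.inl t') =
            γ' (Sum.inl t) := by
          rw [sum_eq_single t]
          · rw [if_pos rfl, one_mul]
          · intro t' _ ht'
            rw [if_neg fun h' => ht' (Subtype.ext h'.symm), zero_mul]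
          · exact fun h' => absurd (mem_univ _) h'
        have h5 : ∑ v : V, (if t.1 = v.1 then (1 : ZMod 2) else 0) *
            γ' (Sum.inr (Sum.inl v)) = 0 := by
          refine sum_eq_zero fun v _ => ?_
          rw [if_neg (fun h' : t.1 = v.1 => disjoint_left.1 hTV t.2 (h' ▸ v.2)), zero_mul]
        rw [h4, h5, add_zero, if_pos t.2] at h3
        exact h3
      · have h3 := hb ⟨v.1, hV v.2⟩
        have h4 : ∑ v' : V, (if v.1 = v'.1 then (1 : ZMod 2) else 0) *
            γ' (Sum.inr (Sum.inl v')) = γ' (Sum.inr (Sum.inl v)) := by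
          rw [sum_eq_single v]
          · rw [if_pos rfl, one_mul]
          · intro v' _ hv'
            rw [if_neg fun h' => hv' (Subtype.ext h'.symm), zero_mul]
          · exact fun h' => absurd (mem_univ _) h'
        have h5 : ∑ t : T, (if v.1 = t.1 then (1 : ZMod 2) else 0) * γ' (Sum.inl t) = 0 := by
          refine sum_eq_zero fun t _ => ?_
          rw [if_neg (fun h' : v.1 = t.1 => disjoint_left.1 hTV (h' ▸ t.2) v.2), zero_mul]
        rw [h4, h5, zero_add, if_neg fun h' => disjoint_left.1 hTV h' v.2] at h3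
        exact h3
      · rfl
    have h2 : ∀ e, ∑ j, PoB B T V P j e * α j +
        ∑ f, RoB D T V c P R τ αB e f * goB T V γ f = 0 := by
      rw [← hg]
      exact h2
    refine ⟨γ, hc, fun v hv => ?_, fun e => ?_⟩
    · have h3 := h2 (Sum.inr (Sum.inl ⟨v, hv⟩))
      rw [PoB_sum_V hV, ← hα ⟨v, hV hv⟩, Fintype.sum_sum_type, Fintype.sum_sum_type] at h3
      simp only [goB, Sum.elim_inl, Sum.elim_inr, mul_one, mul_zero, sum_const_zero, zero_add,
        RoB] at h3
      rw [sum_coe_sort T fun t => D.s t v] at h3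
      rw [← h3]
      ring
    · have h3 := h2 (Sum.inr (Sum.inr e))
      rw [PoB_sum_E, Fintype.sum_sum_type, Fintype.sum_sum_type] at h3
      simp only [goB, Sum.elim_inl, Sum.elim_inr, mul_one, mul_zero, sum_const_zero, zero_add,
        RoB] at h3
      rw [sum_coe_sort T fun t => D.bd P t e] at h3
      rw [← h3]
      have h4 : ∑ j, P j e * (α (Sum.inl j) + ∑ t ∈ T, D.a t j) =
          ∑ j, P j e * α (Sum.inl j) + ∑ t ∈ T, D.bd P t e := by
        simp only [mul_add, sum_add_distrib, mul_sum]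
        congr 1
        rw [sum_comm]
        rfl
      rw [h4]
      ring
  · rintro ⟨γ, hc, h1, h2⟩
    refine ⟨goB T V γ, goB_fst hc, fun e => ?_⟩
    rcases e with t | v | e
    · rw [PoB_sum_T hT, ← hα ⟨t.1, hT t.2⟩, RoB_sum_T τ hc]
      exact z2_add_self _
    · rw [PoB_sum_V hV, ← hα ⟨v.1, hV v.2⟩, Fintype.sum_sum_type, Fintype.sum_sum_type]
      simp only [goB, Sum.elim_inl, Sum.elim_inr, mul_one, mul_zero, sum_const_zero, zero_add,
        RoB]
      rw [sum_coe_sort T fun t => D.s t v, ← h1 v v.2]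
      ring
    · rw [PoB_sum_E, Fintype.sum_sum_type, Fintype.sum_sum_type]
      simp only [goB, Sum.elim_inl, Sum.elim_inr, mul_one, mul_zero, sum_const_zero, zero_add,
        RoB]
      rw [sum_coe_sort T fun t => D.bd P t e, ← h2 e]
      have h4 : ∑ j, P j e * (α (Sum.inl j) + ∑ t ∈ T, D.a t j) =
          ∑ j, P j e * α (Sum.inl j) + ∑ t ∈ T, D.bd P t e := by
        simp only [mul_add, sum_add_distrib, mul_sum]
        congr 1
        rw [sum_comm]
        rfl
      rw [h4]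
      ring

end

variable [PS ι]

/-- **Part D** with a fixed finite set of primes: the matrix is nonsingular with lower density at
least `∏_{i ≥ 0} (1 - 2^{-(2i+1)})`. -/
theorem densB_ne {D : Dat2 ι κ} (hD : D.OK) {B T V : Finset ι} (hT : T ⊆ B) (hV : V ⊆ B)
    (hTV : Disjoint T V) (C : Cl2 (D.off B) G) (h3 : C.H3) {cl : ι → G}
    (hcl : ∀ q, C.cl q = cl q.1) {c : κ → ZMod 2} {P : κ → E → ZMod 2}
    {R : Matrix E E (ZMod 2)} (hR : ∀ e f, R e f = R f e)
    (hP : ∀ x : E → ZMod 2, (∀ j, ∑ e, P j e * x e = 0) → x = 0) (τ : ι → ZMod 2) (g : G)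
    {αB : ι → ZMod 2} (hα : ∀ b : B, αB b = C.A (Sum.inr b) g)
    (hn : ∀ γ, ¬ TrivV D c P R T V αB (fun j => C.A (Sum.inl j) g) γ)
    {κ₀ : ℝ} (hκ : κ₀ < cinf2) (ε : ℝ) (hε : 0 < ε) :
    ∃ X₀ : ℕ, ∀ X : ℕ, X₀ ≤ X →
      κ₀ * ((SB B cl g X).card : ℝ) - ε * X ≤
        ((SB B cl g X).filter fun S => (D.NV c P R V τ (S ∪ T)).det ≠ 0).card := by
  have hT' : ¬ Triv (coB B T c) (PoB B T V P) (RoB D T V c P R τ αB) fun j => C.A j g := by
    rw [triv_iff (α := fun j => C.A j g) hT hV hTV τ hα]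
    rintro ⟨γ, hγ⟩
    exact hn γ hγ
  obtain ⟨X0, h0⟩ := densQ_ne (OK_off hD B) C h3 (RoB_symm hD.sym T V c P hR τ αB)
    (PoB_inj hT hV hTV hP) g hT' hκ ε hε
  refine ⟨X0, fun X hX => ?_⟩
  rw [SB_eq C hcl, filter_map, card_map, card_map]
  refine (h0 X hX).trans ?_
  rw [Nat.cast_le]
  refine card_le_card fun S hS => ?_
  rw [mem_filter] at hS ⊢
  refine ⟨hS.1, fun h => hS.2 ?_⟩
  obtain ⟨w, hw, hw0⟩ := Matrix.exists_mulVec_eq_zero_iff.2 h
  obtain ⟨x, y, z, rfl⟩ := exists_vec3 w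
  have hαS : ∀ t ∈ T, αB t = ∑ q ∈ up S, D.s q t := by
    intro t ht
    rw [hα ⟨t, hT ht⟩, ← sum_a_of_mem C hS.1, sum_up]
    rfl
  have h4 := (NV_iff hD.sym hT hV c P R τ αB S hαS x y z).1 hw0
  refine Matrix.exists_mulVec_eq_zero_iff.1 ⟨_, fun h5 => hw ?_, h4⟩
  have h6 : vecO B T V S x y z = vecO B T V S 0 0 0 := by
    rw [h5]
    funext i
    rcases i with i | t | v | e <;> rfl
  have h7 := vecO_eq h6
  show vec3 (up S ∪ T) V x y z = 0
  rw [h7]
  funext i
  rcases i with i | v | e <;> rfl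

/-- **Part D** with a fixed finite set of primes, trivial vector `γ`: the kernel is generated by it
with lower density at least the infinite product. -/
theorem densB_ker {D : Dat2 ι κ} (hD : D.OK) {B T V : Finset ι} (hT : T ⊆ B) (hV : V ⊆ B)
    (hTV : Disjoint T V) (C : Cl2 (D.off B) G) (h3 : C.H3) {cl : ι → G}
    (hcl : ∀ q, C.cl q = cl q.1) {c : κ → ZMod 2} {P : κ → E → ZMod 2}
    {R : Matrix E E (ZMod 2)} (hR : ∀ e f, R e f = R f e)
    (hP : ∀ x : E → ZMod 2, (∀ j, ∑ e, P j e * x e = 0) → x = 0) (τ : ι → ZMod 2) (g : G)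
    {αB : ι → ZMod 2} (hα : ∀ b : B, αB b = C.A (Sum.inr b) g) {γ : E → ZMod 2}
    (hγ : TrivV D c P R T V αB (fun j => C.A (Sum.inl j) g) γ)
    {κ₀ : ℝ} (hκ : κ₀ < cinf2) (ε : ℝ) (hε : 0 < ε) :
    ∃ X₀ : ℕ, ∀ X : ℕ, X₀ ≤ X →
      κ₀ * ((SB B cl g X).card : ℝ) - ε * X ≤
        ((SB B cl g X).filter fun S => S ≠ ∅ ∧ ∀ w, (D.NV c P R V τ (S ∪ T)).mulVec w = 0 →
          w = 0 ∨ w = Sum.elim (fun _ => 1) (Sum.elim (fun _ => 0) γ)).card := by
  have h2 : ∀ e, ∑ j, PoB B T V P j e * C.A j g +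
      ∑ f, RoB D T V c P R τ αB e f * goB T V γ f = 0 := by
    have h4 := (triv_iff (α := fun j => C.A j g) (c := c) (P := P) (R := R) hT hV hTV τ
      hα).2 ⟨γ, hγ⟩
    obtain ⟨γ', h5, h6⟩ := h4
    have h7 : γ' = goB T V γ := by
      have h8 : γ' - goB T V γ = 0 := PoB_inj hT hV hTV hP _ fun j => by
        simp only [Pi.sub_apply, mul_sub, sum_sub_distrib]
        rw [h5, goB_fst hγ.1, sub_self]
      exact sub_eq_zero.1 h8
    rw [← h7]
    exact h6
  obtain ⟨X0, h0⟩ := densQ_ker (OK_off hD B) C h3 (RoB_symm hD.sym T V c P hR τ αB)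
    (PoB_inj hT hV hTV hP) g (goB_fst hγ.1) h2 hκ ε hε
  refine ⟨X0, fun X hX => ?_⟩
  rw [SB_eq C hcl, filter_map, card_map, card_map]
  refine (h0 X hX).trans ?_
  rw [Nat.cast_le]
  refine card_le_card fun S hS => ?_
  simp only [mem_filter] at hS ⊢
  obtain ⟨hS1, hS2, hS3⟩ := hS
  refine ⟨hS1, fun h => hS2 ?_, fun w hw => ?_⟩
  · have h5 : up S = ∅ := h
    rw [← dn_up S, h5]
    rfl
  · obtain ⟨x, y, z, rfl⟩ := exists_vec3 w
    have hαS : ∀ t ∈ T, αB t = ∑ q ∈ up S, D.s q t := by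
      intro t ht
      rw [hα ⟨t, hT ht⟩, ← sum_a_of_mem C hS1, sum_up]
      rfl
    have h4 := (NV_iff hD.sym hT hV c P R τ αB S hαS x y z).1 hw
    rcases hS3 _ h4 with h5 | h5
    · left
      have h6 : vecO B T V S x y z = vecO B T V S 0 0 0 := by
        rw [h5]
        funext i
        rcases i with i | t | v | e <;> rfl
      have h7 := vecO_eq h6
      show vec3 (up S ∪ T) V x y z = 0
      rw [h7]
      funext i
      rcases i with i | v | e <;> rfl
    · right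
      have h6 : vecO B T V S x y z = vecO B T V S (fun _ => 1) 0 γ := by
        rw [h5]
        funext i
        rcases i with i | t | v | e <;> rfl
      have h7 := vecO_eq h6
      show vec3 (up S ∪ T) V x y z = _
      rw [h7]
      rfl

end Da

end

end Pool.Agent.Lib.MP_1a91b9_ntQ
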