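import Pool.Agent.Lib.MP_1a91b9_ntQ.D.Fin4

/-!
# MP_1a91b9_nt (the family `y² = x³ - δ² x`), part D: the good sets of primes and their density

`Gd5 k j S` is the condition on the matrices for `δ = i ^ k lam ^ j ∏ (q ∈ S) q`. `density_Gd5`: the
property `Gd5` has lower density at least `κ' < cinf2` among the squarefree `δ` with a condition
`R δ`.
-/

set_option autoImplicit false

namespace Pool.Agent.Lib.MP_1a91b9_ntQ

open NumberField Finset
open Pool.Agent.Lib.MP_1a91b9_ntH (PS nm Sx mem_Sx)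

noncomputable section

/-- The Laplacian with a nonzero slope is nonsingular. -/
theorem dens4_N (m : ℕ) (g : G4n m) (k l : ZMod 2) (hkl : k = 1 ∨ l = 1) {κ₀ : ℝ}
    (hκ : κ₀ < Da.cinf2) :
    DS m g κ₀ fun S => (N4 s4 (fun q => k * aa q.1 + l * bb q.1) S).det ≠ 0 := by
  have hc : cv k l ≠ 0 := by
    intro h
    rcases hkl with rfl | rfl
    · exact one_ne_zero (congrFun h 0)
    · exact one_ne_zero (congrFun h 1)
  have e : kc (cv k l) = fun q => k * aa q.1 + l * bb q.1 := funext fun q => kc_cv k l q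
  refine glue4 (Da.dens_I d4_OK (C4m m) (C4m_H3 m) hc g hκ) fun S h => ?_
  rw [N4_d4, e] at h
  exact h

/-- `0`, `1` modulo `2`. -/
def jj (j : Fin 2) : ZMod 2 := if j = 1 then 1 else 0

/-- **The good sets of primes** for `δ = i ^ k lam ^ j ∏ q`. -/
def Gd5 (k : ZMod 4) (j : Fin 2) (S : Finset Pg) : Prop :=
  (md k = 1 ∨ j = 1 → (N4 s4 (fun q => md k * aa q.1 + jj j * bb q.1) S).det ≠ 0) ∧
  (md k = 0 → j = 0 → ∑ q ∈ S, aa q.1 = 1 → K2 S) ∧
  (md k = 0 → j = 0 → ∑ q ∈ S, aa q.1 = 0 → K3 (∑ q ∈ S, bb q.1) S)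

/-- **The good sets have lower density at least `κ₀` in every class.** -/
theorem gd5 {m : ℕ} (k : ZMod 4) (j : Fin 2) (g : G4n m) {κ₀ : ℝ}
    (hκ : κ₀ < Da.cinf2) : DS m g κ₀ (Gd5 k j) := by
  have h2 : ∀ x : ZMod 2, x = 0 ∨ x = 1 := by decide
  have hj : ∀ j : Fin 2, j = 0 ∨ j = 1 := by decide
  by_cases h : md k = 1 ∨ j = 1
  · have hkl : md k = 1 ∨ jj j = 1 := by
      rcases h with h | h
      · exact Or.inl h
      · refine Or.inr ?_
        rw [h]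
        rfl
    refine (dens4_N m g (md k) (jj j) hkl hκ).mono fun S _ h3 => ⟨fun _ => h3,
      fun h4 h5 => absurd h ?_, fun h4 h5 => absurd h ?_⟩
    · rw [h4, h5]
      decide
    · rw [h4, h5]
      decide
  · push Not at h
    have hk : md k = 0 := (h2 (md k)).resolve_right h.1
    have hA : ∀ S : Finset Pg, ∑ q ∈ S, clq m q = g → ∑ q ∈ S, aa q.1 = A4 m 0 g := by
      intro S h
      rw [← h, A4_zero_sum]
    have hB : ∀ S : Finset Pg, ∑ q ∈ S, clq m q = g → ∑ q ∈ S, bb q.1 = A4 m 1 g := by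
      intro S h
      rw [← h, A4_one_sum]
    rcases h2 (A4 m 0 g) with hg | hg
    · refine (dens4_III m g hg (A4 m 1 g) hκ).mono fun S hS h3 => ⟨fun h4 => ?_,
        fun _ _ h4 => ?_, fun _ _ _ => ?_⟩
      · rcases h4 with h4 | h4
        · exact absurd h4 h.1
        · exact absurd h4 h.2
      · rw [hA S hS, hg] at h4
        exact absurd h4 zero_ne_one
      · rw [hB S hS]
        exact h3
    · refine (dens4_II m g hκ).mono fun S hS h3 => ⟨fun h4 => ?_, fun _ _ _ => h3,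
        fun _ _ h4 => ?_⟩
      · rcases h4 with h4 | h4
        · exact absurd h4 h.1
        · exact absurd h4 h.2
      · rw [hA S hS, hg] at h4
        exact absurd h4 one_ne_zero

/-- **The density of the good squarefree `δ` with a condition `R`** which only depends on the power of
`i`, the power of `lam` and the class modulo `lam ^ (m + 5)` of the primary factor. -/
theorem density_Gd5 (m : ℕ) (R : 𝓞 K4 → Prop)
    (hR : ∀ (k : ZMod 4) (j : Fin 2) (y y' : 𝓞 K4), In4 y → In4 y' → lam ^ (m + 5) ∣ y - y' →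
      (R (Den4.ph k j y) ↔ R (Den4.ph k j y')))
    (hne : ∃ (k : ZMod 4) (j : Fin 2) (y : 𝓞 K4), In4 y ∧ R (Den4.ph k j y))
    (κ' : ℝ) (hκ : κ' < Da.cinf2) (Pr : 𝓞 K4 → Prop)
    (hPr : ∀ (k : ZMod 4) (j : Fin 2) (S : Finset Pg), R (Den4.ph k j (DDq S)) → Gd5 k j S →
      Pr (Den4.ph k j (DDq S))) :
    ∀ᶠ X : ℝ in Filter.atTop,
      κ' ≤ (Nat.card {x : 𝓞 K4 // Squarefree x ∧ R x ∧ |Algebra.norm ℤ x| ≤ X ∧ Pr x} : ℝ) /
        (Nat.card {x : 𝓞 K4 // Squarefree x ∧ R x ∧ |Algebra.norm ℤ x| ≤ X} : ℝ) := by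
  have h1 : κ' < (κ' + Da.cinf2) / 2 := by linarith
  have h2 : (κ' + Da.cinf2) / 2 < Da.cinf2 := by linarith
  exact density4 m R hR hne ((κ' + Da.cinf2) / 2) κ' h1 Gd5
    (fun k j g _ ε hε => gd5 k j g h2 ε hε) Pr hPr

/-- The density in a class `u` modulo `M`, a divisor of `lam ^ (m + 5)`, `u` not divisible by
`lam²`. -/
theorem density_Gd5_cls (m : ℕ) {M u : 𝓞 K4} (hM : M ∣ lam ^ (m + 5))
    (hu : ¬ lam ^ 2 ∣ u) (κ' : ℝ) (hκ : κ' < Da.cinf2) (Pr : 𝓞 K4 → Prop)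
    (hPr : ∀ (k : ZMod 4) (j : Fin 2) (S : Finset Pg), M ∣ Den4.ph k j (DDq S) - u →
      Gd5 k j S → Pr (Den4.ph k j (DDq S))) :
    ∀ᶠ X : ℝ in Filter.atTop,
      κ' ≤ (Nat.card {x : 𝓞 K4 // Squarefree x ∧ M ∣ x - u ∧ |Algebra.norm ℤ x| ≤ X ∧ Pr x} : ℝ) /
        (Nat.card {x : 𝓞 K4 // Squarefree x ∧ M ∣ x - u ∧ |Algebra.norm ℤ x| ≤ X} : ℝ) := by
  have h1 : κ' < (κ' + Da.cinf2) / 2 := by linarith
  have h2 : (κ' + Da.cinf2) / 2 < Da.cinf2 := by linarith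
  exact density4_cls m hM hu ((κ' + Da.cinf2) / 2) κ' h1 Gd5
    (fun k j g _ ε hε => gd5 k j g h2 ε hε) Pr hPr

end

end Pool.Agent.Lib.MP_1a91b9_ntQ
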