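import Pool.Agent.Lib.MP_1a91b9_ntQ.D.Mom2

/-!
# MP_1a91b9_nt (quartic twists), part D: the limit of the partial sums is an infinite product
-/

set_option autoImplicit false

namespace Pool.Agent.Lib.MP_1a91b9_ntQ.Da

open Finset Filter Topology

noncomputable section

/-- The limit density `∏_{i ≥ 0} (1 - 2^{-(2i+1)}) = 0.4194...`. -/
def cinf2 : ℝ := ∏' i : ℕ, (1 - (1 / 2 : ℝ) ^ (2 * i + 1))

/-- The coefficients `1 / ∏_{i=1}^{j} (1 - 2^{-i})`. -/
def ac2 (j : ℕ) : ℝ := (∏ i ∈ range j, (1 - (1 / 2 : ℝ) ^ (i + 1)))⁻¹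

theorem one_sub_pos2 (i : ℕ) : 0 < 1 - (1 / 2 : ℝ) ^ (i + 1) := by
  have : (1 / 2 : ℝ) ^ (i + 1) < 1 := pow_lt_one₀ (by norm_num) (by norm_num) (by omega)
  linarith

theorem ac2_pos (j : ℕ) : 0 < ac2 j := inv_pos.2 (prod_pos fun i _ => one_sub_pos2 i)

theorem ac2_succ (j : ℕ) : ac2 (j + 1) * (1 - (1 / 2 : ℝ) ^ (j + 1)) = ac2 j := by
  have h := one_sub_pos2 j
  rw [ac2, prod_range_succ, mul_inv, ← ac2, mul_assoc, inv_mul_cancel₀ h.ne', mul_one]

theorem prod_lower2 (j : ℕ) : (1 / 4 : ℝ) + (1 / 2) * (1 / 2) ^ j ≤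
    ∏ i ∈ range j, (1 - (1 / 2 : ℝ) ^ (i + 1)) := by
  induction j with
  | zero => norm_num
  | succ j ih =>
    rcases j with _ | j
    · norm_num
    · rw [prod_range_succ]
      have h1 := one_sub_pos2 (j + 1)
      have hx : 0 < (1 / 2 : ℝ) ^ (j + 1) := by positivity
      have hx1 : (1 / 2 : ℝ) ^ (j + 1) ≤ 1 / 2 := by
        rw [pow_succ]
        have : (1 / 2 : ℝ) ^ j ≤ 1 := pow_le_one₀ (by norm_num) (by norm_num)
        linarith
      refine le_trans ?_ (mul_le_mul_of_nonneg_right ih h1.le)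
      rw [pow_succ (1 / 2 : ℝ) (j + 1)]
      nlinarith

theorem ac2_le (j : ℕ) : ac2 j ≤ 4 := by
  have h1 := prod_lower2 j
  have h2 : 0 < (1 / 2 : ℝ) ^ j := by positivity
  rw [ac2, inv_le_comm₀ (prod_pos fun i _ => one_sub_pos2 i) (by norm_num)]
  linarith

/-- The series `∑ z^j / ∏_{i=1}^{j} (1 - 2^{-i})`. -/
def fs2 (z : ℝ) : ℝ := ∑' j, ac2 j * z ^ j

theorem summable_fs2 {z : ℝ} (hz : |z| < 1) : Summable fun j => ac2 j * z ^ j := by
  refine Summable.of_norm_bounded (g := fun j => 4 * |z| ^ j)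
    ((summable_geometric_of_lt_one (abs_nonneg z) hz).mul_left _) fun j => ?_
  rw [norm_mul, norm_pow, Real.norm_eq_abs, Real.norm_eq_abs, abs_of_pos (ac2_pos j)]
  exact mul_le_mul_of_nonneg_right (ac2_le j) (by positivity)

theorem fs2_eq {z : ℝ} (hz : |z| < 1) : (1 - z) * fs2 z = fs2 (z * (1 / 2)) := by
  have hz4 : |z * (1 / 2)| < 1 := by
    rw [abs_mul, abs_of_pos (by norm_num : (0 : ℝ) < 1 / 2)]
    linarith [abs_nonneg z]
  have h1 := summable_fs2 hz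
  have h2 := summable_fs2 hz4
  have h3 : fs2 z - fs2 (z * (1 / 2)) = z * fs2 z := by
    rw [fs2, fs2, ← h1.tsum_sub h2, ← tsum_mul_left,
      (h1.sub h2).tsum_eq_zero_add]
    simp only [pow_zero, mul_one, sub_self, zero_add]
    refine tsum_congr fun j => ?_
    rw [mul_pow]
    have := ac2_succ j
    rw [← this]
    ring
  linarith

theorem fs2_iter (n : ℕ) : (∏ i ∈ range n, (1 + (1 / 2 : ℝ) ^ (i + 1))) * fs2 (-1 / 2) =
    fs2 (-1 / 2 * (1 / 2) ^ n) := by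
  induction n with
  | zero => simp
  | succ n ih =>
    have hz : |(-1 / 2 : ℝ) * (1 / 2) ^ n| < 1 := by
      rw [abs_mul, abs_of_pos (by positivity : (0 : ℝ) < (1 / 2) ^ n)]
      have : (1 / 2 : ℝ) ^ n ≤ 1 := pow_le_one₀ (by norm_num) (by norm_num)
      have h : |(-1 / 2 : ℝ)| = 1 / 2 := by rw [abs_of_neg (by norm_num)]; norm_num
      rw [h]
      linarith
    have h1 := fs2_eq hz
    have h2 : (1 / 2 : ℝ) ^ (n + 1) = 1 / 2 * (1 / 2) ^ n := pow_succ' _ _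
    rw [prod_range_succ, h2]
    calc _ = (1 - -1 / 2 * (1 / 2) ^ n) *
          ((∏ i ∈ range n, (1 + (1 / 2 : ℝ) ^ (i + 1))) * fs2 (-1 / 2)) := by ring
      _ = fs2 (-1 / 2 * (1 / 2) ^ n * (1 / 2)) := by rw [ih, h1]
      _ = _ := by ring_nf

theorem fs2_near {z : ℝ} (hz : |z| ≤ 1 / 2) : |fs2 z - 1| ≤ 8 * |z| := by
  have hz1 : |z| < 1 := by linarith
  have h1 := summable_fs2 hz1
  have h2 : fs2 z - 1 = ∑' j, ac2 (j + 1) * z ^ (j + 1) := by
    rw [fs2, h1.tsum_eq_zero_add]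
    simp [ac2]
  rw [h2, ← Real.norm_eq_abs]
  have h3 : HasSum (fun j => 4 * |z| * |z| ^ j) (4 * |z| * (1 - |z|)⁻¹) :=
    (hasSum_geometric_of_lt_one (abs_nonneg z) hz1).mul_left _
  refine (tsum_of_norm_bounded h3 fun j => ?_).trans ?_
  · rw [norm_mul, norm_pow, Real.norm_eq_abs, Real.norm_eq_abs, abs_of_pos (ac2_pos _), pow_succ]
    calc ac2 (j + 1) * (|z| ^ j * |z|) ≤ 4 * (|z| ^ j * |z|) :=
          mul_le_mul_of_nonneg_right (ac2_le _) (by positivity)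
      _ = 4 * |z| * |z| ^ j := by ring
  · have h4 : (1 - |z|)⁻¹ ≤ 2 := by
      rw [inv_le_comm₀ (by linarith) (by norm_num)]
      linarith
    nlinarith [abs_nonneg z]

theorem tendsto_prod2 : Tendsto (fun n => (∏ i ∈ range n, (1 + (1 / 2 : ℝ) ^ (i + 1))) *
    fs2 (-1 / 2)) atTop (𝓝 1) := by
  simp only [fs2_iter]
  rw [tendsto_iff_dist_tendsto_zero]
  have h0 : Tendsto (fun n : ℕ => 4 * (1 / 2 : ℝ) ^ n) atTop (𝓝 0) := by
    have := (tendsto_pow_atTop_nhds_zero_of_lt_one (r := (1 / 2 : ℝ)) (by norm_num)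
      (by norm_num)).const_mul 4
    rwa [mul_zero] at this
  refine squeeze_zero (fun _ => dist_nonneg) (fun n => ?_) h0
  have hp : (0 : ℝ) < (1 / 2) ^ n := by positivity
  have habs : |(-1 / 2 : ℝ) * (1 / 2) ^ n| = 1 / 2 * (1 / 2) ^ n := by
    rw [abs_mul, abs_of_pos hp, abs_of_neg (by norm_num : (-1 / 2 : ℝ) < 0)]
    ring
  rw [Real.dist_eq]
  refine (fs2_near ?_).trans ?_
  · rw [habs]
    have : (1 / 2 : ℝ) ^ n ≤ 1 := pow_le_one₀ (by norm_num) (by norm_num)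
    linarith
  · rw [habs]
    linarith

/-- Euler's identity for the partial products. -/
theorem euler_part (n : ℕ) : (∏ i ∈ range n, (1 - (1 / 2 : ℝ) ^ (2 * i + 1))) *
    (∏ i ∈ range n, (1 + (1 / 2 : ℝ) ^ (i + 1))) * ∏ i ∈ range n, (1 - (1 / 2 : ℝ) ^ (i + 1)) =
      ∏ i ∈ range (2 * n), (1 - (1 / 2 : ℝ) ^ (i + 1)) := by
  induction n with
  | zero => simp
  | succ n ih =>
    rw [show 2 * (n + 1) = 2 * n + 1 + 1 by ring, prod_range_succ _ (2 * n + 1),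
      prod_range_succ _ (2 * n), ← ih, prod_range_succ, prod_range_succ, prod_range_succ]
    have h : (1 / 2 : ℝ) ^ (2 * n + 1 + 1) = (1 / 2) ^ (n + 1) * (1 / 2) ^ (n + 1) := by
      rw [← pow_add]
      ring_nf
    rw [h]
    ring

theorem cinf2_eq : cinf2 = fs2 (-1 / 2) := by
  have hs : Summable fun i : ℕ => (1 / 2 : ℝ) ^ (i + 1) := by
    have h1 : Summable fun i : ℕ => (1 / 2 : ℝ) * (1 / 2) ^ i :=
      (summable_geometric_of_lt_one (by norm_num) (by norm_num)).mul_left _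
    exact h1.congr fun i => (pow_succ' _ _).symm
  have hsB : Multipliable fun i : ℕ => (1 - (1 / 2 : ℝ) ^ (i + 1)) := by
    have := Real.multipliable_one_add_of_summable (f := fun i : ℕ => -(1 / 2 : ℝ) ^ (i + 1)) hs.neg
    exact this.congr fun i => (sub_eq_add_neg _ _).symm
  have hsA : Multipliable fun i : ℕ => (1 + (1 / 2 : ℝ) ^ (i + 1)) :=
    Real.multipliable_one_add_of_summable hs
  have hs2 : Summable fun i : ℕ => (1 / 2 : ℝ) ^ (2 * i + 1) := by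
    have h1 : Summable fun i : ℕ => (1 / 2 : ℝ) * (1 / 4) ^ i :=
      (summable_geometric_of_lt_one (by norm_num) (by norm_num)).mul_left _
    refine h1.congr fun i => ?_
    rw [pow_succ, pow_mul]
    norm_num
    ring
  have hsC : Multipliable fun i : ℕ => (1 - (1 / 2 : ℝ) ^ (2 * i + 1)) := by
    have := Real.multipliable_one_add_of_summable
      (f := fun i : ℕ => -(1 / 2 : ℝ) ^ (2 * i + 1)) hs2.neg
    exact this.congr fun i => (sub_eq_add_neg _ _).symm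
  have hA := hsA.hasProd.tendsto_prod_nat
  have hB := hsB.hasProd.tendsto_prod_nat
  have hC := hsC.hasProd.tendsto_prod_nat
  set A : ℝ := ∏' i : ℕ, (1 + (1 / 2 : ℝ) ^ (i + 1)) with hAd
  set B : ℝ := ∏' i : ℕ, (1 - (1 / 2 : ℝ) ^ (i + 1)) with hBd
  have hB2 : Tendsto (fun n => ∏ i ∈ range (2 * n), (1 - (1 / 2 : ℝ) ^ (i + 1))) atTop (𝓝 B) :=
    hB.comp (tendsto_id.const_mul_atTop' (by norm_num : 0 < 2))
  have hB0 : 1 / 4 ≤ B := by
    refine ge_of_tendsto' hB fun n => ?_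
    have := prod_lower2 n
    have h2 : 0 < (1 / 2 : ℝ) ^ n := by positivity
    linarith
  have h1 : cinf2 * A * B = B := by
    have h2 := (hC.mul hA).mul hB
    simp only [euler_part] at h2
    exact (tendsto_nhds_unique h2 hB2)
  have h2 : cinf2 * A = 1 := by
    have h3 : (cinf2 * A - 1) * B = 0 := by linear_combination h1
    rcases mul_eq_zero.1 h3 with h4 | h4
    · linarith
    · exfalso
      rw [h4] at hB0
      norm_num at hB0
  have h3 : A * fs2 (-1 / 2) = 1 := tendsto_nhds_unique (hA.mul_const _) tendsto_prod2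
  calc cinf2 = cinf2 * (A * fs2 (-1 / 2)) := by rw [h3, mul_one]
    _ = cinf2 * A * fs2 (-1 / 2) := by ring
    _ = fs2 (-1 / 2) := by rw [h2, one_mul]

theorem sK2_term (j : ℕ) : (-1 : ℝ) ^ j * Tj2 j / ∏ i ∈ range j, (2 ^ (i + 1) - 1) =
    ac2 j * (-1 / 2) ^ j := by
  induction j with
  | zero => simp [ac2, Tj2]
  | succ j ih =>
    have h4 : (0 : ℝ) < 2 ^ (j + 1) := by positivity
    have h1 : (2 : ℝ) ^ (j + 1) - 1 = 2 ^ (j + 1) * (1 - (1 / 2) ^ (j + 1)) := by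
      rw [mul_sub, mul_one, ← mul_pow]
      norm_num
    have h2 := one_sub_pos2 j
    have h3 : ac2 (j + 1) = ac2 j / (1 - (1 / 2 : ℝ) ^ (j + 1)) := by
      rw [eq_div_iff h2.ne', ac2_succ]
    have h5 : Tj2 (j + 1) = Tj2 j * (2 ^ (j + 1) / 2) := by
      rw [Tj2, prod_range_succ, ← Tj2, pow_succ]
      ring
    rw [prod_range_succ, h1, h3, h5, pow_succ (-1 : ℝ), pow_succ (-1 / 2 : ℝ)]
    have h6 : (-1 : ℝ) ^ j * -1 * (Tj2 j * (2 ^ (j + 1) / 2)) /
        ((∏ i ∈ range j, ((2 : ℝ) ^ (i + 1) - 1)) * (2 ^ (j + 1) * (1 - (1 / 2) ^ (j + 1)))) =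
        ((-1 : ℝ) ^ j * Tj2 j / ∏ i ∈ range j, ((2 : ℝ) ^ (i + 1) - 1)) *
          ((-1 / 2) / (1 - (1 / 2) ^ (j + 1))) := by
      field_simp
    rw [h6, ih]
    ring

/-- The partial sums converge to the infinite product. -/
theorem tendsto_sK2 : Tendsto sK2 atTop (𝓝 cinf2) := by
  have hz : |(-1 / 2 : ℝ)| < 1 := by rw [abs_of_neg (by norm_num)]; norm_num
  have h1 := (summable_fs2 hz).hasSum.tendsto_sum_nat
  have h2 : sK2 = fun K => ∑ j ∈ range (K + 1), ac2 j * (-1 / 2 : ℝ) ^ j := by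
    funext K
    exact sum_congr rfl fun j _ => sK2_term j
  rw [h2, cinf2_eq]
  exact (tendsto_add_atTop_iff_nat 1).2 h1

theorem exists_odd2 {κ : ℝ} (hκ : κ < cinf2) : ∃ K, Odd K ∧ κ < sK2 K := by
  have h1 := tendsto_sK2.eventually (lt_mem_nhds hκ)
  obtain ⟨N, hN⟩ := Filter.eventually_atTop.1 h1
  exact ⟨2 * N + 1, ⟨N, rfl⟩, hN _ (by omega)⟩

theorem exists_even2 {κ : ℝ} (hκ : cinf2 < κ) : ∃ K, Even K ∧ sK2 K < κ := by
  have h1 := tendsto_sK2.eventually (gt_mem_nhds hκ)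
  obtain ⟨N, hN⟩ := Filter.eventually_atTop.1 h1
  exact ⟨2 * N, ⟨N, by ring⟩, hN _ (by omega)⟩

variable {β : Type}

/-- The lower density of the `b` with trivial kernel is at least the infinite product. -/
theorem dens2_lower {A : ℕ → Finset β} {kc : β → ℕ} (hp : ∀ b, ∃ r, kc b = 2 ^ r)
    (hm : ∀ k, MF2 A kc (fun x => x ^ k) (Nk2 k)) {κ : ℝ} (hκ : κ < cinf2)
    (ε : ℝ) (hε : 0 < ε) : ∃ X₀ : ℕ, ∀ X : ℕ, X₀ ≤ X →
      κ * (A X).card - ε * X ≤ ((A X).filter fun b => kc b = 1).card := by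
  obtain ⟨K, hK, h1⟩ := exists_odd2 hκ
  obtain ⟨X0, h0⟩ := dens2_odd hp hm K hK ε hε
  refine ⟨X0, fun X hX => ?_⟩
  have h2 := h0 X hX
  have h3 := mul_le_mul_of_nonneg_right h1.le (Nat.cast_nonneg (α := ℝ) (A X).card)
  linarith

/-- The upper density of the `b` with trivial kernel is at most the infinite product. -/
theorem dens2_upper {A : ℕ → Finset β} {kc : β → ℕ} (hp : ∀ b, ∃ r, kc b = 2 ^ r)
    (hm : ∀ k, MF2 A kc (fun x => x ^ k) (Nk2 k)) {κ : ℝ} (hκ : cinf2 < κ)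
    (ε : ℝ) (hε : 0 < ε) : ∃ X₀ : ℕ, ∀ X : ℕ, X₀ ≤ X →
      (((A X).filter fun b => kc b = 1).card : ℝ) ≤ κ * (A X).card + ε * X := by
  obtain ⟨K, hK, h1⟩ := exists_even2 hκ
  obtain ⟨X0, h0⟩ := dens2_even hp hm K hK ε hε
  refine ⟨X0, fun X hX => ?_⟩
  have h2 := h0 X hX
  have h3 := mul_le_mul_of_nonneg_right h1.le (Nat.cast_nonneg (α := ℝ) (A X).card)
  linarith

end

end Pool.Agent.Lib.MP_1a91b9_ntQ.Da
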