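import Pool.Agent.Lib.MP_1a91b9_ntQ.D.ClsQ
import Pool.Agent.Lib.MP_1a91b9_ntQ.D.Lim2

/-!
# MP_1a91b9_nt (quartic twists), part D: the densities for the bordered matrices
-/

set_option autoImplicit false
set_option linter.unusedSectionVars false

namespace Pool.Agent.Lib.MP_1a91b9_ntQ.Da

open Finset Pool.Agent.Lib.MP_1a91b9_ntH

noncomputable section

variable {k : ℕ} {ι : Type} [DecidableEq ι] {κ : Type} [Fintype κ] [DecidableEq κ] {E : Type}
  [Fintype E] [DecidableEq E] {G : Type} [AddCommGroup G] [Fintype G]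

open Classical in
theorem TE_sum {c : κ → ZMod 2} {P : κ → E → ZMod 2} {R : Matrix E E (ZMod 2)}
    (hR : ∀ e f, R e f = R f e) (hP : ∀ x : E → ZMod 2, (∀ j, ∑ e, P j e * x e = 0) → x = 0)
    (α : κ → ZMod 2) :
    ∑ c0, e2 (∑ j, c0 j * α j) * TE k c P R c0 =
      (2 ^ k) ^ Fintype.card E * ((Nk2 k * (if Triv c P R α then 2 ^ k else 1) : ℝ) : ℂ) := by
  have h := count_main (k := k) (c := c) hR hP α
  have h1 : ∀ (c0 : κ → ZMod 2) (m : E → Lab2 k), (univ.filter fun U : Finset (Lab2 k) =>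
      Unl2 U ∧ U.card = 2 ^ k ∧ ∀ l ∈ U, cE c P m l = c0).card = (MsE c P m c0).card := by
    intro c0 m
    refine congrArg card ?_
    ext U
    rw [mem_MsE, mem_filter]
    exact ⟨fun h => h.2, fun h => ⟨mem_univ _, h⟩⟩
  simp only [h1] at h
  have h2 : ∑ c0, e2 (∑ j, c0 j * α j) * TE k c P R c0 =
      ((∑ c0 : κ → ZMod 2, sg (∑ j, c0 j * α j) * ∑ m : E → Lab2 k, sg (RF R m) *
        ((MsE c P m c0).card : ℝ) : ℝ) : ℂ) := by
    rw [Complex.ofReal_sum]
    refine sum_congr rfl fun c0 _ => ?_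
    rw [Complex.ofReal_mul, Complex.ofReal_sum]
    unfold TE
    congr 1
    refine sum_congr rfl fun m _ => ?_
    rw [Complex.ofReal_mul, Complex.ofReal_natCast]
    rfl
  rw [h2, h]
  push_cast
  ring

theorem kB_pow (D : Dat2 ι κ) (c : κ → ZMod 2) (P : κ → E → ZMod 2) (R : Matrix E E (ZMod 2))
    (S : Finset ι) : ∃ r : ℕ, D.kB c P R S = 2 ^ r := by
  have h1 : D.kB c P R S = Nat.card (LinearMap.ker (D.NB c P R S).mulVecLin) := by
    rw [Dat2.kB, ← Nat.card_eq_fintype_card]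
    rfl
  have h2 := Module.natCard_eq_pow_finrank (K := ZMod 2)
    (V := LinearMap.ker (D.NB c P R S).mulVecLin)
  rw [← h1, Nat.card_eq_fintype_card, ZMod.card] at h2
  exact ⟨_, h2⟩

theorem kB_eq_one (D : Dat2 ι κ) (c : κ → ZMod 2) (P : κ → E → ZMod 2) (R : Matrix E E (ZMod 2))
    (S : Finset ι) : D.kB c P R S = 1 ↔ (D.NB c P R S).det ≠ 0 := by
  rw [Dat2.kB, Fintype.card_eq_one_iff, ne_eq, ← Matrix.exists_mulVec_eq_zero_iff]
  constructor
  · rintro ⟨x, hx⟩ ⟨v, hv, hv0⟩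
    have h1 := hx ⟨v, hv0⟩
    have h2 := hx ⟨0, Matrix.mulVec_zero _⟩
    rw [← h2] at h1
    exact hv (congrArg Subtype.val h1)
  · intro h
    refine ⟨⟨0, Matrix.mulVec_zero _⟩, fun y => ?_⟩
    by_contra hne
    exact h ⟨y.1, fun h0 => hne (Subtype.ext h0), y.2⟩

/-- The size of the kernel divided by `2`. -/
def kz (D : Dat2 ι κ) (c : κ → ZMod 2) (P : κ → E → ZMod 2) (R : Matrix E E (ZMod 2))
    (S : Finset ι) : ℕ :=
  if 2 ∣ D.kB c P R S then D.kB c P R S / 2 else 1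

theorem kz_pow (D : Dat2 ι κ) (c : κ → ZMod 2) (P : κ → E → ZMod 2) (R : Matrix E E (ZMod 2))
    (S : Finset ι) : ∃ r : ℕ, kz D c P R S = 2 ^ r := by
  obtain ⟨r, hr⟩ := kB_pow D c P R S
  rw [kz, hr]
  split_ifs with h
  · rcases r with _ | r
    · norm_num at h
    · exact ⟨r, by rw [pow_succ]; omega⟩
  · exact ⟨0, rfl⟩

/-- The vector `(1, γ)` is in the kernel. -/
theorem triv_mulVec (D : Dat2 ι κ) {c : κ → ZMod 2} {P : κ → E → ZMod 2}
    {R : Matrix E E (ZMod 2)} {S : Finset ι} {γ : E → ZMod 2}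
    (h1 : ∀ j, ∑ e, P j e * γ e = c j)
    (h2 : ∀ e, ∑ j, P j e * ∑ q ∈ S, D.a q j + ∑ f, R e f * γ f = 0) :
    (D.NB c P R S).mulVec (Sum.elim (fun _ => 1) γ) = 0 := by
  funext x
  rcases x with j | e
  · rw [D.NB_inl, Pi.zero_apply]
    simp only [Sum.elim_inl, Sum.elim_inr, mul_one, z2_add_self, mul_zero, sum_const_zero,
      add_zero]
    have h3 : ∑ e, D.bd P j e * γ e = D.dg c j := by
      unfold Dat2.bd Dat2.dg
      simp only [sum_mul]
      rw [sum_comm]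
      refine sum_congr rfl fun i _ => ?_
      rw [← h1 i, sum_mul]
      exact sum_congr rfl fun e _ => by ring
    rw [h3]
    exact z2_add_self _
  · rw [D.NB_inr, Pi.zero_apply]
    simp only [Sum.elim_inl, Sum.elim_inr, mul_one]
    rw [← h2 e]
    congr 1
    unfold Dat2.bd
    rw [sum_comm]
    refine sum_congr rfl fun j _ => ?_
    rw [← mul_sum]
    congr 1
    exact sum_coe_sort S fun q => D.a q j

theorem two_dvd_kB (D : Dat2 ι κ) {c : κ → ZMod 2} {P : κ → E → ZMod 2}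
    {R : Matrix E E (ZMod 2)} {S : Finset ι} (hS : S ≠ ∅) {γ : E → ZMod 2}
    (h1 : ∀ j, ∑ e, P j e * γ e = c j)
    (h2 : ∀ e, ∑ j, P j e * ∑ q ∈ S, D.a q j + ∑ f, R e f * γ f = 0) : 2 ∣ D.kB c P R S := by
  obtain ⟨r, hr⟩ := kB_pow D c P R S
  rcases r with _ | r
  · exfalso
    rw [pow_zero, Dat2.kB, Fintype.card_eq_one_iff] at hr
    obtain ⟨x, hx⟩ := hr
    have h3 := hx ⟨0, Matrix.mulVec_zero _⟩
    have h4 := hx ⟨_, triv_mulVec D h1 h2⟩
    rw [← h3] at h4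
    have h5 := congrArg Subtype.val h4
    obtain ⟨q, hq⟩ := nonempty_iff_ne_empty.2 hS
    have h6 := congrFun h5 (Sum.inl ⟨q, hq⟩)
    exact one_ne_zero h6
  · rw [hr, pow_succ]
    exact Nat.dvd_mul_left _ _

theorem kz_mul (D : Dat2 ι κ) {c : κ → ZMod 2} {P : κ → E → ZMod 2}
    {R : Matrix E E (ZMod 2)} {S : Finset ι} (hS : S ≠ ∅) {γ : E → ZMod 2}
    (h1 : ∀ j, ∑ e, P j e * γ e = c j)
    (h2 : ∀ e, ∑ j, P j e * ∑ q ∈ S, D.a q j + ∑ f, R e f * γ f = 0) :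
    D.kB c P R S = 2 * kz D c P R S := by
  have h := two_dvd_kB D hS h1 h2
  rw [kz, if_pos h]
  omega

variable [PS ι]

/-- The moments if there is no trivial vector in the kernel. -/
theorem MF_ne {D : Dat2 ι κ} (hD : D.OK) (C : Cl2 D G) (h3 : C.H3) {c : κ → ZMod 2}
    {P : κ → E → ZMod 2} {R : Matrix E E (ZMod 2)} (hR : ∀ e f, R e f = R f e)
    (hP : ∀ x : E → ZMod 2, (∀ j, ∑ e, P j e * x e = 0) → x = 0) (g : G)
    (hT : ¬ Triv c P R fun j => C.A j g) (k : ℕ) :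
    MF2 (SG C g) (D.kB c P R) (fun x => x ^ k) (Nk2 k) := by
  rcases Nat.eq_zero_or_pos k with rfl | hk
  · intro ε hε
    refine ⟨0, fun X _ => ?_⟩
    simp only [pow_zero, sum_const, nsmul_eq_mul, mul_one, Nk2, prod_range_zero, Nat.cast_one,
      one_mul, sub_self, abs_zero]
    positivity
  · intro ε hε
    have hc := TE_sum (k := k) (c := c) hR hP fun j => C.A j g
    rw [if_neg hT, mul_one] at hc
    exact sum_kB hD C h3 c P R g hk (Nk2 k) (Nat.cast_nonneg _) hc ε hε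

/-- The moments if there is a trivial vector in the kernel. -/
theorem MF_triv {D : Dat2 ι κ} (hD : D.OK) (C : Cl2 D G) (h3 : C.H3) {c : κ → ZMod 2}
    {P : κ → E → ZMod 2} {R : Matrix E E (ZMod 2)} (hR : ∀ e f, R e f = R f e)
    (hP : ∀ x : E → ZMod 2, (∀ j, ∑ e, P j e * x e = 0) → x = 0) (g : G)
    (hT : Triv c P R fun j => C.A j g) (k : ℕ) :
    MF2 (SG C g) (kz D c P R) (fun x => x ^ k) (Nk2 k) := by
  rcases Nat.eq_zero_or_pos k with rfl | hk
  · intro ε hε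
    refine ⟨0, fun X _ => ?_⟩
    simp only [pow_zero, sum_const, nsmul_eq_mul, mul_one, Nk2, prod_range_zero, Nat.cast_one,
      one_mul, sub_self, abs_zero]
    positivity
  · intro ε hε
    have hc := TE_sum (k := k) (c := c) hR hP fun j => C.A j g
    rw [if_pos hT] at hc
    obtain ⟨X0, h0⟩ := sum_kB hD C h3 c P R g hk (Nk2 k * 2 ^ k) (by positivity) hc (ε / 2)
      (by positivity)
    obtain ⟨γ, hγ1, hγ2⟩ := hT
    have hmul : ∀ X : ℕ, ∀ S ∈ SG C g X, S ≠ ∅ → D.kB c P R S = 2 * kz D c P R S := by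
      intro X S hS hne
      refine kz_mul D hne hγ1 fun e => ?_
      have h4 : ∀ j, ∑ q ∈ S, D.a q j = C.A j g := fun j => by
        rw [← (mem_SG.1 hS).2, map_sum]
        exact sum_congr rfl fun q _ => C.ha q j
      simp only [h4]
      exact hγ2 e
    set M : ℝ := |2 ^ k * (kz D c P R ∅ : ℝ) ^ k - (D.kB c P R ∅ : ℝ) ^ k| with hM
    obtain ⟨X1, hX1⟩ := exists_nat_gt (2 * M / ε)
    refine ⟨max X0 X1, fun X hX => ?_⟩
    have h2 := h0 X (le_trans (le_max_left _ _) hX)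
    have h3' : M ≤ ε / 2 * X := by
      have h4 : (X1 : ℝ) ≤ X := by exact_mod_cast le_trans (le_max_right _ _) hX
      have h5 := hX1.le.trans h4
      rw [div_le_iff₀ hε] at h5
      linarith
    have hk1 : (1 : ℝ) ≤ 2 ^ k := one_le_pow₀ (by norm_num)
    have h6 : |2 ^ k * ∑ S ∈ SG C g X, (kz D c P R S : ℝ) ^ k -
        ∑ S ∈ SG C g X, (D.kB c P R S : ℝ) ^ k| ≤ M := by
      rw [mul_sum, ← sum_sub_distrib]
      have h7 : ∀ S ∈ SG C g X, S ≠ ∅ →
          2 ^ k * (kz D c P R S : ℝ) ^ k - (D.kB c P R S : ℝ) ^ k = 0 := by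
        intro S hS hne
        rw [hmul X S hS hne]
        push_cast
        rw [mul_pow, sub_self]
      have h8 : ∑ S ∈ SG C g X, (2 ^ k * (kz D c P R S : ℝ) ^ k - (D.kB c P R S : ℝ) ^ k) =
          if (∅ : Finset ι) ∈ SG C g X then
            2 ^ k * (kz D c P R ∅ : ℝ) ^ k - (D.kB c P R ∅ : ℝ) ^ k else 0 := by
        split_ifs with hm
        · exact sum_eq_single_of_mem ∅ hm fun S hS hne => h7 S hS hne
        · exact sum_eq_zero fun S hS => h7 S hS fun h => hm (h ▸ hS)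
      rw [h8]
      split_ifs with hm
      · exact le_of_eq hM.symm
      · rw [abs_zero]
        exact abs_nonneg _
    have h9 : |2 ^ k * (∑ S ∈ SG C g X, (kz D c P R S : ℝ) ^ k -
        Nk2 k * (SG C g X).card)| ≤ ε * X := by
      have e : 2 ^ k * (∑ S ∈ SG C g X, (kz D c P R S : ℝ) ^ k -
          Nk2 k * (SG C g X).card) = (2 ^ k * ∑ S ∈ SG C g X, (kz D c P R S : ℝ) ^ k -
          ∑ S ∈ SG C g X, (D.kB c P R S : ℝ) ^ k) +
          (∑ S ∈ SG C g X, (D.kB c P R S : ℝ) ^ k -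
            (Nk2 k * 2 ^ k) * (SG C g X).card) := by
        ring
      rw [e]
      refine (abs_add_le _ _).trans ?_
      linarith
    rw [abs_mul, abs_of_pos (by positivity : (0 : ℝ) < 2 ^ k)] at h9
    exact (le_mul_of_one_le_left (abs_nonneg _) hk1).trans h9

/-- **Part D**: the bordered matrix is nonsingular with lower density at least
`∏_{i ≥ 0} (1 - 2^{-(2i+1)}) = 0.4194...` in every class `g` in which there is no trivial vector in
the kernel. -/
theorem densQ_ne {D : Dat2 ι κ} (hD : D.OK) (C : Cl2 D G) (h3 : C.H3) {c : κ → ZMod 2}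
    {P : κ → E → ZMod 2} {R : Matrix E E (ZMod 2)} (hR : ∀ e f, R e f = R f e)
    (hP : ∀ x : E → ZMod 2, (∀ j, ∑ e, P j e * x e = 0) → x = 0) (g : G)
    (hT : ¬ Triv c P R fun j => C.A j g) {κ₀ : ℝ} (hκ : κ₀ < cinf2) (ε : ℝ) (hε : 0 < ε) :
    ∃ X₀ : ℕ, ∀ X : ℕ, X₀ ≤ X →
      κ₀ * ((SG C g X).card : ℝ) - ε * X ≤
        ((SG C g X).filter fun S => (D.NB c P R S).det ≠ 0).card := by
  obtain ⟨X0, h0⟩ := dens2_lower (A := SG C g) (kc := D.kB c P R) (kB_pow D c P R)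
    (MF_ne hD C h3 hR hP g hT) hκ ε hε
  refine ⟨X0, fun X hX => (h0 X hX).trans (le_of_eq ?_)⟩
  congr 2
  exact filter_congr fun S _ => kB_eq_one D c P R S

/-- **Part D**: if there is a trivial vector in the kernel for all sets in the class `g`, then the
kernel has exactly two elements with lower density at least `∏_{i ≥ 0} (1 - 2^{-(2i+1)})`. -/
theorem densQ_triv {D : Dat2 ι κ} (hD : D.OK) (C : Cl2 D G) (h3 : C.H3) {c : κ → ZMod 2}
    {P : κ → E → ZMod 2} {R : Matrix E E (ZMod 2)} (hR : ∀ e f, R e f = R f e)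
    (hP : ∀ x : E → ZMod 2, (∀ j, ∑ e, P j e * x e = 0) → x = 0) (g : G)
    (hT : Triv c P R fun j => C.A j g) {κ₀ : ℝ} (hκ : κ₀ < cinf2) (ε : ℝ) (hε : 0 < ε) :
    ∃ X₀ : ℕ, ∀ X : ℕ, X₀ ≤ X →
      κ₀ * ((SG C g X).card : ℝ) - ε * X ≤
        ((SG C g X).filter fun S => S ≠ ∅ ∧ D.kB c P R S = 2).card := by
  obtain ⟨X0, h0⟩ := dens2_lower (A := SG C g) (kc := kz D c P R) (kz_pow D c P R)
    (MF_triv hD C h3 hR hP g hT) hκ (ε / 2) (by positivity)
  obtain ⟨γ, hγ1, hγ2⟩ := hT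
  obtain ⟨X1, hX1⟩ := exists_nat_gt (2 / ε)
  refine ⟨X0 + X1, fun X hX => ?_⟩
  have h1 := h0 X ((Nat.le_add_right _ _).trans hX)
  have h2 : (1 : ℝ) ≤ ε / 2 * X := by
    have h4 : (X1 : ℝ) ≤ X := by exact_mod_cast (Nat.le_add_left _ _).trans hX
    have h5 := hX1.le.trans h4
    rw [div_le_iff₀ hε] at h5
    linarith
  have h4 : (SG C g X).filter (fun S => kz D c P R S = 1) ⊆
      insert ∅ ((SG C g X).filter fun S => S ≠ ∅ ∧ D.kB c P R S = 2) := by
    intro S hS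
    rw [mem_filter] at hS
    rw [mem_insert, mem_filter]
    by_cases h : S = ∅
    · exact Or.inl h
    · refine Or.inr ⟨hS.1, h, ?_⟩
      rw [kz_mul D h hγ1 fun e => ?_, hS.2]
      have h4 : ∀ j, ∑ q ∈ S, D.a q j = C.A j g := fun j => by
        rw [← (mem_SG.1 hS.1).2, map_sum]
        exact sum_congr rfl fun q _ => C.ha q j
      simp only [h4]
      exact hγ2 e
  have h5 := (card_le_card h4).trans (card_insert_le _ _)
  have h6 : (((SG C g X).filter (fun S => kz D c P R S = 1)).card : ℝ) ≤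
      ((SG C g X).filter fun S => S ≠ ∅ ∧ D.kB c P R S = 2).card + 1 := by exact_mod_cast h5
  linarith

end

end Pool.Agent.Lib.MP_1a91b9_ntQ.Da
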