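import Pool.Agent.Lib.MP_1a91b9_ntQ.D.Gd4

/-!
# MP_1a91b9_nt (quartic twists), part D: the upper bounds

`gd4_not`: the complement of the good sets has lower density at least `κ₀ < 1 - cinf2` in every class.
-/

set_option autoImplicit false
set_option linter.unusedSectionVars false

namespace Pool.Agent.Lib.MP_1a91b9_ntQ

open NumberField Finset
open Pool.Agent.Lib.MP_1a91b9_ntH (PS nm Sx mem_Sx)

noncomputable section

namespace Da

section

variable {ι : Type} [DecidableEq ι] {κ : Type} [Fintype κ] [DecidableEq κ] {E : Type}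
  [Fintype E] [DecidableEq E] {G : Type} [AddCommGroup G] [Fintype G]

/-- A kernel which consists of `0` and the trivial vector has two elements. -/
theorem kB_two {D : Dat2 ι κ} {c : κ → ZMod 2} {P : κ → E → ZMod 2}
    {R : Matrix E E (ZMod 2)} {S : Finset ι} (hS : S ≠ ∅) {γ : E → ZMod 2}
    (h1 : ∀ j, ∑ e, P j e * γ e = c j)
    (h2 : ∀ e, ∑ j, P j e * ∑ q ∈ S, D.a q j + ∑ f, R e f * γ f = 0)
    (h : ∀ v, (D.NB c P R S).mulVec v = 0 → v = 0 ∨ v = Sum.elim (fun _ => 1) γ) :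
    D.kB c P R S = 2 := by
  classical
  have h3 := two_dvd_kB D hS h1 h2
  have h4 : D.kB c P R S ≤ 2 := by
    have h5 : Function.Injective
        (fun v : {v : S ⊕ E → ZMod 2 // (D.NB c P R S).mulVec v = 0} =>
          (if v.1 = 0 then (0 : Fin 2) else 1)) := by
      intro v w hvw
      refine Subtype.ext ?_
      simp only at hvw
      rcases h v.1 v.2 with hv | hv <;> rcases h w.1 w.2 with hw | hw
      · rw [hv, hw]
      · rw [if_pos hv] at hvw
        split_ifs at hvw with hw0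
        · rw [hv, hw0]
        · exact absurd hvw (by decide)
      · rw [if_pos hw] at hvw
        split_ifs at hvw with hv0
        · rw [hv0, hw]
        · exact absurd hvw (by decide)
      · rw [hv, hw]
    have h6 := Fintype.card_le_of_injective _ h5
    rw [Fintype.card_fin] at h6
    exact h6
  obtain ⟨r, hr⟩ := kB_pow D c P R S
  rw [hr] at h3 h4 ⊢
  rcases r with _ | r
  · norm_num at h3
  · rw [pow_succ] at h4 ⊢
    have : 0 < 2 ^ r := by positivity
    omega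

variable [PS ι]

/-- The upper bound without a trivial vector. -/
theorem densQ_ne_upper {D : Dat2 ι κ} (hD : D.OK) (C : Cl2 D G) (h3 : C.H3) {c : κ → ZMod 2}
    {P : κ → E → ZMod 2} {R : Matrix E E (ZMod 2)} (hR : ∀ e f, R e f = R f e)
    (hP : ∀ x : E → ZMod 2, (∀ j, ∑ e, P j e * x e = 0) → x = 0) (g : G)
    (hT : ¬ Triv c P R fun j => C.A j g) {κ₀ : ℝ} (hκ : cinf2 < κ₀) (ε : ℝ) (hε : 0 < ε) :
    ∃ X₀ : ℕ, ∀ X : ℕ, X₀ ≤ X →
      (((SG C g X).filter fun S => (D.NB c P R S).det ≠ 0).card : ℝ) ≤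
        κ₀ * ((SG C g X).card : ℝ) + ε * X := by
  obtain ⟨X0, h0⟩ := dens2_upper (A := SG C g) (kc := D.kB c P R) (kB_pow D c P R)
    (MF_ne hD C h3 hR hP g hT) hκ ε hε
  refine ⟨X0, fun X hX => le_trans (le_of_eq ?_) (h0 X hX)⟩
  congr 2
  exact filter_congr fun S _ => (kB_eq_one D c P R S).symm

/-- The upper bound with a trivial vector. -/
theorem densQ_ker_upper {D : Dat2 ι κ} (hD : D.OK) (C : Cl2 D G) (h3 : C.H3) {c : κ → ZMod 2}
    {P : κ → E → ZMod 2} {R : Matrix E E (ZMod 2)} (hR : ∀ e f, R e f = R f e)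
    (hP : ∀ x : E → ZMod 2, (∀ j, ∑ e, P j e * x e = 0) → x = 0) (g : G) {γ : E → ZMod 2}
    (h1 : ∀ j, ∑ e, P j e * γ e = c j)
    (h2 : ∀ e, ∑ j, P j e * C.A j g + ∑ f, R e f * γ f = 0)
    {κ₀ : ℝ} (hκ : cinf2 < κ₀) (ε : ℝ) (hε : 0 < ε) :
    ∃ X₀ : ℕ, ∀ X : ℕ, X₀ ≤ X →
      (((SG C g X).filter fun S => S ≠ ∅ ∧ ∀ v, (D.NB c P R S).mulVec v = 0 →
          v = 0 ∨ v = Sum.elim (fun _ => 1) γ).card : ℝ) ≤
        κ₀ * ((SG C g X).card : ℝ) + ε * X := by
  classical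
  obtain ⟨X0, h0⟩ := dens2_upper (A := SG C g) (kc := kz D c P R) (kz_pow D c P R)
    (MF_triv hD C h3 hR hP g ⟨γ, h1, h2⟩) hκ ε hε
  refine ⟨X0, fun X hX => le_trans ?_ (h0 X hX)⟩
  rw [Nat.cast_le]
  refine card_le_card fun S hS => ?_
  rw [mem_filter] at hS ⊢
  refine ⟨hS.1, ?_⟩
  have h4 : ∀ e, ∑ j, P j e * ∑ q ∈ S, D.a q j + ∑ f, R e f * γ f = 0 := by
    intro e
    simp only [sum_a_of_mem C hS.1]
    exact h2 e
  have h5 := kB_two hS.2.1 h1 h4 hS.2.2
  have h6 := kz_mul D hS.2.1 h1 h4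
  omega

end

end Da

/-! ### The complement -/

/-- An upper bound of the density gives a lower bound for the complement. -/
theorem glue4_not {m : ℕ} {g : G4n m} {P : Finset Pg → Prop} [DecidablePred P]
    (h : ∀ κ : ℝ, Da.cinf2 < κ → ∀ ε : ℝ, 0 < ε → ∃ X₀ : ℕ, ∀ X : ℕ, X₀ ≤ X →
      (((Da.SG (C4m m) g X).filter P).card : ℝ) ≤ κ * ((Da.SG (C4m m) g X).card : ℝ) + ε * X)
    {κ₀ : ℝ} (hκ : κ₀ < 1 - Da.cinf2) {Q : Finset Pg → Prop} (hPQ : ∀ S, ¬ P S → Q S) :
    DS m g κ₀ Q := by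
  classical
  refine glue4 (P := fun S => ¬ P S) (fun ε hε => ?_) hPQ
  obtain ⟨X0, h0⟩ := h (1 - κ₀) (by linarith) ε hε
  refine ⟨X0, fun X hX => ?_⟩
  have h1 := h0 X hX
  have h2 : (((Da.SG (C4m m) g X).filter P).card : ℝ) +
      ((Da.SG (C4m m) g X).filter fun S => ¬ P S).card = (Da.SG (C4m m) g X).card := by
    exact_mod_cast card_filter_add_card_filter_not (s := Da.SG (C4m m) g X) P
  linarith

/-- **Kind I**, the complement. -/
theorem dens4_I_not (m : ℕ) (g : G4n m) {κ₀ : ℝ} (hκ : κ₀ < 1 - Da.cinf2) :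
    DS m g κ₀ fun S => ¬ (N4 s4 (fun q => aa q.1) S).det ≠ 0 := by
  classical
  have hc : cv 1 0 ≠ 0 := fun h => one_ne_zero (congrFun h 0)
  have e : kc (cv 1 0) = fun q => aa q.1 := by
    funext q
    rw [kc_cv, one_mul, zero_mul, add_zero]
  have hT : ¬ Da.Triv (cv 1 0) (Da.P0 (Fin 2)) Da.R0 fun j => (C4m m).A j g := by
    rintro ⟨γ, h1, _⟩
    refine hc (funext fun j => ?_)
    rw [← h1 j, univ_eq_empty, sum_empty]
    rfl
  refine glue4_not (P := fun S => (d4.NB (cv 1 0) (Da.P0 (Fin 2)) Da.R0 S).det ≠ 0)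
    (fun κ hκ' => Da.densQ_ne_upper d4_OK (C4m m) (C4m_H3 m) (fun e _ => e.elim)
      (fun x _ => funext fun e => e.elim) g hT hκ') hκ fun S h h' => h fun h3 => h' ?_
  rw [← e, ← N4_d4]
  obtain ⟨v, hv, hv0⟩ := Matrix.exists_mulVec_eq_zero_iff.2 h3
  refine Matrix.exists_mulVec_eq_zero_iff.1 ⟨fun i => v (Sum.inl i), fun h4 => hv ?_, ?_⟩
  · funext x
    rcases x with i | e
    · exact congrFun h4 i
    · exact e.elim
  · rw [← Da.NB_zero]
    rw [← hv0]
    congr 1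
    funext x
    rcases x with i | e
    · rfl
    · exact e.elim

/-- **Kind II**, the complement. -/
theorem dens4_II_not (m : ℕ) (g : G4n m) {κ₀ : ℝ} (hκ : κ₀ < 1 - Da.cinf2) :
    DS m g κ₀ fun S => ¬ K2 S := by
  classical
  refine glue4_not (P := fun S => S ≠ ∅ ∧ ∀ v, (d4.NB 0 (Da.P0 (Fin 2)) Da.R0 S).mulVec v = 0 →
      v = 0 ∨ v = Sum.elim (fun _ => 1) fun e : Empty => e.elim)
    (fun κ hκ' => Da.densQ_ker_upper (γ := fun e : Empty => e.elim) d4_OK (C4m m) (C4m_H3 m)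
      (fun e _ => e.elim) (fun x _ => funext fun e => e.elim) g
      (fun j => by rw [univ_eq_empty, sum_empty]; rfl) (fun e => e.elim) hκ') hκ
    fun S h h' => h ⟨nonempty_iff_ne_empty.1 h'.1, fun v hv => ?_⟩
  have h1 : (d4.N 0 S).mulVec (fun i => v (Sum.inl i)) = 0 := by
    rw [← Da.NB_zero, ← hv]
    congr 1
    funext x
    rcases x with i | e
    · rfl
    · exact e.elim
  rw [N4_d4, kc_zero] at h1
  obtain ⟨t, ht⟩ := h'.2 _ h1
  have h2 : t = 0 ∨ t = 1 := (by decide : ∀ t : ZMod 2, t = 0 ∨ t = 1) t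
  rcases h2 with rfl | rfl
  · left
    funext x
    rcases x with i | e
    · exact ht i
    · exact e.elim
  · right
    funext x
    rcases x with i | e
    · exact ht i
    · exact e.elim

/-- **Kind III**, the complement. -/
theorem dens4_III_not (m : ℕ) (g : G4n m) (hg : A4 m 0 g = 0) (x : ZMod 2) {κ₀ : ℝ}
    (hκ : κ₀ < 1 - Da.cinf2) : DS m g κ₀ fun S => ¬ K3 x S := by
  classical
  refine glue4_not (P := fun S => S ≠ ∅ ∧ ∀ v, (d4.NB 0 (Da.P1 0) (Da.R1 x) S).mulVec v = 0 →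
      v = 0 ∨ v = Sum.elim (fun _ => 1) fun _ => 0)
    (fun κ hκ' => Da.densQ_ker_upper (γ := fun _ => 0) d4_OK (C4m m) (C4m_H3 m)
      (fun _ _ => rfl) (Da.P1_inj 0) g
      (fun j => by simp only [mul_zero, sum_const_zero, Pi.zero_apply])
      (fun e => by
        simp only [mul_zero, sum_const_zero, add_zero]
        unfold Da.P1
        simp only [ite_mul, one_mul, zero_mul, sum_ite_eq', mem_univ, if_true]
        exact hg) hκ') hκ
    fun S h h' => h ⟨nonempty_iff_ne_empty.1 h'.1, fun v hv => ?_⟩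
  rw [Da.NB_P1, B4_d4, kc_zero] at hv
  obtain ⟨t, ht, ht'⟩ := h'.2 _ hv
  have h2 : t = 0 ∨ t = 1 := (by decide : ∀ t : ZMod 2, t = 0 ∨ t = 1) t
  rcases h2 with rfl | rfl
  · left
    funext y
    rcases y with i | e
    · exact ht i
    · exact ht'
  · right
    funext y
    rcases y with i | e
    · exact ht i
    · exact ht'

/-- **Kind IV**, the complement. -/
theorem dens4_IV_not (m : ℕ) (g : G4n m) (k x : ZMod 2) {κ₀ : ℝ} (hκ : κ₀ < 1 - Da.cinf2) :
    DS m g κ₀ fun S =>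
      ¬ (B4 s4 (fun q => k * aa q.1 + bb q.1) (fun q => aa q.1) x S).det ≠ 0 := by
  classical
  have hc : cv k 1 1 ≠ 0 := by
    show (if (1 : Fin 2) = 0 then k else (1 : ZMod 2)) ≠ 0
    rw [if_neg (by decide)]
    exact one_ne_zero
  have e : kc (cv k 1) = fun q => k * aa q.1 + bb q.1 := by
    funext q
    rw [kc_cv, one_mul]
  have hT : ¬ Da.Triv (cv k 1) (Da.P1 0) (Da.R1 x) fun j => (C4m m).A j g := by
    rintro ⟨γ, h1, _⟩
    apply hc
    rw [← h1 1]
    unfold Da.P1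
    simp only [if_neg (show (1 : Fin 2) ≠ 0 by decide), zero_mul, sum_const_zero]
  refine glue4_not (P := fun S => (d4.NB (cv k 1) (Da.P1 0) (Da.R1 x) S).det ≠ 0)
    (fun κ hκ' => Da.densQ_ne_upper d4_OK (C4m m) (C4m_H3 m) (fun _ _ => rfl) (Da.P1_inj 0) g hT
      hκ') hκ fun S h h' => h fun h3 => h' ?_
  rw [Da.NB_P1, B4_d4, e] at h3
  exact h3

/-- **The complement of the good sets has lower density at least `κ₀ < 1 - cinf2` in every class**. -/
theorem gd4_not {m : ℕ} (hm : 2 ≤ m) (k : ZMod 4) (j : Fin 2) (g : G4n m) {κ₀ : ℝ}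
    (hκ : κ₀ < 1 - Da.cinf2) : DS m g κ₀ fun S => ¬ Gd4 k j S := by
  classical
  by_cases hS : ∃ T : Finset Pg, ∑ q ∈ T, clq m q = g
  swap
  · intro ε hε
    refine ⟨0, fun X _ => ?_⟩
    have h1 : (Sx Pg X).filter (fun S => ∑ q ∈ S, clq m q = g) = ∅ := by
      rw [filter_eq_empty_iff]
      exact fun S _ h => hS ⟨S, h⟩
    rw [h1, card_empty, Nat.cast_zero, mul_zero, zero_sub]
    have h2 : (0 : ℝ) ≤ ε * X := by positivity
    have h3 : (0 : ℝ) ≤
        (((Sx Pg X).filter fun S => ∑ q ∈ S, clq m q = g ∧ ¬ Gd4 k j S).card : ℝ) :=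
      Nat.cast_nonneg _
    linarith
  obtain ⟨T, hT⟩ := hS
  have hj : j = 0 ∨ j = 1 := by
    revert j
    decide
  have hA : ∀ S : Finset Pg, ∑ q ∈ S, clq m q = g → ∑ q ∈ S, aa q.1 = A4 m 0 g := by
    intro S h
    rw [← h, A4_zero_sum]
  have h2 : ∀ x : ZMod 2, x = 0 ∨ x = 1 := by decide
  rcases hj with rfl | rfl
  · rcases md_cases k with hk | rfl | rfl
    · exact (dens4_I_not m g hκ).mono fun S _ h h' => h (h'.2.1 rfl hk)
    · have m0 : md (0 : ZMod 4) = 0 := by decide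
      rcases h2 (A4 m 0 g) with hg | hg
      · rcases h2 (hf4 (∑ q ∈ T, nn q.1) + ∑ q ∈ T, bb q.1) with hc | hc
        · refine (dens4_III_not m g hg (xl4 (∑ q ∈ T, c4 q lam)) hκ).mono fun S hS h h' => h ?_
          obtain ⟨e1, e2, e3⟩ := cls_sums hm (hS.trans hT.symm)
          rw [← e3]
          refine h'.2.2.2.2.2 rfl rfl ((hA S hS).trans hg) ?_
          rw [e1, e2]
          exact hc
        · refine (dens4_II_not m g hκ).mono fun S hS h h' => h ?_
          obtain ⟨e1, e2, e3⟩ := cls_sums hm (hS.trans hT.symm)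
          refine h'.2.2.2.2.1 rfl rfl ((hA S hS).trans hg) ?_
          rw [e1, e2]
          exact hc
      · exact (dens4_II_not m g hκ).mono fun S hS h h' =>
          h (h'.2.2.1 rfl m0 ((hA S hS).trans hg))
    · have m0 : md (2 : ZMod 4) = 0 := by decide
      rcases h2 (A4 m 0 g) with hg | hg
      · refine (dens4_III_not m g hg (hf4 (∑ q ∈ T, nn q.1)) hκ).mono fun S hS h h' => h ?_
        rw [← (cls_sums hm (hS.trans hT.symm)).1]
        exact h'.2.2.2.1 rfl rfl ((hA S hS).trans hg)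
      · exact (dens4_II_not m g hκ).mono fun S hS h h' =>
          h (h'.2.2.1 rfl m0 ((hA S hS).trans hg))
  · exact (dens4_IV_not m g (md k) (xk4 k) hκ).mono fun S _ h h' => h (h'.1 rfl)

end

end Pool.Agent.Lib.MP_1a91b9_ntQ
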