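import Pool.Agent.Lib.MP_1a91b9_ntH.D.DivLog
import Pool.Agent.Lib.MP_1a91b9_ntQ.D.HBound

/-!
# MP_1a91b9_nt (quartic twists), part D: the inner sum with a nontrivial small family
-/

set_option autoImplicit false
set_option linter.unusedSectionVars false

namespace Pool.Agent.Lib.MP_1a91b9_ntQ.D

open Finset Pool.Agent.Lib.MP_1a91b9_ntH

noncomputable section

variable {ι : Type} [DecidableEq ι] [PS ι] {L : Type} [Fintype L] [DecidableEq L] {κ : Type} [Fintype κ]

theorem nm_mono {S T : Finset ι} (h : S ⊆ T) : nm S ≤ nm T := by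
  have h1 := nm_union (S := S) (T := T \ S) Finset.disjoint_sdiff
  rw [Finset.union_sdiff_of_subset h] at h1
  rw [h1]
  exact Nat.le_mul_of_pos_right _ (one_le_nm _)

open Classical in
theorem inner_nontriv (D : Dat2 ι κ) (hD : D.OK) (Λ : LS2 L ι κ) (hΛ : Λ.OK) {g : ι → ℂ}
    (hg : ∀ q, ‖g q‖ = 1) :
    ∃ C : ℝ, 0 < C ∧ ∀ U ∈ Λ.Us, ∀ V : ℕ, 1 ≤ V → ∀ b ∈ SmB ι V U, uni b ≠ ∅ → ∀ Y : ℕ, 2 ≤ Y →
      ‖∑ S ∈ (Sx ι Y).filter (fun S => Disjoint S (uni b)), ∑ d ∈ FamU U S,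
        D.FF Λ g (fun l => b l ∪ d l)‖ ≤
        C * Y * Real.log Y ^ (-(1 / ((2 * Λ.m : ℕ) : ℝ))) * (1 + Real.log V) := by
  obtain ⟨C1, hC1⟩ := hD.cheb
  obtain ⟨C2, hC2⟩ := hD.zt
  obtain ⟨C3, hC3⟩ := hD.cbt
  have hM2 : 2 ≤ 2 * Λ.m := by
    have := hΛ.two
    omega
  obtain ⟨K, hK, hub⟩ := ub hC1 hC2 (2 * Λ.m) hM2
  have hm2 : (2 : ℝ) ≤ Λ.m := by exact_mod_cast hΛ.two
  set M : ℕ := 2 * Λ.m with hM
  have hMr : (2 : ℝ) ≤ M := by exact_mod_cast hM2
  have hM0 : (0 : ℝ) < M := by linarith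
  set LB : ℝ := Real.log (nm Λ.B) with hLB
  have hLB0 : 0 ≤ LB := Real.log_nonneg (by exact_mod_cast one_le_nm Λ.B)
  refine ⟨K * ((|C3| + 1) * (1 + LB + Fintype.card L)) + 1, by positivity, ?_⟩
  intro U hU V hV b hb hne Y hY
  rw [mem_SmB] at hb
  obtain ⟨hbV, hbPD, hbU⟩ := hb
  have hUU := (Λ.mem_Us U).1 hU
  have hYr : (2 : ℝ) ≤ Y := by exact_mod_cast hY
  have hlogY : 0 < Real.log Y := Real.log_pos (by linarith)
  have hVr : (1 : ℝ) ≤ V := by exact_mod_cast hV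
  have hlogV : 0 ≤ Real.log V := Real.log_nonneg hVr
  have hE : 0 ≤ (Y : ℝ) * Real.log Y ^ (-(1 / (M : ℝ))) * (1 + Real.log V) := by positivity
  by_cases hbB : Disjoint (uni b) Λ.B
  swap
  · rw [Finset.sum_eq_zero fun S _ => Finset.sum_eq_zero fun d _ => FF_zero D Λ g b d hbB, norm_zero]
    have : 0 ≤ (K * ((|C3| + 1) * (1 + LB + Fintype.card L)) + 1) *
        (Y * Real.log Y ^ (-(1 / (M : ℝ))) * (1 + Real.log V)) := by positivity
    calc (0 : ℝ) ≤ _ := this
      _ = _ := by ring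
  -- rewriting the inner sums
  have e1 : ∑ S ∈ (Sx ι Y).filter (fun S => Disjoint S (uni b)), ∑ d ∈ FamU U S,
      D.FF Λ g (fun l => b l ∪ d l) =
      ((Λ.m : ℂ)⁻¹) ^ (uni b).card * (∏ q ∈ uni b, g q) * e2 (D.ee Λ b) *
        ∑ S ∈ (Sx ι Y).filter (fun S => Disjoint S (uni b)), ∏ q ∈ S, Hq D Λ g U b q := by
    rw [Finset.sum_congr rfl fun S hS => inner_eq D hD.sym Λ hΛ g U hUU.1 b hbB S
      (Finset.mem_filter.1 hS).2, ← Finset.mul_sum]
  have key : ‖∑ S ∈ (Sx ι Y).filter (fun S => Disjoint S (uni b)),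
      ∏ q ∈ S, Hq D Λ g U b q‖ ≤ K * Y * Real.log Y ^ (-(1 / (M : ℝ))) *
        (((|C3| + 1) * (1 + LB + Fintype.card L)) * (1 + Real.log V)) := by
    obtain ⟨T, t, c, hT0, hTs, ht, hTb⟩ := Hq_bound D hD.sym Λ hΛ hg U hU b hbPD hbB hbU hne
    have hch := hC3 T t c ht (Or.inl hT0)
    set w : ι → ℝ := fun q => if q ∈ uni b then 0 else ‖Hq D Λ g U b q‖ with hw
    have hw0 : ∀ q, 0 ≤ w q ∧ w q ≤ ((M - 1 : ℝ) + (D.cht T t c q)) / M := by
      intro q
      have h1 := (abs_le.1 (abs_ch_re D T t c q)).1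
      simp only [hw]
      split_ifs with hq
      · exact ⟨le_rfl, div_nonneg (by linarith) hM0.le⟩
      · exact ⟨norm_nonneg _, hTb q hq⟩
    have h2 := hub _ _ hch w hw0 Y hY
    have h3 : ‖∑ S ∈ (Sx ι Y).filter (fun S => Disjoint S (uni b)), ∏ q ∈ S, Hq D Λ g U b q‖ ≤
        ∑ S ∈ Sx ι Y, ∏ q ∈ S, w q := by
      refine (norm_sum_le _ _).trans ?_
      have h4 : ∀ S ∈ (Sx ι Y).filter (fun S => Disjoint S (uni b)),
          ‖∏ q ∈ S, Hq D Λ g U b q‖ = ∏ q ∈ S, w q := by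
        intro S hS
        rw [norm_prod]
        refine Finset.prod_congr rfl fun q hq => ?_
        simp only [hw]
        rw [if_neg (Finset.disjoint_left.1 (Finset.mem_filter.1 hS).2 hq)]
      rw [Finset.sum_congr rfl h4]
      refine Finset.sum_le_sum_of_subset_of_nonneg (Finset.filter_subset _ _) fun S _ _ => ?_
      exact Finset.prod_nonneg fun q _ => (hw0 q).1
    refine h3.trans (h2.trans ?_)
    refine mul_le_mul_of_nonneg_left ?_ (by positivity)
    set B : ℝ := C3 * (1 + Real.log (nm T)) with hB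
    have hB1 : 1 ≤ B := hch.hB
    have h5 : B ^ (1 / (M : ℝ)) ≤ B := by
      calc B ^ (1 / (M : ℝ)) ≤ B ^ (1 : ℝ) :=
            Real.rpow_le_rpow_of_exponent_le hB1 (by
              rw [div_le_one hM0]
              linarith)
        _ = B := Real.rpow_one B
    refine h5.trans ?_
    have hTn : (1 : ℝ) ≤ nm T := by exact_mod_cast one_le_nm T
    have h6 : Real.log (nm T) ≤ LB + Fintype.card L * Real.log V := by
      have h7 : nm T ≤ nm Λ.B * V ^ Fintype.card L := by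
        refine (nm_mono hTs).trans ?_
        rw [nm_union hbB.symm, nm_uni hbPD]
        exact Nat.mul_le_mul_left _ (nmf_le_pow (U := U) (mem_SmB.2 ⟨hbV, hbPD, hbU⟩))
      have h8 : (nm T : ℝ) ≤ (nm Λ.B : ℝ) * (V : ℝ) ^ Fintype.card L := by exact_mod_cast h7
      have h9 := Real.log_le_log (by linarith) h8
      have hnB : (0 : ℝ) < nm Λ.B := by exact_mod_cast one_le_nm Λ.B
      rwa [Real.log_mul hnB.ne' (by positivity), Real.log_pow] at h9
    have h10 : 0 ≤ Real.log (nm T) := Real.log_nonneg hTn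
    have hcL : (0 : ℝ) ≤ Fintype.card L := Nat.cast_nonneg _
    calc B ≤ (|C3| + 1) * (1 + Real.log (nm T)) := by
          rw [hB]
          refine mul_le_mul_of_nonneg_right ?_ (by linarith)
          have := le_abs_self C3
          linarith
      _ ≤ (|C3| + 1) * (1 + (LB + Fintype.card L * Real.log V)) := by
          refine mul_le_mul_of_nonneg_left (by linarith) (by positivity)
      _ ≤ (|C3| + 1) * ((1 + LB + Fintype.card L) * (1 + Real.log V)) := by
          refine mul_le_mul_of_nonneg_left ?_ (by positivity)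
          have : 0 ≤ (1 + LB) * Real.log V := by positivity
          nlinarith
      _ = _ := by ring
  have hgp : ‖∏ q ∈ uni b, g q‖ = 1 := by
    rw [norm_prod]
    exact Finset.prod_eq_one fun q _ => hg q
  rw [e1, norm_mul, norm_mul, norm_mul, norm_e2, mul_one, hgp, mul_one]
  have hmi : ‖((Λ.m : ℂ)⁻¹) ^ (uni b).card‖ ≤ 1 := by
    rw [norm_pow, norm_inv, Complex.norm_natCast]
    refine pow_le_one₀ (by positivity) ?_
    exact inv_le_one_of_one_le₀ (by linarith)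
  calc _ ≤ 1 * _ := mul_le_mul_of_nonneg_right hmi (norm_nonneg _)
    _ = _ := one_mul _
    _ ≤ _ := key
    _ = (K * ((|C3| + 1) * (1 + LB + Fintype.card L))) *
        (Y * Real.log Y ^ (-(1 / (M : ℝ))) * (1 + Real.log V)) := by ring
    _ ≤ (K * ((|C3| + 1) * (1 + LB + Fintype.card L)) + 1) *
        (Y * Real.log Y ^ (-(1 / (M : ℝ))) * (1 + Real.log V)) := by
        refine mul_le_mul_of_nonneg_right (by linarith) hE
    _ = _ := by ring

end

end Pool.Agent.Lib.MP_1a91b9_ntQ.D
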