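import Pool.Agent.Lib.MP_1a91b9_ntQ.D.Gd5

/-!
# MP_1a91b9_nt (quartic and congruent twists), part D: the exact densities

* `DS.compl`: the complement of a property with upper density at most `κ`;
* `gd5_not`: the complement of `Gd5` has lower density at least `1 - cinf2` in every class;
* `tendsto4`: a property with lower density `c`, whose complement has lower density `1 - c`, has the
  density `c` among the squarefree elements;
* `tendsto_Gd5`, `tendsto_Gd5_cls`: the density of the good squarefree `δ` is exactly `cinf2`.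
-/

set_option autoImplicit false
set_option linter.unusedSectionVars false

namespace Pool.Agent.Lib.MP_1a91b9_ntQ

open NumberField Finset Filter Topology
open Pool.Agent.Lib.MP_1a91b9_ntH (PS nm Sx mem_Sx)

noncomputable section

namespace Da

variable {ι : Type} [DecidableEq ι] {κ : Type} [Fintype κ] [DecidableEq κ] {E : Type}
  [Fintype E] [DecidableEq E] {G : Type} [AddCommGroup G] [Fintype G]

/-- If the kernel is generated by the trivial vector, then `kz = 1`. -/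
theorem kz_eq_one (D : Dat2 ι κ) {c : κ → ZMod 2} {P : κ → E → ZMod 2}
    {R : Matrix E E (ZMod 2)} {S : Finset ι} (hS : S ≠ ∅) {γ : E → ZMod 2}
    (h1 : ∀ j, ∑ e, P j e * γ e = c j)
    (h2 : ∀ e, ∑ j, P j e * ∑ q ∈ S, D.a q j + ∑ f, R e f * γ f = 0)
    (h : ∀ v, (D.NB c P R S).mulVec v = 0 → v = 0 ∨ v = Sum.elim (fun _ => 1) γ) :
    kz D c P R S = 1 := by
  classical
  have h3 := kz_mul D hS h1 h2
  obtain ⟨r, hr⟩ := kz_pow D c P R S
  have h4 : D.kB c P R S ≤ 2 := by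
    have hs : Function.Surjective (fun b : Bool => (if b then
        ⟨Sum.elim (fun _ => 1) γ, triv_mulVec D h1 h2⟩ else ⟨0, Matrix.mulVec_zero _⟩ :
        {v : S ⊕ E → ZMod 2 // (D.NB c P R S).mulVec v = 0})) := by
      intro x
      rcases h x.1 x.2 with h5 | h5
      · refine ⟨false, Subtype.ext ?_⟩
        rw [h5]
        rfl
      · refine ⟨true, Subtype.ext ?_⟩
        rw [h5]
        rfl
    have h5 := Fintype.card_le_of_surjective _ hs
    rw [Fintype.card_bool] at h5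
    exact h5
  have h5 : 1 ≤ kz D c P R S := by
    rw [hr]
    exact Nat.one_le_two_pow
  omega

variable [PS ι]

/-- The upper bound for the nonsingular matrices. -/
theorem densQ_ne_up {D : Dat2 ι κ} (hD : D.OK) (C : Cl2 D G) (h3 : C.H3) {c : κ → ZMod 2}
    {P : κ → E → ZMod 2} {R : Matrix E E (ZMod 2)} (hR : ∀ e f, R e f = R f e)
    (hP : ∀ x : E → ZMod 2, (∀ j, ∑ e, P j e * x e = 0) → x = 0) (g : G)
    (hT : ¬ Triv c P R fun j => C.A j g) {κ₀ : ℝ} (hκ : cinf2 < κ₀) (ε : ℝ) (hε : 0 < ε) :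
    ∃ X₀ : ℕ, ∀ X : ℕ, X₀ ≤ X →
      (((SG C g X).filter fun S => (D.NB c P R S).det ≠ 0).card : ℝ) ≤
        κ₀ * ((SG C g X).card : ℝ) + ε * X := by
  obtain ⟨X0, h0⟩ := dens2_upper (A := SG C g) (kc := D.kB c P R) (kB_pow D c P R)
    (MF_ne hD C h3 hR hP g hT) hκ ε hε
  refine ⟨X0, fun X hX => le_trans (le_of_eq ?_) (h0 X hX)⟩
  congr 2
  exact filter_congr fun S _ => (kB_eq_one D c P R S).symm

/-- The upper bound for the matrices whose kernel is generated by the trivial vector. -/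
theorem densQ_triv_up {D : Dat2 ι κ} (hD : D.OK) (C : Cl2 D G) (h3 : C.H3) {c : κ → ZMod 2}
    {P : κ → E → ZMod 2} {R : Matrix E E (ZMod 2)} (hR : ∀ e f, R e f = R f e)
    (hP : ∀ x : E → ZMod 2, (∀ j, ∑ e, P j e * x e = 0) → x = 0) (g : G)
    {γ : E → ZMod 2} (h1 : ∀ j, ∑ e, P j e * γ e = c j)
    (h2 : ∀ e, ∑ j, P j e * C.A j g + ∑ f, R e f * γ f = 0)
    {κ₀ : ℝ} (hκ : cinf2 < κ₀) (ε : ℝ) (hε : 0 < ε) :
    ∃ X₀ : ℕ, ∀ X : ℕ, X₀ ≤ X →
      (((SG C g X).filter fun S => kz D c P R S = 1).card : ℝ) ≤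
        κ₀ * ((SG C g X).card : ℝ) + ε * X :=
  dens2_upper (A := SG C g) (kc := kz D c P R) (kz_pow D c P R)
    (MF_triv hD C h3 hR hP g ⟨γ, h1, h2⟩) hκ ε hε

end Da

/-- The complement of a property which implies a property of upper density at most `κ`. -/
theorem DS.compl {m : ℕ} {g : G4n m} {κ₀ : ℝ} {P : Finset Pg → Prop} [DecidablePred P]
    (h : ∀ κ₁ : ℝ, Da.cinf2 < κ₁ → ∀ ε : ℝ, 0 < ε → ∃ X₀ : ℕ, ∀ X : ℕ, X₀ ≤ X →
      (((Da.SG (C4m m) g X).filter P).card : ℝ) ≤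
        κ₁ * ((Da.SG (C4m m) g X).card : ℝ) + ε * X)
    {Q : Finset Pg → Prop} (hQP : ∀ S, ∑ q ∈ S, clq m q = g → Q S → P S)
    (hκ : κ₀ < 1 - Da.cinf2) : DS m g κ₀ fun S => ¬ Q S := by
  classical
  obtain ⟨Q', hQ'⟩ : ∃ Q' : Finset Pg → Prop, Q' = fun S => ¬ Q S := ⟨_, rfl⟩
  rw [← hQ']
  have hQ2 : ∀ S, ¬ Q' S → Q S := by
    intro S h1
    rw [hQ'] at h1
    exact not_not.1 h1
  intro ε hε
  obtain ⟨X0, h0⟩ := h (1 - κ₀) (by linarith) ε hε
  refine ⟨X0, fun X hX => ?_⟩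
  have h1 := h0 X hX
  rw [SG_filter] at h1
  have h2 : ((Sx Pg X).filter fun S => ∑ q ∈ S, clq m q = g).card ≤
      (((Sx Pg X).filter fun S => ∑ q ∈ S, clq m q = g).filter P).card +
      ((Sx Pg X).filter fun S => ∑ q ∈ S, clq m q = g ∧ Q' S).card := by
    rw [← card_filter_add_card_filter_not
      (s := (Sx Pg X).filter fun S => ∑ q ∈ S, clq m q = g) P]
    refine Nat.add_le_add_left (card_le_card fun S hS => ?_) _
    rw [mem_filter, mem_filter] at hS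
    rw [mem_filter]
    refine ⟨hS.1.1, hS.1.2, ?_⟩
    by_contra h3
    exact hS.2 (hQP S hS.1.2 (hQ2 S h3))
  have h3 : (((Sx Pg X).filter fun S => ∑ q ∈ S, clq m q = g).card : ℝ) ≤
      (((Sx Pg X).filter fun S => ∑ q ∈ S, clq m q = g).filter P).card +
      ((Sx Pg X).filter fun S => ∑ q ∈ S, clq m q = g ∧ Q' S).card := by
    exact_mod_cast h2
  have h4 : κ₀ * (((Sx Pg X).filter fun S => ∑ q ∈ S, clq m q = g).card : ℝ) - ε * X ≤
      (((Sx Pg X).filter fun S => ∑ q ∈ S, clq m q = g ∧ Q' S).card : ℝ) := by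
    linarith
  refine h4.trans (le_of_eq ?_)
  congr 2

/-- The Laplacian with a nonzero slope: the singular sets. -/
theorem dens4_N_not (m : ℕ) (g : G4n m) (k l : ZMod 2) (hkl : k = 1 ∨ l = 1) {κ₀ : ℝ}
    (hκ : κ₀ < 1 - Da.cinf2) :
    DS m g κ₀ fun S => ¬ (N4 s4 (fun q => k * aa q.1 + l * bb q.1) S).det ≠ 0 := by
  classical
  have hc : cv k l ≠ 0 := by
    intro h
    rcases hkl with rfl | rfl
    · exact one_ne_zero (congrFun h 0)
    · exact one_ne_zero (congrFun h 1)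
  have e : kc (cv k l) = fun q => k * aa q.1 + l * bb q.1 := funext fun q => kc_cv k l q
  have hT : ¬ Da.Triv (cv k l) (Da.P0 (Fin 2)) Da.R0 fun j => (C4m m).A j g := by
    rintro ⟨γ, h1, _⟩
    refine hc (funext fun j => ?_)
    rw [← h1 j, univ_eq_empty, sum_empty]
    rfl
  refine DS.compl (fun κ₁ hκ₁ => Da.densQ_ne_up (P := Da.P0 (Fin 2)) (R := Da.R0) d4_OK (C4m m)
    (C4m_H3 m) (fun e _ => e.elim) (fun x _ => funext fun e => e.elim) g hT hκ₁) ?_ hκ
  intro S _ h hd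
  obtain ⟨v, hv, hv0⟩ := Matrix.exists_mulVec_eq_zero_iff.2 hd
  have h1 : (d4.N (cv k l) S).mulVec (fun q => v (Sum.inl q)) = 0 := by
    rw [← Da.NB_zero]
    have e1 : (Sum.elim (fun q => v (Sum.inl q)) fun e : Empty => e.elim) = v := by
      funext x
      rcases x with x | x
      · rfl
      · exact x.elim
    rw [e1]
    exact hv0
  rw [N4_d4, e] at h1
  refine h (Matrix.exists_mulVec_eq_zero_iff.1 ⟨_, fun h2 => hv ?_, h1⟩)
  funext x
  rcases x with x | x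
  · exact congrFun h2 x
  · exact x.elim

/-- Kind II: the complement. -/
theorem K2_not (m : ℕ) (g : G4n m) {κ₀ : ℝ} (hκ : κ₀ < 1 - Da.cinf2) :
    DS m g κ₀ fun S => ¬ K2 S := by
  classical
  refine DS.compl (fun κ₁ hκ₁ => Da.densQ_triv_up (P := Da.P0 (Fin 2)) (R := Da.R0) (c := 0)
    (γ := fun e => e.elim) d4_OK (C4m m) (C4m_H3 m) (fun e _ => e.elim)
    (fun x _ => funext fun e => e.elim) g (fun j => by rw [univ_eq_empty, sum_empty]; rfl)
    (fun e => e.elim) hκ₁) ?_ hκ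
  intro S _ h
  refine Da.kz_eq_one d4 (nonempty_iff_ne_empty.1 h.1) (γ := fun e => e.elim)
    (fun j => by rw [univ_eq_empty, sum_empty]; rfl) (fun e => e.elim) fun v hv => ?_
  have e1 : (Sum.elim (fun q => v (Sum.inl q)) fun e : Empty => e.elim) = v := by
    funext x
    rcases x with x | x
    · rfl
    · exact x.elim
  have h1 : (d4.N 0 S).mulVec (fun q => v (Sum.inl q)) = 0 := by
    rw [← Da.NB_zero, e1]
    exact hv
  rw [N4_d4, kc_zero] at h1
  obtain ⟨t, ht⟩ := h.2 _ h1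
  rcases Da.z2 t with rfl | rfl
  · left
    funext x
    rcases x with x | x
    · exact ht x
    · exact x.elim
  · right
    funext x
    rcases x with x | x
    · exact ht x
    · exact x.elim

/-- Kind III: the complement. -/
theorem K3_not (m : ℕ) (g : G4n m) (hg : A4 m 0 g = 0) (x : ZMod 2) {κ₀ : ℝ}
    (hκ : κ₀ < 1 - Da.cinf2) : DS m g κ₀ fun S => ¬ K3 x S := by
  classical
  have hh2 : ∀ e : Unit, ∑ j, Da.P1 (0 : Fin 2) j e * (C4m m).A j g +
      ∑ f : Unit, Da.R1 x e f * (fun _ : Unit => (0 : ZMod 2)) f = 0 := by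
    intro e
    simp only [mul_zero, sum_const_zero, add_zero]
    unfold Da.P1
    simp only [ite_mul, one_mul, zero_mul, sum_ite_eq', mem_univ, if_true]
    exact hg
  refine DS.compl (fun κ₁ hκ₁ => Da.densQ_triv_up (P := Da.P1 (0 : Fin 2)) (R := Da.R1 x) (c := 0)
    (γ := fun _ => 0) d4_OK (C4m m) (C4m_H3 m) (fun _ _ => rfl) (Da.P1_inj 0) g
    (fun j => by simp only [mul_zero, sum_const_zero, Pi.zero_apply]) hh2 hκ₁) ?_ hκ
  intro S hS h
  refine Da.kz_eq_one d4 (nonempty_iff_ne_empty.1 h.1) (γ := fun _ => 0)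
    (fun j => by simp only [mul_zero, sum_const_zero, Pi.zero_apply]) ?_ fun v hv => ?_
  · intro e
    have h4 : ∀ j, ∑ q ∈ S, d4.a q j = (C4m m).A j g := fun j => by
      rw [← hS, map_sum]
      exact sum_congr rfl fun q _ => (C4m m).ha q j
    simp only [h4]
    exact hh2 e
  · rw [Da.NB_P1, B4_d4, kc_zero] at hv
    obtain ⟨t, ht1, ht2⟩ := h.2 v hv
    rcases Da.z2 t with rfl | rfl
    · left
      funext y
      rcases y with y | y
      · exact ht1 y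
      · exact ht2
    · right
      funext y
      rcases y with y | y
      · exact ht1 y
      · exact ht2

/-- Kind IV: the complement. -/
theorem dens5_IV_not (m : ℕ) (g : G4n m) (k x : ZMod 2) {κ₀ : ℝ} (hκ : κ₀ < 1 - Da.cinf2) :
    DS m g κ₀ fun S =>
      ¬ (B4 s4 (fun q => k * aa q.1 + bb q.1) (fun q => aa q.1) x S).det ≠ 0 := by
  classical
  have hc : cv k 1 1 ≠ 0 := by
    show (if (1 : Fin 2) = 0 then k else (1 : ZMod 2)) ≠ 0
    rw [if_neg (by decide)]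
    exact one_ne_zero
  have e : kc (cv k 1) = fun q => k * aa q.1 + bb q.1 := by
    funext q
    rw [kc_cv, one_mul]
  have hT : ¬ Da.Triv (cv k 1) (Da.P1 (0 : Fin 2)) (Da.R1 x) fun j => (C4m m).A j g := by
    rintro ⟨γ, h1, _⟩
    apply hc
    rw [← h1 1]
    unfold Da.P1
    simp only [if_neg (by decide : (1 : Fin 2) ≠ 0), zero_mul, sum_const_zero]
  refine DS.compl (fun κ₁ hκ₁ => Da.densQ_ne_up (P := Da.P1 (0 : Fin 2)) (R := Da.R1 x) d4_OK
    (C4m m) (C4m_H3 m) (fun _ _ => rfl) (Da.P1_inj 0) g hT hκ₁) ?_ hκ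
  intro S _ h
  rw [Da.NB_P1, B4_d4, e]
  exact h

/-- **The complement of the good sets has lower density at least `1 - cinf2` in every class.** -/
theorem gd5_not {m : ℕ} (k : ZMod 4) (j : Fin 2) (g : G4n m) {κ₀ : ℝ}
    (hκ : κ₀ < 1 - Da.cinf2) : DS m g κ₀ fun S => ¬ Gd5 k j S := by
  have h2 : ∀ x : ZMod 2, x = 0 ∨ x = 1 := by decide
  have hj : ∀ j : Fin 2, j = 0 ∨ j = 1 := by decide
  by_cases h : md k = 1 ∨ j = 1
  · have hkl : md k = 1 ∨ jj j = 1 := by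
      rcases h with h | h
      · exact Or.inl h
      · refine Or.inr ?_
        rw [h]
        rfl
    exact (dens4_N_not m g (md k) (jj j) hkl hκ).mono fun S _ h3 h4 => h3 (h4.1 h)
  · push Not at h
    have hk : md k = 0 := (h2 (md k)).resolve_right h.1
    have hj0 : j = 0 := (hj j).resolve_right h.2
    have hA : ∀ S : Finset Pg, ∑ q ∈ S, clq m q = g → ∑ q ∈ S, aa q.1 = A4 m 0 g := by
      intro S h
      rw [← h, A4_zero_sum]
    have hB : ∀ S : Finset Pg, ∑ q ∈ S, clq m q = g → ∑ q ∈ S, bb q.1 = A4 m 1 g := by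
      intro S h
      rw [← h, A4_one_sum]
    rcases h2 (A4 m 0 g) with hg | hg
    · refine (K3_not m g hg (A4 m 1 g) hκ).mono fun S hS h3 h4 => h3 ?_
      rw [← hB S hS]
      exact h4.2.2 hk hj0 (by rw [hA S hS, hg])
    · refine (K2_not m g hκ).mono fun S hS h3 h4 => h3 ?_
      exact h4.2.1 hk hj0 (by rw [hA S hS, hg])

/-! ### The limit -/

/-- From the two lower bounds to the limit. -/
theorem tendsto_of_two {α : Type} {A B Pr : α → Prop} {N : ℝ → α → Prop} (c : ℝ) (hc : 0 < c)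
    (h1 : ∀ κ : ℝ, κ < c → ∀ᶠ X : ℝ in atTop,
      κ ≤ (Nat.card {x : α // A x ∧ B x ∧ N X x ∧ Pr x} : ℝ) /
        (Nat.card {x : α // A x ∧ B x ∧ N X x} : ℝ))
    (h2 : ∀ κ : ℝ, κ < 1 - c → ∀ᶠ X : ℝ in atTop,
      κ ≤ (Nat.card {x : α // A x ∧ B x ∧ N X x ∧ ¬ Pr x} : ℝ) /
        (Nat.card {x : α // A x ∧ B x ∧ N X x} : ℝ)) :
    Tendsto (fun X : ℝ => (Nat.card {x : α // A x ∧ B x ∧ N X x ∧ Pr x} : ℝ) /
      (Nat.card {x : α // A x ∧ B x ∧ N X x} : ℝ)) atTop (𝓝 c) := by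
  classical
  have hadd : ∀ X : ℝ, Finite {x : α // A x ∧ B x ∧ N X x} →
      (Nat.card {x : α // A x ∧ B x ∧ N X x} : ℝ) =
      Nat.card {x : α // A x ∧ B x ∧ N X x ∧ Pr x} +
        Nat.card {x : α // A x ∧ B x ∧ N X x ∧ ¬ Pr x} := by
    intro X hf
    have e1 : {x : α // A x ∧ B x ∧ N X x} ≃ {x : α // A x ∧ B x ∧ N X x ∧ Pr x} ⊕
        {x : α // A x ∧ B x ∧ N X x ∧ ¬ Pr x} :=
      { toFun := fun x => if h : Pr x.1 then Sum.inl ⟨x.1, x.2.1, x.2.2.1, x.2.2.2, h⟩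
          else Sum.inr ⟨x.1, x.2.1, x.2.2.1, x.2.2.2, h⟩
        invFun := Sum.elim (fun x => ⟨x.1, x.2.1, x.2.2.1, x.2.2.2.1⟩)
          fun x => ⟨x.1, x.2.1, x.2.2.1, x.2.2.2.1⟩
        left_inv := fun x => by
          by_cases h : Pr x.1
          · simp only [dif_pos h, Sum.elim_inl]
          · simp only [dif_neg h, Sum.elim_inr]
        right_inv := fun x => by
          rcases x with x | x
          · simp only [Sum.elim_inl, dif_pos x.2.2.2.2]
          · simp only [Sum.elim_inr, dif_neg x.2.2.2.2] }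
    have hf1 : Finite {x : α // A x ∧ B x ∧ N X x ∧ Pr x} :=
      Finite.of_injective (fun x => (⟨x.1, x.2.1, x.2.2.1, x.2.2.2.1⟩ :
        {x : α // A x ∧ B x ∧ N X x})) fun x y h => Subtype.ext
          (congrArg (fun z : {x : α // A x ∧ B x ∧ N X x} => z.1) h)
    have hf2 : Finite {x : α // A x ∧ B x ∧ N X x ∧ ¬ Pr x} :=
      Finite.of_injective (fun x => (⟨x.1, x.2.1, x.2.2.1, x.2.2.2.1⟩ :
        {x : α // A x ∧ B x ∧ N X x})) fun x y h => Subtype.ext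
          (congrArg (fun z : {x : α // A x ∧ B x ∧ N X x} => z.1) h)
    rw [Nat.card_congr e1, Nat.card_sum]
    push_cast
    rfl
  rw [Metric.tendsto_nhds]
  intro ε hε
  have hm1 : min ε c ≤ ε := min_le_left _ _
  have hm2 : min ε c ≤ c := min_le_right _ _
  have hε' : 0 < min ε c := lt_min hε hc
  filter_upwards [h1 (c - min ε c / 2) (by linarith), h2 (1 - c - min ε c / 2) (by linarith)]
    with X hX1 hX2
  have hT0 : Nat.card {x : α // A x ∧ B x ∧ N X x} ≠ 0 := by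
    intro h
    rw [h, Nat.cast_zero, div_zero] at hX1
    linarith
  have hadd' := hadd X (Nat.finite_of_card_ne_zero hT0)
  have hT1 : (Nat.card {x : α // A x ∧ B x ∧ N X x} : ℝ) ≠ 0 := by exact_mod_cast hT0
  have hs := div_self hT1
  nth_rewrite 1 [hadd'] at hs
  rw [add_div] at hs
  rw [Real.dist_eq, abs_lt]
  constructor <;> linarith

/-- **The limit**: if in every class `Gd k j` has lower density at least `κ₀` for all `κ₀ < c` and its
complement at least `κ₀` for all `κ₀ < 1 - c`, then the proportion of the squarefree elements with the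
property `Pr` (equivalent to `Gd`) tends to `c`. -/
theorem tendsto4 (m : ℕ) (R : 𝓞 K4 → Prop)
    (hR : ∀ (k : ZMod 4) (j : Fin 2) (y y' : 𝓞 K4), In4 y → In4 y' → lam ^ (m + 5) ∣ y - y' →
      (R (Den4.ph k j y) ↔ R (Den4.ph k j y')))
    (hne : ∃ (k : ZMod 4) (j : Fin 2) (y : 𝓞 K4), In4 y ∧ R (Den4.ph k j y))
    (Gd : ZMod 4 → Fin 2 → Finset Pg → Prop) (c : ℝ) (hc : 0 < c)
    (h1 : ∀ (k : ZMod 4) (j : Fin 2) (g : G4n m) (κ₀ : ℝ), κ₀ < c → DS m g κ₀ (Gd k j))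
    (h2 : ∀ (k : ZMod 4) (j : Fin 2) (g : G4n m) (κ₀ : ℝ), κ₀ < 1 - c →
      DS m g κ₀ fun S => ¬ Gd k j S)
    (Pr : 𝓞 K4 → Prop)
    (hPr : ∀ (k : ZMod 4) (j : Fin 2) (S : Finset Pg), R (Den4.ph k j (DDq S)) →
      (Pr (Den4.ph k j (DDq S)) ↔ Gd k j S)) :
    Tendsto (fun X : ℝ =>
      (Nat.card {x : 𝓞 K4 // Squarefree x ∧ R x ∧ |Algebra.norm ℤ x| ≤ X ∧ Pr x} : ℝ) /
        (Nat.card {x : 𝓞 K4 // Squarefree x ∧ R x ∧ |Algebra.norm ℤ x| ≤ X} : ℝ))
      atTop (𝓝 c) := by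
  refine tendsto_of_two (A := Squarefree) (B := R) (Pr := Pr)
    (N := fun (X : ℝ) (x : 𝓞 K4) => |Algebra.norm ℤ x| ≤ X) c hc ?_ ?_
  · intro κ hκ
    exact density4 m R hR hne ((κ + c) / 2) κ (by linarith) Gd
      (fun k j g _ => h1 k j g _ (by linarith)) Pr fun k j S hS h => (hPr k j S hS).2 h
  · intro κ hκ
    exact density4 m R hR hne ((κ + (1 - c)) / 2) κ (by linarith) (fun k j S => ¬ Gd k j S)
      (fun k j g _ => h2 k j g _ (by linarith)) (fun x => ¬ Pr x)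
      fun k j S hS h h3 => h ((hPr k j S hS).1 h3)

/-- The limit in a class `u` modulo `M`, a divisor of `lam ^ (m + 5)`, `u` not divisible by `lam²`. -/
theorem tendsto4_cls (m : ℕ) {M u : 𝓞 K4} (hM : M ∣ lam ^ (m + 5)) (hu : ¬ lam ^ 2 ∣ u)
    (Gd : ZMod 4 → Fin 2 → Finset Pg → Prop) (c : ℝ) (hc : 0 < c)
    (h1 : ∀ (k : ZMod 4) (j : Fin 2) (g : G4n m) (κ₀ : ℝ), κ₀ < c → DS m g κ₀ (Gd k j))
    (h2 : ∀ (k : ZMod 4) (j : Fin 2) (g : G4n m) (κ₀ : ℝ), κ₀ < 1 - c →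
      DS m g κ₀ fun S => ¬ Gd k j S)
    (Pr : 𝓞 K4 → Prop)
    (hPr : ∀ (k : ZMod 4) (j : Fin 2) (S : Finset Pg), M ∣ Den4.ph k j (DDq S) - u →
      (Pr (Den4.ph k j (DDq S)) ↔ Gd k j S)) :
    Tendsto (fun X : ℝ =>
      (Nat.card {x : 𝓞 K4 // Squarefree x ∧ M ∣ x - u ∧ |Algebra.norm ℤ x| ≤ X ∧ Pr x} : ℝ) /
        (Nat.card {x : 𝓞 K4 // Squarefree x ∧ M ∣ x - u ∧ |Algebra.norm ℤ x| ≤ X} : ℝ))
      atTop (𝓝 c) := by
  refine tendsto_of_two (A := Squarefree) (B := fun x => M ∣ x - u) (Pr := Pr)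
    (N := fun (X : ℝ) (x : 𝓞 K4) => |Algebra.norm ℤ x| ≤ X) c hc ?_ ?_
  · intro κ hκ
    exact density4_cls m hM hu ((κ + c) / 2) κ (by linarith) Gd
      (fun k j g _ => h1 k j g _ (by linarith)) Pr fun k j S hS h => (hPr k j S hS).2 h
  · intro κ hκ
    exact density4_cls m hM hu ((κ + (1 - c)) / 2) κ (by linarith)
      (fun k j S => ¬ Gd k j S) (fun k j g _ => h2 k j g _ (by linarith)) (fun x => ¬ Pr x)
      fun k j S hS h h3 => h ((hPr k j S hS).1 h3)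

theorem cinf2_pos5 : 0 < Da.cinf2 := by
  by_contra h
  rw [Da.cinf2_eq] at h
  push Not at h
  have h1 : (1 : ℝ) ≤ 0 := le_of_tendsto' Da.tendsto_prod2 fun n =>
    mul_nonpos_of_nonneg_of_nonpos (prod_nonneg fun i _ => by positivity) h
  linarith

/-- **The density of the good squarefree `δ` is exactly `cinf2`.** -/
theorem tendsto_Gd5_cls (m : ℕ) {M u : 𝓞 K4} (hM : M ∣ lam ^ (m + 5)) (hu : ¬ lam ^ 2 ∣ u)
    (Pr : 𝓞 K4 → Prop)
    (hPr : ∀ (k : ZMod 4) (j : Fin 2) (S : Finset Pg), M ∣ Den4.ph k j (DDq S) - u →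
      (Pr (Den4.ph k j (DDq S)) ↔ Gd5 k j S)) :
    Tendsto (fun X : ℝ =>
      (Nat.card {x : 𝓞 K4 // Squarefree x ∧ M ∣ x - u ∧ |Algebra.norm ℤ x| ≤ X ∧ Pr x} : ℝ) /
        (Nat.card {x : 𝓞 K4 // Squarefree x ∧ M ∣ x - u ∧ |Algebra.norm ℤ x| ≤ X} : ℝ))
      atTop (𝓝 Da.cinf2) :=
  tendsto4_cls m hM hu Gd5 Da.cinf2 cinf2_pos5 (fun k j g _ hκ => gd5 k j g hκ)
    (fun k j g _ hκ => gd5_not k j g hκ) Pr hPr

end

end Pool.Agent.Lib.MP_1a91b9_ntQ
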