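import Pool.Agent.Lib.MP_1a91b9_ntQ.D.Glue4

/-!
# MP_1a91b9_nt (quartic twists), part D: the good sets of primes, all classes

`Gd4 k j S` is the condition on the matrices for `D = i ^ k lam ^ j ∏ (q ∈ S) q`, in all the classes of
the squarefree `D`. `gd4`: the good sets have lower density at least `κ₀ < cinf2` in every class.
-/

set_option autoImplicit false

namespace Pool.Agent.Lib.MP_1a91b9_ntQ

open NumberField Finset
open Pool.Agent.Lib.MP_1a91b9_ntH (PS nm Sx mem_Sx)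

noncomputable section

/-- The corner of the class `lam ∣ D`. -/
def xk4 (k : ZMod 4) : ZMod 2 := if k = 0 ∨ k = 3 then 1 else 0

/-- `x / 2` modulo `2`, for `x` even. -/
def hf4 (x : ZMod 4) : ZMod 2 := if x = 2 then 1 else 0

/-- `l (l + 1) / 2` modulo `2`. -/
def xl4 (l : ZMod 4) : ZMod 2 := if l = 1 ∨ l = 2 then 1 else 0

/-- **The good sets of primes** for `D = i ^ k lam ^ j ∏ q`. -/
def Gd4 (k : ZMod 4) (j : Fin 2) (S : Finset Pg) : Prop :=
  (j = 1 → (B4 s4 (fun q => md k * aa q.1 + bb q.1) (fun q => aa q.1) (xk4 k) S).det ≠ 0) ∧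
  (j = 0 → md k = 1 → (N4 s4 (fun q => aa q.1) S).det ≠ 0) ∧
  (j = 0 → md k = 0 → ∑ q ∈ S, aa q.1 = 1 → K2 S) ∧
  (j = 0 → k = 2 → ∑ q ∈ S, aa q.1 = 0 → K3 (hf4 (∑ q ∈ S, nn q.1)) S) ∧
  (j = 0 → k = 0 → ∑ q ∈ S, aa q.1 = 0 → hf4 (∑ q ∈ S, nn q.1) + ∑ q ∈ S, bb q.1 = 1 → K2 S) ∧
  (j = 0 → k = 0 → ∑ q ∈ S, aa q.1 = 0 → hf4 (∑ q ∈ S, nn q.1) + ∑ q ∈ S, bb q.1 = 0 →
    K3 (xl4 (∑ q ∈ S, c4 q lam)) S)

/-- The quartic symbol of `lam` modulo `∏ q`. -/
theorem sum_c4_lam (S : Finset Pg) : ∃ m n : ℤ,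
    DDq S = 1 + lam ^ 3 * ((m : 𝓞 K4) + (n : 𝓞 K4) * iO) ∧
      ∑ q ∈ S, c4 q lam = -(m : ZMod 4) - ((m : ZMod 4) - n) ^ 2 := by
  classical
  induction S using Finset.induction_on with
  | empty =>
    refine ⟨0, 0, ?_, ?_⟩
    · rw [DDq_empty]
      push_cast
      ring
    · rw [sum_empty]
      decide
  | insert q S hq ih =>
    obtain ⟨c, d, h1, h2⟩ := ih
    obtain ⟨a, b, h3⟩ := in4_form q.in4
    refine ⟨a + c + 2 * (-(a * c - b * d) - (a * d + b * c)),
      b + d + 2 * ((a * c - b * d) - (a * d + b * c)), ?_, ?_⟩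
    · rw [DDq_insert hq, h1, h3, mul_form]
    · rw [sum_insert hq, h2, c4_lam q h3]
      push_cast
      have h4 : ∀ a b c d : ZMod 4, -a - (a - b) ^ 2 + (-c - (c - d) ^ 2) =
          -(a + c + 2 * (-(a * c - b * d) - (a * d + b * c))) -
          (a + c + 2 * (-(a * c - b * d) - (a * d + b * c)) -
            (b + d + 2 * (a * c - b * d - (a * d + b * c)))) ^ 2 := by decide
      exact h4 _ _ _ _

theorem four_lam3 : 4 * (lam : 𝓞 K4) ^ 3 ∣ lam ^ 7 :=
  ⟨-1, by linear_combination lam ^ 3 * lam_four⟩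

/-- The sums over two sets in the same class. -/
theorem cls_sums {m : ℕ} (hm : 2 ≤ m) {S T : Finset Pg}
    (h : ∑ q ∈ S, clq m q = ∑ q ∈ T, clq m q) :
    ∑ q ∈ S, nn q.1 = ∑ q ∈ T, nn q.1 ∧ ∑ q ∈ S, bb q.1 = ∑ q ∈ T, bb q.1 ∧
      ∑ q ∈ S, c4 q lam = ∑ q ∈ T, c4 q lam := by
  rw [← gcl_DDq, ← gcl_DDq, gcl_eq_iff] at h
  have h7 : lam ^ 7 ∣ DDq S - DDq T := (pow_dvd_pow _ (by omega)).trans h
  have h4 : 4 * lam ^ 3 ∣ DDq S - DDq T := four_lam3.trans h7
  have h2 : 2 * lam ^ 3 ∣ DDq S - DDq T :=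
    Dvd.dvd.trans ⟨2, by ring⟩ h4
  refine ⟨?_, ?_, ?_⟩
  · rw [← nn_DDq, ← nn_DDq]
    exact nn_congr (DDq_in4 S) h4
  · rw [← bb_DDq, ← bb_DDq]
    exact bb_congr (DDq_in4 S) h2
  · obtain ⟨m1, n1, e1, e2⟩ := sum_c4_lam S
    obtain ⟨m2, n2, e3, e4⟩ := sum_c4_lam T
    obtain ⟨a, b, k, l, h5, h6⟩ := form_congr (e := 4) (DDq_in4 S) (by exact_mod_cast h4)
    have g1 : (cp (DDq S)) = (1 - 2 * m1 - 2 * n1, 2 * m1 - 2 * n1) := by rw [e1, cp_form]
    have g2 : (cp (DDq S)) = (1 - 2 * a - 2 * b, 2 * a - 2 * b) := by rw [h5, cp_form]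
    have g3 : (cp (DDq T)) = (1 - 2 * m2 - 2 * n2, 2 * m2 - 2 * n2) := by rw [e3, cp_form]
    have g4 : (cp (DDq T)) = (1 - 2 * (a + (4 : ℕ) * k) - 2 * (b + (4 : ℕ) * l),
        2 * (a + (4 : ℕ) * k) - 2 * (b + (4 : ℕ) * l)) := by rw [h6, cp_form]
    rw [g1, Prod.mk.injEq] at g2
    rw [g3, Prod.mk.injEq] at g4
    push_cast at g4
    have f1 : m1 = a := by omega
    have f2 : n1 = b := by omega
    have f3 : m2 = a + 4 * k := by omega
    have f4 : n2 = b + 4 * l := by omega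
    rw [e2, e4, f1, f2, f3, f4]
    push_cast
    have h8 : (4 : ZMod 4) = 0 := rfl
    rw [h8]
    ring

theorem md_cases (k : ZMod 4) : md k = 1 ∨ k = 0 ∨ k = 2 := by
  revert k
  decide

/-- **The good sets have lower density at least `κ₀` in every class.** -/
theorem gd4 {m : ℕ} (hm : 2 ≤ m) (k : ZMod 4) (j : Fin 2) (g : G4n m) {κ₀ : ℝ}
    (hκ : κ₀ < Da.cinf2) : DS m g κ₀ (Gd4 k j) := by
  classical
  by_cases hS : ∃ T : Finset Pg, ∑ q ∈ T, clq m q = g
  swap
  · intro ε hε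
    refine ⟨0, fun X _ => ?_⟩
    have h1 : (Sx Pg X).filter (fun S => ∑ q ∈ S, clq m q = g) = ∅ := by
      rw [filter_eq_empty_iff]
      exact fun S _ h => hS ⟨S, h⟩
    rw [h1, card_empty, Nat.cast_zero, mul_zero, zero_sub]
    have h2 : (0 : ℝ) ≤ ε * X := by positivity
    have h3 : (0 : ℝ) ≤ (((Sx Pg X).filter fun S => ∑ q ∈ S, clq m q = g ∧ Gd4 k j S).card : ℝ) :=
      Nat.cast_nonneg _
    linarith
  obtain ⟨T, hT⟩ := hS
  have hj : j = 0 ∨ j = 1 := by
    revert j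
    decide
  have h01 : (0 : Fin 2) ≠ 1 := by decide
  have hA : ∀ S : Finset Pg, ∑ q ∈ S, clq m q = g → ∑ q ∈ S, aa q.1 = A4 m 0 g := by
    intro S h
    rw [← h, A4_zero_sum]
  have h2 : ∀ x : ZMod 2, x = 0 ∨ x = 1 := by decide
  rcases hj with rfl | rfl
  · rcases md_cases k with hk | rfl | rfl
    · have k0 : k ≠ 0 := by
        rintro rfl
        exact absurd hk (by decide)
      have k2 : k ≠ 2 := by
        rintro rfl
        exact absurd hk (by decide)
      refine (dens4_I m g hκ).mono fun S _ h => ⟨fun h' => absurd h' h01, fun _ _ => h,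
        fun _ h' => ?_, fun _ h' => absurd h' k2, fun _ h' => absurd h' k0,
        fun _ h' => absurd h' k0⟩
      rw [hk] at h'
      exact absurd h' one_ne_zero
    · have m0 : md 0 ≠ 1 := by decide
      have k2 : (0 : ZMod 4) ≠ 2 := by decide
      rcases h2 (A4 m 0 g) with hg | hg
      · -- `D = 1` modulo `4`
        rcases h2 (hf4 (∑ q ∈ T, nn q.1) + ∑ q ∈ T, bb q.1) with hc | hc
        · refine (dens4_III m g hg (xl4 (∑ q ∈ T, c4 q lam)) hκ).mono fun S hS h =>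
            ⟨fun h' => absurd h' h01, fun _ h' => absurd h' m0, fun _ _ h' => ?_,
              fun _ h' => absurd h' k2, fun _ _ _ h' => ?_, fun _ _ _ _ => ?_⟩
          · rw [hA S hS, hg] at h'
            exact absurd h' zero_ne_one
          · obtain ⟨e1, e2, _⟩ := cls_sums hm (hS.trans hT.symm)
            rw [e1, e2, hc] at h'
            exact absurd h' zero_ne_one
          · rw [(cls_sums hm (hS.trans hT.symm)).2.2]
            exact h
        · refine (dens4_II m g hκ).mono fun S hS h =>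
            ⟨fun h' => absurd h' h01, fun _ h' => absurd h' m0, fun _ _ _ => h,
              fun _ h' => absurd h' k2, fun _ _ _ _ => h, fun _ _ _ h' => ?_⟩
          obtain ⟨e1, e2, _⟩ := cls_sums hm (hS.trans hT.symm)
          rw [e1, e2, hc] at h'
          exact absurd h' one_ne_zero
      · refine (dens4_II m g hκ).mono fun S hS h =>
          ⟨fun h' => absurd h' h01, fun _ h' => absurd h' m0, fun _ _ _ => h,
            fun _ h' => absurd h' k2, fun _ _ _ _ => h, fun _ _ h' => ?_⟩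
        rw [hA S hS, hg] at h'
        exact absurd h' one_ne_zero
    · have m0 : md 2 ≠ 1 := by decide
      have k0 : (2 : ZMod 4) ≠ 0 := by decide
      rcases h2 (A4 m 0 g) with hg | hg
      · refine (dens4_III m g hg (hf4 (∑ q ∈ T, nn q.1)) hκ).mono fun S hS h =>
          ⟨fun h' => absurd h' h01, fun _ h' => absurd h' m0, fun _ _ h' => ?_,
            fun _ _ _ => ?_, fun _ h' => absurd h' k0, fun _ h' => absurd h' k0⟩
        · rw [hA S hS, hg] at h'
          exact absurd h' zero_ne_one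
        · rw [(cls_sums hm (hS.trans hT.symm)).1]
          exact h
      · refine (dens4_II m g hκ).mono fun S hS h =>
          ⟨fun h' => absurd h' h01, fun _ h' => absurd h' m0, fun _ _ _ => h,
            fun _ _ h' => ?_, fun _ h' => absurd h' k0, fun _ h' => absurd h' k0⟩
        rw [hA S hS, hg] at h'
        exact absurd h' one_ne_zero
  · have h10 : (1 : Fin 2) ≠ 0 := by decide
    exact (dens4_IV m g (md k) (xk4 k) hκ).mono fun S _ h => ⟨fun _ => h,
      fun h' => absurd h' h10, fun h' => absurd h' h10, fun h' => absurd h' h10,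
      fun h' => absurd h' h10, fun h' => absurd h' h10⟩

end

end Pool.Agent.Lib.MP_1a91b9_ntQ
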