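import Pool.Agent.Lib.MP_1a91b9_ntQ.D.MoQ
import Mathlib.Analysis.Fourier.FiniteAbelian.PontryaginDuality

/-!
# MP_1a91b9_nt (quartic twists), part D: the moments in the classes of a finite group

The class of a squarefree integer is the sum of the classes of its primes, in a finite abelian group
`G`; the characters in `κ` are characters of `G`.
-/

set_option autoImplicit false
set_option linter.unusedSectionVars false

namespace Pool.Agent.Lib.MP_1a91b9_ntQ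

open Finset Pool.Agent.Lib.MP_1a91b9_ntH

noncomputable section

/-- The classes of the primes in the finite abelian group `G`. -/
structure Cl2 {ι κ : Type} (D : Dat2 ι κ) (G : Type) [AddCommGroup G] where
  cl : ι → G
  A : κ → (G →+ ZMod 2)
  ha : ∀ q j, D.a q j = A j (cl q)

/-- Every character which is not trivial on the classes of the primes has mean value zero. -/
def Cl2.H3 {ι κ : Type} {D : Dat2 ι κ} {G : Type} [AddCommGroup G] (C : Cl2 D G) [DecidableEq ι]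
    [PS ι] : Prop :=
  ∀ ψ : AddChar G ℂ, (∃ q, ψ (C.cl q) ≠ 1) → ∀ ε : ℝ, 0 < ε → ∃ X₀ : ℕ, ∀ X : ℕ, X₀ ≤ X →
    ‖∑ S ∈ Sx ι X, ∏ q ∈ S, ψ (C.cl q)‖ ≤ ε * X

namespace Da

variable {k : ℕ} {ι : Type} [DecidableEq ι] {κ : Type} [Fintype κ] [DecidableEq κ] {E : Type} [Fintype E]
  [DecidableEq E] {G : Type} [AddCommGroup G] [Fintype G]

/-- The quadratic character of `G` attached to `c0`. -/
def chG (A : κ → (G →+ ZMod 2)) (c0 : κ → ZMod 2) : AddChar G ℂ where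
  toFun x := e2 (∑ j, c0 j * A j x)
  map_zero_eq_one' := by
    simp only [map_zero, mul_zero, sum_const_zero, e2_zero]
  map_add_eq_mul' x y := by
    simp only [map_add, mul_add, sum_add_distrib, e2_add]

theorem chG_apply (A : κ → (G →+ ZMod 2)) (c0 : κ → ZMod 2) (x : G) :
    chG A c0 x = e2 (∑ j, c0 j * A j x) := rfl

theorem chG_sq (A : κ → (G →+ ZMod 2)) (c0 : κ → ZMod 2) : chG A c0 * chG A c0 = 1 := by
  ext x
  rw [AddChar.mul_apply, AddChar.one_apply, chG_apply, e2_mul_self]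

/-- The character `ψ` is the quadratic character `c0` on the classes of the primes. -/
def trG {D : Dat2 ι κ} (C : Cl2 D G) (ψ : AddChar G ℂ) (c0 : κ → ZMod 2) : Prop :=
  ∀ q, (ψ * chG C.A c0) (C.cl q) = 1

theorem ex1_cl {D : Dat2 ι κ} (C : Cl2 D G) (c0 : κ → ZMod 2) (q : ι) :
    e2 (D.ex1 ∅ c0 q) = chG C.A c0 (C.cl q) := by
  rw [chG_apply, Dat2.ex1, sum_empty, add_zero]
  simp only [C.ha]

theorem wtG {D : Dat2 ι κ} (C : Cl2 D G) [PS ι] (h3 : C.H3) (ψ : AddChar G ℂ) :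
    D.Wt ∅ (fun q => ψ (C.cl q)) (trG C ψ) where
  nrm q := AddChar.norm_apply ψ _
  one c h q := by
    rw [ex1_cl C, ← AddChar.mul_apply]
    exact h q
  mz T c hT h0 := by
    have hT0 : T = ∅ := subset_empty.1 hT
    subst hT0
    have h1 : ¬ trG C ψ c := h0.resolve_left fun h => h rfl
    unfold trG at h1
    push Not at h1
    intro ε hε
    obtain ⟨X₀, hX⟩ := h3 (ψ * chG C.A c) h1 ε hε
    refine ⟨X₀, fun X hXX => ?_⟩
    rw [filter_true_of_mem fun S _ => disjoint_empty_right S]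
    refine le_trans (le_of_eq ?_) (hX X hXX)
    congr 1
    refine sum_congr rfl fun S _ => prod_congr rfl fun q _ => ?_
    show ψ (C.cl q) * e2 (D.ex1 ∅ c q) = _
    rw [ex1_cl C, AddChar.mul_apply]

omit [DecidableEq ι] in
theorem ch_sum (ψ : AddChar G ℂ) (S : Finset ι) (f : ι → G) :
    ψ (∑ q ∈ S, f q) = ∏ q ∈ S, ψ (f q) := by
  classical
  induction S using Finset.induction_on with
  | empty => rw [sum_empty, prod_empty, AddChar.map_zero_eq_one]
  | insert a s ha ih => rw [sum_insert ha, prod_insert ha, AddChar.map_add_eq_mul, ih]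

variable [PS ι]

/-- The squarefree integers in the class `g`. -/
def SG {D : Dat2 ι κ} (C : Cl2 D G) (g : G) (X : ℕ) : Finset (Finset ι) := by
  classical exact (Sx ι X).filter fun S => ∑ q ∈ S, C.cl q = g

theorem mem_SG {D : Dat2 ι κ} {C : Cl2 D G} {g : G} {X : ℕ} {S : Finset ι} :
    S ∈ SG C g X ↔ S ∈ Sx ι X ∧ ∑ q ∈ S, C.cl q = g := by
  classical
  rw [SG, mem_filter]

theorem sum_SG {D : Dat2 ι κ} (C : Cl2 D G) (g : G) (X : ℕ) (F : Finset ι → ℂ) :
    ∑ S ∈ SG C g X, F S = (∑ ψ : AddChar G ℂ, ψ (-g) *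
      ∑ S ∈ Sx ι X, (∏ q ∈ S, ψ (C.cl q)) * F S) / Fintype.card G := by
  classical
  have hG : (Fintype.card G : ℂ) ≠ 0 := Nat.cast_ne_zero.2 Fintype.card_ne_zero
  have h1 : ∀ (ψ : AddChar G ℂ) (S : Finset ι), ψ (-g) * ((∏ q ∈ S, ψ (C.cl q)) * F S) =
      ψ (∑ q ∈ S, C.cl q - g) * F S := by
    intro ψ S
    rw [sub_eq_add_neg, AddChar.map_add_eq_mul, ch_sum]
    ring
  have h2 : ∑ ψ : AddChar G ℂ, ψ (-g) * ∑ S ∈ Sx ι X, (∏ q ∈ S, ψ (C.cl q)) * F S =
      ∑ S ∈ Sx ι X, if ∑ q ∈ S, C.cl q = g then (Fintype.card G : ℂ) * F S else 0 := by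
    simp only [mul_sum, h1]
    rw [sum_comm]
    refine sum_congr rfl fun S _ => ?_
    rw [← sum_mul, AddChar.sum_apply_eq_ite]
    by_cases h : ∑ q ∈ S, C.cl q = g
    · rw [if_pos (sub_eq_zero.2 h), if_pos h]
    · rw [if_neg fun h' => h (sub_eq_zero.1 h'), if_neg h, zero_mul]
  rw [h2, ← sum_filter, SG, ← mul_sum, mul_div_cancel_left₀ _ hG]

theorem chG_neg (A : κ → (G →+ ZMod 2)) (c0 : κ → ZMod 2) (g : G) :
    chG A c0 (-g) = e2 (∑ j, c0 j * A j g) := by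
  rw [chG_apply]
  congr 1
  refine sum_congr rfl fun j _ => ?_
  rw [map_neg, z2_neg]

theorem chG_zero (A : κ → (G →+ ZMod 2)) : chG A 0 = 1 := by
  ext x
  rw [chG_apply, AddChar.one_apply]
  simp only [Pi.zero_apply, zero_mul, sum_const_zero, e2_zero]

open Classical in
/-- The sum over the characters which are trivial on the classes of the primes. -/
def ZG {D : Dat2 ι κ} (C : Cl2 D G) (g : G) : ℂ :=
  ∑ ψ : AddChar G ℂ, if trG C ψ 0 then ψ (-g) else 0

open Classical in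
omit [DecidableEq E] [Fintype E] [PS ι] in
theorem sum_trG {D : Dat2 ι κ} (C : Cl2 D G) (g : G) (F : (κ → ZMod 2) → ℂ) :
    ∑ ψ : AddChar G ℂ, ψ (-g) * ∑ c0 ∈ univ.filter (trG C ψ), F c0 =
      (∑ c0, e2 (∑ j, c0 j * C.A j g) * F c0) * ZG C g := by
  have h1 : ∀ ψ : AddChar G ℂ, ψ (-g) * ∑ c0 ∈ univ.filter (trG C ψ), F c0 =
      ∑ c0, if trG C ψ c0 then ψ (-g) * F c0 else 0 := by
    intro ψ
    rw [sum_filter, mul_sum]
    refine sum_congr rfl fun c0 _ => ?_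
    split_ifs
    · rfl
    · exact mul_zero _
  rw [sum_congr rfl fun ψ _ => h1 ψ, sum_comm, sum_mul]
  refine sum_congr rfl fun c0 _ => ?_
  rw [ZG, mul_sum, ← Equiv.sum_comp (Equiv.mulRight (chG C.A c0))]
  refine sum_congr rfl fun ψ _ => ?_
  have h2 : (Equiv.mulRight (chG C.A c0)) ψ = ψ * chG C.A c0 := rfl
  have h3 : trG C (ψ * chG C.A c0) c0 ↔ trG C ψ 0 := by
    unfold trG
    rw [mul_assoc, chG_sq, chG_zero]
  rw [h2, if_congr h3 rfl rfl]
  split_ifs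
  · rw [AddChar.mul_apply, chG_neg]
    ring
  · exact (mul_zero _).symm

theorem card_SG {D : Dat2 ι κ} (C : Cl2 D G) (h3 : C.H3) (g : G) (ε : ℝ) (hε : 0 < ε) :
    ∃ X₀ : ℕ, ∀ X : ℕ, X₀ ≤ X →
      ‖((SG C g X).card : ℂ) - ZG C g / Fintype.card G * ((Sx ι X).card : ℂ)‖ ≤ ε * X := by
  classical
  have hG : (0 : ℝ) < Fintype.card G := Nat.cast_pos.2 Fintype.card_pos
  have hGc : (Fintype.card G : ℂ) ≠ 0 := Nat.cast_ne_zero.2 Fintype.card_ne_zero
  have key : ∀ ψ : AddChar G ℂ, ∃ X₀ : ℕ, ∀ X : ℕ, X₀ ≤ X →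
      ‖∑ S ∈ Sx ι X, ∏ q ∈ S, ψ (C.cl q) -
        (if trG C ψ 0 then 1 else 0) * ((Sx ι X).card : ℂ)‖ ≤ ε * X := by
    intro ψ
    have h0 : trG C ψ 0 ↔ ∀ q, ψ (C.cl q) = 1 := by
      unfold trG
      rw [chG_zero, mul_one]
    by_cases h : trG C ψ 0
    · refine ⟨0, fun X _ => ?_⟩
      rw [if_pos h, one_mul]
      have h1 : ∀ S ∈ Sx ι X, ∏ q ∈ S, ψ (C.cl q) = 1 := fun S _ =>
        prod_eq_one fun q _ => h0.1 h q
      rw [sum_congr rfl h1, sum_const, nsmul_eq_mul, mul_one, sub_self, norm_zero]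
      positivity
    · have h1 : ∃ q, ψ (C.cl q) ≠ 1 := by
        by_contra hcon
        push Not at hcon
        exact h (h0.2 hcon)
      obtain ⟨X₀, hX⟩ := h3 ψ h1 ε hε
      refine ⟨X₀, fun X hXX => ?_⟩
      rw [if_neg h, zero_mul, sub_zero]
      exact hX X hXX
  choose X0 h0 using key
  refine ⟨∑ ψ, X0 ψ, fun X hX => ?_⟩
  have hXt : ∀ ψ, X0 ψ ≤ X := fun ψ =>
    (single_le_sum (fun _ _ => Nat.zero_le _) (mem_univ ψ)).trans hX
  have h1 : ((SG C g X).card : ℂ) = (∑ ψ : AddChar G ℂ, ψ (-g) *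
      ∑ S ∈ Sx ι X, ∏ q ∈ S, ψ (C.cl q)) / Fintype.card G := by
    have := sum_SG C g X fun _ => 1
    simp only [mul_one, sum_const, nsmul_eq_mul] at this
    exact this
  have h2 : ((SG C g X).card : ℂ) - ZG C g / Fintype.card G * ((Sx ι X).card : ℂ) =
      (∑ ψ : AddChar G ℂ, ψ (-g) * (∑ S ∈ Sx ι X, ∏ q ∈ S, ψ (C.cl q) -
        (if trG C ψ 0 then 1 else 0) * ((Sx ι X).card : ℂ))) / Fintype.card G := by
    rw [h1, ZG]
    simp only [mul_sub, sum_sub_distrib, sub_div]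
    congr 1
    rw [sum_div, sum_div, sum_mul]
    refine sum_congr rfl fun ψ _ => ?_
    split_ifs
    · ring
    · ring
  rw [h2, norm_div, Complex.norm_natCast, div_le_iff₀ hG]
  refine (norm_sum_le _ _).trans ?_
  have hcard : (Fintype.card (AddChar G ℂ) : ℝ) = Fintype.card G := by
    rw [AddChar.card_eq]
  calc ∑ ψ : AddChar G ℂ, ‖ψ (-g) * (∑ S ∈ Sx ι X, ∏ q ∈ S, ψ (C.cl q) -
        (if trG C ψ 0 then 1 else 0) * ((Sx ι X).card : ℂ))‖
      ≤ ∑ _ψ : AddChar G ℂ, ε * X := by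
        refine sum_le_sum fun ψ _ => ?_
        rw [norm_mul, AddChar.norm_apply, one_mul]
        exact h0 ψ X (hXt ψ)
    _ = ε * X * Fintype.card G := by
        rw [sum_const, card_univ, nsmul_eq_mul, hcard]
        ring

/-- The moments in a class, from the count of the main terms. -/
theorem sum_kB {D : Dat2 ι κ} (hD : D.OK) (C : Cl2 D G) (h3 : C.H3) (c : κ → ZMod 2)
    (P : κ → E → ZMod 2) (R : Matrix E E (ZMod 2)) (g : G) {k : ℕ} (hk : 1 ≤ k) (ν : ℝ)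
    (hν : 0 ≤ ν)
    (hc : ∑ c0, e2 (∑ j, c0 j * C.A j g) * TE k c P R c0 = (2 ^ k) ^ Fintype.card E * (ν : ℂ))
    (ε : ℝ) (hε : 0 < ε) : ∃ X₀ : ℕ, ∀ X : ℕ, X₀ ≤ X →
      |∑ S ∈ SG C g X, (D.kB c P R S : ℝ) ^ k - ν * (SG C g X).card| ≤ ε * X := by
  classical
  have hG : (0 : ℝ) < Fintype.card G := Nat.cast_pos.2 Fintype.card_pos
  set W : ℝ := (2 ^ k) ^ Fintype.card E with hW
  have hW1 : 1 ≤ W := one_le_pow₀ (one_le_pow₀ (by norm_num))
  have hWc : ((W : ℝ) : ℂ) = (2 ^ k) ^ Fintype.card E := by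
    rw [hW]
    push_cast
    rfl
  set ε' : ℝ := ε / (1 + W * ν) with hε'
  have hpos : 0 < ε' := by positivity
  choose X1 h1 using fun ψ : AddChar G ℂ => MoE_lim hD (wtG C h3 ψ) c P R hk ε' hpos
  obtain ⟨X2, h2⟩ := card_SG C h3 g ε' hpos
  refine ⟨∑ ψ, X1 ψ + X2, fun X hX => ?_⟩
  have hX1 : ∀ ψ, X1 ψ ≤ X := fun ψ =>
    (single_le_sum (fun _ _ => Nat.zero_le _) (mem_univ ψ)).trans
      ((Nat.le_add_right _ _).trans hX)
  have hX2 : X2 ≤ X := (Nat.le_add_left _ _).trans hX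
  have h4 := h2 X hX2
  have e1 : ∑ S ∈ SG C g X, (D.kB c P R S : ℂ) ^ k =
      (∑ ψ : AddChar G ℂ, ψ (-g) * MoE D c P R k (fun q => ψ (C.cl q)) X) / Fintype.card G :=
    sum_SG C g X _
  have e2' := sum_trG C g (TE k c P R)
  rw [hc] at e2'
  have e3 : (∑ S ∈ SG C g X, (D.kB c P R S : ℂ) ^ k) * W -
      W * ν * (ZG C g / Fintype.card G * ((Sx ι X).card : ℂ)) =
      (∑ ψ : AddChar G ℂ, ψ (-g) * (MoE D c P R k (fun q => ψ (C.cl q)) X *
        (2 ^ k) ^ Fintype.card E - (∑ c0 ∈ univ.filter (trG C ψ), TE k c P R c0) *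
          ((Sx ι X).card : ℂ))) / Fintype.card G := by
    have e4 : ∑ ψ : AddChar G ℂ, ψ (-g) * (MoE D c P R k (fun q => ψ (C.cl q)) X *
        (2 ^ k) ^ Fintype.card E - (∑ c0 ∈ univ.filter (trG C ψ), TE k c P R c0) *
          ((Sx ι X).card : ℂ)) =
        (∑ ψ : AddChar G ℂ, ψ (-g) * MoE D c P R k (fun q => ψ (C.cl q)) X) *
          (2 ^ k) ^ Fintype.card E -
        (∑ ψ : AddChar G ℂ, ψ (-g) * ∑ c0 ∈ univ.filter (trG C ψ), TE k c P R c0) *
          ((Sx ι X).card : ℂ) := by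
      rw [sum_mul, sum_mul, ← sum_sub_distrib]
      exact sum_congr rfl fun ψ _ => by ring
    rw [e4, e2', e1, hWc]
    ring
  have h5 : ‖(∑ S ∈ SG C g X, (D.kB c P R S : ℂ) ^ k) * W -
      W * ν * (ZG C g / Fintype.card G * ((Sx ι X).card : ℂ))‖ ≤ ε' * X := by
    rw [e3, norm_div, Complex.norm_natCast, div_le_iff₀ hG]
    refine (norm_sum_le _ _).trans ?_
    have hcard : (Fintype.card (AddChar G ℂ) : ℝ) = Fintype.card G := by
      rw [AddChar.card_eq]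
    calc ∑ ψ : AddChar G ℂ, ‖ψ (-g) * (MoE D c P R k (fun q => ψ (C.cl q)) X *
          (2 ^ k) ^ Fintype.card E - (∑ c0 ∈ univ.filter (trG C ψ), TE k c P R c0) *
            ((Sx ι X).card : ℂ))‖
        ≤ ∑ _ψ : AddChar G ℂ, ε' * X := by
          refine sum_le_sum fun ψ _ => ?_
          rw [norm_mul, AddChar.norm_apply, one_mul]
          exact h1 ψ X (hX1 ψ)
      _ = ε' * X * Fintype.card G := by
          rw [sum_const, card_univ, nsmul_eq_mul, hcard]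
          ring
  have h6 : ((∑ S ∈ SG C g X, (D.kB c P R S : ℝ) ^ k - ν * (SG C g X).card : ℝ) : ℂ) * W =
      ((∑ S ∈ SG C g X, (D.kB c P R S : ℂ) ^ k) * W -
        W * ν * (ZG C g / Fintype.card G * ((Sx ι X).card : ℂ))) -
      W * ν * (((SG C g X).card : ℂ) - ZG C g / Fintype.card G * ((Sx ι X).card : ℂ)) := by
    push_cast
    ring
  have h7 : |∑ S ∈ SG C g X, (D.kB c P R S : ℝ) ^ k - ν * (SG C g X).card| * W ≤
      ε' * X + W * ν * (ε' * X) := by
    have h8 : |∑ S ∈ SG C g X, (D.kB c P R S : ℝ) ^ k - ν * (SG C g X).card| * W =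
        ‖((∑ S ∈ SG C g X, (D.kB c P R S : ℝ) ^ k - ν * (SG C g X).card : ℝ) : ℂ) * W‖ := by
      rw [norm_mul, Complex.norm_real, Complex.norm_real, Real.norm_eq_abs, Real.norm_eq_abs,
        abs_of_pos (by linarith : 0 < W)]
    rw [h8, h6]
    refine (norm_sub_le _ _).trans (add_le_add h5 ?_)
    rw [norm_mul, norm_mul, Complex.norm_real, Complex.norm_real, Real.norm_eq_abs,
      Real.norm_eq_abs, abs_of_pos (by linarith : 0 < W), abs_of_nonneg hν]
    exact mul_le_mul_of_nonneg_left h4 (by positivity)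
  have h9 : ε' * X + W * ν * (ε' * X) = ε * X := by
    rw [hε']
    field_simp
  rw [h9] at h7
  exact (le_mul_of_one_le_right (abs_nonneg _) hW1).trans h7

end Da

end

end Pool.Agent.Lib.MP_1a91b9_ntQ
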