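import Pool.Agent.Lib.MP_1a91b9_ntH.D.FamProd
import Pool.Agent.Lib.MP_1a91b9_ntH.D.Split

/-!
# MP_1a91b9_nt (quartic twists), part D: complex versions of the family lemmas
-/

set_option autoImplicit false

namespace Pool.Agent.Lib.MP_1a91b9_ntQ.D

open Finset Pool.Agent.Lib.MP_1a91b9_ntH

noncomputable section

variable {ι : Type} [DecidableEq ι] {L : Type} [Fintype L] [DecidableEq L]

theorem sum_fun_eq_famC (S : Finset ι) (G : (L → Finset ι) → ℂ) :
    ∑ f : S → L, G (famOf S f) = ∑ d ∈ Fam L S, G d := by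
  apply Complex.ext
  · rw [Complex.re_sum, Complex.re_sum]
    exact sum_fun_eq_fam S fun d => (G d).re
  · rw [Complex.im_sum, Complex.im_sum]
    exact sum_fun_eq_fam S fun d => (G d).im

theorem sum_boxC [PS ι] (X : ℕ) (G : (L → Finset ι) → ℂ) :
    ∑ d ∈ Box ι L X, G d = ∑ S ∈ Sx ι X, ∑ d ∈ Fam L S, G d := by
  apply Complex.ext
  · simp only [Complex.re_sum]
    exact sum_box X fun d => (G d).re
  · simp only [Complex.im_sum]
    exact sum_box X fun d => (G d).im

theorem fam_prodC (S : Finset ι) (g : L → ι → ℂ) :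
    ∑ d ∈ Fam L S, ∏ l, ∏ q ∈ d l, g l q = ∏ q ∈ S, ∑ l, g l q := by
  rw [← sum_fun_eq_famC S (fun d => ∏ l, ∏ q ∈ d l, g l q), ← prod_coe_sort S (fun q => ∑ l, g l q),
    prod_univ_sum, Fintype.piFinset_univ]
  refine sum_congr rfl fun f _ => ?_
  have h1 : ∀ l, ∏ q ∈ famOf S f l, g l q = ∏ j : S with f j = l, g (f j) j := by
    intro l
    unfold famOf
    rw [prod_map]
    refine prod_congr rfl fun j hj => ?_
    rw [(mem_filter.1 hj).2]
    rfl
  change ∏ l, ∏ q ∈ famOf S f l, g l q = ∏ j : S, g (f j) j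
  rw [prod_congr rfl fun l _ => h1 l]
  exact prod_fiberwise univ f (fun j : S => g (f j) j)

theorem famU_prodC (U : Finset L) (S : Finset ι) (g : L → ι → ℂ) :
    ∑ d ∈ FamU U S, ∏ l, ∏ q ∈ d l, g l q = ∏ q ∈ S, ∑ l ∈ U, g l q := by
  have h1 := fam_prodC S (fun (l : L) q => if l ∈ U then g l q else 0)
  have h2 : ∏ q ∈ S, ∑ l : L, (if l ∈ U then g l q else 0) = ∏ q ∈ S, ∑ l ∈ U, g l q := by
    refine prod_congr rfl fun q _ => ?_
    rw [sum_ite_mem, univ_inter]
  rw [h2] at h1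
  rw [← h1]
  unfold FamU
  rw [sum_filter]
  refine sum_congr rfl fun d _ => ?_
  by_cases h3 : ∀ l, l ∉ U → d l = ∅
  · rw [if_pos h3]
    refine prod_congr rfl fun l _ => ?_
    by_cases hl : l ∈ U
    · exact prod_congr rfl fun q _ => (if_pos hl).symm
    · rw [h3 l hl, prod_empty, prod_empty]
  · rw [if_neg h3]
    push Not at h3
    obtain ⟨l, hl, hd⟩ := h3
    obtain ⟨q, hq⟩ := hd
    symm
    refine prod_eq_zero (mem_univ l) (prod_eq_zero hq ?_)
    exact if_neg hl

open Classical in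
theorem sum_splitC [PS ι] (X V : ℕ) (hV : 1 ≤ V) (U : Finset L) (G : (L → Finset ι) → ℂ) :
    ∑ d ∈ BoxS ι X V U, G d =
      ∑ b ∈ SmB ι V U, ∑ S ∈ (Sx ι (X / nmf b)).filter (fun S => Disjoint S (uni b)),
        ∑ d ∈ FamU U S, G (fun l => b l ∪ d l) := by
  apply Complex.ext
  · simp only [Complex.re_sum]
    exact sum_split X V hV U fun d => (G d).re
  · simp only [Complex.im_sum]
    exact sum_split X V hV U fun d => (G d).im

end

end Pool.Agent.Lib.MP_1a91b9_ntQ.D
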