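import Pool.Agent.Lib.MP_1a91b9_ntH.D.UB
import Pool.Agent.Lib.MP_1a91b9_ntQ.D.HBound

/-!
# MP_1a91b9_nt (quartic twists), part D: the main term

The sum over families supported on a maximal unlinked set `U` is the number of squarefree integers
prime to `B` if the linear term vanishes on `U`, and small otherwise, up to a small error.
-/

set_option autoImplicit false
set_option linter.unusedSectionVars false

namespace Pool.Agent.Lib.MP_1a91b9_ntQ.D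

open Finset Pool.Agent.Lib.MP_1a91b9_ntH

noncomputable section

variable {ι : Type} [DecidableEq ι] [PS ι] {L : Type} [Fintype L] [DecidableEq L] {κ : Type} [Fintype κ]

omit [DecidableEq ι] [PS ι] [DecidableEq L] in
theorem ee_empty (D : Dat2 ι κ) (Λ : LS2 L ι κ) : D.ee Λ (fun _ : L => (∅ : Finset ι)) = 0 := by
  unfold Dat2.ee
  simp only [sum_empty, ss_empty_left, mul_zero, sum_const_zero, add_zero]

theorem innerT_sum (D : Dat2 ι κ) (hD : D.OK) (Λ : LS2 L ι κ) (hΛ : Λ.OK) (g : ι → ℂ) (X : ℕ)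
    (U : Finset L) (hU : Λ.Unl U) :
    ∑ S ∈ Sx ι X, ∑ d ∈ FamU U S, D.FF Λ g d =
      ∑ S ∈ Sx ι X, ∏ q ∈ S, Hq D Λ g U (fun _ => ∅) q := by
  refine sum_congr rfl fun S _ => ?_
  have h2 := inner_eq D hD.sym Λ hΛ g U hU (fun _ => ∅)
    (by rw [uni_empty]; exact disjoint_empty_left _) S
    (by rw [uni_empty]; exact disjoint_empty_right _)
  rw [uni_empty, ee_empty, card_empty, pow_zero, prod_empty, e2_zero, one_mul, one_mul,
    one_mul] at h2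
  simpa only [empty_union] using h2

private theorem innerT_small (δ K B ε : ℝ) (hδ : 0 < δ) (hK : 0 < K) (hB : 1 ≤ B) (hε : 0 < ε) :
    ∃ X₀ : ℕ, ∀ X : ℕ, X₀ ≤ X → K * X * Real.log X ^ (-δ) * B ^ δ ≤ ε * X := by
  have h1 : Filter.Tendsto (fun X : ℕ => Real.log (X : ℝ) ^ (-δ)) Filter.atTop (nhds 0) :=
    (tendsto_rpow_neg_atTop hδ).comp
      (Real.tendsto_log_atTop.comp tendsto_natCast_atTop_atTop)
  have hP : 0 < K * B ^ δ := mul_pos hK (Real.rpow_pos_of_pos (by linarith) _)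
  have h2 : ∀ᶠ X : ℕ in Filter.atTop, Real.log (X : ℝ) ^ (-δ) < ε / (K * B ^ δ) :=
    h1.eventually (gt_mem_nhds (div_pos hε hP))
  obtain ⟨X₀, h3⟩ := Filter.eventually_atTop.1 h2
  refine ⟨X₀, fun X hX => ?_⟩
  have h4 := h3 X hX
  rw [lt_div_iff₀ hP] at h4
  have h5 : K * X * Real.log X ^ (-δ) * B ^ δ = (Real.log (X : ℝ) ^ (-δ) * (K * B ^ δ)) * X := by
    ring
  rw [h5]
  exact mul_le_mul_of_nonneg_right h4.le (Nat.cast_nonneg X)

open Classical in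
/-- The main term of a set of labels. -/
def mt (Λ : LS2 L ι κ) (tr : (κ → ZMod 2) → Prop) (X : ℕ) (U : Finset L) : ℂ :=
  if Λ.Lin0 tr U then (((Sx ι X).filter (fun S => Disjoint S Λ.B)).card : ℂ) else 0

theorem innerT_one (D : Dat2 ι κ) (hD : D.OK) (Λ : LS2 L ι κ) (hΛ : Λ.OK) {g : ι → ℂ}
    {tr : (κ → ZMod 2) → Prop} (hw : D.Wt Λ.B g tr) (ε : ℝ) (hε : 0 < ε)
    (U : Finset L) (hU : U ∈ Λ.Us) :
    ∃ X₀ : ℕ, ∀ X : ℕ, X₀ ≤ X →
      ‖∑ S ∈ Sx ι X, ∏ q ∈ S, Hq D Λ g U (fun _ => ∅) q - mt Λ tr X U‖ ≤ ε * X := by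
  classical
  have hg := hw.nrm
  have hU' := (Λ.mem_Us U).1 hU
  have hm := hΛ.two
  have hne : U.Nonempty := by
    rw [← card_pos, hU'.2]
    omega
  by_cases hB : ∃ l ∈ U, ∃ l' ∈ U, Λ.c l ≠ Λ.c l' ∨ ∃ p ∈ Λ.B, Λ.t l p ≠ Λ.t l' p
  · obtain ⟨l, hl, l', hl', hll⟩ := hB
    have hlin : ¬ Λ.Lin0 tr U := by
      rintro ⟨c0, -, h⟩
      have h1 := h l hl
      have h2 := h l' hl'
      rcases hll with h3 | ⟨p, hp, h3⟩
      · exact h3 (h1.1.trans h2.1.symm)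
      · exact h3 ((h1.2 p hp).trans (h2.2 p hp).symm)
    obtain ⟨T, t, c, hTc, -, ht, hH⟩ := Hq_bound0 D hD.sym Λ hΛ hg U hU'.2 l l' hl hl' hll
    obtain ⟨C, hC⟩ := hD.cbt
    obtain ⟨C1, hC1⟩ := hD.cheb
    obtain ⟨C2, hC2⟩ := hD.zt
    have hCB := hC T t c ht hTc
    have hM2 : 2 ≤ 2 * Λ.m := by omega
    obtain ⟨K, hK, hub⟩ := ub hC1 hC2 (2 * Λ.m) hM2
    have hm0 : (0 : ℝ) < (2 * Λ.m : ℕ) := by
      have : 0 < 2 * Λ.m := by omega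
      exact_mod_cast this
    obtain ⟨X₀, hX₀⟩ := innerT_small (1 / ((2 * Λ.m : ℕ) : ℝ)) K
      (C * (1 + Real.log (nm T))) ε (by positivity) hK hCB.hB hε
    refine ⟨max X₀ 2, fun X hX => ?_⟩
    unfold mt
    rw [if_neg hlin, sub_zero]
    have h1 : ‖∑ S ∈ Sx ι X, ∏ q ∈ S, Hq D Λ g U (fun _ => ∅) q‖ ≤
        ∑ S ∈ Sx ι X, ∏ q ∈ S, ‖Hq D Λ g U (fun _ => ∅) q‖ := by
      refine (norm_sum_le _ _).trans (sum_le_sum fun S _ => ?_)
      rw [norm_prod]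
    have h2 := hub (fun q => D.cht T t c q) _ hCB (fun q => ‖Hq D Λ g U (fun _ => ∅) q‖)
      (fun q => ⟨norm_nonneg _, hH q⟩) X ((le_max_right _ _).trans hX)
    have h3 := hX₀ X ((le_max_left _ _).trans hX)
    exact h1.trans (h2.trans h3)
  push Not at hB
  obtain ⟨l₀, hl₀⟩ := hne
  have hHq : ∀ q, Hq D Λ g U (fun _ => ∅) q =
      if q ∈ Λ.B then 0 else g q * e2 (D.ex Λ.B (Λ.t l₀) (Λ.c l₀) q) := fun q =>
    Hq_const D Λ hΛ g U hU'.2 (Λ.t l₀) (Λ.c l₀) (fun l hl => hB l hl l₀ hl₀) q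
  have hsum : ∀ X : ℕ, ∑ S ∈ Sx ι X, ∏ q ∈ S, Hq D Λ g U (fun _ => ∅) q =
      ∑ S ∈ (Sx ι X).filter (fun S => Disjoint S Λ.B),
        ∏ q ∈ S, (g q * e2 (D.ex Λ.B (Λ.t l₀) (Λ.c l₀) q)) := by
    intro X
    rw [sum_filter]
    refine sum_congr rfl fun S _ => ?_
    by_cases hS : Disjoint S Λ.B
    · rw [if_pos hS]
      refine prod_congr rfl fun q hq => ?_
      rw [hHq q, if_neg (disjoint_left.1 hS hq)]
    · rw [if_neg hS]
      rw [disjoint_left] at hS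
      push Not at hS
      obtain ⟨q, hq, hqB⟩ := hS
      exact prod_eq_zero hq (by rw [hHq q, if_pos hqB])
  set T : Finset ι := Λ.B.filter fun p => Λ.t l₀ p ≠ 0 with hT
  have hex : ∀ q, D.ex Λ.B (Λ.t l₀) (Λ.c l₀) q = D.ex1 T (Λ.c l₀) q := by
    intro q
    have h1 : D.ex Λ.B (Λ.t l₀) (Λ.c l₀) q = D.ex T (Λ.t l₀) (Λ.c l₀) q := by
      unfold Dat2.ex
      congr 1
      symm
      refine sum_subset (filter_subset _ _) fun p hp hp2 => ?_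
      have h1 : Λ.t l₀ p = 0 := by
        by_contra h
        exact hp2 (mem_filter.2 ⟨hp, h⟩)
      rw [h1, zero_mul]
    rw [h1]
    exact D.ex_eq T _ _ (fun p hp => (mem_filter.1 hp).2) q
  by_cases h0 : T ≠ ∅ ∨ ¬ tr (Λ.c l₀)
  · have hlin : ¬ Λ.Lin0 tr U := by
      rintro ⟨c0, hc0, h⟩
      have h1 := h l₀ hl₀
      rcases h0 with h2 | h2
      · obtain ⟨p, hp⟩ := nonempty_iff_ne_empty.2 h2
        obtain ⟨hp1, hp2⟩ := mem_filter.1 hp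
        exact hp2 (h1.2 p hp1)
      · rw [h1.1] at h2
        exact h2 hc0
    obtain ⟨X₀, hX₀⟩ := hw.mz T (Λ.c l₀) (filter_subset _ _) h0 ε hε
    refine ⟨X₀, fun X hX => ?_⟩
    unfold mt
    rw [if_neg hlin, sub_zero, hsum X]
    simp only [hex]
    exact hX₀ X hX
  · push Not at h0
    have hTB : ∀ p ∈ Λ.B, Λ.t l₀ p = 0 := by
      intro p hp
      by_contra h
      have h1 : p ∈ T := mem_filter.2 ⟨hp, h⟩
      rw [h0.1] at h1
      exact absurd h1 (notMem_empty _)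
    have hlin : Λ.Lin0 tr U := by
      refine ⟨Λ.c l₀, h0.2, fun l hl => ?_⟩
      have h1 := hB l hl l₀ hl₀
      exact ⟨h1.1, fun p hp => (h1.2 p hp).trans (hTB p hp)⟩
    refine ⟨0, fun X _ => ?_⟩
    have hex0 : ∀ q, g q * e2 (D.ex Λ.B (Λ.t l₀) (Λ.c l₀) q) = 1 := by
      intro q
      rw [hex q, h0.1]
      exact hw.one _ h0.2 q
    unfold mt
    rw [if_pos hlin, hsum X]
    simp only [hex0, prod_const_one, sum_const, nsmul_eq_mul, mul_one, sub_self, norm_zero]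
    positivity

theorem inner_triv (D : Dat2 ι κ) (hD : D.OK) (Λ : LS2 L ι κ) (hΛ : Λ.OK) {g : ι → ℂ}
    {tr : (κ → ZMod 2) → Prop} (hw : D.Wt Λ.B g tr) (ε : ℝ) (hε : 0 < ε) :
    ∃ X₀ : ℕ, ∀ X : ℕ, X₀ ≤ X → ∀ U ∈ Λ.Us,
      ‖∑ S ∈ Sx ι X, ∑ d ∈ FamU U S, D.FF Λ g d - mt Λ tr X U‖ ≤ ε * X := by
  have key : ∀ U : Finset L, ∃ X₀ : ℕ, U ∈ Λ.Us → ∀ X : ℕ, X₀ ≤ X →
      ‖∑ S ∈ Sx ι X, ∏ q ∈ S, Hq D Λ g U (fun _ => ∅) q - mt Λ tr X U‖ ≤ ε * X := by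
    intro U
    by_cases hU : U ∈ Λ.Us
    · obtain ⟨X₀, hX₀⟩ := innerT_one D hD Λ hΛ hw ε hε U hU
      exact ⟨X₀, fun _ => hX₀⟩
    · exact ⟨0, fun hc => absurd hc hU⟩
  choose X0 hX0 using key
  refine ⟨univ.sup fun U : Finset L => X0 U, fun X hX U hU => ?_⟩
  rw [innerT_sum D hD Λ hΛ g X U ((Λ.mem_Us U).1 hU).1]
  exact hX0 U hU X ((le_sup (f := fun U : Finset L => X0 U) (mem_univ U)).trans hX)

end

end Pool.Agent.Lib.MP_1a91b9_ntQ.D
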