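import Pool.Agent.Lib.MP_1a91b9_ntH.D.DivLog
import Pool.Agent.Lib.MP_1a91b9_ntH.D.Split
import Pool.Agent.Lib.MP_1a91b9_ntH.D.FamProd
import Pool.Agent.Lib.MP_1a91b9_ntH.D.Exp
import Pool.Agent.Lib.MP_1a91b9_ntQ.D.Defs

/-!
# MP_1a91b9_nt (quartic twists), part D: patterns with few large variables

If fewer than `m` of the variables may be large, then the sum of the absolute values of the summands over the box is small:
the sum over the large part is bounded by the sum of a multiplicative function with mean value less than `1` on the primes.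
-/

set_option autoImplicit false

namespace Pool.Agent.Lib.MP_1a91b9_ntQ.D

open Finset Pool.Agent.Lib.MP_1a91b9_ntH

noncomputable section

set_option linter.unusedSectionVars false

variable {ι : Type} [DecidableEq ι] [PS ι] {L : Type} [Fintype L] [DecidableEq L] {κ : Type} [Fintype κ]

omit [PS ι] in
private theorem small_abs (D : Dat2 ι κ) (Λ : LS2 L ι κ) {g : ι → ℂ} (hg : ∀ q, ‖g q‖ = 1) (d : L → Finset ι) :
    ‖D.FF Λ g d‖ ≤ ((Λ.m : ℝ)⁻¹) ^ (uni d).card := by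
  unfold Dat2.FF
  split_ifs with h
  · have hgp : ‖∏ q ∈ uni d, g q‖ = 1 := by
      rw [norm_prod]
      exact prod_eq_one fun q _ => hg q
    rw [norm_mul, norm_mul, norm_e2, mul_one, hgp, mul_one, norm_pow, norm_inv,
      Complex.norm_natCast]
  · rw [norm_zero]
    exact pow_nonneg (inv_nonneg.2 (Nat.cast_nonneg _)) _

omit [PS ι] in
private theorem small_prod (c : ℝ) (Z : Finset L) (S : Finset ι) (d : L → Finset ι)
    (hd : d ∈ FamU Z S) : ∏ l, ∏ _q ∈ d l, c = c ^ S.card := by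
  obtain ⟨hPD, hu, -⟩ := mem_FamU.1 hd
  rw [← hu, ← prod_const, uni, prod_biUnion]
  intro l _ m _ hlm
  exact hPD l m hlm

private theorem small_char : CharB (fun _ : ι => (0 : ℝ)) 1 := by
  refine ⟨fun q => by simp, le_refl _, fun σ _ _ => Filter.Eventually.of_forall fun x => ?_⟩
  simp

private theorem small_inner (D : Dat2 ι κ) (Λ : LS2 L ι κ) (hΛ : Λ.OK) {g : ι → ℂ}
    (hg : ∀ q, ‖g q‖ = 1) (Z : Finset L) (S : Finset ι)
    (b : L → Finset ι) :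
    ∑ d ∈ FamU Z S, ‖D.FF Λ g (fun l => b l ∪ d l)‖ ≤ ∏ _q ∈ S, ((Z.card : ℝ) * (Λ.m : ℝ)⁻¹) := by
  have hm : (2 : ℝ) ≤ Λ.m := by exact_mod_cast hΛ.two
  have hm0 : (0 : ℝ) ≤ (Λ.m : ℝ)⁻¹ := inv_nonneg.2 (by linarith)
  have hm1 : (Λ.m : ℝ)⁻¹ ≤ 1 := inv_le_one_of_one_le₀ (by linarith)
  have h1 : ∑ d ∈ FamU Z S, ‖D.FF Λ g (fun l => b l ∪ d l)‖ ≤
      ∑ d ∈ FamU Z S, ∏ l, ∏ _q ∈ d l, (Λ.m : ℝ)⁻¹ := by
    refine sum_le_sum fun d hd => ?_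
    refine (small_abs D Λ hg _).trans ?_
    rw [small_prod _ Z S d hd]
    refine pow_le_pow_of_le_one hm0 hm1 (card_le_card ?_)
    intro q hq
    rw [← (mem_FamU.1 hd).2.1, mem_uni] at hq
    obtain ⟨l, hl⟩ := hq
    exact mem_uni.2 ⟨l, mem_union_right _ hl⟩
  refine h1.trans (le_of_eq ?_)
  rw [famU_prod Z S (fun _ _ => (Λ.m : ℝ)⁻¹)]
  refine prod_congr rfl fun q _ => ?_
  rw [sum_const, nsmul_eq_mul]

theorem small_bound (D : Dat2 ι κ) (hD : D.OK) (Λ : LS2 L ι κ) (hΛ : Λ.OK) {g : ι → ℂ}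
    (hg : ∀ q, ‖g q‖ = 1) :
    ∃ C : ℝ, 0 < C ∧ ∀ (X V : ℕ) (Z : Finset L), 16 ≤ X → 1 ≤ V → V ^ (2 * Fintype.card L) ≤ X →
      Z.card < Λ.m → ∑ d ∈ BoxS ι X V Z, ‖D.FF Λ g d‖ ≤
        C * X * Real.log X ^ (-(1 / (Λ.m : ℝ))) * (1 + Real.log V) ^ (Fintype.card L) := by
  classical
  obtain ⟨C1, h1⟩ := hD.cheb
  obtain ⟨C2, h2⟩ := hD.zt
  obtain ⟨K, hK, hub⟩ := ub h1 h2 Λ.m hΛ.two
  obtain ⟨H, hH1, hH⟩ := harm h2
  have hm2 : (2 : ℝ) ≤ Λ.m := by exact_mod_cast hΛ.two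
  have hm0 : (0 : ℝ) < Λ.m := by linarith
  have hH0 : (0 : ℝ) < H := by linarith
  refine ⟨4 * K * H ^ Fintype.card L, by positivity, fun X V Z hX hV hVX hZ => ?_⟩
  have hlogX : 0 ≤ Real.log X := Real.log_natCast_nonneg X
  have hrp : 0 ≤ Real.log X ^ (-(1 / (Λ.m : ℝ))) := Real.rpow_nonneg hlogX _
  rw [sum_split X V hV Z (fun d => ‖D.FF Λ g d‖)]
  have key : ∀ b ∈ SmB ι V Z,
      ∑ S ∈ (Sx ι (X / nmf b)).filter (fun S => Disjoint S (uni b)),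
        ∑ d ∈ FamU Z S, ‖D.FF Λ g (fun l => b l ∪ d l)‖ ≤
      4 * K * X * Real.log X ^ (-(1 / (Λ.m : ℝ))) * ((1 : ℝ) / nmf b) := by
    intro b hb
    have hP1 : 1 ≤ nmf b := one_le_nmf b
    have hPX : nmf b ^ 2 ≤ X := by
      refine le_trans (Nat.pow_le_pow_left (nmf_le_pow hb) 2) ?_
      rw [← pow_mul, mul_comm]
      exact hVX
    have hδ0 : (0 : ℝ) < 1 / (Λ.m : ℝ) := by positivity
    have hδ1 : 1 / (Λ.m : ℝ) ≤ 1 := by
      rw [div_le_one hm0]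
      linarith
    obtain ⟨hx2, hxX, hlog⟩ := div_log X (nmf b) (1 / (Λ.m : ℝ)) hX hP1 hPX hδ0 hδ1
    have hw : ∀ q : ι, 0 ≤ (fun _ : ι => (Z.card : ℝ) * (Λ.m : ℝ)⁻¹) q ∧
        (fun _ : ι => (Z.card : ℝ) * (Λ.m : ℝ)⁻¹) q ≤
          ((Λ.m - 1 : ℝ) + (fun _ : ι => (0 : ℝ)) q) / Λ.m := by
      intro q
      refine ⟨by positivity, ?_⟩
      have hZ' : (Z.card : ℝ) + 1 ≤ Λ.m := by exact_mod_cast hZ
      simp only [add_zero]
      rw [div_eq_mul_inv]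
      exact mul_le_mul_of_nonneg_right (by linarith) (by positivity)
    have hu := hub (fun _ => (0 : ℝ)) 1 small_char (fun _ => (Z.card : ℝ) * (Λ.m : ℝ)⁻¹) hw
      (X / nmf b) hx2
    rw [Real.one_rpow, mul_one] at hu
    calc ∑ S ∈ (Sx ι (X / nmf b)).filter (fun S => Disjoint S (uni b)),
          ∑ d ∈ FamU Z S, ‖D.FF Λ g (fun l => b l ∪ d l)‖
        ≤ ∑ S ∈ (Sx ι (X / nmf b)).filter (fun S => Disjoint S (uni b)),
          ∏ _q ∈ S, ((Z.card : ℝ) * (Λ.m : ℝ)⁻¹) :=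
          sum_le_sum fun S _ => small_inner D Λ hΛ hg Z S b
      _ ≤ ∑ S ∈ Sx ι (X / nmf b), ∏ _q ∈ S, ((Z.card : ℝ) * (Λ.m : ℝ)⁻¹) :=
          sum_le_sum_of_subset_of_nonneg (filter_subset _ _)
            fun S _ _ => prod_nonneg fun q _ => by positivity
      _ ≤ K * ((X / nmf b : ℕ) : ℝ) * Real.log ((X / nmf b : ℕ) : ℝ) ^ (-(1 / (Λ.m : ℝ))) := hu
      _ ≤ K * (X * (1 / nmf b)) * (4 * Real.log X ^ (-(1 / (Λ.m : ℝ)))) := by
          refine mul_le_mul ?_ hlog (Real.rpow_nonneg (Real.log_natCast_nonneg _) _) (by positivity)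
          exact mul_le_mul_of_nonneg_left hxX hK.le
      _ = 4 * K * X * Real.log X ^ (-(1 / (Λ.m : ℝ))) * ((1 : ℝ) / nmf b) := by ring
  calc ∑ b ∈ SmB ι V Z, ∑ S ∈ (Sx ι (X / nmf b)).filter (fun S => Disjoint S (uni b)),
        ∑ d ∈ FamU Z S, ‖D.FF Λ g (fun l => b l ∪ d l)‖
      ≤ ∑ b ∈ SmB ι V Z, 4 * K * X * Real.log X ^ (-(1 / (Λ.m : ℝ))) * ((1 : ℝ) / nmf b) :=
        sum_le_sum key
    _ = 4 * K * X * Real.log X ^ (-(1 / (Λ.m : ℝ))) * ∑ b ∈ SmB ι V Z, (1 : ℝ) / nmf b := by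
        rw [mul_sum]
    _ ≤ 4 * K * X * Real.log X ^ (-(1 / (Λ.m : ℝ))) *
          (H ^ Fintype.card L * (1 + Real.log V) ^ Fintype.card L) :=
        mul_le_mul_of_nonneg_left (harm_fam hH1 hH V hV Z) (by positivity)
    _ = 4 * K * H ^ Fintype.card L * X * Real.log X ^ (-(1 / (Λ.m : ℝ))) *
          (1 + Real.log V) ^ (Fintype.card L) := by ring

end

end Pool.Agent.Lib.MP_1a91b9_ntQ.D
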