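import Pool.Agent.Lib.MP_1a91b9_ntQ.D.Defs

/-!
# MP_1a91b9_nt (quartic twists), part D: exponents

Rules for the exponents of families: additivity, symmetry, the exponent on an unlinked set.
-/

set_option autoImplicit false
set_option linter.unusedSectionVars false

namespace Pool.Agent.Lib.MP_1a91b9_ntQ.D

open Finset Pool.Agent.Lib.MP_1a91b9_ntH

noncomputable section

variable {ι : Type} [DecidableEq ι] {L : Type} [Fintype L] [DecidableEq L] {κ : Type} [Fintype κ]

theorem ss_union_left (D : Dat2 ι κ) {S T : Finset ι} (h : Disjoint S T) (R : Finset ι) :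
    D.ss (S ∪ T) R = D.ss S R + D.ss T R :=
  sum_union h

theorem ss_union_right (D : Dat2 ι κ) {S T : Finset ι} (h : Disjoint S T) (R : Finset ι) :
    D.ss R (S ∪ T) = D.ss R S + D.ss R T := by
  unfold Dat2.ss
  rw [← sum_add_distrib]
  exact sum_congr rfl fun q _ => sum_union h

omit [DecidableEq ι] in
theorem ss_empty_left (D : Dat2 ι κ) (S : Finset ι) : D.ss ∅ S = 0 := sum_empty

omit [DecidableEq ι] in
theorem ss_empty_right (D : Dat2 ι κ) (S : Finset ι) : D.ss S ∅ = 0 := by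
  unfold Dat2.ss
  refine sum_eq_zero fun q _ => ?_
  exact sum_empty

omit [DecidableEq ι] in
theorem ss_symm (D : Dat2 ι κ) (hD : D.Sym) {S T : Finset ι} (h : Disjoint S T) :
    D.ss S T = D.ss T S := by
  unfold Dat2.ss
  rw [sum_comm (s := T) (t := S)]
  refine sum_congr rfl fun q hq => sum_congr rfl fun p hp => hD q p ?_
  rintro rfl
  exact (disjoint_left.1 h) hq hp

theorem ee_union (D : Dat2 ι κ) (Λ : LS2 L ι κ) (b d : L → Finset ι) (h : Disjoint (uni b) (uni d)) :
    D.ee Λ (fun l => b l ∪ d l) = D.ee Λ b + D.ee Λ d +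
      ∑ l, ∑ m, Λ.Phi l m * (D.ss (b l) (d m) + D.ss (d l) (b m)) := by
  have hdis : ∀ l m, Disjoint (b l) (d m) := fun l m =>
    disjoint_of_subset_left (sub_uni b l) (disjoint_of_subset_right (sub_uni d m) h)
  have h1 : ∑ l, ∑ q ∈ b l ∪ d l, D.lin Λ l q =
      ∑ l, ∑ q ∈ b l, D.lin Λ l q + ∑ l, ∑ q ∈ d l, D.lin Λ l q := by
    rw [← sum_add_distrib]
    exact sum_congr rfl fun l _ => sum_union (hdis l l)
  have h2 : ∑ l, ∑ m, Λ.Phi l m * D.ss (b l ∪ d l) (b m ∪ d m) =
      ∑ l, ∑ m, Λ.Phi l m * D.ss (b l) (b m) + ∑ l, ∑ m, Λ.Phi l m * D.ss (d l) (d m) +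
        ∑ l, ∑ m, Λ.Phi l m * (D.ss (b l) (d m) + D.ss (d l) (b m)) := by
    rw [← sum_add_distrib, ← sum_add_distrib]
    refine sum_congr rfl fun l _ => ?_
    rw [← sum_add_distrib, ← sum_add_distrib]
    refine sum_congr rfl fun m _ => ?_
    rw [ss_union_left D (hdis l l), ss_union_right D (hdis m m), ss_union_right D (hdis m m)]
    ring
  unfold Dat2.ee
  rw [h1, h2]
  ring

theorem sum_symm_zero {α : Type} [DecidableEq α] (s : Finset α) (f : α → α → ZMod 2)
    (h0 : ∀ l, f l l = 0) (h1 : ∀ l m, f l m = f m l) : ∑ l ∈ s, ∑ m ∈ s, f l m = 0 := by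
  induction s using Finset.induction_on with
  | empty => rfl
  | insert a s ha ih =>
    rw [sum_insert ha, sum_insert ha, h0, zero_add]
    have h2 : ∀ l ∈ s, ∑ m ∈ insert a s, f l m = f a l + ∑ m ∈ s, f l m := fun l _ => by
      rw [sum_insert ha, h1 l a]
    rw [sum_congr rfl h2, sum_add_distrib, ih, add_zero]
    have h3 : ∀ x : ZMod 2, x + x = 0 := by decide
    exact h3 _

omit [DecidableEq ι] in
theorem ee_unl (D : Dat2 ι κ) (hD : D.Sym) (Λ : LS2 L ι κ) (hΛ : Λ.OK) (U : Finset L)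
    (hU : Λ.Unl U) (d : L → Finset ι) (hd : PD d) (h0 : ∀ l, l ∉ U → d l = ∅) :
    D.ee Λ d = ∑ l, ∑ q ∈ d l, D.lin Λ l q := by
  have h1 : ∑ l, ∑ m, Λ.Phi l m * D.ss (d l) (d m) = 0 := by
    refine sum_symm_zero univ _ (fun l => ?_) fun l m => ?_
    · rw [hΛ.diag, zero_mul]
    · by_cases hlm : l = m
      · rw [hlm]
      · rw [ss_symm D hD (hd m l (Ne.symm hlm))]
        by_cases hl : l ∈ U
        · by_cases hm : m ∈ U
          · have h3 : Λ.Phi l m + Λ.Phi m l = 0 := hU l hl m hm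
            have h4 : Λ.Phi l m = Λ.Phi m l := by
              rw [← sub_eq_zero, sub_eq_add_neg, ZModModule.neg_eq_self]
              exact h3
            rw [h4]
          · rw [h0 m hm, ss_empty_right, mul_zero, mul_zero]
        · rw [h0 l hl, ss_empty_left, mul_zero, mul_zero]
  unfold Dat2.ee
  rw [h1, add_zero]

end

end Pool.Agent.Lib.MP_1a91b9_ntQ.D
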