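import Pool.Agent.Lib.MP_1a91b9_ntQ.D.Gd4
import Pool.Agent.Lib.MP_1a91b9_ntQ.R.Density4

/-!
# MP_1a91b9_nt (quartic twists), part D: the density of the good squarefree `D`

`density_Gd4`: a property `Pr` which holds for all `D = i ^ k lam ^ j ∏ (q ∈ S) q` with `R D` and
`Gd4 k j S` has lower density at least `κ' < cinf2` among the squarefree `D` with `R D`.
-/

set_option autoImplicit false

namespace Pool.Agent.Lib.MP_1a91b9_ntQ

open NumberField Finset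
open Pool.Agent.Lib.MP_1a91b9_ntH (PS nm Sx mem_Sx)

noncomputable section

/-- **The density of the good squarefree `D` with a condition `R`** which only depends on the power of
`i`, the power of `lam` and the class modulo `lam ^ (m + 5)` of the primary factor. -/
theorem density_Gd4 (m : ℕ) (hm : 2 ≤ m) (R : 𝓞 K4 → Prop)
    (hR : ∀ (k : ZMod 4) (j : Fin 2) (y y' : 𝓞 K4), In4 y → In4 y' → lam ^ (m + 5) ∣ y - y' →
      (R (Den4.ph k j y) ↔ R (Den4.ph k j y')))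
    (hne : ∃ (k : ZMod 4) (j : Fin 2) (y : 𝓞 K4), In4 y ∧ R (Den4.ph k j y))
    (κ' : ℝ) (hκ : κ' < Da.cinf2) (Pr : 𝓞 K4 → Prop)
    (hPr : ∀ (k : ZMod 4) (j : Fin 2) (S : Finset Pg), R (Den4.ph k j (DDq S)) → Gd4 k j S →
      Pr (Den4.ph k j (DDq S))) :
    ∀ᶠ X : ℝ in Filter.atTop,
      κ' ≤ (Nat.card {x : 𝓞 K4 // Squarefree x ∧ R x ∧ |Algebra.norm ℤ x| ≤ X ∧ Pr x} : ℝ) /
        (Nat.card {x : 𝓞 K4 // Squarefree x ∧ R x ∧ |Algebra.norm ℤ x| ≤ X} : ℝ) := by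
  have h1 : κ' < (κ' + Da.cinf2) / 2 := by linarith
  have h2 : (κ' + Da.cinf2) / 2 < Da.cinf2 := by linarith
  exact density4 m R hR hne ((κ' + Da.cinf2) / 2) κ' h1 Gd4
    (fun k j g _ ε hε => gd4 hm k j g h2 ε hε) Pr hPr

/-- The density in a class `u` modulo `M`, a divisor of `lam ^ (m + 5)`, `u` not divisible by
`lam²`. -/
theorem density_Gd4_cls (m : ℕ) (hm : 2 ≤ m) {M u : 𝓞 K4} (hM : M ∣ lam ^ (m + 5))
    (hu : ¬ lam ^ 2 ∣ u) (κ' : ℝ) (hκ : κ' < Da.cinf2) (Pr : 𝓞 K4 → Prop)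
    (hPr : ∀ (k : ZMod 4) (j : Fin 2) (S : Finset Pg), M ∣ Den4.ph k j (DDq S) - u →
      Gd4 k j S → Pr (Den4.ph k j (DDq S))) :
    ∀ᶠ X : ℝ in Filter.atTop,
      κ' ≤ (Nat.card {x : 𝓞 K4 // Squarefree x ∧ M ∣ x - u ∧ |Algebra.norm ℤ x| ≤ X ∧ Pr x} : ℝ) /
        (Nat.card {x : 𝓞 K4 // Squarefree x ∧ M ∣ x - u ∧ |Algebra.norm ℤ x| ≤ X} : ℝ) := by
  have h1 : κ' < (κ' + Da.cinf2) / 2 := by linarith
  have h2 : (κ' + Da.cinf2) / 2 < Da.cinf2 := by linarith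
  exact density4_cls m hM hu ((κ' + Da.cinf2) / 2) κ' h1 Gd4
    (fun k j g _ ε hε => gd4 hm k j g h2 ε hε) Pr hPr

end

end Pool.Agent.Lib.MP_1a91b9_ntQ
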