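import Pool.Agent.Lib.MP_1a91b9_ntQ.D.Cl4
import Pool.Agent.Lib.MP_1a91b9_ntQ.R.OK4
import Pool.Agent.Lib.MP_1a91b9_ntQ.A.AlgX

/-!
# MP_1a91b9_nt (quartic twists), part D: the densities of the good sets of primes of `ℤ[i]`

The statements of `Cl4` for the system `d4` and the classes modulo `lam ^ (m + 5)`, in the form of the
hypothesis of `Den4.density4` (`DS m g κ₀ Good`), with the matrices `N4`, `B4`:
* `dens4_I`: `det N4 ≠ 0`, `κ = aa` (`D = i ^ k ∏ q`, `k` odd);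
* `dens4_II`: the kernel of `N4 s4 0 S` is `{0, 1}` (`k` even);
* `dens4_III`: the kernel of the bordered matrix `B4 s4 0 aa x S` is `{0, (1, 0)}`
  (`k` even, `∑ aa q = 0`);
* `dens4_IV`: `det (B4 s4 (k aa + bb) aa x S) ≠ 0` (`D = i ^ k lam ∏ q`).
-/

set_option autoImplicit false

namespace Pool.Agent.Lib.MP_1a91b9_ntQ

open NumberField Finset
open Pool.Agent.Lib.MP_1a91b9_ntH (PS nm Sx mem_Sx)

noncomputable section

/-- The classes modulo `lam ^ (m + 5)`. -/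
def C4m (m : ℕ) : Cl2 d4 (G4n m) where
  cl := clq m
  A := A4 m
  ha := fun q j => (A4_clq m j q).symm

theorem C4m_H3 (m : ℕ) : (C4m m).H3 := fun ψ hψ ε hε => h3_gcl m ψ hψ ε hε

theorem A4_zero_sum (m : ℕ) (S : Finset Pg) :
    A4 m 0 (∑ q ∈ S, clq m q) = ∑ q ∈ S, aa q.1 := by
  rw [map_sum]
  exact sum_congr rfl fun q _ => A4_clq m 0 q

theorem A4_one_sum (m : ℕ) (S : Finset Pg) :
    A4 m 1 (∑ q ∈ S, clq m q) = ∑ q ∈ S, bb q.1 := by
  rw [map_sum]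
  exact sum_congr rfl fun q _ => A4_clq m 1 q

/-- The class part of the diagonal. -/
def kc (c : Fin 2 → ZMod 2) (q : Pg) : ZMod 2 := c 0 * aa q.1 + c 1 * bb q.1

theorem dg4_eq (c : Fin 2 → ZMod 2) (q : Pg) : d4.dg c q = kc c q := by
  unfold Dat2.dg kc
  rw [Fin.sum_univ_two]
  rfl

theorem N4_d4 (c : Fin 2 → ZMod 2) (S : Finset Pg) : d4.N c S = N4 s4 (kc c) S := by
  ext i j
  simp only [Dat2.N, N4]
  split_ifs with h
  · rw [dg4_eq, add_comm]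
    rfl
  · rfl

theorem B4_d4 (c : Fin 2 → ZMod 2) (x : ZMod 2) (S : Finset Pg) :
    d4.NU c 0 x S = B4 s4 (kc c) (fun q => aa q.1) x S := by
  unfold Dat2.NU B4
  rw [N4_d4]
  rfl

theorem kc_zero : kc 0 = 0 := by
  funext q
  unfold kc
  simp only [Pi.zero_apply, zero_mul, add_zero]

open Classical in
theorem SG_filter (m : ℕ) (g : G4n m) (X : ℕ) :
    Da.SG (C4m m) g X = (Sx Pg X).filter fun S => ∑ q ∈ S, clq m q = g := by
  ext S
  rw [Da.mem_SG, mem_filter]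
  rfl

open Classical in
/-- `DS m g κ₀ Q`: the sets with the property `Q` have lower density at least `κ₀` in the class `g`. -/
def DS (m : ℕ) (g : G4n m) (κ₀ : ℝ) (Q : Finset Pg → Prop) : Prop :=
  ∀ ε : ℝ, 0 < ε → ∃ X₀ : ℕ, ∀ X : ℕ, X₀ ≤ X →
    κ₀ * (((Sx Pg X).filter fun S => ∑ q ∈ S, clq m q = g).card : ℝ) - ε * X ≤
      (((Sx Pg X).filter fun S => ∑ q ∈ S, clq m q = g ∧ Q S).card : ℝ)

theorem DS.mono {m : ℕ} {g : G4n m} {κ₀ : ℝ} {Q Q' : Finset Pg → Prop} (h : DS m g κ₀ Q)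
    (hQ : ∀ S, ∑ q ∈ S, clq m q = g → Q S → Q' S) : DS m g κ₀ Q' := by
  classical
  intro ε hε
  obtain ⟨X0, h0⟩ := h ε hε
  refine ⟨X0, fun X hX => (h0 X hX).trans ?_⟩
  rw [Nat.cast_le]
  refine card_le_card fun S hS => ?_
  rw [mem_filter] at hS ⊢
  exact ⟨hS.1, hS.2.1, hQ S hS.2.1 hS.2.2⟩

/-- The form of the hypothesis of the transfer. -/
theorem glue4 {m : ℕ} {g : G4n m} {κ₀ : ℝ} {P : Finset Pg → Prop} [DecidablePred P]
    (h : ∀ ε : ℝ, 0 < ε → ∃ X₀ : ℕ, ∀ X : ℕ, X₀ ≤ X →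
      κ₀ * ((Da.SG (C4m m) g X).card : ℝ) - ε * X ≤ ((Da.SG (C4m m) g X).filter P).card)
    {Q : Finset Pg → Prop} (hPQ : ∀ S, P S → Q S) : DS m g κ₀ Q := by
  classical
  intro ε hε
  obtain ⟨X0, h0⟩ := h ε hε
  refine ⟨X0, fun X hX => ?_⟩
  have h1 := h0 X hX
  rw [SG_filter] at h1
  refine h1.trans ?_
  rw [Nat.cast_le]
  refine card_le_card fun S hS => ?_
  rw [mem_filter, mem_filter] at hS
  rw [mem_filter]
  exact ⟨hS.1.1, hS.1.2, hPQ S hS.2⟩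

/-- The slope `(k, l)`. -/
def cv (k l : ZMod 2) : Fin 2 → ZMod 2 := fun j => if j = 0 then k else l

theorem kc_cv (k l : ZMod 2) (q : Pg) : kc (cv k l) q = k * aa q.1 + l * bb q.1 := rfl

/-- **Kind I**, `k` odd. -/
theorem dens4_I (m : ℕ) (g : G4n m) {κ₀ : ℝ} (hκ : κ₀ < Da.cinf2) :
    DS m g κ₀ fun S => (N4 s4 (fun q => aa q.1) S).det ≠ 0 := by
  have hc : cv 1 0 ≠ 0 := fun h => one_ne_zero (congrFun h 0)
  have e : kc (cv 1 0) = fun q => aa q.1 := by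
    funext q
    rw [kc_cv, one_mul, zero_mul, add_zero]
  refine glue4 (Da.dens_I d4_OK (C4m m) (C4m_H3 m) hc g hκ) fun S h => ?_
  rw [N4_d4, e] at h
  exact h

/-- The kernel of the Laplacian is `{0, 1}`. -/
def K2 (S : Finset Pg) : Prop :=
  S.Nonempty ∧ ∀ v : S → ZMod 2, (N4 s4 0 S).mulVec v = 0 → ∃ t : ZMod 2, ∀ q, v q = t

/-- The kernel of the bordered Laplacian with the corner `x` is `{0, (1, 0)}`. -/
def K3 (x : ZMod 2) (S : Finset Pg) : Prop :=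
  S.Nonempty ∧ ∀ v : S ⊕ Unit → ZMod 2, (B4 s4 0 (fun q => aa q.1) x S).mulVec v = 0 →
    ∃ t : ZMod 2, (∀ q : S, v (Sum.inl q) = t) ∧ v (Sum.inr ()) = 0

/-- **Kind II**, `k` even. -/
theorem dens4_II (m : ℕ) (g : G4n m) {κ₀ : ℝ} (hκ : κ₀ < Da.cinf2) : DS m g κ₀ K2 := by
  refine glue4 (Da.dens_II d4_OK (C4m m) (C4m_H3 m) g hκ) fun S h =>
    ⟨nonempty_iff_ne_empty.2 h.1, fun v hv => ?_⟩
  have h1 := h.2 v (by rw [N4_d4, kc_zero]; exact hv)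
  rcases h1 with h1 | h1
  · exact ⟨0, fun q => congrFun h1 q⟩
  · exact ⟨1, fun q => congrFun h1 q⟩

/-- **Kind III**, `k` even, `∑ aa q = 0`, with the corner `x`. -/
theorem dens4_III (m : ℕ) (g : G4n m) (hg : A4 m 0 g = 0) (x : ZMod 2) {κ₀ : ℝ}
    (hκ : κ₀ < Da.cinf2) : DS m g κ₀ (K3 x) := by
  refine glue4 (Da.dens_III d4_OK (C4m m) (C4m_H3 m) (j0 := 0) hg x hκ) fun S h =>
    ⟨nonempty_iff_ne_empty.2 h.1, fun v hv => ?_⟩
  have h1 := h.2 v (by rw [B4_d4, kc_zero]; exact hv)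
  rcases h1 with h1 | h1
  · exact ⟨0, fun q => congrFun h1 (Sum.inl q), congrFun h1 (Sum.inr ())⟩
  · exact ⟨1, fun q => congrFun h1 (Sum.inl q), congrFun h1 (Sum.inr ())⟩

/-- **Kind IV**, `lam` divides `D`, with the corner `x`. -/
theorem dens4_IV (m : ℕ) (g : G4n m) (k x : ZMod 2) {κ₀ : ℝ} (hκ : κ₀ < Da.cinf2) :
    DS m g κ₀ fun S =>
      (B4 s4 (fun q => k * aa q.1 + bb q.1) (fun q => aa q.1) x S).det ≠ 0 := by
  have hc : cv k 1 1 ≠ 0 := by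
    show (if (1 : Fin 2) = 0 then k else (1 : ZMod 2)) ≠ 0
    rw [if_neg (by decide)]
    exact one_ne_zero
  have e : kc (cv k 1) = fun q => k * aa q.1 + bb q.1 := by
    funext q
    rw [kc_cv, one_mul]
  refine glue4 (Da.dens_IV d4_OK (C4m m) (C4m_H3 m) (j0 := 0) (j1 := 1) (by decide) hc x g hκ)
    fun S h => ?_
  rw [B4_d4, e] at h
  exact h

/-! ### The cofactors -/

theorem s4_sym (p q : Pg) (h : p ≠ q) : s4 p q = s4 q p := s4_symm h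

/-- Kind II: the cofactor of the Laplacian is not `0`. -/
theorem K2.ne {S : Finset Pg} (h : K2 S) : kap0 s4 S ≠ 0 := kap0_ne s4 s4_sym h.1 h.2

/-- Kind III: the cofactor of the bordered Laplacian is not `0`. -/
theorem K3.ne {S : Finset Pg} {x : ZMod 2} (h : K3 x S) (hA : ∑ q ∈ S, aa q.1 = 0) :
    kapX s4 (fun q => aa q.1) x S ≠ 0 :=
  kapX_ne s4 s4_sym (fun q => aa q.1) x h.1 hA h.2

end

end Pool.Agent.Lib.MP_1a91b9_ntQ
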