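import Pool.Agent.Lib.MP_1a91b9_ntQ.D.Exp
import Pool.Agent.Lib.MP_1a91b9_ntQ.D.FamC

/-!
# MP_1a91b9_nt (quartic twists), part D: the inner sum

The sum over the families supported on an unlinked set is a product of local factors.
-/

set_option autoImplicit false
set_option linter.unusedSectionVars false

namespace Pool.Agent.Lib.MP_1a91b9_ntQ.D

open Finset Pool.Agent.Lib.MP_1a91b9_ntH

noncomputable section

variable {ι : Type} [DecidableEq ι] {L : Type} [Fintype L] [DecidableEq L] {κ : Type} [Fintype κ]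

/-- The exponent of the local factor. -/
def xq (D : Dat2 ι κ) (Λ : LS2 L ι κ) (b : L → Finset ι) (l : L) (q : ι) : ZMod 2 :=
  D.lin Λ l q + ∑ m, (Λ.Phi l m * D.ss {q} (b m) + Λ.Phi m l * D.ss (b m) {q})

/-- The local factor of the inner sum. -/
def Hq (D : Dat2 ι κ) (Λ : LS2 L ι κ) (g : ι → ℂ) (U : Finset L) (b : L → Finset ι) (q : ι) : ℂ :=
  if q ∈ Λ.B then 0 else g q * ((∑ l ∈ U, e2 (xq D Λ b l q)) / Λ.m)

omit [DecidableEq ι] in
private theorem inner_ss_left (D : Dat2 ι κ) (S T : Finset ι) : D.ss S T = ∑ q ∈ S, D.ss {q} T := by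
  unfold Dat2.ss
  refine sum_congr rfl fun q _ => ?_
  rw [sum_singleton]

omit [DecidableEq ι] in
private theorem inner_ss_right (D : Dat2 ι κ) (S T : Finset ι) :
    D.ss S T = ∑ q ∈ T, D.ss S {q} := by
  unfold Dat2.ss
  rw [sum_comm]
  refine sum_congr rfl fun q _ => ?_
  refine sum_congr rfl fun p _ => ?_
  rw [sum_singleton]

omit [DecidableEq ι] [DecidableEq L] in
private theorem inner_cross (D : Dat2 ι κ) (Λ : LS2 L ι κ) (b d : L → Finset ι) :
    ∑ l, ∑ m, Λ.Phi l m * (D.ss (b l) (d m) + D.ss (d l) (b m)) =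
      ∑ l, ∑ q ∈ d l, ∑ m, (Λ.Phi l m * D.ss {q} (b m) + Λ.Phi m l * D.ss (b m) {q}) := by
  have h1 : ∑ l, ∑ m, Λ.Phi l m * (D.ss (b l) (d m) + D.ss (d l) (b m)) =
      ∑ l, ∑ m, Λ.Phi m l * D.ss (b m) (d l) + ∑ l, ∑ m, Λ.Phi l m * D.ss (d l) (b m) := by
    rw [sum_comm (f := fun l m => Λ.Phi m l * D.ss (b m) (d l)), ← sum_add_distrib]
    refine sum_congr rfl fun l _ => ?_
    rw [← sum_add_distrib]
    exact sum_congr rfl fun m _ => mul_add _ _ _
  rw [h1, ← sum_add_distrib]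
  refine sum_congr rfl fun l _ => ?_
  rw [← sum_add_distrib, sum_comm]
  refine sum_congr rfl fun m _ => ?_
  rw [sum_add_distrib, ← mul_sum, ← mul_sum, ← inner_ss_left, ← inner_ss_right, add_comm]

theorem uni_union (b d : L → Finset ι) : uni (fun l => b l ∪ d l) = uni b ∪ uni d := by
  ext q
  rw [mem_union, mem_uni, mem_uni, mem_uni]
  constructor
  · rintro ⟨l, hl⟩
    rcases mem_union.1 hl with h | h
    · exact Or.inl ⟨l, h⟩
    · exact Or.inr ⟨l, h⟩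
  · rintro (⟨l, h⟩ | ⟨l, h⟩)
    · exact ⟨l, mem_union_left _ h⟩
    · exact ⟨l, mem_union_right _ h⟩

omit [DecidableEq L] in
private theorem inner_card {d : L → Finset ι} (h : PD d) : (uni d).card = ∑ l, (d l).card := by
  unfold uni
  exact card_biUnion fun l _ m _ hlm => h l m hlm

/-- The summand is zero if the small family meets the exceptional primes. -/
theorem FF_zero (D : Dat2 ι κ) (Λ : LS2 L ι κ) (g : ι → ℂ) (b d : L → Finset ι) (h : ¬ Disjoint (uni b) Λ.B) :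
    D.FF Λ g (fun l => b l ∪ d l) = 0 := by
  unfold Dat2.FF
  rw [uni_union, if_neg]
  intro h2
  exact h (disjoint_of_subset_left subset_union_left h2)

omit [DecidableEq L] in
private theorem inner_prod {d : L → Finset ι} (h : PD d) (g : ι → ℂ) :
    ∏ q ∈ uni d, g q = ∏ l, ∏ q ∈ d l, g q := by
  unfold uni
  exact prod_biUnion fun l _ m _ hlm => h l m hlm

private theorem inner_term (D : Dat2 ι κ) (hD : D.Sym) (Λ : LS2 L ι κ) (hΛ : Λ.OK) (g : ι → ℂ)
    (U : Finset L)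
    (hU : Λ.Unl U) (b : L → Finset ι) (hbB : Disjoint (uni b) Λ.B) (S : Finset ι)
    (hS : Disjoint S (uni b)) (d : L → Finset ι) (hd : d ∈ FamU U S) :
    D.FF Λ g (fun l => b l ∪ d l) =
      ((Λ.m : ℂ)⁻¹) ^ (uni b).card * (∏ q ∈ uni b, g q) * e2 (D.ee Λ b) *
        ∏ l, ∏ q ∈ d l, (if q ∈ Λ.B then 0 else g q * ((Λ.m : ℂ)⁻¹ * e2 (xq D Λ b l q))) := by
  obtain ⟨h1, h2, h3⟩ := mem_FamU.1 hd
  have h4 : Disjoint (uni b) (uni d) := by
    rw [h2]
    exact hS.symm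
  unfold Dat2.FF
  rw [uni_union]
  by_cases hB : Disjoint (uni d) Λ.B
  · rw [if_pos (disjoint_union_left.2 ⟨hbB, hB⟩)]
    have h5 : ∏ l, ∏ q ∈ d l, (if q ∈ Λ.B then 0 else g q * ((Λ.m : ℂ)⁻¹ * e2 (xq D Λ b l q))) =
        (∏ q ∈ uni d, g q) *
          (((Λ.m : ℂ)⁻¹) ^ (uni d).card * e2 (∑ l, ∑ q ∈ d l, xq D Λ b l q)) := by
      rw [inner_card h1, e2_sum, ← prod_pow_eq_pow_sum, ← prod_mul_distrib, inner_prod h1,
        ← prod_mul_distrib]
      refine prod_congr rfl fun l _ => ?_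
      rw [e2_sum, ← prod_const, ← prod_mul_distrib, ← prod_mul_distrib]
      refine prod_congr rfl fun q hq => ?_
      rw [if_neg (disjoint_left.1 hB (mem_uni.2 ⟨l, hq⟩))]
    have h6 : ∑ l, ∑ q ∈ d l, xq D Λ b l q = ∑ l, ∑ q ∈ d l, D.lin Λ l q +
        ∑ l, ∑ m, Λ.Phi l m * (D.ss (b l) (d m) + D.ss (d l) (b m)) := by
      rw [inner_cross, ← sum_add_distrib]
      refine sum_congr rfl fun l _ => ?_
      rw [← sum_add_distrib]
      rfl
    rw [h5, h6, card_union_of_disjoint h4, pow_add, prod_union h4, ee_union D Λ b d h4,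
      ee_unl D hD Λ hΛ U hU d h1 h3, e2_add, e2_add, e2_add]
    ring
  · rw [if_neg fun h => hB (disjoint_of_subset_left subset_union_right h)]
    rw [disjoint_left] at hB
    push Not at hB
    obtain ⟨q, hq, hqB⟩ := hB
    obtain ⟨l, hl⟩ := mem_uni.1 hq
    have h7 : ∏ q ∈ d l, (if q ∈ Λ.B then 0 else g q * ((Λ.m : ℂ)⁻¹ * e2 (xq D Λ b l q))) = 0 :=
      prod_eq_zero hl (if_pos hqB)
    have h8 : ∏ l, ∏ q ∈ d l,
        (if q ∈ Λ.B then 0 else g q * ((Λ.m : ℂ)⁻¹ * e2 (xq D Λ b l q))) = 0 :=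
      prod_eq_zero (mem_univ l) h7
    rw [h8, mul_zero]

theorem inner_eq (D : Dat2 ι κ) (hD : D.Sym) (Λ : LS2 L ι κ) (hΛ : Λ.OK) (g : ι → ℂ)
    (U : Finset L)
    (hU : Λ.Unl U) (b : L → Finset ι) (hbB : Disjoint (uni b) Λ.B) (S : Finset ι)
    (hS : Disjoint S (uni b)) :
    ∑ d ∈ FamU U S, D.FF Λ g (fun l => b l ∪ d l) =
      ((Λ.m : ℂ)⁻¹) ^ (uni b).card * (∏ q ∈ uni b, g q) * e2 (D.ee Λ b) *
        ∏ q ∈ S, Hq D Λ g U b q := by
  rw [sum_congr rfl (inner_term D hD Λ hΛ g U hU b hbB S hS), ← mul_sum,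
    famU_prodC U S
      (fun l q => if q ∈ Λ.B then 0 else g q * ((Λ.m : ℂ)⁻¹ * e2 (xq D Λ b l q)))]
  congr 1
  refine prod_congr rfl fun q _ => ?_
  unfold Hq
  by_cases hq : q ∈ Λ.B
  · rw [if_pos hq]
    refine sum_eq_zero fun l _ => if_pos hq
  · rw [if_neg hq, div_eq_inv_mul, mul_sum, mul_sum]
    exact sum_congr rfl fun l _ => if_neg hq

end

end Pool.Agent.Lib.MP_1a91b9_ntQ.D
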