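import Pool.Agent.Lib.MP_1a91b9_ntQ.D.QS

/-!
# MP_1a91b9_nt (quartic twists), part D: the label systems and the number of main terms

The matrices are `N₀ + diag (∑ kap j * a j)`, possibly bordered by the vector `∑ al j * a j` with a
corner. `u` is the label of the border, `c₀` the twist by a class character.
-/

set_option autoImplicit false

namespace Pool.Agent.Lib.MP_1a91b9_ntQ.Da

open Finset Pool.Agent.Lib.MP_1a91b9_ntH

noncomputable section

variable {k : ℕ} {ι : Type} [DecidableEq ι] {κ : Type} [Fintype κ]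

/-- The exponents of the pairs. -/
def Phi2 (l m : Lab2 k) : ZMod 2 := l.2 ⬝ᵥ (l.1 + m.1)

theorem Phi2_self (l : Lab2 k) : Phi2 l l = 0 := by
  have h : l.1 + l.1 = 0 := funext fun i => z2_add_self (l.1 i)
  rw [Phi2, h, dotProduct_zero]

theorem Phi2_add (l m : Lab2 k) : Phi2 l m + Phi2 m l = Q2 (l + m) := by
  simp only [Phi2, Q2, Prod.fst_add, Prod.snd_add, dotProduct_add, add_dotProduct]
  rw [dotProduct_comm l.2 l.1, dotProduct_comm l.2 m.1, dotProduct_comm m.2 m.1,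
    dotProduct_comm m.2 l.1]
  ring

/-- The linear term at the class character `j`. -/
def gm (kap al c₀ : κ → ZMod 2) (u l : Lab2 k) (j : κ) : ZMod 2 :=
  kap j * Q2 l + al j * B2 l u + c₀ j

/-- The label system of the `k`-th moment, with fixed labels `t` at the primes of `T`. -/
def LSt (k : ℕ) (kap al c₀ : κ → ZMod 2) (u : Lab2 k) (T : Finset ι) (t : ι → Lab2 k) :
    LS2 (Lab2 k) ι κ where
  Phi := Phi2
  c := gm kap al c₀ u
  t := fun l p => Q2 (l + t p)
  B := T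
  m := 2 ^ k

variable {kap al c₀ : κ → ZMod 2} {u : Lab2 k} {T : Finset ι} {t : ι → Lab2 k}

omit [DecidableEq ι] [Fintype κ] in
theorem LSt_lk (l m : Lab2 k) : (LSt k kap al c₀ u T t).lk l m = Q2 (l - m) := by
  rw [l2_sub]
  exact Phi2_add l m

omit [DecidableEq ι] [Fintype κ] in
theorem LSt_Unl (U : Finset (Lab2 k)) : (LSt k kap al c₀ u T t).Unl U ↔ Unl2 U := by
  rw [LS2.Unl, Unl2]
  simp only [LSt_lk]

omit [DecidableEq ι] [Fintype κ] in
theorem LSt_OK (hk : 1 ≤ k) : (LSt k kap al c₀ u T t).OK where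
  diag := Phi2_self
  two := by
    show 2 ≤ 2 ^ k
    calc 2 = 2 ^ 1 := by norm_num
      _ ≤ 2 ^ k := Nat.pow_le_pow_right (by norm_num) hk
  k1 := fun U hU => K1 ((LSt_Unl U).1 hU)
  k2 := fun U hU hc x hx => by
    have hU' := (LSt_Unl U).1 hU
    have hc' : U.card = 2 ^ k := hc
    have hne : U.Nonempty := by
      rw [← card_pos, hc']; positivity
    obtain ⟨l0, hl0⟩ := hne
    by_contra hcon
    push Not at hcon
    refine hx (K2 hU' hc' (Q2 (l0 - x)) fun l hl => ?_)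
    have := hcon l hl l0 hl0
    rw [LSt_lk, LSt_lk] at this
    exact this

/-- A maximal unlinked set on which the class characters vanish. -/
def GdP (k : ℕ) (kap al c₀ : κ → ZMod 2) (u : Lab2 k) (U : Finset (Lab2 k)) : Prop :=
  Unl2 U ∧ U.card = 2 ^ k ∧ ∀ l ∈ U, ∀ j, gm kap al c₀ u l j = 0

open Classical in
/-- The maximal unlinked sets on which the class characters vanish. -/
def Gd (k : ℕ) (kap al c₀ : κ → ZMod 2) (u : Lab2 k) : Finset (Finset (Lab2 k)) :=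
  univ.filter fun U => GdP k kap al c₀ u U

omit [Fintype κ] in
theorem mem_Gd {U : Finset (Lab2 k)} :
    U ∈ Gd k kap al c₀ u ↔ Unl2 U ∧ U.card = 2 ^ k ∧ ∀ l ∈ U, ∀ j, gm kap al c₀ u l j = 0 := by
  classical
  rw [Gd, mem_filter]
  exact ⟨fun h => h.2, fun h => ⟨mem_univ _, h⟩⟩

theorem nonempty_of_card {U : Finset (Lab2 k)} (h : U.card = 2 ^ k) : U.Nonempty := by
  rw [← card_pos, h]; positivity

/-- In a maximal unlinked set which does not contain `0` the quadratic form is not constant. -/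
theorem zero_mem_of_const {U : Finset (Lab2 k)} (hU : Unl2 U) (hc : U.card = 2 ^ k) (c : ZMod 2)
    (h : ∀ l ∈ U, Q2 l = c) : 0 ∈ U :=
  K2 hU hc c fun l hl => by rw [sub_zero]; exact h l hl

omit [Fintype κ] in
/-- Without border, `kap ≠ 0`. -/
theorem Gd_of_ne (hkap : kap ≠ 0) : Gd k kap al 0 0 = Lgs2 k := by
  ext U
  rw [mem_Gd, mem_Lgs2]
  constructor
  · rintro ⟨h1, h2, h3⟩
    obtain ⟨j, hj⟩ := Function.ne_iff.1 hkap
    refine ⟨h1, h2, zero_mem_of_const h1 h2 0 fun l hl => ?_⟩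
    have := h3 l hl j
    rw [gm, B2_zero, mul_zero, add_zero, Pi.zero_apply, add_zero] at this
    exact (mul_eq_zero.1 this).resolve_left hj
  · rintro ⟨h1, h2, h3⟩
    refine ⟨h1, h2, fun l hl j => ?_⟩
    rw [gm, B2_zero, h1.Q h3 hl, mul_zero, mul_zero, add_zero, Pi.zero_apply, add_zero]

omit [Fintype κ] in
/-- A nontrivial twist kills the main term, if there is no border. -/
theorem Gd_c (hc : c₀ ≠ 0) : Gd k kap al c₀ 0 = ∅ := by
  rw [eq_empty_iff_forall_notMem]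
  intro U hU
  rw [mem_Gd] at hU
  obtain ⟨h1, h2, h3⟩ := hU
  obtain ⟨j, hj⟩ := Function.ne_iff.1 hc
  have h4 : ∀ l ∈ U, kap j * Q2 l = c₀ j := fun l hl => by
    have := h3 l hl j
    rw [gm, B2_zero, mul_zero, add_zero] at this
    have e : kap j * Q2 l = -c₀ j := eq_neg_of_add_eq_zero_left this
    rw [e, z2_neg]
  rcases z2 (kap j) with hk | hk
  · obtain ⟨l, hl⟩ := nonempty_of_card h2
    have := h4 l hl
    rw [hk, zero_mul] at this
    exact hj this.symm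
  · simp only [hk, one_mul] at h4
    have h0 := zero_mem_of_const h1 h2 _ h4
    have := h4 0 h0
    rw [Q2_zero] at this
    exact hj this.symm

/-- Double counting: maximal unlinked sets and pairs (subspace, representative). -/
theorem double_count (F : Finset (Finset (Lab2 k))) (G : Finset (Lab2 k) → Finset (Lab2 k))
    (hF : ∀ U ∈ F, Unl2 U ∧ U.card = 2 ^ k)
    (hG : ∀ U, Unl2 U → U.card = 2 ^ k → ∀ l ∈ U, (U ∈ F ↔ l ∈ G (sh2 l U))) :
    2 ^ k * F.card = ∑ W ∈ Lgs2 k, (G W).card := by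
  classical
  have h1 : ∑ U ∈ F, ∑ l ∈ U, 1 = ∑ l : Lab2 k, ∑ U ∈ F.filter (fun U => l ∈ U), 1 := by
    refine sum_comm' ?_
    intro U l
    rw [mem_filter]
    exact ⟨fun h => ⟨h, mem_univ _⟩, fun h => h.1⟩
  have h2 : ∀ U ∈ F, ∑ l ∈ U, 1 = 2 ^ k := fun U hU => by
    rw [sum_const, smul_eq_mul, mul_one]
    exact (hF U hU).2
  rw [sum_congr rfl h2, sum_const, smul_eq_mul, mul_comm] at h1
  rw [h1]
  have h3 : ∀ l : Lab2 k, ∑ U ∈ F.filter (fun U => l ∈ U), 1 =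
      ∑ W ∈ (Lgs2 k).filter (fun W => l ∈ G W), 1 := fun l => by
    rw [sum_const, sum_const, smul_eq_mul, smul_eq_mul, mul_one, mul_one]
    refine card_nbij' (fun U => sh2 l U) (fun U => sh2 l U) ?_ ?_ ?_ ?_
    · intro U hU
      obtain ⟨hU, c⟩ := mem_filter.1 hU
      obtain ⟨a, b⟩ := hF U hU
      show sh2 l U ∈ (Lgs2 k).filter (fun W => l ∈ G W)
      rw [mem_filter, mem_Lgs2]
      exact ⟨⟨Unl_sh2 a, by rw [card_sh2, b], by rw [mem_sh2, zero_add]; exact c⟩,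
        (hG U a b l c).1 hU⟩
    · intro W hW
      obtain ⟨hW', hP⟩ := mem_filter.1 hW
      rw [mem_Lgs2] at hW'
      show sh2 l W ∈ F.filter (fun U => l ∈ U)
      have hl : l ∈ sh2 l W := by
        rw [mem_sh2, l2_add_self]
        exact hW'.zero
      rw [mem_filter]
      refine ⟨(hG _ (Unl_sh2 hW'.unl) (by rw [card_sh2, hW'.card]) l hl).2 ?_, hl⟩
      rw [sh2_sh2]
      exact hP
    · intro U _
      exact sh2_sh2 l U
    · intro U _
      exact sh2_sh2 l U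
  simp only [h3]
  have h4 : ∑ l : Lab2 k, ∑ W ∈ (Lgs2 k).filter (fun W => l ∈ G W), 1 =
      ∑ W ∈ Lgs2 k, ∑ l ∈ G W, 1 := by
    refine sum_comm' ?_
    intro l W
    rw [mem_filter]
    exact ⟨fun h => ⟨h.2.2, h.2.1⟩, fun h => ⟨mem_univ _, h.2, h.1⟩⟩
  rw [h4]
  exact sum_congr rfl fun W _ => by rw [sum_const, smul_eq_mul, mul_one]

omit [Fintype κ] in
/-- Without border, `kap = 0`. -/
theorem card_Gd_zero (k : ℕ) (al : κ → ZMod 2) :
    (Gd k (0 : κ → ZMod 2) al 0 0).card = 2 ^ k * Nk2 k := by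
  have h := double_count (k := k) (Gd k (0 : κ → ZMod 2) al 0 0) (fun _ => univ)
    (fun U hU => ⟨(mem_Gd.1 hU).1, (mem_Gd.1 hU).2.1⟩) (fun U a b l _ => by
      rw [mem_Gd]
      refine ⟨fun _ => mem_univ _, fun _ => ⟨a, b, fun l _ j => ?_⟩⟩
      rw [gm, Pi.zero_apply, zero_mul, B2_zero, mul_zero, zero_add, zero_add])
  simp only [card_univ, card_Lab2, sum_const, smul_eq_mul, card_Lgs2] at h
  rw [← two_pow_sq] at h
  have hp : 0 < 2 ^ k := by positivity
  have h4 : 2 ^ k * (Gd k (0 : κ → ZMod 2) al 0 0).card = 2 ^ k * (2 ^ k * Nk2 k) := by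
    rw [h]; ring
  exact Nat.eq_of_mul_eq_mul_left hp h4

open Classical in
/-- The size of the main term without border. -/
def Mk2 (k : ℕ) (kap : κ → ZMod 2) : ℕ := if kap = 0 then 2 ^ k * Nk2 k else Nk2 k

open Classical in
theorem card_Gd (k : ℕ) (kap al c₀ : κ → ZMod 2) :
    (Gd k kap al c₀ 0).card = if c₀ = 0 then Mk2 k kap else 0 := by
  split_ifs with hc
  · subst hc
    rw [Mk2]
    split_ifs with hτ
    · subst hτ
      exact card_Gd_zero k al
    · rw [Gd_of_ne hτ, card_Lgs2]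
  · rw [Gd_c hc, card_empty]

/-! ### The bordered matrices -/

omit [Fintype κ] in
theorem mem_Gd_B {j₁ : κ} (h1 : kap j₁ ≠ 0) (h2 : al j₁ = 0) (hal : al ≠ 0)
    {U : Finset (Lab2 k)} : U ∈ Gd k kap al c₀ u ↔ c₀ = 0 ∧ U ∈ Lgs2 k ∧ u ∈ U := by
  rw [mem_Gd, mem_Lgs2]
  constructor
  · rintro ⟨a, b, c⟩
    have h3 : ∀ l ∈ U, Q2 l = c₀ j₁ := fun l hl => by
      have := c l hl j₁
      rw [gm, h2, zero_mul, add_zero, z2_ne h1, one_mul] at this
      rw [eq_neg_of_add_eq_zero_left this, z2_neg]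
    have h0 := zero_mem_of_const a b _ h3
    have hc : c₀ = 0 := funext fun j => by
      have := c 0 h0 j
      rw [gm, Q2_zero, mul_zero, B2_zero', mul_zero, zero_add, zero_add] at this
      exact this
    have hU : Mx2 U := ⟨a, b, h0⟩
    refine ⟨hc, hU, ?_⟩
    obtain ⟨j, hj⟩ := Function.ne_iff.1 hal
    rw [hU.mem_iff]
    intro w hw
    have := c w hw j
    rw [gm, hc, Pi.zero_apply, add_zero, a.Q h0 hw, mul_zero, zero_add] at this
    rw [B2_comm]
    exact (mul_eq_zero.1 this).resolve_left hj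
  · rintro ⟨rfl, hU, hu⟩
    refine ⟨hU.unl, hU.card, fun l hl j => ?_⟩
    rw [gm, hU.unl.Q hU.zero hl, hU.unl.B hU.zero hl hu, mul_zero, mul_zero, add_zero,
      Pi.zero_apply, add_zero]

open Classical in
/-- Bordered matrix, `kap ≠ 0` at a character which does not occur in the border. -/
theorem sum_Gd_B {j₁ : κ} (h1 : kap j₁ ≠ 0) (h2 : al j₁ = 0) (hal : al ≠ 0) (x : ZMod 2)
    (c₀ : κ → ZMod 2) : ∑ u : Lab2 k, sg (x * Q2 u) * ((Gd k kap al c₀ u).card : ℝ) =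
      if c₀ = 0 then 2 ^ k * (Nk2 k : ℝ) else 0 := by
  split_ifs with hc
  · have e : ∀ u : Lab2 k, Gd k kap al c₀ u = (Lgs2 k).filter fun W => u ∈ W := fun u => by
      ext U
      rw [mem_Gd_B h1 h2 hal, mem_filter]
      exact ⟨fun h => h.2, fun h => ⟨hc, h⟩⟩
    have h3 : ∀ u : Lab2 k, sg (x * Q2 u) * ((Gd k kap al c₀ u).card : ℝ) =
        ∑ W ∈ (Lgs2 k).filter (fun W => u ∈ W), 1 := fun u => by
      rw [e u, sum_const, nsmul_eq_mul, mul_one]
      by_cases hne : ((Lgs2 k).filter (fun W => u ∈ W)).Nonempty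
      · obtain ⟨W, hW⟩ := hne
        rw [mem_filter, mem_Lgs2] at hW
        rw [hW.1.unl.Q hW.1.zero hW.2, mul_zero, sg2_zero, one_mul]
      · rw [not_nonempty_iff_eq_empty] at hne
        rw [hne, card_empty, Nat.cast_zero, mul_zero]
    simp only [h3]
    have h4 : ∑ u : Lab2 k, ∑ W ∈ (Lgs2 k).filter (fun W => u ∈ W), (1 : ℝ) =
        ∑ W ∈ Lgs2 k, ∑ u ∈ W, 1 := by
      refine sum_comm' ?_
      intro u W
      rw [mem_filter]
      exact ⟨fun h => ⟨h.2.2, h.2.1⟩, fun h => ⟨mem_univ _, h.2, h.1⟩⟩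
    rw [h4]
    have h5 : ∀ W ∈ Lgs2 k, ∑ u ∈ W, (1 : ℝ) = 2 ^ k := fun W hW => by
      rw [sum_const, nsmul_eq_mul, mul_one, (mem_Lgs2.1 hW).card]
      push_cast
      rfl
    rw [sum_congr rfl h5, sum_const, nsmul_eq_mul, card_Lgs2, mul_comm]
  · refine sum_eq_zero fun u _ => ?_
    have e : Gd k kap al c₀ u = ∅ := by
      rw [eq_empty_iff_forall_notMem]
      intro U hU
      exact hc ((mem_Gd_B h1 h2 hal).1 hU).1
    rw [e, card_empty, Nat.cast_zero, mul_zero]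

theorem two_mul_card_B2 (e : ZMod 2) (u : Lab2 k) :
    2 * (((univ : Finset (Lab2 k)).filter fun l => B2 l u = e).card : ℝ) =
      4 ^ k + sg e * (if u = 0 then 4 ^ k else 0) := by
  have h1 : ∀ l : Lab2 k, (if B2 l u = e then (2 : ℝ) else 0) = 1 + sg e * sg (B2 l u) := by
    intro l
    rw [← sg2_add, sg_half]
    have h2 : e + B2 l u = 0 ↔ B2 l u = e := by
      rw [add_comm, add_eq_zero_iff_eq_neg, z2_neg]
    rw [if_congr h2 rfl rfl]
  have h2 : ∑ l : Lab2 k, (if B2 l u = e then (2 : ℝ) else 0) =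
      2 * (((univ : Finset (Lab2 k)).filter fun l => B2 l u = e).card : ℝ) := by
    rw [← sum_filter, sum_const, nsmul_eq_mul, mul_comm]
  rw [← h2, sum_congr rfl fun l _ => h1 l, sum_add_distrib, ← mul_sum, sum_B2, sum_const,
    card_univ, card_Lab2, nsmul_eq_mul, mul_one]
  push_cast
  rfl

omit [Fintype κ] in
/-- Bordered matrix, `kap = 0`: the condition. -/
theorem mem_Gd_C {e : ZMod 2} (hal : al ≠ 0) (hc : c₀ = fun j => e * al j)
    {U : Finset (Lab2 k)} : U ∈ Gd k (0 : κ → ZMod 2) al c₀ u ↔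
      Unl2 U ∧ U.card = 2 ^ k ∧ ∀ l ∈ U, B2 l u = e := by
  rw [mem_Gd]
  refine and_congr_right fun _ => and_congr_right fun _ => ?_
  constructor
  · intro h l hl
    obtain ⟨j, hj⟩ := Function.ne_iff.1 hal
    have := h l hl j
    rw [gm, Pi.zero_apply, zero_mul, zero_add, hc] at this
    simp only [z2_ne hj, one_mul, mul_one] at this
    rw [eq_neg_of_add_eq_zero_left this, z2_neg]
  · intro h l hl j
    rw [gm, Pi.zero_apply, zero_mul, zero_add, h l hl, hc, mul_comm, z2_add_self]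

theorem sh2_B {U : Finset (Lab2 k)} (hU : Unl2 U) (hc : U.card = 2 ^ k) {l : Lab2 k}
    (hl : l ∈ U) (e : ZMod 2) : (∀ m ∈ U, B2 m u = e) ↔ u ∈ sh2 l U ∧ B2 l u = e := by
  have hW : Mx2 (sh2 l U) :=
    ⟨Unl_sh2 hU, by rw [card_sh2, hc], by rw [mem_sh2, zero_add]; exact hl⟩
  constructor
  · intro h
    refine ⟨?_, h l hl⟩
    rw [hW.mem_iff]
    intro w hw
    have h1 := h _ (mem_sh2.1 hw)
    rw [B2_add', h l hl] at h1
    rw [B2_comm]
    exact add_eq_right.1 h1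
  · rintro ⟨h1, h2⟩ m hm
    have h3 : m + l ∈ sh2 l U := by rw [mem_sh2, l2_add_add]; exact hm
    have h4 := hW.unl.B hW.zero h3 h1
    rw [B2_add', h2] at h4
    rw [eq_neg_of_add_eq_zero_left h4, z2_neg]

omit [Fintype κ] in
theorem card_Gd_C {e : ZMod 2} (hal : al ≠ 0) (hc : c₀ = fun j => e * al j) (u : Lab2 k) :
    (2 ^ k * (Gd k (0 : κ → ZMod 2) al c₀ u).card : ℝ) =
      ∑ W ∈ Lgs2 k, if u ∈ W then
        (((univ : Finset (Lab2 k)).filter fun l => B2 l u = e).card : ℝ) else 0 := by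
  classical
  have h := double_count (k := k) (Gd k (0 : κ → ZMod 2) al c₀ u)
    (fun W => if u ∈ W then (univ : Finset (Lab2 k)).filter (fun l => B2 l u = e) else ∅)
    (fun U hU => ⟨(mem_Gd.1 hU).1, (mem_Gd.1 hU).2.1⟩) (fun U a b l hl => by
      rw [mem_Gd_C hal hc]
      have h1 := sh2_B (u := u) a b hl e
      split_ifs with hu
      · rw [mem_filter]
        constructor
        · intro h2
          exact ⟨mem_univ _, (h1.1 h2.2.2).2⟩
        · intro h2
          exact ⟨a, b, h1.2 ⟨hu, h2.2⟩⟩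
      · constructor
        · intro h2
          exact absurd (h1.1 h2.2.2).1 hu
        · intro h2
          exact absurd h2 (notMem_empty _))
  have h2 : ((2 ^ k * (Gd k (0 : κ → ZMod 2) al c₀ u).card : ℕ) : ℝ) =
      ∑ W ∈ Lgs2 k, (((if u ∈ W then (univ : Finset (Lab2 k)).filter (fun l => B2 l u = e)
        else ∅ : Finset (Lab2 k)).card : ℕ) : ℝ) := by
    rw [h]
    push_cast
    rfl
  push_cast at h2
  rw [h2]
  refine sum_congr rfl fun W _ => ?_
  split_ifs with hu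
  · rfl
  · simp

omit [Fintype κ] in
theorem Gd_C_empty (_hal : al ≠ 0) (h0 : c₀ ≠ 0) (h1 : c₀ ≠ al) (u : Lab2 k) :
    Gd k (0 : κ → ZMod 2) al c₀ u = ∅ := by
  rw [eq_empty_iff_forall_notMem]
  intro U hU
  rw [mem_Gd] at hU
  obtain ⟨l, hl⟩ := nonempty_of_card hU.2.1
  have h2 : ∀ j, al j * B2 l u = c₀ j := fun j => by
    have := hU.2.2 l hl j
    rw [gm, Pi.zero_apply, zero_mul, zero_add] at this
    rw [eq_neg_of_add_eq_zero_left this, z2_neg]
  rcases z2 (B2 l u) with h3 | h3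
  · exact h0 (funext fun j => by rw [← h2 j, h3, mul_zero]; rfl)
  · exact h1 (funext fun j => by rw [← h2 j, h3, mul_one])

omit [Fintype κ] in
theorem sum_Gd_C' {e : ZMod 2} (hal : al ≠ 0) (hc : c₀ = fun j => e * al j) (x : ZMod 2) :
    ∑ u : Lab2 k, sg (x * Q2 u) * ((Gd k (0 : κ → ZMod 2) al c₀ u).card : ℝ) =
      Nk2 k * 2 ^ k * (2 ^ k + sg e) / 2 := by
  classical
  have hp : (0 : ℝ) < 2 ^ k := by positivity
  have h4 : (4 : ℝ) ^ k = 2 ^ k * 2 ^ k := by rw [← mul_pow]; norm_num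
  have h1 : ∀ u : Lab2 k, 2 * 2 ^ k * (sg (x * Q2 u) *
      ((Gd k (0 : κ → ZMod 2) al c₀ u).card : ℝ)) =
      ∑ W ∈ Lgs2 k, if u ∈ W then 4 ^ k + sg e * (if u = 0 then 4 ^ k else 0) else 0 := by
    intro u
    have h2 : 2 * 2 ^ k * (sg (x * Q2 u) * ((Gd k (0 : κ → ZMod 2) al c₀ u).card : ℝ)) =
        sg (x * Q2 u) * (2 * (2 ^ k * (Gd k (0 : κ → ZMod 2) al c₀ u).card : ℝ)) := by ring
    rw [h2, card_Gd_C hal hc u, mul_sum, mul_sum]
    refine sum_congr rfl fun W hW => ?_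
    split_ifs with hu h0
    · rw [two_mul_card_B2, if_pos h0, h0, Q2_zero, mul_zero, sg2_zero, one_mul]
    · rw [mem_Lgs2] at hW
      rw [two_mul_card_B2, if_neg h0, hW.unl.Q hW.zero hu, mul_zero, sg2_zero, one_mul]
    · rw [mul_zero, mul_zero]
  have h2 : 2 * 2 ^ k * ∑ u : Lab2 k, sg (x * Q2 u) *
      ((Gd k (0 : κ → ZMod 2) al c₀ u).card : ℝ) = Nk2 k * (2 ^ k * 4 ^ k + sg e * 4 ^ k) := by
    rw [mul_sum, sum_congr rfl fun u _ => h1 u, sum_comm]
    have h3 : ∀ W ∈ Lgs2 k, ∑ u : Lab2 k, (if u ∈ W then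
        (4 : ℝ) ^ k + sg e * (if u = 0 then 4 ^ k else 0) else 0) =
        2 ^ k * 4 ^ k + sg e * 4 ^ k := fun W hW => by
      rw [mem_Lgs2] at hW
      rw [sum_ite_mem, univ_inter, sum_add_distrib, sum_const, nsmul_eq_mul, hW.card, ← mul_sum,
        sum_ite_eq', if_pos hW.zero]
      push_cast
      rfl
    rw [sum_congr rfl h3, sum_const, nsmul_eq_mul, card_Lgs2]
  have h5 : (2 * 2 ^ k : ℝ) ≠ 0 := by positivity
  refine mul_left_cancel₀ h5 ?_
  rw [h2, h4]
  ring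

open Classical in
/-- Bordered matrix, `kap = 0`. -/
theorem sum_Gd_C (hal : al ≠ 0) (x : ZMod 2) (c₀ : κ → ZMod 2) :
    ∑ u : Lab2 k, sg (x * Q2 u) * ((Gd k (0 : κ → ZMod 2) al c₀ u).card : ℝ) =
      if c₀ = 0 then (Nk2 k : ℝ) * 2 ^ k * (2 ^ k + 1) / 2 else
        if c₀ = al then (Nk2 k : ℝ) * 2 ^ k * (2 ^ k - 1) / 2 else 0 := by
  split_ifs with h0 h1
  · rw [sum_Gd_C' (e := 0) hal (by rw [h0]; funext j; rw [zero_mul]; rfl) x, sg2_zero]
  · rw [sum_Gd_C' (e := 1) hal (by rw [h1]; funext j; rw [one_mul]) x, sg2_one]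
    ring
  · refine sum_eq_zero fun u _ => ?_
    rw [Gd_C_empty hal h0 h1, card_empty, Nat.cast_zero, mul_zero]

end

end Pool.Agent.Lib.MP_1a91b9_ntQ.Da
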