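import Pool.Agent.Lib.MP_1a91b9_ntQ.D.Cnt

/-!
# MP_1a91b9_nt (quartic twists), part D: the bordered matrices and the expansion of the powers of
the size of the kernel

The matrix of the set of primes `S`: the symbols off the diagonal, on the diagonal the sum of the
symbols and of the class characters in `c`; it is bordered by the rows `∑ j, P j e * a j`, `e : E`,
with the corner `R`.
-/

set_option autoImplicit false
set_option linter.unusedSectionVars false

namespace Pool.Agent.Lib.MP_1a91b9_ntQ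

open Finset Pool.Agent.Lib.MP_1a91b9_ntH

noncomputable section

section Mat

variable {ι : Type} [DecidableEq ι] {κ : Type} [Fintype κ] {E : Type} [Fintype E] [DecidableEq E]

/-- The class part of the diagonal. -/
def Dat2.dg (D : Dat2 ι κ) (c : κ → ZMod 2) (q : ι) : ZMod 2 := ∑ j, c j * D.a q j

/-- The symmetric matrix of the set of primes `S`. -/
def Dat2.N (D : Dat2 ι κ) (c : κ → ZMod 2) (S : Finset ι) : Matrix S S (ZMod 2) :=
  fun i j => if i = j then D.dg c i + ∑ l ∈ S.erase i, D.s i l else D.s i j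

/-- The entries of the border. -/
def Dat2.bd (D : Dat2 ι κ) (P : κ → E → ZMod 2) (q : ι) (e : E) : ZMod 2 := ∑ j, P j e * D.a q j

/-- The bordered matrix. -/
def Dat2.NB (D : Dat2 ι κ) (c : κ → ZMod 2) (P : κ → E → ZMod 2) (R : Matrix E E (ZMod 2))
    (S : Finset ι) : Matrix (S ⊕ E) (S ⊕ E) (ZMod 2) :=
  Matrix.fromBlocks (D.N c S) (Matrix.of fun i e => D.bd P i e) (Matrix.of fun e i => D.bd P i e) R

/-- The size of the kernel of the bordered matrix. -/
def Dat2.kB (D : Dat2 ι κ) (c : κ → ZMod 2) (P : κ → E → ZMod 2) (R : Matrix E E (ZMod 2))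
    (S : Finset ι) : ℕ :=
  Fintype.card {v : S ⊕ E → ZMod 2 // (D.NB c P R S).mulVec v = 0}

theorem Dat2.N_mulVec (D : Dat2 ι κ) (c : κ → ZMod 2) (S : Finset ι) (v : S → ZMod 2) (j : S) :
    (D.N c S).mulVec v j = D.dg c j * v j + ∑ l : S, D.s j l * (v j + v l) := by
  have h1 : ∑ k ∈ S.erase (j : ι), D.s j k = ∑ l : S, D.s j l - D.s j j := by
    have h2 : ∑ l : S, D.s j l = ∑ k ∈ S, D.s j k := sum_coe_sort S fun k => D.s j k
    rw [h2, ← add_sum_erase S _ j.2]
    ring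
  have h3 : (D.N c S).mulVec v j = ∑ l : S, (D.s j l * v l +
      if l = j then (D.dg c j + ∑ l : S, D.s j l) * v j else 0) := by
    show ∑ l : S, D.N c S j l * v l = _
    refine sum_congr rfl fun l _ => ?_
    by_cases hl : l = j
    · subst hl
      rw [if_pos rfl, Dat2.N, if_pos rfl, h1]
      linear_combination -(Da.z2_add_self (D.s l l * v l))
    · rw [if_neg hl, Dat2.N, if_neg fun h => hl h.symm, add_zero]
  rw [h3, sum_add_distrib, sum_ite_eq', if_pos (mem_univ _)]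
  simp only [mul_add, sum_add_distrib]
  rw [← sum_mul]
  ring

theorem Dat2.NB_inl (D : Dat2 ι κ) (c : κ → ZMod 2) (P : κ → E → ZMod 2) (R : Matrix E E (ZMod 2))
    (S : Finset ι) (v : S ⊕ E → ZMod 2) (j : S) :
    (D.NB c P R S).mulVec v (Sum.inl j) = D.dg c j * v (Sum.inl j) +
      ∑ l : S, D.s j l * (v (Sum.inl j) + v (Sum.inl l)) + ∑ e, D.bd P j e * v (Sum.inr e) := by
  rw [Dat2.NB, Matrix.fromBlocks_mulVec, Sum.elim_inl, Pi.add_apply, D.N_mulVec]
  rfl

theorem Dat2.NB_inr (D : Dat2 ι κ) (c : κ → ZMod 2) (P : κ → E → ZMod 2) (R : Matrix E E (ZMod 2))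
    (S : Finset ι) (v : S ⊕ E → ZMod 2) (e : E) :
    (D.NB c P R S).mulVec v (Sum.inr e) = ∑ l : S, D.bd P l e * v (Sum.inl l) +
      ∑ f, R e f * v (Sum.inr f) := by
  rw [Dat2.NB, Matrix.fromBlocks_mulVec, Sum.elim_inr, Pi.add_apply]
  rfl

end Mat

namespace Da

variable {k : ℕ} {ι : Type} [DecidableEq ι] {κ : Type} [Fintype κ] {E : Type} [Fintype E]
  [DecidableEq E]

/-- The exponents of the pairs. -/
def PhiQ (l m : Lab2 k) : ZMod 2 := l.2 ⬝ᵥ (l.1 + m.1)

theorem PhiQ_self (l : Lab2 k) : PhiQ l l = 0 := by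
  have h : l.1 + l.1 = 0 := funext fun i => z2_add_self (l.1 i)
  rw [PhiQ, h, dotProduct_zero]

theorem PhiQ_add (l m : Lab2 k) : PhiQ l m + PhiQ m l = Q2 (l - m) := by
  rw [l2_sub]
  simp only [PhiQ, Q2, Prod.fst_add, Prod.snd_add, dotProduct_add, add_dotProduct]
  rw [dotProduct_comm l.2 l.1, dotProduct_comm l.2 m.1, dotProduct_comm m.2 m.1,
    dotProduct_comm m.2 l.1]
  ring

/-- The label system of the `k`-th moment with the labels `m` at the border. -/
def LSE (ι : Type) (k : ℕ) (c : κ → ZMod 2) (P : κ → E → ZMod 2) (m : E → Lab2 k) :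
    LS2 (Lab2 k) ι κ where
  Phi := PhiQ
  c := cE c P m
  t := fun _ _ => 0
  B := ∅
  m := 2 ^ k

/-- The exponent of a labelling. -/
def EEB (D : Dat2 ι κ) (c : κ → ZMod 2) (P : κ → E → ZMod 2) (R : Matrix E E (ZMod 2))
    (S : Finset ι) (f : S → Lab2 k) (m : E → Lab2 k) : ZMod 2 :=
  D.eS (LSE ι k c P m) S f + RF R m

theorem lin_LSE (D : Dat2 ι κ) (c : κ → ZMod 2) (P : κ → E → ZMod 2) (m : E → Lab2 k)
    (l : Lab2 k) (q : ι) : D.lin (LSE ι k c P m) l q =
      D.dg c q * Q2 l + ∑ e, D.bd P q e * B2 l (m e) := by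
  unfold Dat2.lin Dat2.ex LSE Dat2.dg Dat2.bd
  simp only [sum_empty, add_zero, cE, add_mul, sum_add_distrib]
  congr 1
  · rw [sum_mul]
    exact sum_congr rfl fun j _ => by ring
  · simp only [sum_mul]
    rw [sum_comm]
    exact sum_congr rfl fun e _ => sum_congr rfl fun j _ => by ring

theorem sum_dotE {n : Type} [Fintype n] [DecidableEq n] (z : n → ZMod 2) :
    ∑ v : n → ZMod 2, e2 (v ⬝ᵥ z) = if z = 0 then (2 ^ Fintype.card n : ℂ) else 0 := by
  split_ifs with h
  · subst h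
    simp only [dotProduct_zero, e2_zero, sum_const, card_univ, Fintype.card_fun,
      ZMod.card, nsmul_eq_mul, mul_one]
    push_cast
    rfl
  · obtain ⟨i, hi⟩ := Function.ne_iff.1 h
    have hi1 : z i = 1 := z2_ne hi
    have h2 : ∀ v : n → ZMod 2, e2 ((v + Pi.single i 1) ⬝ᵥ z) = -e2 (v ⬝ᵥ z) := by
      intro v
      rw [add_dotProduct, single_dotProduct, one_mul, hi1, e2_add, e2_one, mul_neg, mul_one]
    have h1 : ∑ v : n → ZMod 2, e2 (v ⬝ᵥ z) = ∑ v : n → ZMod 2, -e2 (v ⬝ᵥ z) := by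
      rw [← Equiv.sum_comp (Equiv.addRight (Pi.single i (1 : ZMod 2))) fun v => e2 (v ⬝ᵥ z)]
      exact sum_congr rfl fun v _ => h2 v
    rw [sum_neg_distrib] at h1
    generalize ∑ v : n → ZMod 2, e2 (v ⬝ᵥ z) = x at h1 ⊢
    linear_combination h1 / 2

/-- The value of the form of the bordered matrix. -/
theorem form_NB (D : Dat2 ι κ) (c : κ → ZMod 2) (P : κ → E → ZMod 2) (R : Matrix E E (ZMod 2))
    (S : Finset ι) (x y : S ⊕ E → ZMod 2) :
    y ⬝ᵥ (D.NB c P R S).mulVec x =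
      ∑ j : S, (D.dg c j * (x (Sum.inl j) * y (Sum.inl j)) +
        ∑ e, D.bd P j e * (x (Sum.inl j) * y (Sum.inr e) + x (Sum.inr e) * y (Sum.inl j))) +
      ∑ j : S, ∑ l : S, (y (Sum.inl j) * (x (Sum.inl j) + x (Sum.inl l))) * D.s j l +
      ∑ e, ∑ f, R e f * (y (Sum.inr e) * x (Sum.inr f)) := by
  rw [dotProduct, Fintype.sum_sum_type]
  simp only [D.NB_inl, D.NB_inr, mul_add, sum_add_distrib, mul_sum]
  have h1 : ∑ e : E, ∑ l : S, y (Sum.inr e) * (D.bd P l e * x (Sum.inl l)) =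
      ∑ l : S, ∑ e : E, D.bd P l e * (x (Sum.inl l) * y (Sum.inr e)) := by
    rw [sum_comm]
    exact sum_congr rfl fun l _ => sum_congr rfl fun e _ => by ring
  have h2 : ∑ e : E, ∑ f : E, y (Sum.inr e) * (R e f * x (Sum.inr f)) =
      ∑ e : E, ∑ f : E, R e f * (y (Sum.inr e) * x (Sum.inr f)) :=
    sum_congr rfl fun l _ => sum_congr rfl fun e _ => by ring
  have h3 : ∑ j : S, y (Sum.inl j) * (D.dg c j * x (Sum.inl j)) =
      ∑ j : S, D.dg c j * (x (Sum.inl j) * y (Sum.inl j)) :=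
    sum_congr rfl fun l _ => by ring
  have h4 : ∑ j : S, ∑ l : S, y (Sum.inl j) * (D.s j l * x (Sum.inl j)) =
      ∑ j : S, ∑ l : S, y (Sum.inl j) * x (Sum.inl j) * D.s j l :=
    sum_congr rfl fun l _ => sum_congr rfl fun e _ => by ring
  have h5 : ∑ j : S, ∑ l : S, y (Sum.inl j) * (D.s j l * x (Sum.inl l)) =
      ∑ j : S, ∑ l : S, y (Sum.inl j) * x (Sum.inl l) * D.s j l :=
    sum_congr rfl fun l _ => sum_congr rfl fun e _ => by ring
  have h6 : ∑ j : S, ∑ e : E, y (Sum.inl j) * (D.bd P j e * x (Sum.inr e)) =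
      ∑ j : S, ∑ e : E, D.bd P j e * (x (Sum.inr e) * y (Sum.inl j)) :=
    sum_congr rfl fun l _ => sum_congr rfl fun e _ => by ring
  rw [h1, h2, h3, h4, h5, h6]
  simp only [add_mul, sum_add_distrib]
  ring

/-- The bijection between the vectors and the labellings. -/
def vecLabE (k : ℕ) (S : Finset ι) (E : Type) :
    (Fin k → (S ⊕ E → ZMod 2) × (S ⊕ E → ZMod 2)) ≃ (S → Lab2 k) × (E → Lab2 k) where
  toFun g := (fun j => (fun i => (g i).1 (Sum.inl j), fun i => (g i).2 (Sum.inl j)),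
    fun e => (fun i => (g i).1 (Sum.inr e), fun i => (g i).2 (Sum.inr e)))
  invFun f i := (Sum.elim (fun j => (f.1 j).1 i) (fun e => (f.2 e).1 i),
    Sum.elim (fun j => (f.1 j).2 i) (fun e => (f.2 e).2 i))
  left_inv g := by
    funext i
    refine Prod.ext (funext fun j => ?_) (funext fun j => ?_)
    · rcases j with j | e <;> rfl
    · rcases j with j | e <;> rfl
  right_inv f := rfl

theorem exp_eqE (D : Dat2 ι κ) (c : κ → ZMod 2) (P : κ → E → ZMod 2) (R : Matrix E E (ZMod 2))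
    (S : Finset ι) (g : Fin k → (S ⊕ E → ZMod 2) × (S ⊕ E → ZMod 2)) :
    ∑ i, (g i).2 ⬝ᵥ (D.NB c P R S).mulVec (g i).1 =
      EEB D c P R S (vecLabE k S E g).1 (vecLabE k S E g).2 := by
  simp only [form_NB, sum_add_distrib]
  unfold EEB Dat2.eS
  simp only [lin_LSE, sum_add_distrib]
  congr 1
  · congr 1
    · congr 1
      · rw [sum_comm]
        refine sum_congr rfl fun j _ => ?_
        rw [← mul_sum]
        rfl
      · rw [sum_comm]
        refine sum_congr rfl fun j _ => ?_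
        rw [sum_comm]
        refine sum_congr rfl fun e _ => ?_
        rw [← mul_sum, sum_add_distrib]
        rfl
    · rw [sum_comm]
      refine sum_congr rfl fun j _ => ?_
      rw [sum_comm]
      refine sum_congr rfl fun l _ => ?_
      rw [← sum_mul]
      rfl
  · rw [RF, sum_comm]
    refine sum_congr rfl fun e _ => ?_
    rw [sum_comm]
    refine sum_congr rfl fun f _ => ?_
    rw [← mul_sum]
    rfl

theorem kB_mul (D : Dat2 ι κ) (c : κ → ZMod 2) (P : κ → E → ZMod 2) (R : Matrix E E (ZMod 2))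
    (S : Finset ι) : (D.kB c P R S : ℂ) * 2 ^ (S.card + Fintype.card E) =
      ∑ p : (S ⊕ E → ZMod 2) × (S ⊕ E → ZMod 2), e2 (p.2 ⬝ᵥ (D.NB c P R S).mulVec p.1) := by
  rw [Fintype.sum_prod_type]
  have h1 : ∀ v : S ⊕ E → ZMod 2, ∑ w : S ⊕ E → ZMod 2, e2 (w ⬝ᵥ (D.NB c P R S).mulVec v) =
      if (D.NB c P R S).mulVec v = 0 then (2 ^ (S.card + Fintype.card E) : ℂ) else 0 := by
    intro v
    rw [sum_dotE, Fintype.card_sum, Fintype.card_coe]
  simp only [h1]
  rw [← sum_filter, sum_const, nsmul_eq_mul, Dat2.kB, Fintype.card_subtype]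

/-- The expansion of the `k`-th power of the size of the kernel. -/
theorem kB_pow_mul (D : Dat2 ι κ) (c : κ → ZMod 2) (P : κ → E → ZMod 2) (R : Matrix E E (ZMod 2))
    (S : Finset ι) : (D.kB c P R S : ℂ) ^ k * (2 ^ k) ^ (S.card + Fintype.card E) =
      ∑ m : E → Lab2 k, e2 (RF R m) * ∑ f : S → Lab2 k, e2 (D.eS (LSE ι k c P m) S f) := by
  have h : ((2 : ℂ) ^ k) ^ (S.card + Fintype.card E) = (2 ^ (S.card + Fintype.card E)) ^ k := by
    rw [← pow_mul, ← pow_mul, mul_comm]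
  have h2 : ∑ m : E → Lab2 k, e2 (RF R m) * ∑ f : S → Lab2 k, e2 (D.eS (LSE ι k c P m) S f) =
      ∑ p : (S → Lab2 k) × (E → Lab2 k), e2 (EEB D c P R S p.1 p.2) := by
    rw [Fintype.sum_prod_type_right]
    refine sum_congr rfl fun m _ => ?_
    rw [mul_sum]
    refine sum_congr rfl fun f _ => ?_
    rw [EEB, e2_add, mul_comm]
  rw [h, ← mul_pow, kB_mul, Fintype.sum_pow, h2]
  refine Fintype.sum_equiv (vecLabE k S E) _ _ ?_
  intro g
  rw [← e2_sum, exp_eqE]

end Da

end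

end Pool.Agent.Lib.MP_1a91b9_ntQ
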