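import Pool.Agent.Lib.MP_1a91b9_ntQ.D.Mat
import Pool.Agent.Lib.MP_1a91b9_ntQ.D.Engine

/-!
# MP_1a91b9_nt (quartic twists), part D: the weighted moments, from the engine
-/

set_option autoImplicit false
set_option linter.unusedSectionVars false

namespace Pool.Agent.Lib.MP_1a91b9_ntQ.Da

open Finset Pool.Agent.Lib.MP_1a91b9_ntH

noncomputable section

variable {k : ℕ} {ι : Type} [DecidableEq ι] {κ : Type} [Fintype κ] [DecidableEq κ] {E : Type} [Fintype E]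
  [DecidableEq E]

theorem LSE_lk (c : κ → ZMod 2) (P : κ → E → ZMod 2) (m : E → Lab2 k) (l l' : Lab2 k) :
    (LSE ι k c P m).lk l l' = Q2 (l - l') := PhiQ_add l l'

theorem LSE_Unl (c : κ → ZMod 2) (P : κ → E → ZMod 2) (m : E → Lab2 k) (U : Finset (Lab2 k)) :
    (LSE ι k c P m).Unl U ↔ Unl2 U := by
  rw [LS2.Unl, Unl2]
  simp only [LSE_lk]

theorem LSE_OK {k : ℕ} (hk : 1 ≤ k) (c : κ → ZMod 2) (P : κ → E → ZMod 2) (m : E → Lab2 k) :
    (LSE ι k c P m).OK where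
  diag := PhiQ_self
  two := by
    show 2 ≤ 2 ^ k
    calc 2 ≤ 2 ^ 1 := by norm_num
      _ ≤ 2 ^ k := Nat.pow_le_pow_right (by norm_num) hk
  k1 := fun U hU => K1 ((LSE_Unl c P m U).1 hU)
  k2 := fun U hU hc x hx => by
    have hU' := (LSE_Unl c P m U).1 hU
    have hc' : U.card = 2 ^ k := hc
    have hne : U.Nonempty := by
      rw [← card_pos, hc']; positivity
    obtain ⟨l0, hl0⟩ := hne
    by_contra hcon
    push Not at hcon
    refine hx (K2 hU' hc' (Q2 (l0 - x)) fun l hl => ?_)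
    have := hcon l hl l0 hl0
    rw [LSE_lk, LSE_lk] at this
    exact this

open Classical in
/-- The maximal unlinked sets on which the linear term is the constant `c0`. -/
def MsE (c : κ → ZMod 2) (P : κ → E → ZMod 2) (m : E → Lab2 k) (c0 : κ → ZMod 2) :
    Finset (Finset (Lab2 k)) :=
  univ.filter fun U => Unl2 U ∧ U.card = 2 ^ k ∧ ∀ l ∈ U, cE c P m l = c0

theorem mem_MsE {c : κ → ZMod 2} {P : κ → E → ZMod 2} {m : E → Lab2 k} {c0 : κ → ZMod 2}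
    {U : Finset (Lab2 k)} :
    U ∈ MsE c P m c0 ↔ Unl2 U ∧ U.card = 2 ^ k ∧ ∀ l ∈ U, cE c P m l = c0 := by
  classical
  rw [MsE, mem_filter]
  exact ⟨fun h => h.2, fun h => ⟨mem_univ _, h⟩⟩

open Classical in
theorem card_Ms (c : κ → ZMod 2) (P : κ → E → ZMod 2) (m : E → Lab2 k)
    (tr : (κ → ZMod 2) → Prop) :
    ((LSE ι k c P m).Ms tr).card = ∑ c0 ∈ univ.filter tr, (MsE c P m c0).card := by
  rw [← card_biUnion]
  · congr 1
    ext U
    rw [LS2.mem_Ms, LS2.mem_Us, LSE_Unl, mem_biUnion]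
    constructor
    · rintro ⟨⟨h1, h2⟩, c0, h3, h4⟩
      exact ⟨c0, mem_filter.2 ⟨mem_univ _, h3⟩, mem_MsE.2 ⟨h1, h2, fun l hl => (h4 l hl).1⟩⟩
    · rintro ⟨c0, h3, h4⟩
      obtain ⟨h5, h6, h7⟩ := mem_MsE.1 h4
      exact ⟨⟨h5, h6⟩, c0, (mem_filter.1 h3).2, fun l hl => ⟨h7 l hl, fun p _ => rfl⟩⟩
  · intro c0 _ c1 _ hne
    refine disjoint_left.2 fun U h0 h1 => hne ?_
    obtain ⟨_, h3, h4⟩ := mem_MsE.1 h0
    obtain ⟨_, _, h5⟩ := mem_MsE.1 h1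
    have hU : U.Nonempty := by
      rw [← card_pos, h3]; positivity
    obtain ⟨l, hl⟩ := hU
    rw [← h4 l hl, ← h5 l hl]

/-- The main term of the class character `c0`. -/
def TE (k : ℕ) (c : κ → ZMod 2) (P : κ → E → ZMod 2) (R : Matrix E E (ZMod 2))
    (c0 : κ → ZMod 2) : ℂ :=
  ∑ m : E → Lab2 k, e2 (RF R m) * ((MsE c P m c0).card : ℂ)

variable [PS ι]

/-- The weighted `k`-th moment. -/
def MoE (D : Dat2 ι κ) (c : κ → ZMod 2) (P : κ → E → ZMod 2) (R : Matrix E E (ZMod 2)) (k : ℕ)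
    (g : ι → ℂ) (X : ℕ) : ℂ :=
  ∑ S ∈ Sx ι X, (∏ q ∈ S, g q) * (D.kB c P R S : ℂ) ^ k

theorem MoE_eq (D : Dat2 ι κ) (c : κ → ZMod 2) (P : κ → E → ZMod 2) (R : Matrix E E (ZMod 2))
    (k : ℕ) (g : ι → ℂ) (X : ℕ) : MoE D c P R k g X * (2 ^ k) ^ Fintype.card E =
      ∑ m : E → Lab2 k, e2 (RF R m) * ∑ S ∈ Sx ι X,
        ((((LSE ι k c P m).m : ℂ)⁻¹) ^ S.card * (∏ q ∈ S, g q) *
          ∑ f : S → Lab2 k, e2 (D.eS (LSE ι k c P m) S f)) := by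
  rw [MoE, sum_mul]
  have h2 : ∀ m : E → Lab2 k, (((LSE ι k c P m).m : ℕ) : ℂ) = 2 ^ k := by
    intro m
    show (((2 ^ k : ℕ)) : ℂ) = 2 ^ k
    push_cast
    rfl
  have hk : ((2 : ℂ) ^ k) ≠ 0 := pow_ne_zero _ (by norm_num)
  have h1 : ∀ S ∈ Sx ι X, (∏ q ∈ S, g q) * (D.kB c P R S : ℂ) ^ k * (2 ^ k) ^ Fintype.card E =
      ∑ m : E → Lab2 k, e2 (RF R m) * ((((LSE ι k c P m).m : ℂ)⁻¹) ^ S.card * (∏ q ∈ S, g q) *
          ∑ f : S → Lab2 k, e2 (D.eS (LSE ι k c P m) S f)) := by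
    intro S _
    have h3 := kB_pow_mul (k := k) D c P R S
    have h4 : ∀ m : E → Lab2 k, e2 (RF R m) * ((((LSE ι k c P m).m : ℂ)⁻¹) ^ S.card *
        (∏ q ∈ S, g q) * ∑ f : S → Lab2 k, e2 (D.eS (LSE ι k c P m) S f)) =
        ((2 ^ k : ℂ)⁻¹) ^ S.card * (∏ q ∈ S, g q) *
          (e2 (RF R m) * ∑ f : S → Lab2 k, e2 (D.eS (LSE ι k c P m) S f)) := by
      intro m
      rw [h2 m]
      ring
    rw [sum_congr rfl fun m _ => h4 m, ← mul_sum, ← h3, pow_add]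
    have h5 : ((2 ^ k : ℂ)⁻¹) ^ S.card * (2 ^ k) ^ S.card = 1 := by
      rw [← mul_pow, inv_mul_cancel₀ hk, one_pow]
    linear_combination (-(∏ q ∈ S, g q) * (D.kB c P R S : ℂ) ^ k * (2 ^ k) ^ Fintype.card E) * h5
  rw [sum_congr rfl h1, sum_comm]
  exact sum_congr rfl fun m _ => (mul_sum _ _ _).symm

open Classical in
/-- The weighted moments. -/
theorem MoE_lim {D : Dat2 ι κ} (hD : D.OK) {g : ι → ℂ} {tr : (κ → ZMod 2) → Prop}
    (hw : D.Wt ∅ g tr) (c : κ → ZMod 2) (P : κ → E → ZMod 2) (R : Matrix E E (ZMod 2)) {k : ℕ}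
    (hk : 1 ≤ k) (ε : ℝ) (hε : 0 < ε) : ∃ X₀ : ℕ, ∀ X : ℕ, X₀ ≤ X →
    ‖MoE D c P R k g X * (2 ^ k) ^ Fintype.card E -
      (∑ c0 ∈ univ.filter tr, TE k c P R c0) * ((Sx ι X).card : ℂ)‖ ≤ ε * X := by
  have hN : (0 : ℝ) < Fintype.card (E → Lab2 k) := by
    exact_mod_cast Fintype.card_pos
  choose X0 h0 using fun m : E → Lab2 k =>
    Pool.Agent.Lib.MP_1a91b9_ntQ.D.engine D hD (LSE ι k c P m) (LSE_OK hk c P m) (g := g)
      (tr := tr) hw (ε / Fintype.card (E → Lab2 k)) (by positivity)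
  refine ⟨∑ m, X0 m, fun X hX => ?_⟩
  have hXt : ∀ m, X0 m ≤ X := fun m =>
    (single_le_sum (fun _ _ => Nat.zero_le _) (mem_univ m)).trans hX
  have hS : (Sx ι X).filter (fun S => Disjoint S ∅) = Sx ι X :=
    filter_true_of_mem fun S _ => disjoint_empty_right S
  have h1 : ∑ c0 ∈ univ.filter tr, TE k c P R c0 =
      ∑ m : E → Lab2 k, e2 (RF R m) * (((LSE ι k c P m).Ms tr).card : ℂ) := by
    simp only [TE]
    rw [sum_comm]
    refine sum_congr rfl fun m _ => ?_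
    rw [card_Ms, Nat.cast_sum, mul_sum]
  rw [MoE_eq, h1, sum_mul, ← sum_sub_distrib]
  calc ‖∑ m : E → Lab2 k, (e2 (RF R m) * ∑ S ∈ Sx ι X,
        ((((LSE ι k c P m).m : ℂ)⁻¹) ^ S.card * (∏ q ∈ S, g q) *
          ∑ f : S → Lab2 k, e2 (D.eS (LSE ι k c P m) S f)) -
        e2 (RF R m) * (((LSE ι k c P m).Ms tr).card : ℂ) * ((Sx ι X).card : ℂ))‖
      ≤ ∑ m : E → Lab2 k, ε / Fintype.card (E → Lab2 k) * X := by
        refine (norm_sum_le _ _).trans (sum_le_sum fun m _ => ?_)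
        have h2 := h0 m X (hXt m)
        have h3 : (LSE ι k c P m).B = ∅ := rfl
        rw [h3, hS] at h2
        rw [mul_assoc, ← mul_sub, norm_mul, norm_e2, one_mul]
        exact h2
    _ = ε * X := by
        rw [sum_const, card_univ, nsmul_eq_mul]
        field_simp

end

end Pool.Agent.Lib.MP_1a91b9_ntQ.Da
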