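import Pool.Agent.Lib.MP_1a91b9_ntQ.D.QS

/-!
# MP_1a91b9_nt (quartic twists), part D: from the moments to the density
-/

set_option autoImplicit false

namespace Pool.Agent.Lib.MP_1a91b9_ntQ.Da

open Finset

noncomputable section

variable {β : Type}

/-- The mean value of `g (kc b)` over the finite sets `A X` is `v`, up to `o(X) / #(A X)`. -/
def MF2 (A : ℕ → Finset β) (kc : β → ℕ) (g : ℝ → ℝ) (v : ℝ) : Prop :=
  ∀ ε : ℝ, 0 < ε → ∃ X₀ : ℕ, ∀ X : ℕ, X₀ ≤ X →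
    |∑ b ∈ A X, g (kc b) - v * (A X).card| ≤ ε * X

theorem MF2.add {A : ℕ → Finset β} {kc : β → ℕ} {g h : ℝ → ℝ} {v w : ℝ} (hg : MF2 A kc g v)
    (hh : MF2 A kc h w) : MF2 A kc (fun x => g x + h x) (v + w) := by
  intro ε hε
  obtain ⟨X1, h1⟩ := hg (ε / 2) (by positivity)
  obtain ⟨X2, h2⟩ := hh (ε / 2) (by positivity)
  refine ⟨max X1 X2, fun X hX => ?_⟩
  have h3 := h1 X (le_trans (le_max_left _ _) hX)
  have h4 := h2 X (le_trans (le_max_right _ _) hX)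
  rw [sum_add_distrib]
  calc |∑ b ∈ A X, g (kc b) + ∑ b ∈ A X, h (kc b) - (v + w) * (A X).card|
      = |(∑ b ∈ A X, g (kc b) - v * (A X).card) +
        (∑ b ∈ A X, h (kc b) - w * (A X).card)| := by congr 1; ring
    _ ≤ _ := abs_add_le _ _
    _ ≤ ε / 2 * X + ε / 2 * X := add_le_add h3 h4
    _ = ε * X := by ring

theorem MF2.smul {A : ℕ → Finset β} {kc : β → ℕ} {g : ℝ → ℝ} {v : ℝ} (hg : MF2 A kc g v)
    (a : ℝ) : MF2 A kc (fun x => a * g x) (a * v) := by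
  intro ε hε
  obtain ⟨X1, h1⟩ := hg (ε / (|a| + 1)) (by positivity)
  refine ⟨X1, fun X hX => ?_⟩
  have h3 := h1 X hX
  rw [← mul_sum, mul_assoc, ← mul_sub, abs_mul]
  have ha : 0 < |a| + 1 := by positivity
  calc |a| * |∑ b ∈ A X, g (kc b) - v * (A X).card|
      ≤ (|a| + 1) * (ε / (|a| + 1) * X) := by
        refine mul_le_mul (by linarith) h3 (abs_nonneg _) ha.le
    _ = ε * X := by field_simp

theorem MF2.congr {A : ℕ → Finset β} {kc : β → ℕ} {g h : ℝ → ℝ} {v w : ℝ}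
    (hg : MF2 A kc g v) (h1 : ∀ x, h x = g x) (h2 : w = v) : MF2 A kc h w := by
  rw [h2, show h = g from funext h1]
  exact hg

/-- The falling products `∏_{i < j} (x - 2^i)`. -/
def Fj2 (j : ℕ) (x : ℝ) : ℝ := ∏ i ∈ range j, (x - 2 ^ i)

/-- `2 ^ (j (j - 1) / 2)`. -/
def Tj2 (j : ℕ) : ℝ := ∏ i ∈ range j, (2 : ℝ) ^ i

/-- The interpolation polynomials `∏_{i = 1}^{K} (2^i - x) / (2^i - 1)`. -/
def pK2 (K : ℕ) (x : ℝ) : ℝ := ∏ i ∈ range K, ((2 ^ (i + 1) - x) / (2 ^ (i + 1) - 1))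

/-- The partial sums `∑_{j ≤ K} (-1)^j 2^(j(j-1)/2) / ∏_{i=1}^{j} (2^i - 1)`. -/
def sK2 (K : ℕ) : ℝ :=
  ∑ j ∈ range (K + 1), (-1) ^ j * Tj2 j / ∏ i ∈ range j, (2 ^ (i + 1) - 1)

theorem Nk2_succ' (k : ℕ) : (Nk2 (k + 1) : ℝ) = Nk2 k * (1 + 2 ^ k) := by
  rw [Nk2_succ]
  push_cast
  rfl

theorem MF2_Fj {A : ℕ → Finset β} {kc : β → ℕ} (hm : ∀ k, MF2 A kc (fun x => x ^ k) (Nk2 k))
    (j : ℕ) : ∀ m : ℕ, MF2 A kc (fun x => x ^ m * Fj2 j x) (Tj2 j * 2 ^ (j * m) * Nk2 m) := by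
  induction j with
  | zero =>
    intro m
    refine (hm m).congr (fun x => ?_) ?_
    · simp [Fj2]
    · simp [Tj2]
  | succ j ih =>
    intro m
    refine ((ih (m + 1)).add ((ih m).smul (-(2 ^ j)))).congr (fun x => ?_) ?_
    · rw [Fj2, prod_range_succ, ← Fj2]
      ring
    · rw [Nk2_succ']
      have e1 : (2 : ℝ) ^ (j * (m + 1)) = 2 ^ (j * m) * 2 ^ j := by rw [← pow_add]; ring_nf
      have e2 : (2 : ℝ) ^ ((j + 1) * m) = 2 ^ (j * m) * 2 ^ m := by rw [← pow_add]; ring_nf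
      have e4 : Tj2 (j + 1) = Tj2 j * 2 ^ j := by rw [Tj2, prod_range_succ, Tj2]
      rw [e1, e2, e4]
      ring

theorem one_lt_pow2 (i : ℕ) : (1 : ℝ) < 2 ^ (i + 1) := one_lt_pow₀ (by norm_num) (by omega)

theorem one_sub_mul_pK2 (K : ℕ) (x : ℝ) : (1 - x) * pK2 K x =
    (-1) ^ (K + 1) * Fj2 (K + 1) x / ∏ i ∈ range K, (2 ^ (i + 1) - 1) := by
  have h1 : Fj2 (K + 1) x = (∏ i ∈ range K, (x - 2 ^ (i + 1))) * (x - 1) := by
    rw [Fj2, prod_range_succ', pow_zero]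
  have h2 : ∏ i ∈ range K, (x - (2 : ℝ) ^ (i + 1)) =
      (-1) ^ K * ∏ i ∈ range K, ((2 : ℝ) ^ (i + 1) - x) := by
    have hc : (-1 : ℝ) ^ K = ∏ _i ∈ range K, (-1 : ℝ) := by rw [prod_const, card_range]
    rw [hc, ← prod_mul_distrib]
    exact prod_congr rfl fun i _ => by ring
  have h3 : ((-1 : ℝ) ^ K) * (-1) ^ K = 1 := by rw [← mul_pow]; norm_num
  rw [h1, h2, pK2, prod_div_distrib, pow_succ]
  linear_combination (-(x - 1) * (∏ i ∈ range K, ((2 : ℝ) ^ (i + 1) - x)) /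
    ∏ i ∈ range K, ((2 : ℝ) ^ (i + 1) - 1)) * (1 - h3)

theorem pK2_succ (K : ℕ) (x : ℝ) : pK2 (K + 1) x = pK2 K x +
    ((-1) ^ (K + 1) / ∏ i ∈ range (K + 1), (2 ^ (i + 1) - 1)) * (x ^ 0 * Fj2 (K + 1) x) := by
  have h1 : (2 : ℝ) ^ (K + 1) - 1 ≠ 0 := by
    have := one_lt_pow2 K
    linarith
  have h2 := one_sub_mul_pK2 K x
  rw [pK2, prod_range_succ, ← pK2, prod_range_succ, pow_zero, one_mul]
  have h3 : (-1) ^ (K + 1) / ((∏ i ∈ range K, ((2 : ℝ) ^ (i + 1) - 1)) * (2 ^ (K + 1) - 1)) *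
      Fj2 (K + 1) x = (1 - x) * pK2 K x / (2 ^ (K + 1) - 1) := by
    rw [h2]
    field_simp
  rw [h3]
  field_simp
  ring

theorem MF2_pK {A : ℕ → Finset β} {kc : β → ℕ} (hm : ∀ k, MF2 A kc (fun x => x ^ k) (Nk2 k))
    (K : ℕ) : MF2 A kc (pK2 K) (sK2 K) := by
  induction K with
  | zero =>
    refine (hm 0).congr (fun x => ?_) ?_
    · simp [pK2]
    · simp [sK2, Nk2, Tj2]
  | succ K ih =>
    refine (ih.add ((MF2_Fj hm (K + 1) 0).smul
      ((-1) ^ (K + 1) / ∏ i ∈ range (K + 1), (2 ^ (i + 1) - 1)))).congr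
      (fun x => pK2_succ K x) ?_
    rw [sK2, sum_range_succ, ← sK2]
    simp [Nk2]
    ring

theorem pK2_one (K : ℕ) : pK2 K 1 = 1 := by
  rw [pK2]
  refine prod_eq_one fun i _ => ?_
  have := one_lt_pow2 i
  exact div_self (by linarith)

theorem pK2_pow (K r : ℕ) (hr : r ≠ 0) :
    (Odd K → pK2 K (2 ^ r) ≤ 0) ∧ (Even K → 0 ≤ pK2 K (2 ^ r)) := by
  by_cases h : r ≤ K
  · have : pK2 K (2 ^ r) = 0 := by
      rw [pK2]
      refine prod_eq_zero (i := r - 1) (mem_range.2 (by omega)) ?_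
      rw [show r - 1 + 1 = r by omega, sub_self, zero_div]
    rw [this]
    exact ⟨fun _ => le_refl _, fun _ => le_refl _⟩
  · have h1 : pK2 K (2 ^ r) = (-1) ^ K * ∏ i ∈ range K, (((2 : ℝ) ^ r - 2 ^ (i + 1)) /
        (2 ^ (i + 1) - 1)) := by
      have hc : (-1 : ℝ) ^ K = ∏ _i ∈ range K, (-1 : ℝ) := by rw [prod_const, card_range]
      rw [pK2, hc, ← prod_mul_distrib]
      exact prod_congr rfl fun i _ => by ring
    have h2 : 0 ≤ ∏ i ∈ range K, (((2 : ℝ) ^ r - 2 ^ (i + 1)) / (2 ^ (i + 1) - 1)) := by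
      refine prod_nonneg fun i hi => ?_
      rw [mem_range] at hi
      have h3 : (2 : ℝ) ^ (i + 1) ≤ 2 ^ r := pow_le_pow_right₀ (by norm_num) (by omega)
      have h4 := one_lt_pow2 i
      exact div_nonneg (by linarith) (by linarith)
    constructor
    · intro hK
      rw [h1, hK.neg_one_pow]
      linarith
    · intro hK
      rw [h1, hK.neg_one_pow]
      linarith

/-- The lower bound for the number of `b` with trivial kernel from the moments, `K` odd. -/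
theorem dens2_odd {A : ℕ → Finset β} {kc : β → ℕ} (hp : ∀ b, ∃ r, kc b = 2 ^ r)
    (hm : ∀ k, MF2 A kc (fun x => x ^ k) (Nk2 k)) (K : ℕ) (hK : Odd K)
    (ε : ℝ) (hε : 0 < ε) : ∃ X₀ : ℕ, ∀ X : ℕ, X₀ ≤ X →
      sK2 K * (A X).card - ε * X ≤ ((A X).filter fun b => kc b = 1).card := by
  obtain ⟨X1, h1⟩ := MF2_pK hm K ε hε
  refine ⟨X1, fun X hX => ?_⟩
  have h2 := h1 X hX
  have h3 : ∑ b ∈ A X, pK2 K (kc b) ≤ ((A X).filter fun b => kc b = 1).card := by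
    rw [card_eq_sum_ones, sum_filter]
    push_cast
    refine sum_le_sum fun b _ => ?_
    split_ifs with hd
    · rw [hd]
      push_cast
      rw [pK2_one]
    · obtain ⟨r, hr⟩ := hp b
      have hr0 : r ≠ 0 := by
        intro h0
        rw [h0, pow_zero] at hr
        exact hd hr
      rw [hr]
      push_cast
      exact (pK2_pow K r hr0).1 hK
  have h4 := (abs_le.1 h2).1
  linarith

/-- The upper bound, `K` even. -/
theorem dens2_even {A : ℕ → Finset β} {kc : β → ℕ} (hp : ∀ b, ∃ r, kc b = 2 ^ r)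
    (hm : ∀ k, MF2 A kc (fun x => x ^ k) (Nk2 k)) (K : ℕ) (hK : Even K)
    (ε : ℝ) (hε : 0 < ε) : ∃ X₀ : ℕ, ∀ X : ℕ, X₀ ≤ X →
      (((A X).filter fun b => kc b = 1).card : ℝ) ≤ sK2 K * (A X).card + ε * X := by
  obtain ⟨X1, h1⟩ := MF2_pK hm K ε hε
  refine ⟨X1, fun X hX => ?_⟩
  have h2 := h1 X hX
  have h3 : (((A X).filter fun b => kc b = 1).card : ℝ) ≤ ∑ b ∈ A X, pK2 K (kc b) := by
    rw [card_eq_sum_ones, sum_filter]
    push_cast
    refine sum_le_sum fun b _ => ?_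
    split_ifs with hd
    · rw [hd]
      push_cast
      rw [pK2_one]
    · obtain ⟨r, hr⟩ := hp b
      have hr0 : r ≠ 0 := by
        intro h0
        rw [h0, pow_zero] at hr
        exact hd hr
      rw [hr]
      push_cast
      exact (pK2_pow K r hr0).2 hK
  have h4 := (abs_le.1 h2).2
  linarith

end

end Pool.Agent.Lib.MP_1a91b9_ntQ.Da
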