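import Pool.Agent.Lib.MP_1a91b9_ntQ.D.Defs
import Pool.Agent.Lib.MP_1a91b9_ntH.D.K1

/-!
# MP_1a91b9_nt (quartic twists), part D: the labels of the `k`-th moment over `ZMod 2`

Labels `(x, y)` in `F2^k × F2^k`, quadratic form `x · y`; unlinked sets, maximal unlinked sets and
the number of the maximal totally singular subspaces.
-/

set_option autoImplicit false

namespace Pool.Agent.Lib.MP_1a91b9_ntQ.Da

open Finset Pool.Agent.Lib.MP_1a91b9_ntH

theorem sg2_one : sg 1 = -1 := Pool.Agent.Lib.MP_1a91b9_ntH.Da.sg_one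

theorem z2 (x : ZMod 2) : x = 0 ∨ x = 1 := by revert x; decide

theorem z2_add_self (x : ZMod 2) : x + x = 0 := by revert x; decide

theorem z2_ne {x : ZMod 2} (h : x ≠ 0) : x = 1 := (z2 x).resolve_left h

theorem z2_neg (x : ZMod 2) : -x = x := by revert x; decide

theorem sg2_eq_one {x : ZMod 2} (h : sg x = 1) : x = 0 := by
  rcases z2 x with rfl | rfl
  · rfl
  · rw [sg2_one] at h
    norm_num at h

/-- A sum of signs with a sign reversing translation is zero. -/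
theorem sum_sg2_eq_zero {α : Type} [AddCommGroup α] [Fintype α] (F : α → ZMod 2) (t : α)
    (c : ZMod 2) (hc : c ≠ 0) (h : ∀ x, F (x + t) = F x + c) : ∑ x, sg (F x) = 0 :=
  Pool.Agent.Lib.MP_1a91b9_ntH.Da.sum_sg_eq_zero F t fun x => by rw [h, z2_ne hc]

/-- The labels. -/
abbrev Lab2 (k : ℕ) : Type := (Fin k → ZMod 2) × (Fin k → ZMod 2)

variable {k : ℕ}

/-- The quadratic form. -/
def Q2 (l : Lab2 k) : ZMod 2 := l.1 ⬝ᵥ l.2

/-- Its polar form. -/
def B2 (l m : Lab2 k) : ZMod 2 := l.1 ⬝ᵥ m.2 + m.1 ⬝ᵥ l.2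

theorem Q2_add (l m : Lab2 k) : Q2 (l + m) = Q2 l + Q2 m + B2 l m := by
  simp only [Q2, B2, Prod.snd_add, Prod.fst_add, add_dotProduct, dotProduct_add]
  ring

theorem Q2_zero : Q2 (0 : Lab2 k) = 0 := by simp [Q2]

theorem l2_add_self (l : Lab2 k) : l + l = 0 :=
  Prod.ext (funext fun i => z2_add_self (l.1 i)) (funext fun i => z2_add_self (l.2 i))

theorem l2_neg (l : Lab2 k) : -l = l := neg_eq_of_add_eq_zero_left (l2_add_self l)

theorem l2_add_add (l m : Lab2 k) : l + m + m = l := by rw [add_assoc, l2_add_self, add_zero]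

theorem l2_sub (l m : Lab2 k) : l - m = l + m := by rw [sub_eq_add_neg, l2_neg]

theorem B2_comm (l m : Lab2 k) : B2 l m = B2 m l := by simp only [B2]; ring

theorem B2_add (l m n : Lab2 k) : B2 l (m + n) = B2 l m + B2 l n := by
  simp only [B2, Prod.snd_add, Prod.fst_add, add_dotProduct, dotProduct_add]
  ring

theorem B2_add' (l m n : Lab2 k) : B2 (l + m) n = B2 l n + B2 m n := by
  rw [B2_comm, B2_add, B2_comm n l, B2_comm n m]

theorem B2_zero (l : Lab2 k) : B2 l 0 = 0 := by simp [B2]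

theorem B2_zero' (l : Lab2 k) : B2 0 l = 0 := by rw [B2_comm, B2_zero]

theorem Q2_sub (l m : Lab2 k) : Q2 (l - m) = Q2 l + Q2 m + B2 l m := by
  rw [l2_sub, Q2_add]

theorem B2_sub (l m n : Lab2 k) : B2 l (m - n) = B2 l m + B2 l n := by
  rw [l2_sub, B2_add]

theorem B2_self (l : Lab2 k) : B2 l l = 0 := z2_add_self _

theorem card_V2 (k : ℕ) : Fintype.card (Fin k → ZMod 2) = 2 ^ k := by
  rw [Fintype.card_fun, Fintype.card_fin, ZMod.card]

theorem card_Lab2 (k : ℕ) : Fintype.card (Lab2 k) = 4 ^ k := by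
  rw [Fintype.card_prod, card_V2, ← mul_pow]; norm_num

theorem exists_dot2 {x : Fin k → ZMod 2} (hx : x ≠ 0) : ∃ y, x ⬝ᵥ y ≠ 0 := by
  obtain ⟨i, hi⟩ := Function.ne_iff.1 hx
  refine ⟨Pi.single i 1, ?_⟩
  rw [dotProduct_single, mul_one]
  exact hi

theorem exists_B2 {w : Lab2 k} (hw : w ≠ 0) : ∃ l, B2 l w ≠ 0 := by
  by_cases h1 : w.1 = 0
  · have h2 : w.2 ≠ 0 := fun h2 => hw (Prod.ext h1 h2)
    obtain ⟨y, hy⟩ := exists_dot2 h2
    refine ⟨(y, 0), ?_⟩
    rw [B2]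
    simp only [h1, dotProduct_zero, add_zero]
    rwa [dotProduct_comm]
  · obtain ⟨y, hy⟩ := exists_dot2 h1
    refine ⟨(0, y), ?_⟩
    rw [B2]
    simp only [zero_dotProduct, zero_add]
    exact hy

theorem sum_B2 (w : Lab2 k) : ∑ l, sg (B2 l w) = if w = 0 then (4 ^ k : ℝ) else 0 := by
  split_ifs with h
  · subst h
    have : ∀ l : Lab2 k, sg (B2 l 0) = 1 := fun l => by
      rw [B2_zero, sg2_zero]
    simp only [this, sum_const, card_univ, card_Lab2, nsmul_eq_mul, mul_one]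
    push_cast
    rfl
  · obtain ⟨t, ht⟩ := exists_B2 h
    exact sum_sg2_eq_zero (fun l => B2 l w) t _ ht fun l => by rw [B2_add']

theorem sum_dot2 (z : Fin k → ZMod 2) :
    ∑ v : Fin k → ZMod 2, sg (v ⬝ᵥ z) = if z = 0 then (2 ^ k : ℝ) else 0 := by
  split_ifs with h
  · subst h
    simp only [dotProduct_zero, sg2_zero, sum_const, card_univ, card_V2, nsmul_eq_mul, mul_one]
    push_cast
    rfl
  · obtain ⟨t, ht⟩ := exists_dot2 h
    refine sum_sg2_eq_zero (fun v => v ⬝ᵥ z) t (z ⬝ᵥ t) ht fun v => ?_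
    rw [add_dotProduct, dotProduct_comm t z]

/-- Parseval for the character sums of a set of labels. -/
theorem parseval2 (W : Finset (Lab2 k)) :
    ∑ l, (∑ w ∈ W, sg (B2 l w)) ^ 2 = (W.card : ℝ) * 4 ^ k := by
  have h1 : ∀ l : Lab2 k, (∑ w ∈ W, sg (B2 l w)) ^ 2 =
      ∑ w ∈ W, ∑ w' ∈ W, sg (B2 l (w + w')) := fun l => by
    rw [sq, sum_mul_sum]
    refine sum_congr rfl fun w _ => sum_congr rfl fun w' _ => ?_
    rw [← sg2_add, B2_add]
  simp only [h1]
  rw [sum_comm]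
  have h3 : ∀ w ∈ W, ∑ l, ∑ w' ∈ W, sg (B2 l (w + w')) = (4 ^ k : ℝ) := fun w hw => by
    rw [sum_comm]
    have h4 : ∀ w' : Lab2 k, w + w' = 0 ↔ w = w' := fun w' => by
      rw [add_eq_zero_iff_eq_neg, l2_neg]
    simp only [sum_B2, h4]
    rw [sum_ite_eq, if_pos hw]
  rw [sum_congr rfl h3, sum_const, nsmul_eq_mul]

/-- Unlinked sets of labels. -/
def Unl2 (U : Finset (Lab2 k)) : Prop := ∀ l ∈ U, ∀ m ∈ U, Q2 (l - m) = 0

theorem Unl2.add {U : Finset (Lab2 k)} (h : Unl2 U) {l m : Lab2 k} (hl : l ∈ U) (hm : m ∈ U) :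
    Q2 (l + m) = 0 := by
  rw [← l2_sub]
  exact h l hl m hm

/-- Shift of a set of labels. -/
def sh2 (l0 : Lab2 k) (U : Finset (Lab2 k)) : Finset (Lab2 k) := U.image (· - l0)

theorem card_sh2 (l0 : Lab2 k) (U : Finset (Lab2 k)) : (sh2 l0 U).card = U.card :=
  card_image_of_injective _ sub_left_injective

theorem mem_sh2 {l0 l : Lab2 k} {U : Finset (Lab2 k)} : l ∈ sh2 l0 U ↔ l + l0 ∈ U := by
  rw [sh2, mem_image]
  constructor
  · rintro ⟨u, hu, rfl⟩
    rwa [sub_add_cancel]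
  · intro h
    exact ⟨l + l0, h, add_sub_cancel_right _ _⟩

theorem sh2_sh2 (l0 : Lab2 k) (U : Finset (Lab2 k)) : sh2 l0 (sh2 l0 U) = U := by
  ext m
  rw [mem_sh2, mem_sh2, l2_add_add]

theorem Unl_sh2 {l0 : Lab2 k} {U : Finset (Lab2 k)} (h : Unl2 U) : Unl2 (sh2 l0 U) := by
  intro l hl m hm
  rw [mem_sh2] at hl hm
  have := h _ hl _ hm
  rwa [add_sub_add_right_eq_sub] at this

theorem Unl2.Q {U : Finset (Lab2 k)} (h : Unl2 U) (h0 : 0 ∈ U) {l : Lab2 k} (hl : l ∈ U) :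
    Q2 l = 0 := by
  have := h _ hl _ h0
  rwa [sub_zero] at this

theorem Unl2.B {U : Finset (Lab2 k)} (h : Unl2 U) (h0 : 0 ∈ U) {l m : Lab2 k} (hl : l ∈ U)
    (hm : m ∈ U) : B2 l m = 0 := by
  have h1 := h.add hl hm
  rw [Q2_add, h.Q h0 hl, h.Q h0 hm, add_zero, zero_add] at h1
  exact h1

theorem sum_B2_mem {W : Finset (Lab2 k)} {l : Lab2 k} (hl : ∀ w ∈ W, B2 l w = 0) :
    ∑ w ∈ W, sg (B2 l w) = W.card := by
  rw [sum_congr rfl fun w hw => by rw [hl w hw, sg2_zero]]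
  simp

theorem card_sq_le2 {W : Finset (Lab2 k)} (h : Unl2 W) (h0 : 0 ∈ W) : W.card ^ 2 ≤ 4 ^ k := by
  have hp := parseval2 W
  have h1 : ∑ l ∈ W, (∑ w ∈ W, sg (B2 l w)) ^ 2 ≤ ∑ l, (∑ w ∈ W, sg (B2 l w)) ^ 2 :=
    sum_le_sum_of_subset_of_nonneg (subset_univ _) fun l _ _ => sq_nonneg _
  rw [hp, sum_congr rfl fun l hl => by
    rw [sum_B2_mem fun w hw => h.B h0 hl hw], sum_const,
    nsmul_eq_mul] at h1
  have hpos : (0 : ℝ) < W.card := by exact_mod_cast card_pos.2 ⟨0, h0⟩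
  have h2 := le_of_mul_le_mul_left h1 hpos
  exact_mod_cast h2

theorem two_pow_sq (k : ℕ) : (2 ^ k) ^ 2 = 4 ^ k := by
  rw [← pow_mul, mul_comm, pow_mul]; norm_num

/-- (K1) -/
theorem K1 {U : Finset (Lab2 k)} (h : Unl2 U) : U.card ≤ 2 ^ k := by
  rcases U.eq_empty_or_nonempty with rfl | ⟨l0, hl0⟩
  · simp
  · have h0 : 0 ∈ sh2 l0 U := by rw [mem_sh2, zero_add]; exact hl0
    have h1 := card_sq_le2 (Unl_sh2 (l0 := l0) h) h0
    rw [card_sh2, ← two_pow_sq] at h1
    exact (Nat.pow_le_pow_iff_left two_ne_zero).1 h1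

/-- A totally singular set of maximal size, containing `0`. -/
structure Mx2 (W : Finset (Lab2 k)) : Prop where
  unl : Unl2 W
  card : W.card = 2 ^ k
  zero : 0 ∈ W

theorem Mx2.sum_eq_zero {W : Finset (Lab2 k)} (h : Mx2 W) {l : Lab2 k} (hl : l ∉ W) :
    ∑ w ∈ W, sg (B2 l w) = 0 := by
  have hp := parseval2 W
  rw [← sum_add_sum_compl W,
    sum_congr rfl fun l hl => by
      rw [sum_B2_mem fun w hw => h.unl.B h.zero hl hw], sum_const,
    nsmul_eq_mul, h.card] at hp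
  have e : ((2 ^ k : ℕ) : ℝ) ^ 2 = 4 ^ k := by
    exact_mod_cast two_pow_sq k
  rw [e] at hp
  have hz : ∑ l ∈ Wᶜ, (∑ w ∈ W, sg (B2 l w)) ^ 2 = 0 := by linarith
  have := (sum_eq_zero_iff_of_nonneg fun l _ => sq_nonneg _).1 hz l (mem_compl.2 hl)
  exact pow_eq_zero_iff two_ne_zero |>.1 this

theorem Mx2.mem_iff {W : Finset (Lab2 k)} (h : Mx2 W) {l : Lab2 k} :
    l ∈ W ↔ ∀ w ∈ W, B2 l w = 0 := by
  constructor
  · intro hl w hw
    exact h.unl.B h.zero hl hw
  · intro hl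
    by_contra hn
    have h1 := h.sum_eq_zero hn
    rw [sum_B2_mem hl, h.card] at h1
    have : ((2 ^ k : ℕ) : ℝ) ≠ 0 := by exact_mod_cast (by positivity : (2 : ℕ) ^ k ≠ 0)
    exact this h1

theorem Mx2.sum_eq {W : Finset (Lab2 k)} (h : Mx2 W) (l : Lab2 k) :
    ∑ w ∈ W, sg (B2 l w) = if l ∈ W then (2 ^ k : ℝ) else 0 := by
  split_ifs with hl
  · rw [sum_B2_mem fun w hw => h.unl.B h.zero hl hw, h.card]
    push_cast
    rfl
  · exact h.sum_eq_zero hl

theorem Mx2.add_mem {W : Finset (Lab2 k)} (h : Mx2 W) {l m : Lab2 k} (hl : l ∈ W) (hm : m ∈ W) :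
    l + m ∈ W := by
  rw [h.mem_iff]
  intro w hw
  rw [B2_add', h.unl.B h.zero hl hw, h.unl.B h.zero hm hw, add_zero]

/-- (K2): the linking function with a label outside a maximal unlinked set is not constant. -/
theorem K2 {U : Finset (Lab2 k)} (h : Unl2 U) (hc : U.card = 2 ^ k) {x : Lab2 k} (c : ZMod 2)
    (hx : ∀ l ∈ U, Q2 (l - x) = c) : x ∈ U := by
  simp only [l2_sub] at hx
  have hne : U.Nonempty := by
    rw [← card_pos, hc]; positivity
  obtain ⟨l0, hl0⟩ := hne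
  have hW : Mx2 (sh2 l0 U) :=
    ⟨Unl_sh2 h, by rw [card_sh2, hc], by rw [mem_sh2, zero_add]; exact hl0⟩
  have h1 : x + l0 ∈ sh2 l0 U := by
    rw [hW.mem_iff]
    intro w hw
    have h2 := hx _ hl0
    have h3 := hx _ (mem_sh2.1 hw)
    have e : w + l0 + x = w + (x + l0) := by abel
    have e' : l0 + x = x + l0 := add_comm _ _
    rw [e'] at h2
    rw [e, Q2_add, h2, hW.unl.Q hW.zero hw, zero_add] at h3
    have h4 : B2 w (x + l0) = 0 := by
      have := add_eq_left.1 h3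
      exact this
    rw [B2_comm, h4]
  rw [mem_sh2, l2_add_add] at h1
  exact h1

/-! ### The number of maximal totally singular subspaces -/

/-- A totally singular subspace with `2 ^ j` elements. -/
structure Iso2 (j : ℕ) (X : Finset (Lab2 k)) : Prop where
  zero : 0 ∈ X
  add : ∀ x ∈ X, ∀ y ∈ X, x + y ∈ X
  sing : ∀ x ∈ X, Q2 x = 0
  card : X.card = 2 ^ j

theorem Iso2.B {j : ℕ} {X : Finset (Lab2 k)} (h : Iso2 j X) {x y : Lab2 k} (hx : x ∈ X)
    (hy : y ∈ X) : B2 x y = 0 := by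
  have h1 := h.sing _ (h.add x hx y hy)
  rw [Q2_add, h.sing x hx, h.sing y hy, add_zero, zero_add] at h1
  exact h1

open Classical in
/-- The maximal totally singular subspaces. -/
noncomputable def Lgs2 (k : ℕ) : Finset (Finset (Lab2 k)) := univ.filter fun W => Mx2 W

theorem mem_Lgs2 {W : Finset (Lab2 k)} : W ∈ Lgs2 k ↔ Mx2 W := by
  classical
  rw [Lgs2, mem_filter]
  exact ⟨fun h => h.2, fun h => ⟨mem_univ _, h⟩⟩

theorem Iso2.of_Lgs {W : Finset (Lab2 k)} (h : W ∈ Lgs2 k) : Iso2 k W := by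
  rw [mem_Lgs2] at h
  exact ⟨h.zero, fun x hx y hy => h.add_mem hx hy, fun x hx => h.unl.Q h.zero hx, h.card⟩

theorem Iso2.to_Lgs {W : Finset (Lab2 k)} (h : Iso2 k W) : W ∈ Lgs2 k := by
  rw [mem_Lgs2]
  refine ⟨fun l hl m hm => ?_, h.card, h.zero⟩
  rw [l2_sub]
  exact h.sing _ (h.add l hl m hm)

open Classical in
/-- The orthogonal complement. -/
noncomputable def perp2 (X : Finset (Lab2 k)) : Finset (Lab2 k) :=
  univ.filter fun l => ∀ x ∈ X, B2 l x = 0

theorem mem_perp2 {X : Finset (Lab2 k)} {l : Lab2 k} : l ∈ perp2 X ↔ ∀ x ∈ X, B2 l x = 0 := by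
  classical
  rw [perp2, mem_filter]
  exact ⟨fun h => h.2, fun h => ⟨mem_univ _, h⟩⟩

theorem Iso2.sum_char {j : ℕ} {X : Finset (Lab2 k)} (h : Iso2 j X)
    (l : Lab2 k) : ∑ x ∈ X, sg (B2 l x) = if l ∈ perp2 X then (2 ^ j : ℝ) else 0 := by
  split_ifs with hl
  · rw [mem_perp2] at hl
    rw [sum_congr rfl fun w hw => by rw [hl w hw, sg2_zero]]
    simp [h.card]
  · rw [mem_perp2] at hl
    push Not at hl
    obtain ⟨s, hs, hls⟩ := hl
    have h1 : ∑ x ∈ X, sg (B2 l x) = ∑ x ∈ X, sg (B2 l (x + s)) := by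
      refine (sum_nbij' (fun x => x + s) (fun x => x + s) ?_ ?_ ?_ ?_ ?_).symm
      · intro x hx; exact h.add x hx s hs
      · intro x hx; exact h.add x hx s hs
      · intro x _; exact l2_add_add x s
      · intro x _; exact l2_add_add x s
      · intro x _; rfl
    have h2 : ∑ x ∈ X, sg (B2 l (x + s)) = sg (B2 l s) * ∑ x ∈ X, sg (B2 l x) := by
      rw [mul_sum]
      refine sum_congr rfl fun x _ => ?_
      rw [B2_add, sg2_add, mul_comm]
    rw [z2_ne hls, sg2_one] at h2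
    linarith

theorem sum_Q2 (k : ℕ) : ∑ l : Lab2 k, sg (Q2 l) = 2 ^ k := by
  rw [Fintype.sum_prod_type_right]
  have h1 : ∀ y : Fin k → ZMod 2, ∑ x : Fin k → ZMod 2, sg (Q2 ((x, y) : Lab2 k)) =
      if y = 0 then (2 ^ k : ℝ) else 0 := fun y => sum_dot2 y
  simp only [h1, sum_ite_eq', mem_univ, if_true]

theorem Iso2.card_perp {j : ℕ} {X : Finset (Lab2 k)} (h : Iso2 j X) :
    (2 ^ j : ℝ) * (perp2 X).card = 4 ^ k := by
  have h1 : ∑ l, ∑ x ∈ X, sg (B2 l x) = (4 ^ k : ℝ) := by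
    rw [sum_comm]
    simp only [sum_B2]
    rw [sum_ite_eq', if_pos h.zero]
  simp only [h.sum_char] at h1
  rw [← sum_filter, sum_const, nsmul_eq_mul] at h1
  have h2 : univ.filter (fun l => l ∈ perp2 X) = perp2 X := by ext l; simp
  rw [h2] at h1
  linear_combination h1

theorem Iso2.sum_perp {j : ℕ} {X : Finset (Lab2 k)} (h : Iso2 j X) :
    ∑ l ∈ perp2 X, sg (Q2 l) = 2 ^ k := by
  have h1 : ∑ l, ∑ x ∈ X, sg (Q2 l) * sg (B2 l x) = (2 ^ j : ℝ) * 2 ^ k := by
    rw [sum_comm]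
    have h2 : ∀ x ∈ X, ∑ l, sg (Q2 l) * sg (B2 l x) = (2 ^ k : ℝ) := by
      intro x hx
      rw [← sum_Q2 k, ← Equiv.sum_comp (Equiv.addRight x) fun l => sg (Q2 l)]
      refine sum_congr rfl fun l _ => ?_
      rw [← sg2_add]
      congr 1
      show Q2 l + B2 l x = Q2 (l + x)
      rw [Q2_add, h.sing x hx, add_zero]
    rw [sum_congr rfl h2, sum_const, nsmul_eq_mul, h.card]
    push_cast
    rfl
  have h3 : ∑ l, ∑ x ∈ X, sg (Q2 l) * sg (B2 l x) = 2 ^ j * ∑ l ∈ perp2 X, sg (Q2 l) := by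
    simp only [← mul_sum, h.sum_char]
    have e : ∑ l ∈ perp2 X, (2 : ℝ) ^ j * sg (Q2 l) =
        ∑ l, if l ∈ perp2 X then (2 : ℝ) ^ j * sg (Q2 l) else 0 := by
      rw [← sum_filter]
      congr 1
      ext l
      simp
    rw [mul_sum, e]
    refine sum_congr rfl fun l _ => ?_
    split_ifs <;> ring
  have h4 : (2 : ℝ) ^ j ≠ 0 := pow_ne_zero _ (by norm_num)
  exact mul_left_cancel₀ h4 (h3.symm.trans h1)

open Classical in
/-- The singular vectors orthogonal to `X` and outside `X`. -/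
noncomputable def nw2 (X : Finset (Lab2 k)) : Finset (Lab2 k) :=
  (perp2 X).filter fun l => Q2 l = 0 ∧ l ∉ X

theorem sg_half (x : ZMod 2) : (1 + sg x) = if x = 0 then (2 : ℝ) else 0 := by
  rcases z2 x with rfl | rfl
  · rw [sg2_zero, if_pos rfl]; norm_num
  · rw [sg2_one, if_neg one_ne_zero]; norm_num

theorem Iso2.card_nw {j : ℕ} {X : Finset (Lab2 k)} (h : Iso2 j X) :
    2 ^ j * (2 * ((nw2 X).card + 2 ^ j)) = 4 ^ k + 2 ^ j * 2 ^ k := by
  classical
  have h1 : ((perp2 X).filter fun l => Q2 l = 0).card = (nw2 X).card + 2 ^ j := by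
    have hX : X ⊆ (perp2 X).filter fun l => Q2 l = 0 := by
      intro x hx
      rw [mem_filter, mem_perp2]
      exact ⟨fun y hy => h.B hx hy, h.sing x hx⟩
    have e : nw2 X = ((perp2 X).filter fun l => Q2 l = 0) \ X := by
      ext l
      rw [nw2, mem_filter, mem_sdiff, mem_filter]
      tauto
    rw [e, card_sdiff_of_subset hX, h.card]
    have := card_le_card hX
    rw [h.card] at this
    omega
  have h2 : ∑ l ∈ perp2 X, (1 + sg (Q2 l)) =
      2 * (((perp2 X).filter fun l => Q2 l = 0).card : ℝ) := by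
    simp only [sg_half]
    rw [← sum_filter, sum_const, nsmul_eq_mul, mul_comm]
  have h3 : ∑ l ∈ perp2 X, (1 + sg (Q2 l)) = (perp2 X).card + 2 ^ k := by
    rw [sum_add_distrib, h.sum_perp, sum_const, nsmul_eq_mul, mul_one]
  rw [h2, h1] at h3
  have h4 := h.card_perp
  have h5 : (2 : ℝ) ^ j * (2 * ((nw2 X).card + 2 ^ j)) = 4 ^ k + 2 ^ j * 2 ^ k := by
    push_cast at h3
    linear_combination 2 ^ j * h3 + h4
  exact_mod_cast h5

/-- The span of `X` and `l`. -/
def sp2 (X : Finset (Lab2 k)) (l : Lab2 k) : Finset (Lab2 k) := X ∪ sh2 l X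

theorem mem_sp2 {X : Finset (Lab2 k)} {l m : Lab2 k} : m ∈ sp2 X l ↔ m ∈ X ∨ m + l ∈ X := by
  rw [sp2, mem_union, mem_sh2]

theorem Iso2.span {j : ℕ} {X : Finset (Lab2 k)} (h : Iso2 j X) {l : Lab2 k} (hl : l ∈ nw2 X) :
    Iso2 (j + 1) (sp2 X l) := by
  classical
  rw [nw2, mem_filter, mem_perp2] at hl
  obtain ⟨hl1, hl2, hl3⟩ := hl
  refine ⟨?_, ?_, ?_, ?_⟩
  · exact mem_sp2.2 (Or.inl h.zero)
  · intro x hx y hy
    rw [mem_sp2] at hx hy ⊢
    rcases hx with hx | hx <;> rcases hy with hy | hy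
    · exact Or.inl (h.add x hx y hy)
    · right
      rw [add_assoc]
      exact h.add x hx _ hy
    · right
      have e : x + y + l = x + l + y := by abel
      rw [e]
      exact h.add _ hx y hy
    · left
      have e : x + y = x + l + (y + l) := by
        rw [add_add_add_comm, l2_add_self, add_zero]
      rw [e]
      exact h.add _ hx _ hy
  · intro x hx
    rw [mem_sp2] at hx
    rcases hx with hx | hx
    · exact h.sing x hx
    · have e : x = x + l + l := (l2_add_add x l).symm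
      rw [e, Q2_add, h.sing _ hx, hl2, B2_comm, hl1 _ hx]
      rfl
  · rw [sp2, card_union_of_disjoint, card_sh2, h.card, pow_succ, mul_two]
    rw [Finset.disjoint_left]
    intro x hx hx'
    rw [mem_sh2] at hx'
    apply hl3
    have h2 := h.add x hx _ hx'
    rwa [← add_assoc, l2_add_self, zero_add] at h2

/-- The limit of the `k`-th moment. -/
def Nk2 (k : ℕ) : ℕ := ∏ i ∈ range k, (1 + 2 ^ i)

theorem Nk2_succ (k : ℕ) : Nk2 (k + 1) = Nk2 k * (1 + 2 ^ k) := by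
  rw [Nk2, prod_range_succ, Nk2]

open Classical in
/-- The number of maximal totally singular subspaces containing `X`. -/
noncomputable def NX2 (X : Finset (Lab2 k)) : ℕ := ((Lgs2 k).filter fun W => X ⊆ W).card

theorem NX2_eq (d : ℕ) : ∀ j : ℕ, j + d = k → ∀ X : Finset (Lab2 k), Iso2 j X →
    NX2 X = Nk2 d := by
  classical
  induction d with
  | zero =>
    intro j hj X hX
    rw [add_zero] at hj
    subst hj
    have : (Lgs2 j).filter (fun W => X ⊆ W) = {X} := by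
      ext W
      rw [mem_filter, mem_singleton]
      constructor
      · rintro ⟨hW, hXW⟩
        refine (eq_of_subset_of_card_le hXW ?_).symm
        rw [hX.card, (Iso2.of_Lgs hW).card]
      · rintro rfl
        exact ⟨hX.to_Lgs, Subset.refl _⟩
    rw [NX2, this, card_singleton]
    simp [Nk2]
  | succ d ih =>
    intro j hj X hX
    have h1 : ∑ W ∈ (Lgs2 k).filter (fun W => X ⊆ W), ∑ l ∈ W \ X, 1 =
        ∑ l ∈ nw2 X, ∑ W ∈ (Lgs2 k).filter (fun W => sp2 X l ⊆ W), 1 := by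
      refine sum_comm' ?_
      intro W l
      rw [mem_filter, mem_filter, mem_sdiff]
      constructor
      · rintro ⟨⟨hW, hXW⟩, hlW, hlX⟩
        have hI := Iso2.of_Lgs hW
        refine ⟨⟨hW, ?_⟩, ?_⟩
        · intro m hm
          rw [mem_sp2] at hm
          rcases hm with hm | hm
          · exact hXW hm
          · have h5 := hI.add _ (hXW hm) _ hlW
            rwa [l2_add_add] at h5
        · rw [nw2, mem_filter, mem_perp2]
          exact ⟨fun x hx => hI.B hlW (hXW hx), hI.sing l hlW, hlX⟩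
      · rintro ⟨⟨hW, hsW⟩, hl⟩
        refine ⟨⟨hW, ?_⟩, ?_, ?_⟩
        · intro x hx
          exact hsW (mem_sp2.2 (Or.inl hx))
        · exact hsW (mem_sp2.2 (Or.inr (by rw [l2_add_self]; exact hX.zero)))
        · rw [nw2, mem_filter] at hl
          exact hl.2.2
    have h2 : ∀ W ∈ (Lgs2 k).filter (fun W => X ⊆ W), ∑ l ∈ W \ X, 1 = 2 ^ k - 2 ^ j := by
      intro W hW
      rw [mem_filter] at hW
      rw [sum_const, smul_eq_mul, mul_one, card_sdiff_of_subset hW.2, hX.card,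
        (Iso2.of_Lgs hW.1).card]
    have h3 : ∀ l ∈ nw2 X, ∑ W ∈ (Lgs2 k).filter (fun W => sp2 X l ⊆ W), 1 = Nk2 d := by
      intro l hl
      rw [sum_const, smul_eq_mul, mul_one]
      exact ih (j + 1) (by omega) (sp2 X l) (hX.span hl)
    rw [sum_congr rfl h2, sum_congr rfl h3, sum_const, sum_const, smul_eq_mul, smul_eq_mul] at h1
    have h4 := hX.card_nw
    have h5 : NX2 X * (2 ^ k - 2 ^ j) = (nw2 X).card * Nk2 d := h1
    have hle : (2 : ℕ) ^ j ≤ 2 ^ k := Nat.pow_le_pow_right (by norm_num) (by omega)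
    have h6 : (NX2 X : ℝ) * (2 ^ k - 2 ^ j) = (nw2 X).card * Nk2 d := by
      have := congrArg (fun n : ℕ => (n : ℝ)) h5
      push_cast [Nat.cast_sub hle] at this
      exact this
    have h4' : (2 : ℝ) ^ j * (2 * ((nw2 X).card + 2 ^ j)) = 4 ^ k + 2 ^ j * 2 ^ k := by
      exact_mod_cast h4
    have h16 : (4 : ℝ) ^ k = 2 ^ k * 2 ^ k := by rw [← mul_pow]; norm_num
    have hkr : (2 : ℝ) ^ k = 2 ^ j * 2 ^ (d + 1) := by rw [← pow_add, hj]
    have hb : (0 : ℝ) < 2 ^ j := by positivity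
    have ha : (1 : ℝ) < 2 ^ (d + 1) := one_lt_pow₀ (by norm_num) (by omega)
    rw [h16, hkr] at h4'
    rw [hkr] at h6
    have h2d : (2 : ℝ) ^ (d + 1) = 2 * 2 ^ d := pow_succ' _ _
    set a : ℝ := 2 ^ (d + 1) with hadef
    set b : ℝ := 2 ^ j with hbdef
    have h7 : (2 : ℝ) * (nw2 X).card = b * ((a - 1) * (a + 2)) := by
      have : b * (2 * (nw2 X).card) = b * (b * ((a - 1) * (a + 2))) := by
        linear_combination h4'
      exact mul_left_cancel₀ hb.ne' this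
    have h8 : b * (a - 1) * (2 * (NX2 X : ℝ)) = b * (a - 1) * ((a + 2) * Nk2 d) := by
      linear_combination 2 * h6 + Nk2 d * h7
    have h9 : (2 : ℝ) * NX2 X = (a + 2) * Nk2 d := by
      have hne : b * (a - 1) ≠ 0 := by
        have : 0 < b * (a - 1) := mul_pos hb (by linarith)
        exact this.ne'
      exact mul_left_cancel₀ hne h8
    rw [h2d] at h9
    have h10 : (NX2 X : ℝ) = (Nk2 (d + 1) : ℕ) := by
      rw [Nk2_succ]
      push_cast
      linarith
    exact_mod_cast h10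

/-- The number of maximal totally singular subspaces. -/
theorem card_Lgs2 (k : ℕ) : (Lgs2 k).card = Nk2 k := by
  classical
  have h0 : Iso2 0 ({0} : Finset (Lab2 k)) := by
    refine ⟨mem_singleton_self _, ?_, ?_, by simp⟩
    · intro x hx y hy
      rw [mem_singleton] at hx hy ⊢
      rw [hx, hy, add_zero]
    · intro x hx
      rw [mem_singleton] at hx
      rw [hx, Q2_zero]
  rw [← NX2_eq k 0 (by omega) {0} h0, NX2]
  congr 1
  ext W
  rw [mem_filter, singleton_subset_iff]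
  constructor
  · intro h
    exact ⟨h, (Iso2.of_Lgs h).zero⟩
  · intro h
    exact h.1

end Pool.Agent.Lib.MP_1a91b9_ntQ.Da
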